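import Pool.Agent.Helper41.PS.Defs

/-!
# Poincaré type inequalities on discs of the plane
-/

open MeasureTheory Set Filter Topology Metric
open scoped ContDiff ENNReal NNReal

namespace Pool.Agent.Helper41.PS

lemma lintegral_smul_E2 (F : E2 → ℝ≥0∞) (hF : Measurable F) {t : ℝ} (ht : 0 < t) :
    ∫⁻ y, F (t • y) = ENNReal.ofReal ((t ^ 2)⁻¹) * ∫⁻ y, F y := by
  have h1 : ∫⁻ y, F (t • y) = ∫⁻ y, F y ∂(Measure.map (fun y : E2 => t • y) volume) := by
    rw [lintegral_map hF (measurable_const_smul t)]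
  rw [h1, Measure.map_addHaar_smul volume ht.ne', lintegral_smul_measure]
  simp only [finrank_euclideanSpace, Fintype.card_fin, smul_eq_mul]
  rw [abs_of_pos (by positivity)]

lemma lintegral_homothety_E2 (F : E2 → ℝ≥0∞) (hF : Measurable F) {t : ℝ} (ht : 0 < t) (x : E2) :
    ∫⁻ y, F (x + t • (y - x)) = ENNReal.ofReal ((t ^ 2)⁻¹) * ∫⁻ y, F y := by
  have h1 : ∫⁻ y, F (x + t • (y - x)) = ∫⁻ y, F (x + t • y) :=
    lintegral_sub_right_eq_self (fun y => F (x + t • y)) x
  have h2 := lintegral_smul_E2 (fun y => F (x + y)) (hF.comp (measurable_const_add x)) ht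
  rw [h1, h2]
  congr 1
  exact lintegral_add_left_eq_self F x

lemma ftc_segment (f : E2 → ℝ) (hf : ContDiff ℝ 1 f) (x y : E2) :
    ‖f x - f y‖ₑ ≤ ∫⁻ t in Ioo (0 : ℝ) 1, ‖fderiv ℝ f (x + t • (y - x))‖ₑ * ‖y - x‖ₑ := by
  have hd : ∀ t : ℝ, HasDerivAt (fun t : ℝ => f (x + t • (y - x)))
      (fderiv ℝ f (x + t • (y - x)) (y - x)) t := by
    intro t
    have h1 : HasDerivAt (fun t : ℝ => x + t • (y - x)) (y - x) t := by
      simpa using ((hasDerivAt_id t).smul_const (y - x)).const_add x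
    exact ((hf.differentiable (by simp)) _).hasFDerivAt.comp_hasDerivAt t h1
  have hc : Continuous (fun t : ℝ => fderiv ℝ f (x + t • (y - x)) (y - x)) := by
    have := hf.continuous_fderiv (by simp)
    fun_prop
  have h1 : ∫ t in (0 : ℝ)..1, fderiv ℝ f (x + t • (y - x)) (y - x) = f y - f x := by
    rw [intervalIntegral.integral_eq_sub_of_hasDerivAt (fun t _ => hd t)
      (hc.intervalIntegrable _ _)]
    simp
  have h2 : ‖f x - f y‖ₑ = ‖∫ t in (0 : ℝ)..1, fderiv ℝ f (x + t • (y - x)) (y - x)‖ₑ := by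
    rw [h1, ← enorm_neg]
    congr 1
    ring
  rw [h2, intervalIntegral.integral_of_le zero_le_one]
  refine (enorm_integral_le_lintegral_enorm _).trans ?_
  rw [restrict_Ioo_eq_restrict_Ioc]
  refine lintegral_mono (fun t => ?_)
  exact (fderiv ℝ f (x + t • (y - x))).le_opENorm (y - x)

lemma lintegral_cube {b : ℝ} (hb : 0 < b) :
    ∫⁻ t in Ioi b, ENNReal.ofReal ((t ^ 3)⁻¹) ≤ ENNReal.ofReal (1 / (2 * b ^ 2)) := by
  have h1 : ∀ t ∈ Ioi b, (t ^ 3)⁻¹ = t ^ (-3 : ℝ) := by
    intro t ht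
    have : 0 < t := lt_trans hb ht
    rw [Real.rpow_neg this.le]
    norm_cast
  have h2 : ∫ t in Ioi b, (t ^ 3)⁻¹ = 1 / (2 * b ^ 2) := by
    rw [setIntegral_congr_fun measurableSet_Ioi h1, integral_Ioi_rpow_of_lt (by norm_num) hb]
    have : b ^ ((-3 : ℝ) + 1) = (b ^ 2)⁻¹ := by
      rw [show ((-3 : ℝ) + 1) = -2 by norm_num, Real.rpow_neg hb.le]
      norm_cast
    rw [this]
    field_simp
    norm_num
  rw [← h2, ofReal_integral_eq_lintegral_ofReal]
  · have := integrableOn_Ioi_rpow_of_lt (a := -3) (by norm_num) hb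
    exact this.congr_fun (fun t ht => (h1 t ht).symm) measurableSet_Ioi
  · filter_upwards [ae_restrict_mem measurableSet_Ioi] with t ht
    have : 0 < t := lt_trans hb ht
    positivity

/-- The average of `f` over the disc of radius `r` around `x0`. -/
noncomputable def avg (f : E2 → ℝ) (x0 : E2) (r : ℝ) : ℝ :=
  (∫ y in ball x0 r, f y) / (Real.pi * r ^ 2)

lemma volume_ball_real (x : E2) {r : ℝ} (hr : 0 ≤ r) :
    volume.real (ball x r) = Real.pi * r ^ 2 := by
  have hpi := Real.pi_pos.le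
  rw [Measure.real, EuclideanSpace.volume_ball_fin_two, ENNReal.toReal_mul, ENNReal.toReal_pow,
    ENNReal.toReal_ofReal hr]
  rw [ENNReal.toReal_ofReal hpi]
  ring

lemma intOn_ball {f : E2 → ℝ} (hf : Continuous f) (x : E2) (r : ℝ) :
    IntegrableOn f (ball x r) :=
  (hf.continuousOn.integrableOn_compact (isCompact_closedBall x r)).mono_set ball_subset_closedBall

lemma potential_bound (f : E2 → ℝ) (hf : ContDiff ℝ 1 f) (x0 : E2) {r : ℝ} (hr : 0 < r) (x : E2)
    (hx : x ∈ ball x0 r) :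
    ‖f x - avg f x0 r‖ₑ
      ≤ ENNReal.ofReal (2 / Real.pi) * ∫⁻ z in ball x0 r, ‖fderiv ℝ f z‖ₑ * (‖z - x‖ₑ)⁻¹ := by
  have hpi := Real.pi_pos
  have hfc : Continuous f := hf.continuous
  have hdc : Continuous (fun z => fderiv ℝ f z) := hf.continuous_fderiv (by simp)
  -- step 1
  have s1 : ENNReal.ofReal (Real.pi * r ^ 2) * ‖f x - avg f x0 r‖ₑ
      ≤ ∫⁻ y in ball x0 r, ‖f x - f y‖ₑ := by
    have e1 : ∫ y in ball x0 r, (f x - f y) = (Real.pi * r ^ 2) * (f x - avg f x0 r) := by
      rw [integral_sub (intOn_ball continuous_const x0 r) (intOn_ball hfc x0 r), setIntegral_const,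
        volume_ball_real x0 hr.le, smul_eq_mul, avg]
      field_simp
    have e2 := enorm_integral_le_lintegral_enorm (μ := volume.restrict (ball x0 r))
      (fun y => f x - f y)
    rw [e1, enorm_mul] at e2
    rwa [← Real.enorm_of_nonneg (by positivity : 0 ≤ Real.pi * r ^ 2)]
  -- step 2
  have s2 : ∫⁻ y in ball x0 r, ‖f x - f y‖ₑ
      ≤ ∫⁻ y in ball x0 r, ∫⁻ t in Ioo (0 : ℝ) 1,
          ‖fderiv ℝ f (x + t • (y - x))‖ₑ * ‖y - x‖ₑ :=
    lintegral_mono (fun y => ftc_segment f hf x y)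
  have s3 : ∫⁻ y in ball x0 r, ∫⁻ t in Ioo (0 : ℝ) 1,
          ‖fderiv ℝ f (x + t • (y - x))‖ₑ * ‖y - x‖ₑ
      = ∫⁻ t in Ioo (0 : ℝ) 1, ∫⁻ y in ball x0 r,
          ‖fderiv ℝ f (x + t • (y - x))‖ₑ * ‖y - x‖ₑ := by
    apply lintegral_lintegral_swap
    apply Measurable.aemeasurable
    have : Continuous (fun p : E2 × ℝ => fderiv ℝ f (p.1 |> fun y => x + p.2 • (y - x))) := by
      fun_prop
    have h2 : Measurable (fun p : E2 × ℝ => ‖fderiv ℝ f (x + p.2 • (p.1 - x))‖ₑ) :=
      (this.measurable).enorm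
    have h3 : Measurable (fun p : E2 × ℝ => ‖p.1 - x‖ₑ) := by fun_prop
    exact h2.mul h3
  -- step 4
  set G : ℝ → E2 → ℝ≥0∞ := fun t z => (ball x0 r ∩ ball x (2 * r * t)).indicator
    (fun z => ENNReal.ofReal ((t ^ 3)⁻¹) * (‖fderiv ℝ f z‖ₑ * ‖z - x‖ₑ)) z with hG
  have s4 : ∀ t ∈ Ioo (0 : ℝ) 1, ∫⁻ y in ball x0 r,
          ‖fderiv ℝ f (x + t • (y - x))‖ₑ * ‖y - x‖ₑ ≤ ∫⁻ z, G t z := by
    intro t ht
    have ht0 : 0 < t := ht.1
    have m1 : Measurable (fun z : E2 => (ball x0 r ∩ ball x (2 * r * t)).indicator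
        (fun z => ENNReal.ofReal (t⁻¹) * (‖fderiv ℝ f z‖ₑ * ‖z - x‖ₑ)) z) := by
      apply Measurable.indicator _ (measurableSet_ball.inter measurableSet_ball)
      apply Measurable.const_mul
      exact (hdc.measurable.enorm).mul (by fun_prop)
    have e1 := lintegral_homothety_E2 _ m1 ht0 x
    have e2 : ∫⁻ z, G t z = ENNReal.ofReal ((t ^ 2)⁻¹) * ∫⁻ z, (ball x0 r ∩ ball x (2 * r * t)).indicator
        (fun z => ENNReal.ofReal (t⁻¹) * (‖fderiv ℝ f z‖ₑ * ‖z - x‖ₑ)) z := by
      rw [← lintegral_const_mul _ m1]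
      refine lintegral_congr (fun z => ?_)
      by_cases hz : z ∈ ball x0 r ∩ ball x (2 * r * t)
      · simp only [hG, indicator_of_mem hz]
        have e5 : ENNReal.ofReal ((t ^ 3)⁻¹) = ENNReal.ofReal ((t ^ 2)⁻¹) * ENNReal.ofReal (t⁻¹) := by
          rw [← ENNReal.ofReal_mul (by positivity), ← mul_inv]
          congr 1
        rw [e5]
        ring
      · simp only [hG, indicator_of_notMem hz, mul_zero]
    rw [e2, ← e1, ← lintegral_indicator measurableSet_ball]
    refine lintegral_mono (fun y => ?_)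
    by_cases hy : y ∈ ball x0 r
    · rw [indicator_of_mem hy]
      have hz : x + t • (y - x) ∈ ball x0 r ∩ ball x (2 * r * t) := by
        constructor
        · have := (convex_ball x0 r) hx hy (by linarith [ht.2] : 0 ≤ 1 - t) ht0.le (by ring)
          convert this using 1
          module
        · rw [mem_ball, dist_eq_norm]
          have : x + t • (y - x) - x = t • (y - x) := by abel
          rw [this, norm_smul, Real.norm_of_nonneg ht0.le]
          have h1 : ‖y - x‖ < 2 * r := by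
            calc ‖y - x‖ = dist y x := (dist_eq_norm _ _).symm
              _ ≤ dist y x0 + dist x0 x := dist_triangle _ _ _
              _ < r + r := by
                  have := mem_ball.mp hy
                  have h2 := mem_ball.mp hx
                  rw [dist_comm x0 x]
                  linarith
              _ = 2 * r := by ring
          nlinarith
      rw [indicator_of_mem hz]
      have : x + t • (y - x) - x = t • (y - x) := by abel
      rw [this, enorm_smul, Real.enorm_of_nonneg ht0.le]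
      have h5 : ENNReal.ofReal t⁻¹ * (‖fderiv ℝ f (x + t • (y - x))‖ₑ * (ENNReal.ofReal t * ‖y - x‖ₑ))
          = (ENNReal.ofReal t⁻¹ * ENNReal.ofReal t) * (‖fderiv ℝ f (x + t • (y - x))‖ₑ * ‖y - x‖ₑ) := by
        ring
      rw [h5, ← ENNReal.ofReal_mul (by positivity), inv_mul_cancel₀ ht0.ne', ENNReal.ofReal_one,
        one_mul]
    · rw [indicator_of_notMem hy]
      exact zero_le
  have s5 : ∫⁻ t in Ioo (0 : ℝ) 1, ∫⁻ y in ball x0 r,
          ‖fderiv ℝ f (x + t • (y - x))‖ₑ * ‖y - x‖ₑ ≤ ∫⁻ t in Ioo (0 : ℝ) 1, ∫⁻ z, G t z := by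
    refine lintegral_mono_ae ?_
    filter_upwards [ae_restrict_mem measurableSet_Ioo] with t ht
    exact s4 t ht
  have s6 : ∫⁻ t in Ioo (0 : ℝ) 1, ∫⁻ z, G t z = ∫⁻ z, ∫⁻ t in Ioo (0 : ℝ) 1, G t z := by
    apply lintegral_lintegral_swap
    apply Measurable.aemeasurable
    have hs : MeasurableSet {p : ℝ × E2 | p.2 ∈ ball x0 r ∩ ball x (2 * r * p.1)} := by
      apply MeasurableSet.inter
      · exact measurable_snd measurableSet_ball
      · exact measurableSet_lt (by fun_prop) (by fun_prop)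
    have : Function.uncurry G = ({p : ℝ × E2 | p.2 ∈ ball x0 r ∩ ball x (2 * r * p.1)}).indicator
        (fun p => ENNReal.ofReal ((p.1 ^ 3)⁻¹) * (‖fderiv ℝ f p.2‖ₑ * ‖p.2 - x‖ₑ)) := by
      ext ⟨t, z⟩
      simp only [Function.uncurry, hG, indicator, mem_ofPred_eq]
    rw [this]
    apply Measurable.indicator _ hs
    have q1 : Measurable (fun p : ℝ × E2 => ENNReal.ofReal ((p.1 ^ 3)⁻¹)) := by fun_prop
    have q2 : Measurable (fun p : ℝ × E2 => ‖fderiv ℝ f p.2‖ₑ) :=
      (hdc.measurable.comp measurable_snd).enorm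
    have q3 : Measurable (fun p : ℝ × E2 => ‖p.2 - x‖ₑ) := by fun_prop
    exact q1.mul (q2.mul q3)
  have s7 : ∀ z, z ≠ x → ∫⁻ t in Ioo (0 : ℝ) 1, G t z
      ≤ (ball x0 r).indicator (fun z => ENNReal.ofReal (2 * r ^ 2) * (‖fderiv ℝ f z‖ₑ * (‖z - x‖ₑ)⁻¹)) z := by
    intro z hzx
    by_cases hz : z ∈ ball x0 r
    · rw [indicator_of_mem hz]
      have hn : 0 < ‖z - x‖ := norm_pos_iff.mpr (sub_ne_zero.mpr hzx)
      set b := ‖z - x‖ / (2 * r) with hb
      have hb0 : 0 < b := by positivity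
      have e1 : ∫⁻ t in Ioo (0 : ℝ) 1, G t z ≤ ∫⁻ t in Ioi b, ENNReal.ofReal ((t ^ 3)⁻¹) *
          (‖fderiv ℝ f z‖ₑ * ‖z - x‖ₑ) := by
        rw [← lintegral_indicator measurableSet_Ioo, ← lintegral_indicator measurableSet_Ioi]
        refine lintegral_mono (fun t => ?_)
        by_cases ht : t ∈ Ioo (0 : ℝ) 1
        · rw [indicator_of_mem ht]
          by_cases hzt : z ∈ ball x0 r ∩ ball x (2 * r * t)
          · simp only [hG, indicator_of_mem hzt]
            have : t ∈ Ioi b := by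
              have h1 := hzt.2
              rw [mem_ball, dist_eq_norm] at h1
              rw [mem_Ioi, hb, div_lt_iff₀ (by positivity)]
              linarith
            rw [indicator_of_mem this]
          · simp only [hG, indicator_of_notMem hzt]
            exact zero_le
        · rw [indicator_of_notMem ht]
          exact zero_le
      refine e1.trans ?_
      rw [lintegral_mul_const _ (by fun_prop)]
      refine (mul_le_mul_left (lintegral_cube hb0) _).trans (le_of_eq ?_)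
      have e3 : 1 / (2 * b ^ 2) = 2 * r ^ 2 * (‖z - x‖⁻¹ * ‖z - x‖⁻¹) := by
        rw [hb]
        field_simp
        try norm_num
      have e4 : ENNReal.ofReal (2 * r ^ 2 * (‖z - x‖⁻¹ * ‖z - x‖⁻¹))
          = ENNReal.ofReal (2 * r ^ 2) * (‖z - x‖ₑ⁻¹ * ‖z - x‖ₑ⁻¹) := by
        rw [ENNReal.ofReal_mul (p := 2 * r ^ 2) (by positivity),
          ENNReal.ofReal_mul (p := ‖z - x‖⁻¹) (by positivity),
          ENNReal.ofReal_inv_of_pos hn, ofReal_norm]
      rw [e3, e4]
      have hne : ‖z - x‖ₑ ≠ 0 := by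
        rw [Ne, enorm_eq_zero]
        exact sub_ne_zero.mpr hzx
      have hnt : ‖z - x‖ₑ ≠ ⊤ := enorm_ne_top
      calc ENNReal.ofReal (2 * r ^ 2) * (‖z - x‖ₑ⁻¹ * ‖z - x‖ₑ⁻¹) * (‖fderiv ℝ f z‖ₑ * ‖z - x‖ₑ)
          = ENNReal.ofReal (2 * r ^ 2) * (‖fderiv ℝ f z‖ₑ * (‖z - x‖ₑ⁻¹ * (‖z - x‖ₑ⁻¹ * ‖z - x‖ₑ))) := by ring
        _ = _ := by rw [ENNReal.inv_mul_cancel hne hnt, mul_one]
    · rw [indicator_of_notMem hz]
      have : ∀ t, G t z = 0 := by
        intro t
        simp only [hG]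
        apply indicator_of_notMem
        exact fun h => hz h.1
      simp [this]
  have s8 : ∫⁻ z, ∫⁻ t in Ioo (0 : ℝ) 1, G t z
      ≤ ENNReal.ofReal (2 * r ^ 2) * ∫⁻ z in ball x0 r, (‖fderiv ℝ f z‖ₑ * (‖z - x‖ₑ)⁻¹) := by
    have q1 : Measurable (fun z : E2 => ‖fderiv ℝ f z‖ₑ * (‖z - x‖ₑ)⁻¹) :=
      (hdc.measurable.enorm).mul (by fun_prop)
    rw [← lintegral_const_mul _ q1, ← lintegral_indicator measurableSet_ball]
    refine lintegral_mono_ae ?_
    have : ∀ᵐ z ∂(volume : Measure E2), z ≠ x := by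
      have := measure_singleton (μ := (volume : Measure E2)) x
      exact compl_mem_ae_iff.mpr this
    filter_upwards [this] with z hz
    exact s7 z hz
  have fin : ENNReal.ofReal (Real.pi * r ^ 2) * ‖f x - avg f x0 r‖ₑ
      ≤ ENNReal.ofReal (2 * r ^ 2) * ∫⁻ z in ball x0 r, (‖fderiv ℝ f z‖ₑ * (‖z - x‖ₑ)⁻¹) :=
    s1.trans (s2.trans (s3.le.trans (s5.trans (s6.le.trans s8))))
  have h0 : ENNReal.ofReal (Real.pi * r ^ 2) ≠ 0 := by
    rw [Ne, ENNReal.ofReal_eq_zero, not_le]
    positivity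
  have h9 : ENNReal.ofReal (2 * r ^ 2) = ENNReal.ofReal (Real.pi * r ^ 2) * ENNReal.ofReal (2 / Real.pi) := by
    rw [← ENNReal.ofReal_mul (by positivity)]
    congr 1
    field_simp
  rw [h9, mul_assoc] at fin
  exact (ENNReal.mul_le_mul_iff_right h0 ENNReal.ofReal_ne_top).mp fin

lemma integral_inv_norm_ball {R : ℝ} (hR : 0 < R) :
    IntegrableOn (fun x : E2 => ‖x‖⁻¹) (ball 0 R) ∧
      ∫ x in ball (0 : E2) R, ‖x‖⁻¹ = 2 * Real.pi * R := by
  have h1 : IntegrableOn (fun x : E2 => ‖x‖⁻¹) (ball 0 R) := by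
    have := (integrableOn_fun_norm_addHaar (volume : Measure E2) (f := fun y : ℝ => y⁻¹) (r := R)).mpr
      (by
        simp only [finrank_euclideanSpace, Fintype.card_fin, smul_eq_mul]
        have : IntegrableOn (fun _ : ℝ => (1 : ℝ)) (Ioo 0 R) :=
          (continuous_const.integrableOn_Icc (a := (0 : ℝ)) (b := R)).mono_set Ioo_subset_Icc_self
        refine this.congr_fun (fun y hy => ?_) measurableSet_Ioo
        have : y ≠ 0 := hy.1.ne'
        simp [this])
    exact this
  refine ⟨h1, ?_⟩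
  have h2 : ∫ x in ball (0 : E2) R, ‖x‖⁻¹ = ∫ x : E2, (Iio R).indicator (fun y : ℝ => y⁻¹) ‖x‖ := by
    rw [← integral_indicator measurableSet_ball]
    refine integral_congr_ae (Eventually.of_forall (fun x => ?_))
    simp [indicator]
  rw [h2, integral_fun_norm_addHaar]
  simp only [finrank_euclideanSpace, Fintype.card_fin, smul_eq_mul, nsmul_eq_mul]
  rw [volume_ball_real 0 zero_le_one]
  have h3 : ∫ y in Ioi (0 : ℝ), y ^ (2 - 1) * (Iio R).indicator (fun y : ℝ => y⁻¹) y = R := by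
    have : ∀ y ∈ Ioi (0 : ℝ), y ^ (2 - 1) * (Iio R).indicator (fun y : ℝ => y⁻¹) y
        = (Ioo 0 R).indicator (fun _ => (1 : ℝ)) y := by
      intro y hy
      have hy0 : (0 : ℝ) < y := hy
      by_cases hyR : y < R
      · rw [indicator_of_mem (show y ∈ Iio R from hyR), indicator_of_mem (show y ∈ Ioo 0 R from ⟨hy0, hyR⟩)]
        simp [hy0.ne']
      · rw [indicator_of_notMem (show y ∉ Iio R from hyR), indicator_of_notMem (fun h => hyR h.2)]
        simp
    rw [setIntegral_congr_fun measurableSet_Ioi this, setIntegral_indicator measurableSet_Ioo]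
    have h4 : Ioi (0 : ℝ) ∩ Ioo 0 R = Ioo 0 R := by
      ext y
      simp only [mem_inter_iff, mem_Ioi, mem_Ioo]
      tauto
    rw [h4]
    simp [hR.le]
  rw [h3]
  push_cast
  ring

lemma lintegral_inv_norm_ball (z : E2) {R : ℝ} (hR : 0 < R) :
    ∫⁻ x in ball z R, (‖x - z‖ₑ)⁻¹ = ENNReal.ofReal (2 * Real.pi * R) := by
  obtain ⟨h1, h2⟩ := integral_inv_norm_ball hR
  have e1 : ∫⁻ x in ball z R, (‖x - z‖ₑ)⁻¹ = ∫⁻ x in ball (0 : E2) R, (‖x‖ₑ)⁻¹ := by
    rw [← lintegral_indicator measurableSet_ball, ← lintegral_indicator measurableSet_ball]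
    rw [← lintegral_sub_right_eq_self (fun x => (ball (0 : E2) R).indicator (fun x => (‖x‖ₑ)⁻¹) x) z]
    refine lintegral_congr (fun x => ?_)
    by_cases hx : x ∈ ball z R
    · have : x - z ∈ ball (0 : E2) R := by
        rw [mem_ball, dist_zero_right, ← dist_eq_norm]
        exact hx
      rw [indicator_of_mem hx, indicator_of_mem this]
    · have : x - z ∉ ball (0 : E2) R := by
        rw [mem_ball, dist_zero_right, ← dist_eq_norm]
        exact hx
      rw [indicator_of_notMem hx, indicator_of_notMem this]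
  rw [e1, ← h2, ofReal_integral_eq_lintegral_ofReal h1 (Eventually.of_forall (fun x => by positivity))]
  refine lintegral_congr_ae ?_
  have : ∀ᵐ z ∂((volume : Measure E2).restrict (ball 0 R)), z ≠ 0 := by
    apply ae_restrict_of_ae
    have := measure_singleton (μ := (volume : Measure E2)) 0
    exact compl_mem_ae_iff.mpr this
  filter_upwards [this] with x hx
  rw [ENNReal.ofReal_inv_of_pos (norm_pos_iff.mpr hx), ofReal_norm]

lemma lintegral_inv_norm_set (z : E2) {E : Set E2} {V : ℝ} (hV : 0 < V)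
    (hEV : volume E ≤ ENNReal.ofReal V) :
    ∫⁻ x in E, (‖x - z‖ₑ)⁻¹ ≤ ENNReal.ofReal (3 * √(Real.pi * V)) := by
  have hpi := Real.pi_pos
  set R := √(V / Real.pi) with hR
  have hR0 : 0 < R := Real.sqrt_pos.mpr (by positivity)
  have hR2 : R ^ 2 = V / Real.pi := Real.sq_sqrt (by positivity)
  have hRV : √(Real.pi * V) = Real.pi * R := by
    rw [show Real.pi * V = (Real.pi * R) ^ 2 by rw [mul_pow, hR2]; field_simp]
    exact Real.sqrt_sq (by positivity)
  calc ∫⁻ x in E, (‖x - z‖ₑ)⁻¹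
      ≤ ∫⁻ x in (ball z R) ∪ (E \ ball z R), (‖x - z‖ₑ)⁻¹ := by
        apply lintegral_mono_set
        intro x hx
        by_cases h : x ∈ ball z R
        · exact Or.inl h
        · exact Or.inr ⟨hx, h⟩
    _ ≤ (∫⁻ x in ball z R, (‖x - z‖ₑ)⁻¹) + ∫⁻ x in E \ ball z R, (‖x - z‖ₑ)⁻¹ :=
        lintegral_union_le _ _ _
    _ ≤ ENNReal.ofReal (2 * Real.pi * R) + ∫⁻ x in E \ ball z R, ENNReal.ofReal (R⁻¹) := by
        refine add_le_add (lintegral_inv_norm_ball z hR0).le ?_
        refine setLIntegral_mono (by fun_prop) (fun x hx => ?_)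
        have h1 : R ≤ ‖x - z‖ := by
          have := hx.2
          rw [mem_ball, dist_eq_norm, not_lt] at this
          exact this
        rw [ENNReal.ofReal_inv_of_pos hR0, ENNReal.inv_le_inv, ← ofReal_norm]
        exact ENNReal.ofReal_le_ofReal h1
    _ ≤ ENNReal.ofReal (2 * Real.pi * R) + ENNReal.ofReal (R⁻¹) * ENNReal.ofReal V := by
        refine add_le_add le_rfl ?_
        rw [setLIntegral_const]
        exact mul_le_mul_right ((measure_mono sdiff_subset).trans hEV) _
    _ = ENNReal.ofReal (3 * √(Real.pi * V)) := by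
        rw [← ENNReal.ofReal_mul (by positivity), ← ENNReal.ofReal_add (by positivity) (by positivity)]
        congr 1
        rw [hRV]
        have : R⁻¹ * V = Real.pi * R := by
          have hV2 : V = Real.pi * R ^ 2 := by rw [hR2]; field_simp
          rw [hV2]
          field_simp
        rw [this]
        ring

/-- `L¹` Poincaré inequality on discs. -/
lemma poincare_lintegral (f : E2 → ℝ) (hf : ContDiff ℝ 1 f) (x0 : E2) {r : ℝ} (hr : 0 < r)
    {E : Set E2} (hEB : E ⊆ ball x0 r) (hE : MeasurableSet E) {V : ℝ} (hV : 0 < V)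
    (hEV : volume E ≤ ENNReal.ofReal V) :
    ∫⁻ x in E, ‖f x - avg f x0 r‖ₑ
      ≤ ENNReal.ofReal (6 / Real.pi * √(Real.pi * V)) * ∫⁻ z in ball x0 r, ‖fderiv ℝ f z‖ₑ := by
  have hpi := Real.pi_pos
  have hdc : Continuous (fun z => fderiv ℝ f z) := hf.continuous_fderiv (by simp)
  have hm : Measurable (fun z : E2 => ‖fderiv ℝ f z‖ₑ) := hdc.measurable.enorm
  calc ∫⁻ x in E, ‖f x - avg f x0 r‖ₑ
      ≤ ∫⁻ x in E, ENNReal.ofReal (2 / Real.pi) *
          ∫⁻ z in ball x0 r, ‖fderiv ℝ f z‖ₑ * (‖z - x‖ₑ)⁻¹ := by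
        refine setLIntegral_mono' hE (fun x hx => ?_)
        exact potential_bound f hf x0 hr x (hEB hx)
    _ = ENNReal.ofReal (2 / Real.pi) * ∫⁻ x in E,
          ∫⁻ z in ball x0 r, ‖fderiv ℝ f z‖ₑ * (‖z - x‖ₑ)⁻¹ := by
        rw [lintegral_const_mul']
        exact ENNReal.ofReal_ne_top
    _ = ENNReal.ofReal (2 / Real.pi) * ∫⁻ z in ball x0 r,
          ∫⁻ x in E, ‖fderiv ℝ f z‖ₑ * (‖z - x‖ₑ)⁻¹ := by
        congr 1
        apply lintegral_lintegral_swap
        apply Measurable.aemeasurable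
        have q1 : Measurable (fun p : E2 × E2 => ‖fderiv ℝ f p.2‖ₑ) := hm.comp measurable_snd
        have q2 : Measurable (fun p : E2 × E2 => (‖p.2 - p.1‖ₑ)⁻¹) := by fun_prop
        exact q1.mul q2
    _ ≤ ENNReal.ofReal (2 / Real.pi) * ∫⁻ z in ball x0 r,
          ‖fderiv ℝ f z‖ₑ * ENNReal.ofReal (3 * √(Real.pi * V)) := by
        refine mul_le_mul_right (lintegral_mono (fun z => ?_)) _
        rw [lintegral_const_mul _ (by fun_prop)]
        refine mul_le_mul_right ?_ _
        have := lintegral_inv_norm_set z hV hEV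
        refine le_trans (le_of_eq ?_) this
        refine lintegral_congr (fun x => ?_)
        rw [← enorm_neg, neg_sub]
    _ = _ := by
        rw [lintegral_mul_const _ hm, mul_comm (∫⁻ z in ball x0 r, ‖fderiv ℝ f z‖ₑ), ← mul_assoc,
          ← ENNReal.ofReal_mul (by positivity)]
        congr 2
        ring

lemma poincare_ball (f : E2 → ℝ) (hf : ContDiff ℝ 1 f) (x0 : E2) {r : ℝ} (hr : 0 < r) :
    ∫ x in ball x0 r, |f x - avg f x0 r| ≤ 6 * r * ∫ z in ball x0 r, ‖fderiv ℝ f z‖ := by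
  have hpi := Real.pi_pos
  have hdc : Continuous (fun z => fderiv ℝ f z) := hf.continuous_fderiv (by simp)
  have h1 := poincare_lintegral f hf x0 hr (E := ball x0 r) Subset.rfl measurableSet_ball
    (V := Real.pi * r ^ 2) (by positivity) (by
      rw [EuclideanSpace.volume_ball_fin_two, ← ENNReal.ofReal_pow hr.le,
        ← ENNReal.ofReal_mul (by positivity)]
      apply le_of_eq
      congr 1
      ring)
  have h2 : 6 / Real.pi * √(Real.pi * (Real.pi * r ^ 2)) = 6 * r := by
    rw [show Real.pi * (Real.pi * r ^ 2) = (Real.pi * r) ^ 2 by ring, Real.sqrt_sq (by positivity)]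
    field_simp
  rw [h2] at h1
  have e1 : ENNReal.ofReal (∫ x in ball x0 r, |f x - avg f x0 r|)
      = ∫⁻ x in ball x0 r, ‖f x - avg f x0 r‖ₑ := by
    rw [ofReal_integral_eq_lintegral_ofReal]
    · refine lintegral_congr (fun x => ?_)
      rw [← Real.norm_eq_abs, ofReal_norm]
    · exact intOn_ball (by have := hf.continuous; fun_prop) _ _
    · exact Eventually.of_forall (fun x => abs_nonneg _)
  have e2 : ENNReal.ofReal (∫ z in ball x0 r, ‖fderiv ℝ f z‖)
      = ∫⁻ z in ball x0 r, ‖fderiv ℝ f z‖ₑ := by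
    rw [ofReal_integral_eq_lintegral_ofReal]
    · refine lintegral_congr (fun x => ?_)
      rw [ofReal_norm]
    · exact intOn_ball (by fun_prop) _ _
    · exact Eventually.of_forall (fun x => norm_nonneg _)
  rw [← e1, ← e2, ← ENNReal.ofReal_mul (by positivity)] at h1
  exact (ENNReal.ofReal_le_ofReal_iff (by positivity)).mp h1

/-- Weak type Poincaré inequality on discs. -/
lemma weak_poincare (f : E2 → ℝ) (hf : ContDiff ℝ 1 f) (x0 : E2) {r : ℝ} (hr : 0 < r) {t : ℝ}
    (ht : 0 < t) :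
    volume.real {x ∈ ball x0 r | t ≤ |f x - avg f x0 r|}
      ≤ 36 / Real.pi / t ^ 2 * (∫ z in ball x0 r, ‖fderiv ℝ f z‖) ^ 2 := by
  have hpi := Real.pi_pos
  have hfc := hf.continuous
  have hdc : Continuous (fun z => fderiv ℝ f z) := hf.continuous_fderiv (by simp)
  set E := {x ∈ ball x0 r | t ≤ |f x - avg f x0 r|} with hEdef
  have hEB : E ⊆ ball x0 r := fun x hx => hx.1
  have hE : MeasurableSet E := by
    have hm : Measurable (fun x => |f x - avg f x0 r|) := (hfc.sub continuous_const).abs.measurable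
    exact measurableSet_ball.inter (measurableSet_le measurable_const hm)
  set V := volume.real E with hVdef
  have hEfin : volume E ≠ ⊤ := (lt_of_le_of_lt (measure_mono hEB) measure_ball_lt_top).ne
  have hEV : volume E = ENNReal.ofReal V := (ENNReal.ofReal_toReal hEfin).symm
  by_cases hV0 : V = 0
  · rw [hV0]
    positivity
  have hV : 0 < V := lt_of_le_of_ne measureReal_nonneg (Ne.symm hV0)
  have h1 := poincare_lintegral f hf x0 hr hEB hE hV hEV.le
  have e2 : ENNReal.ofReal (∫ z in ball x0 r, ‖fderiv ℝ f z‖)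
      = ∫⁻ z in ball x0 r, ‖fderiv ℝ f z‖ₑ := by
    rw [ofReal_integral_eq_lintegral_ofReal]
    · refine lintegral_congr (fun x => ?_)
      rw [ofReal_norm]
    · exact intOn_ball (by fun_prop) _ _
    · exact Eventually.of_forall (fun x => norm_nonneg _)
  have h3 : ENNReal.ofReal (t * V) ≤ ∫⁻ x in E, ‖f x - avg f x0 r‖ₑ := by
    rw [ENNReal.ofReal_mul ht.le, ← hEV]
    calc ENNReal.ofReal t * volume E = ∫⁻ x in E, ENNReal.ofReal t := by
          rw [setLIntegral_const]
      _ ≤ _ := by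
          refine setLIntegral_mono' hE (fun x hx => ?_)
          rw [← ofReal_norm, Real.norm_eq_abs]
          exact ENNReal.ofReal_le_ofReal hx.2
  have h4 := h3.trans h1
  rw [← e2, ← ENNReal.ofReal_mul (by positivity)] at h4
  have I0 : 0 ≤ ∫ z in ball x0 r, ‖fderiv ℝ f z‖ := by positivity
  have h5 := (ENNReal.ofReal_le_ofReal_iff (by positivity)).mp h4
  set I := ∫ z in ball x0 r, ‖fderiv ℝ f z‖ with hI
  have h6 : √(Real.pi * V) ^ 2 = Real.pi * V := Real.sq_sqrt (by positivity)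
  have hs : 0 < √(Real.pi * V) := Real.sqrt_pos.mpr (by positivity)
  have h7 : t * √(Real.pi * V) ≤ 6 * I := by
    have : t * V = t * √(Real.pi * V) * √(Real.pi * V) / Real.pi := by
      rw [mul_assoc, ← sq, h6]
      field_simp
    rw [this, div_le_iff₀ hpi] at h5
    have h8 : t * √(Real.pi * V) * √(Real.pi * V) ≤ 6 * I * √(Real.pi * V) := by
      calc _ ≤ 6 / Real.pi * √(Real.pi * V) * I * Real.pi := h5
        _ = _ := by field_simp
    exact le_of_mul_le_mul_right h8 hs
  have h9 : (t * √(Real.pi * V)) ^ 2 ≤ (6 * I) ^ 2 := by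
    apply pow_le_pow_left₀ (by positivity) h7
  rw [mul_pow, h6] at h9
  rw [div_div, div_mul_eq_mul_div, le_div_iff₀ (by positivity)]
  nlinarith

/-- Relative isoperimetric inequality on discs (truncated functions). -/
lemma isoperimetric_ball (H : E2 → ℝ) (hH : ContDiff ℝ 1 H) (x0 : E2) {r : ℝ} (hr : 0 < r)
    (h0 : Real.pi * r ^ 2 / 2 ≤ volume.real {x ∈ ball x0 r | H x = 0}) :
    volume.real {x ∈ ball x0 r | 1 ≤ H x}
      ≤ 576 / Real.pi * (∫ z in ball x0 r, ‖fderiv ℝ H z‖) ^ 2 := by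
  have hpi := Real.pi_pos
  have hfc := hH.continuous
  have hdc : Continuous (fun z => fderiv ℝ H z) := hH.continuous_fderiv (by simp)
  set I := ∫ z in ball x0 r, ‖fderiv ℝ H z‖ with hI
  have I0 : 0 ≤ I := by positivity
  have hp := poincare_ball H hH x0 hr
  rw [← hI] at hp
  have hms : MeasurableSet {x ∈ ball x0 r | H x = 0} :=
    measurableSet_ball.inter (measurableSet_eq_fun hfc.measurable measurable_const)
  have hsub : {x ∈ ball x0 r | H x = 0} ⊆ ball x0 r := fun x hx => hx.1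
  have h1 : |avg H x0 r| * (Real.pi * r ^ 2 / 2) ≤ 6 * r * I := by
    calc |avg H x0 r| * (Real.pi * r ^ 2 / 2)
        ≤ |avg H x0 r| * volume.real {x ∈ ball x0 r | H x = 0} :=
          mul_le_mul_of_nonneg_left h0 (abs_nonneg _)
      _ = ∫ x in {x ∈ ball x0 r | H x = 0}, |H x - avg H x0 r| := by
          have : ∀ x ∈ {x ∈ ball x0 r | H x = 0}, |H x - avg H x0 r| = |avg H x0 r| := by
            intro x hx
            rw [hx.2, zero_sub, abs_neg]
          rw [setIntegral_congr_fun hms this, setIntegral_const, smul_eq_mul, mul_comm]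
      _ ≤ ∫ x in ball x0 r, |H x - avg H x0 r| := by
          apply setIntegral_mono_set
          · exact intOn_ball (by fun_prop) _ _
          · exact Eventually.of_forall (fun x => abs_nonneg _)
          · exact Filter.Eventually.of_forall hsub
      _ ≤ 6 * r * I := hp
  by_cases hav : |avg H x0 r| ≤ 1 / 2
  · have h2 := weak_poincare H hH x0 hr (t := 1 / 2) (by norm_num)
    rw [← hI] at h2
    have h3 : volume.real {x ∈ ball x0 r | 1 ≤ H x}
        ≤ volume.real {x ∈ ball x0 r | 1 / 2 ≤ |H x - avg H x0 r|} := by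
      apply measureReal_mono
      · intro x hx
        refine ⟨hx.1, ?_⟩
        have h4 := hx.2
        have h5 := abs_le.mp hav
        rw [le_abs]
        left
        linarith [h5.2]
      · exact (lt_of_le_of_lt (measure_mono (fun x hx => hx.1)) measure_ball_lt_top).ne
    refine h3.trans (h2.trans ?_)
    have : 36 / Real.pi / (1 / 2) ^ 2 = 144 / Real.pi := by
      field_simp
      norm_num
    rw [this]
    apply mul_le_mul_of_nonneg_right _ (by positivity)
    apply div_le_div_of_nonneg_right (by norm_num) hpi.le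
  · push Not at hav
    have h3 : volume.real {x ∈ ball x0 r | 1 ≤ H x} ≤ Real.pi * r ^ 2 := by
      rw [← volume_ball_real x0 hr.le]
      exact measureReal_mono (fun x hx => hx.1) measure_ball_lt_top.ne
    refine h3.trans ?_
    have h4 : Real.pi * r / 24 ≤ I := by
      have : 1 / 2 * (Real.pi * r ^ 2 / 2) ≤ 6 * r * I :=
        le_trans (mul_le_mul_of_nonneg_right hav.le (by positivity)) h1
      have h5 : r * (Real.pi * r / 24) ≤ r * I := by nlinarith
      exact le_of_mul_le_mul_left h5 hr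
    have h5 : (Real.pi * r / 24) ^ 2 ≤ I ^ 2 := pow_le_pow_left₀ (by positivity) h4 2
    calc Real.pi * r ^ 2 = 576 / Real.pi * (Real.pi * r / 24) ^ 2 := by
          field_simp
          norm_num
      _ ≤ _ := mul_le_mul_of_nonneg_left h5 (by positivity)

end Pool.Agent.Helper41.PS
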