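import Pool.Agent.Helper41.PS.Grad
import Pool.Agent.Helper41.PS.Poincare

/-!
# Regularised Newtonian potentials in the plane
-/

open MeasureTheory Set Filter Topology Metric
open scoped ContDiff ENNReal NNReal Convolution

namespace Pool.Agent.Helper41.PS

/-- `‖z‖² + δ²`. -/
noncomputable def dn (δ : ℝ) (z : E2) : ℝ := ‖z‖ ^ 2 + δ ^ 2

/-- Regularised Newtonian kernel. -/
noncomputable def NN (δ : ℝ) (z : E2) : ℝ := -(1 / (4 * Real.pi)) * Real.log (dn δ z)

/-- The regularised kernel `z / |z|²`. -/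
noncomputable def KK (δ : ℝ) (z : E2) : E2 := (dn δ z)⁻¹ • z

/-- The mollifier `- Δ N_δ`. -/
noncomputable def PP (δ : ℝ) (z : E2) : ℝ := δ ^ 2 / (Real.pi * (dn δ z) ^ 2)

/-- The regularised potential of the density `ψ`. -/
noncomputable def qq (δ : ℝ) (ψ : E2 → ℝ) (x : E2) : ℝ := ∫ y, ψ y * NN δ (x - y)

lemma dn_pos {δ : ℝ} (hδ : 0 < δ) (z : E2) : 0 < dn δ z := by
  unfold dn
  positivity

lemma dn_contDiff (δ : ℝ) : ContDiff ℝ ∞ (dn δ) := by
  unfold dn
  exact (contDiff_norm_sq ℝ).add contDiff_const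

lemma dn_hasFDerivAt (δ : ℝ) (z : E2) : HasFDerivAt (dn δ) ((2 : ℝ) • innerSL ℝ z) z := by
  unfold dn
  have := (hasStrictFDerivAt_norm_sq z).hasFDerivAt.add_const (δ ^ 2)
  refine this.congr_fderiv ?_
  ext v
  simp

lemma NN_contDiff {δ : ℝ} (hδ : 0 < δ) : ContDiff ℝ ∞ (NN δ) := by
  unfold NN
  exact contDiff_const.mul ((dn_contDiff δ).log (fun z => (dn_pos hδ z).ne'))

lemma NN_hasFDerivAt {δ : ℝ} (hδ : 0 < δ) (z : E2) :
    HasFDerivAt (NN δ) ((-(1 / (2 * Real.pi))) • innerSL ℝ (KK δ z)) z := by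
  unfold NN
  have h1 := ((dn_hasFDerivAt δ z).log (dn_pos hδ z).ne').const_mul (-(1 / (4 * Real.pi)))
  refine h1.congr_fderiv ?_
  ext v
  simp only [KK, smul_apply, smul_eq_mul, innerSL_apply_apply, inner_smul_left, conj_trivial]
  have := Real.pi_pos
  field_simp
  try ring

lemma grad_NN {δ : ℝ} (hδ : 0 < δ) (z : E2) :
    gradient (NN δ) z = (-(1 / (2 * Real.pi))) • KK δ z := by
  apply HasGradientAt.gradient
  rw [hasGradientAt_iff_hasFDerivAt]
  refine (NN_hasFDerivAt hδ z).congr_fderiv ?_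
  ext v
  simp [InnerProductSpace.toDual_apply_apply]

lemma KK_contDiff {δ : ℝ} (hδ : 0 < δ) : ContDiff ℝ ∞ (KK δ) := by
  unfold KK
  exact ((dn_contDiff δ).inv (fun z => (dn_pos hδ z).ne')).smul contDiff_id

lemma norm_KK_mul {δ : ℝ} (hδ : 0 < δ) (z : E2) : ‖KK δ z‖ * ‖z‖ ≤ 1 := by
  unfold KK
  have h := dn_pos hδ z
  rw [norm_smul, norm_inv, Real.norm_of_nonneg h.le]
  rw [show (dn δ z)⁻¹ * ‖z‖ * ‖z‖ = ‖z‖ ^ 2 / dn δ z by field_simp]
  rw [div_le_one h]
  unfold dn
  nlinarith [sq_nonneg δ]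

lemma norm_KK_le_inv {δ : ℝ} (hδ : 0 < δ) (z : E2) : ‖KK δ z‖ ≤ ‖z‖⁻¹ := by
  by_cases hz : z = 0
  · rw [hz]
    simp [KK]
  · have hz' : 0 < ‖z‖ := norm_pos_iff.mpr hz
    rw [← one_div, le_div_iff₀ hz']
    exact norm_KK_mul hδ z

lemma norm_KK_le {δ : ℝ} (hδ : 0 < δ) (z : E2) : ‖KK δ z‖ ≤ 1 / (2 * δ) := by
  unfold KK
  have h := dn_pos hδ z
  rw [norm_smul, norm_inv, Real.norm_of_nonneg h.le]
  rw [show (dn δ z)⁻¹ * ‖z‖ = ‖z‖ / dn δ z by field_simp]
  rw [div_le_div_iff₀ h (by positivity)]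
  unfold dn
  nlinarith [sq_nonneg (‖z‖ - δ)]

lemma qq_eq_convolution (δ : ℝ) (ψ : E2 → ℝ) :
    qq δ ψ = (ψ ⋆[ContinuousLinearMap.lsmul ℝ ℝ, volume] (NN δ)) := by
  ext x
  simp [qq, convolution]

lemma qq_contDiff {δ : ℝ} (hδ : 0 < δ) {ψ : E2 → ℝ} (hψ : ContDiff ℝ ∞ ψ)
    (hs : HasCompactSupport ψ) : ContDiff ℝ ∞ (qq δ ψ) := by
  rw [qq_eq_convolution]
  exact hs.contDiff_convolution_left (n := ⊤) _ hψ
    ((NN_contDiff hδ).continuous.locallyIntegrable)

lemma qq_grad {δ : ℝ} (hδ : 0 < δ) {ψ : E2 → ℝ} (hψ : Continuous ψ)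
    (hs : HasCompactSupport ψ) (x : E2) :
    gradient (qq δ ψ) x = (-(1 / (2 * Real.pi))) • ∫ y, ψ y • KK δ (x - y) := by
  have hpi := Real.pi_pos
  have hNc := (NN_contDiff hδ).continuous
  have hKc := (KK_contDiff hδ).continuous
  have hKd : Continuous (fun y => ψ y • KK δ (x - y)) := by fun_prop
  have hKi : Integrable (fun y => ψ y • KK δ (x - y)) :=
    hKd.integrable_of_hasCompactSupport hs.smul_right
  have hmain : HasFDerivAt (fun x => ∫ y, ψ y * NN δ (x - y))
      (∫ y, ψ y • ((-(1 / (2 * Real.pi))) • innerSL ℝ (KK δ (x - y)))) x := by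
    apply hasFDerivAt_integral_of_dominated_of_fderiv_le (𝕜 := ℝ) (s := univ)
      (F := fun x y => ψ y * NN δ (x - y))
      (F' := fun x y => ψ y • ((-(1 / (2 * Real.pi))) • innerSL ℝ (KK δ (x - y))))
      (bound := fun y => |ψ y| * (1 / (2 * Real.pi) * (1 / (2 * δ)))) univ_mem
    · refine Eventually.of_forall (fun x => ?_)
      have : Continuous (fun y => ψ y * NN δ (x - y)) := by fun_prop
      exact this.aestronglyMeasurable
    · exact integrable_cc (by fun_prop) hs.mul_right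
    · have : Continuous (fun y => ψ y • ((-(1 / (2 * Real.pi))) • innerSL ℝ (KK δ (x - y)))) := by
        fun_prop
      exact this.aestronglyMeasurable
    · refine Eventually.of_forall (fun y x _ => ?_)
      rw [norm_smul, norm_smul, innerSL_apply_norm, Real.norm_eq_abs, norm_neg,
        Real.norm_of_nonneg (by positivity)]
      have := norm_KK_le hδ (x - y)
      gcongr
    · exact (integrable_cc hψ.abs hs.abs).mul_const _
    · refine Eventually.of_forall (fun y x _ => ?_)
      have h1 : HasFDerivAt (fun x : E2 => x - y) (ContinuousLinearMap.id ℝ E2) x :=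
        (hasFDerivAt_id x).sub_const y
      have h2 := ((NN_hasFDerivAt hδ (x - y)).comp x h1).const_mul (ψ y)
      refine h2.congr_fderiv ?_
      ext v
      simp
  apply HasGradientAt.gradient
  rw [hasGradientAt_iff_hasFDerivAt]
  refine hmain.congr_fderiv ?_
  ext v
  have hint : Integrable (fun y => ψ y • ((-(1 / (2 * Real.pi))) • innerSL ℝ (KK δ (x - y)))) := by
    have hc : Continuous (fun y => ψ y • ((-(1 / (2 * Real.pi))) • innerSL ℝ (KK δ (x - y)))) := by
      fun_prop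
    exact hc.integrable_of_hasCompactSupport hs.smul_right
  rw [ContinuousLinearMap.integral_apply hint]
  rw [InnerProductSpace.toDual_apply_apply, inner_smul_left, ← real_inner_comm, ← integral_inner hKi,
    ← integral_const_mul]
  refine integral_congr_ae (Eventually.of_forall (fun y => ?_))
  simp only [smul_apply, smul_eq_mul, innerSL_apply_apply, inner_smul_right]
  rw [real_inner_comm]
  simp only [conj_trivial]
  ring

lemma hasCompactSupport_grad' {f : E2 → ℝ} (hf : HasCompactSupport f) :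
    HasCompactSupport (gradient f) := by
  have h1 : HasCompactSupport (fderiv ℝ f) := hf.fderiv ℝ
  have : gradient f = fun x => (InnerProductSpace.toDual ℝ E2).symm (fderiv ℝ f x) := rfl
  rw [this]
  exact h1.comp_left (map_zero _)

lemma PP_nonneg {δ : ℝ} (z : E2) : 0 ≤ PP δ z := by
  unfold PP
  have := Real.pi_pos
  positivity

lemma PP_continuous {δ : ℝ} (hδ : 0 < δ) : Continuous (PP δ) := by
  unfold PP
  have hpi := Real.pi_pos
  apply Continuous.div continuous_const
  · exact continuous_const.mul ((dn_contDiff δ).continuous.pow 2)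
  · intro z
    have := dn_pos hδ z
    positivity

lemma PP_neg (δ : ℝ) (z : E2) : PP δ (-z) = PP δ z := by
  simp [PP, dn]

lemma PP_scale {c : ℝ} (hc : 0 < c) (z : E2) : PP (1 / c) z = c ^ 2 * PP 1 (c • z) := by
  unfold PP dn
  rw [norm_smul, Real.norm_of_nonneg hc.le]
  have hpi := Real.pi_pos
  have h1 : 0 < ‖z‖ ^ 2 + (1 / c) ^ 2 := by positivity
  have h2 : 0 < (c * ‖z‖) ^ 2 + 1 ^ 2 := by positivity
  have h3 : (c * ‖z‖) ^ 2 + 1 ^ 2 = c ^ 2 * (‖z‖ ^ 2 + (1 / c) ^ 2) := by
    field_simp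
  rw [h3]
  field_simp

lemma integral_PP_one : ∫ z : E2, PP 1 z = 1 := by
  have hpi := Real.pi_pos
  have h1 : ∀ z : E2, PP 1 z = (fun r : ℝ => 1 / (Real.pi * (r ^ 2 + 1) ^ 2)) ‖z‖ := by
    intro z
    simp [PP, dn]
  simp_rw [h1]
  rw [integral_fun_norm_addHaar (volume : Measure E2) (fun r : ℝ => 1 / (Real.pi * (r ^ 2 + 1) ^ 2))]
  simp only [finrank_euclideanSpace, Fintype.card_fin, smul_eq_mul, nsmul_eq_mul]
  rw [volume_ball_real 0 zero_le_one]
  have hderiv : ∀ r ∈ Ioi (0 : ℝ), HasDerivAt (fun r : ℝ => -(1 / (2 * Real.pi)) * (r ^ 2 + 1)⁻¹)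
      (r ^ (2 - 1) * (1 / (Real.pi * (r ^ 2 + 1) ^ 2))) r := by
    intro r _
    have h2 : HasDerivAt (fun r : ℝ => r ^ 2 + 1) (2 * r) r := by
      simpa using (hasDerivAt_pow 2 r).add_const 1
    have h3 := (h2.inv (by positivity)).const_mul (-(1 / (2 * Real.pi)))
    refine h3.congr_deriv ?_
    field_simp
    norm_num
  have hcont : ContinuousWithinAt (fun r : ℝ => -(1 / (2 * Real.pi)) * (r ^ 2 + 1)⁻¹) (Ici 0) 0 := by
    apply Continuous.continuousWithinAt
    apply Continuous.mul continuous_const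
    apply Continuous.inv₀ (by fun_prop)
    intro x
    positivity
  have hlim : Tendsto (fun r : ℝ => -(1 / (2 * Real.pi)) * (r ^ 2 + 1)⁻¹) atTop (𝓝 0) := by
    have : Tendsto (fun r : ℝ => (r ^ 2 + 1)⁻¹) atTop (𝓝 0) := by
      apply Tendsto.inv_tendsto_atTop
      apply tendsto_atTop_add_const_right
      exact tendsto_pow_atTop (by norm_num)
    simpa using this.const_mul (-(1 / (2 * Real.pi)))
  have hint := integral_Ioi_of_hasDerivAt_of_nonneg hcont hderiv (fun r hr => by
    have : (0 : ℝ) < r := hr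
    positivity) hlim
  rw [hint]
  push_cast
  field_simp
  norm_num

lemma integrable_PP {δ : ℝ} (hδ : 0 < δ) : Integrable (PP δ : E2 → ℝ) ∧ ∫ z : E2, PP δ z = 1 := by
  have h1 : Integrable (PP 1 : E2 → ℝ) := integrable_of_integral_eq_one integral_PP_one
  have h2 : (PP δ : E2 → ℝ) = fun z => (δ⁻¹) ^ 2 * PP 1 ((δ⁻¹) • z) := by
    ext z
    have := PP_scale (inv_pos.mpr hδ) z
    rwa [one_div, inv_inv] at this
  constructor
  · rw [h2]
    exact (h1.comp_smul (inv_pos.mpr hδ).ne').const_mul _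
  · rw [h2, integral_const_mul, Measure.integral_comp_smul, finrank_euclideanSpace, Fintype.card_fin,
      integral_PP_one]
    rw [abs_of_pos (by positivity)]
    simp
    field_simp

lemma KK_apply_contDiff {δ : ℝ} (hδ : 0 < δ) (i : Fin 2) : ContDiff ℝ 1 (fun z => KK δ z i) := by
  have h1 : ContDiff ℝ 1 (KK δ) := (KK_contDiff hδ).of_le (by norm_cast)
  exact (contDiff_euclidean.mp h1) i

lemma KK_div {δ : ℝ} (hδ : 0 < δ) (z : E2) (i : Fin 2) :
    fderiv ℝ (fun z => KK δ z i) z (EuclideanSpace.single i 1)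
      = (dn δ z)⁻¹ - 2 * (z i) ^ 2 / (dn δ z) ^ 2 := by
  have h := dn_pos hδ z
  have h1 : HasFDerivAt (fun z : E2 => z i) (EuclideanSpace.proj i : E2 →L[ℝ] ℝ) z :=
    (EuclideanSpace.proj i : E2 →L[ℝ] ℝ).hasFDerivAt
  have h3 := (hasDerivAt_inv h.ne').comp_hasFDerivAt z (dn_hasFDerivAt δ z)
  have h4 := h3.mul h1
  have h5 : (fun z => KK δ z i) = fun z : E2 => (dn δ z)⁻¹ * z i := by
    ext z
    simp [KK]
  rw [h5]
  have h6 : HasFDerivAt (fun z : E2 => (dn δ z)⁻¹ * z i) _ z := h4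
  rw [h6.fderiv]
  simp only [add_apply, smul_apply, smul_eq_mul, innerSL_apply_apply, Function.comp_apply]
  rw [EuclideanSpace.inner_single_right]
  simp
  ring

lemma sum_KK_div {δ : ℝ} (hδ : 0 < δ) (z : E2) :
    ((dn δ z)⁻¹ - 2 * (z 0) ^ 2 / (dn δ z) ^ 2) + ((dn δ z)⁻¹ - 2 * (z 1) ^ 2 / (dn δ z) ^ 2)
      = 2 * Real.pi * PP δ z := by
  have h := dn_pos hδ z
  have hpi := Real.pi_pos
  have hz : ‖z‖ ^ 2 = (z 0) ^ 2 + (z 1) ^ 2 := by
    rw [EuclideanSpace.norm_sq_eq]
    simp [Fin.sum_univ_two]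
  have h2 : (z 0) ^ 2 + (z 1) ^ 2 = dn δ z - δ ^ 2 := by
    rw [dn, hz]
    ring
  unfold PP
  have h3 : ((dn δ z)⁻¹ - 2 * (z 0) ^ 2 / (dn δ z) ^ 2) + ((dn δ z)⁻¹ - 2 * (z 1) ^ 2 / (dn δ z) ^ 2)
      = 2 * (dn δ z)⁻¹ - 2 * ((z 0) ^ 2 + (z 1) ^ 2) / (dn δ z) ^ 2 := by ring
  rw [h3, h2]
  field_simp
  ring

lemma kernel_duality {δ : ℝ} (hδ : 0 < δ) {F : E2 → ℝ} (hF : ContDiff ℝ 1 F) (hs : HasCompactSupport F)
    (y : E2) : ∫ x, inner ℝ (gradient F x) (KK δ (x - y)) = -(2 * Real.pi) * ∫ x, F x * PP δ (x - y) := by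
  have hKi : ∀ i : Fin 2, ContDiff ℝ 1 (fun x : E2 => KK δ (x - y) i) := by
    intro i
    exact (KK_apply_contDiff hδ i).comp (contDiff_id.sub contDiff_const)
  have hPc := PP_continuous hδ
  have c1 : ∀ i : Fin 2, Continuous (fun z => fderiv ℝ F z (EuclideanSpace.single i 1)) := fun i =>
    (hF.continuous_fderiv (by simp)).clm_apply continuous_const
  have s1 : ∀ i : Fin 2, HasCompactSupport (fun z => fderiv ℝ F z (EuclideanSpace.single i 1)) :=
    fun i => hs.fderiv_apply (𝕜 := ℝ) _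
  have e1 : ∫ x, inner ℝ (gradient F x) (KK δ (x - y))
      = ∑ i : Fin 2, ∫ x, fderiv ℝ F x (EuclideanSpace.single i 1) * KK δ (x - y) i := by
    rw [← integral_finsetSum]
    · refine integral_congr_ae (Eventually.of_forall (fun x => ?_))
      simp only [Fin.sum_univ_two]
      rw [inner_E2, grad_apply, grad_apply]
    · intro i _
      exact integrable_cc ((c1 i).mul (hKi i).continuous) (s1 i).mul_right
  have e2 : ∀ i : Fin 2, ∫ x, fderiv ℝ F x (EuclideanSpace.single i 1) * KK δ (x - y) i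
      = - ∫ x, F x * ((dn δ (x - y))⁻¹ - 2 * ((x - y) i) ^ 2 / (dn δ (x - y)) ^ 2) := by
    intro i
    have h1 := ibp_dir (hKi i) hF hs (EuclideanSpace.single i 1)
    have h2 : ∀ x, fderiv ℝ (fun x : E2 => KK δ (x - y) i) x (EuclideanSpace.single i 1)
        = (dn δ (x - y))⁻¹ - 2 * ((x - y) i) ^ 2 / (dn δ (x - y)) ^ 2 := by
      intro x
      rw [← KK_div hδ]
      have := fderiv_comp_sub (𝕜 := ℝ) (f := fun z : E2 => KK δ z i) (x := x) y
      rw [this]
    have h3 : ∫ x, fderiv ℝ F x (EuclideanSpace.single i 1) * KK δ (x - y) i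
        = ∫ x, KK δ (x - y) i * fderiv ℝ F x (EuclideanSpace.single i 1) := by
      refine integral_congr_ae (Eventually.of_forall (fun x => ?_))
      simp only
      ring
    rw [h3, ← neg_eq_iff_eq_neg, ← h1]
    refine integral_congr_ae (Eventually.of_forall (fun x => ?_))
    simp only
    rw [h2]
    ring
  rw [e1, Fin.sum_univ_two, e2, e2]
  have hcont : ∀ i : Fin 2, Continuous (fun x : E2 => ((dn δ (x - y))⁻¹ - 2 * ((x - y) i) ^ 2 / (dn δ (x - y)) ^ 2)) := by
    intro i
    have hdc := (dn_contDiff δ).continuous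
    apply Continuous.sub
    · apply Continuous.inv₀ (by fun_prop)
      intro x
      exact (dn_pos hδ _).ne'
    · apply Continuous.div (by fun_prop) (by fun_prop)
      intro x
      have := dn_pos hδ (x - y)
      positivity
  have hint : ∀ i : Fin 2, Integrable (fun x => F x * ((dn δ (x - y))⁻¹ - 2 * ((x - y) i) ^ 2 / (dn δ (x - y)) ^ 2)) :=
    fun i => integrable_cc (hF.continuous.mul (hcont i)) hs.mul_right
  rw [← neg_add, ← integral_add (hint 0) (hint 1), neg_mul, ← integral_const_mul]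
  congr 1
  refine integral_congr_ae (Eventually.of_forall (fun x => ?_))
  simp only
  have := sum_KK_div hδ (x - y)
  calc _ = F x * (((dn δ (x - y))⁻¹ - 2 * ((x - y) 0) ^ 2 / (dn δ (x - y)) ^ 2) +
      ((dn δ (x - y))⁻¹ - 2 * ((x - y) 1) ^ 2 / (dn δ (x - y)) ^ 2)) := by ring
    _ = _ := by rw [this]; ring

lemma qq_duality {δ : ℝ} (hδ : 0 < δ) {ψ F : E2 → ℝ} (hψ : Continuous ψ) (hs : HasCompactSupport ψ)
    (hF : ContDiff ℝ 1 F) (hFs : HasCompactSupport F) :
    ∫ x, inner ℝ (gradient F x) (gradient (qq δ ψ) x) = ∫ y, ψ y * ∫ x, F x * PP δ (x - y) := by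
  have hpi := Real.pi_pos
  have hKc := (KK_contDiff hδ).continuous
  have hgF := continuous_grad hF
  have hgFs := hasCompactSupport_grad' hFs
  have e1 : ∀ x, inner ℝ (gradient F x) (gradient (qq δ ψ) x)
      = ∫ y, -(1 / (2 * Real.pi)) * (ψ y * inner ℝ (gradient F x) (KK δ (x - y))) := by
    intro x
    have hKd : Continuous (fun y => ψ y • KK δ (x - y)) := by fun_prop
    have hKi : Integrable (fun y => ψ y • KK δ (x - y)) :=
      hKd.integrable_of_hasCompactSupport hs.smul_right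
    rw [qq_grad hδ hψ hs, inner_smul_right, integral_const_mul, ← integral_inner hKi]
    congr 1
    refine integral_congr_ae (Eventually.of_forall (fun y => ?_))
    simp only [inner_smul_right]
  simp_rw [e1]
  rw [integral_integral_swap_of_hasCompactSupport]
  · refine integral_congr_ae (Eventually.of_forall (fun y => ?_))
    simp only
    rw [integral_const_mul, integral_const_mul, kernel_duality hδ hF hFs]
    field_simp
  · have h1 : Continuous (fun p : E2 × E2 => gradient F p.1) := hgF.comp continuous_fst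
    have h2 : Continuous (fun p : E2 × E2 => KK δ (p.1 - p.2)) :=
      hKc.comp (continuous_fst.sub continuous_snd)
    have h3 : Continuous (fun p : E2 × E2 => ψ p.2) := hψ.comp continuous_snd
    exact continuous_const.mul (h3.mul (h1.inner h2))
  · apply HasCompactSupport.intro (K := (tsupport (gradient F)) ×ˢ (tsupport ψ))
      (hgFs.isCompact.prod hs.isCompact)
    rintro ⟨x, y⟩ hxy
    rw [mem_prod, not_and_or] at hxy
    simp only [Function.uncurry]
    rcases hxy with h | h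
    · have : gradient F x = 0 := image_eq_zero_of_notMem_tsupport h
      rw [this, inner_zero_left, mul_zero, mul_zero]
    · have : ψ y = 0 := image_eq_zero_of_notMem_tsupport h
      rw [this, zero_mul, mul_zero]

lemma PP_cobounded : Tendsto (fun x : E2 => ‖x‖ ^ Module.finrank ℝ E2 * PP 1 x)
    (Bornology.cobounded E2) (𝓝 0) := by
  have hpi := Real.pi_pos
  have h1 : Tendsto (fun x : E2 => (‖x‖ ^ 2)⁻¹) (Bornology.cobounded E2) (𝓝 0) := by
    apply Tendsto.inv_tendsto_atTop
    exact (tendsto_pow_atTop (by norm_num)).comp tendsto_norm_cobounded_atTop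
  apply squeeze_zero' (g := fun x : E2 => (‖x‖ ^ 2)⁻¹) _ _ h1
  · refine Eventually.of_forall (fun x => ?_)
    have := PP_nonneg (δ := 1) x
    positivity
  · filter_upwards [(tendsto_norm_cobounded_atTop (E := E2)).eventually_gt_atTop 0] with x hx
    rw [finrank_euclideanSpace, Fintype.card_fin, PP, dn]
    rw [← one_div, mul_div_assoc', div_le_div_iff₀ (by positivity) (by positivity)]
    have h3 := Real.pi_gt_three
    nlinarith [sq_nonneg (‖x‖ ^ 2), sq_nonneg ‖x‖]

lemma molli_tendsto {F : E2 → ℝ} (hF : Continuous F) (hs : HasCompactSupport F) (y : E2) :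
    Tendsto (fun c : ℝ => ∫ x, F x * PP (1 / c) (x - y)) atTop (𝓝 (F y)) := by
  have h1 := tendsto_integral_comp_smul_smul_of_integrable' (μ := (volume : Measure E2))
    (φ := PP 1) (fun x => PP_nonneg x) integral_PP_one PP_cobounded (integrable_cc hF hs)
    (hF.continuousAt (x := y))
  refine h1.congr' ?_
  filter_upwards [eventually_gt_atTop 0] with c hc
  refine integral_congr_ae (Eventually.of_forall (fun x => ?_))
  simp only
  rw [finrank_euclideanSpace, Fintype.card_fin, ← PP_scale hc, smul_eq_mul, mul_comm,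
    ← PP_neg, neg_sub]

lemma molli_bound {δ : ℝ} (hδ : 0 < δ) {F : E2 → ℝ} {C : ℝ} (hC : ∀ x, |F x| ≤ C) (y : E2) :
    |∫ x, F x * PP δ (x - y)| ≤ C := by
  obtain ⟨h1, h2⟩ := integrable_PP hδ
  have h3 : Integrable (fun x : E2 => C * PP δ (x - y)) := (h1.comp_sub_right y).const_mul C
  rw [← Real.norm_eq_abs]
  refine (norm_integral_le_of_norm_le h3 (Eventually.of_forall (fun x => ?_))).trans ?_
  · rw [norm_mul, Real.norm_eq_abs, Real.norm_of_nonneg (PP_nonneg _)]
    exact mul_le_mul_of_nonneg_right (hC x) (PP_nonneg _)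
  · rw [integral_const_mul, integral_sub_right_eq_self (fun x => PP δ x) y, h2, mul_one]

lemma molli_continuous {δ : ℝ} (hδ : 0 < δ) {F : E2 → ℝ} (hF : Continuous F)
    (hs : HasCompactSupport F) : Continuous (fun y => ∫ x, F x * PP δ (x - y)) := by
  have hPc := PP_continuous hδ
  have h1 : Continuous (F ⋆[ContinuousLinearMap.lsmul ℝ ℝ, volume] (PP δ)) :=
    hs.continuous_convolution_left _ hF hPc.locallyIntegrable
  refine h1.congr (fun y => ?_)
  rw [convolution]
  refine integral_congr_ae (Eventually.of_forall (fun x => ?_))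
  simp only [ContinuousLinearMap.lsmul_apply, smul_eq_mul]
  rw [← PP_neg, neg_sub]

lemma qq_duality_tendsto {ψ F : E2 → ℝ} (hψ : Continuous ψ) (hs : HasCompactSupport ψ)
    (hF : ContDiff ℝ 1 F) (hFs : HasCompactSupport F) :
    Tendsto (fun c : ℝ => ∫ x, inner ℝ (gradient F x) (gradient (qq (1 / c) ψ) x)) atTop
      (𝓝 (∫ y, ψ y * F y)) := by
  obtain ⟨C, hC⟩ := hFs.exists_bound_of_continuous hF.continuous
  have h1 : Tendsto (fun c : ℝ => ∫ y, ψ y * ∫ x, F x * PP (1 / c) (x - y)) atTop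
      (𝓝 (∫ y, ψ y * F y)) := by
    apply tendsto_integral_filter_of_dominated_convergence (fun y => |ψ y| * C)
    · filter_upwards [eventually_gt_atTop 0] with c hc
      exact (hψ.mul (molli_continuous (one_div_pos.mpr hc) hF.continuous hFs)).aestronglyMeasurable
    · filter_upwards [eventually_gt_atTop 0] with c hc
      refine Eventually.of_forall (fun y => ?_)
      rw [norm_mul, Real.norm_eq_abs, Real.norm_eq_abs]
      exact mul_le_mul_of_nonneg_left (molli_bound (one_div_pos.mpr hc) hC y) (abs_nonneg _)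
    · exact (integrable_cc hψ.abs hs.abs).mul_const _
    · refine Eventually.of_forall (fun y => ?_)
      exact (molli_tendsto hF.continuous hFs y).const_mul _
  refine h1.congr' ?_
  filter_upwards [eventually_gt_atTop 0] with c hc
  exact (qq_duality (one_div_pos.mpr hc) hψ hs hF hFs).symm

end Pool.Agent.Helper41.PS
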