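import Pool.Agent.Helper41.PS.GradOsc
import Pool.Agent.Helper41.PS.Kernel

/-!
# Scaled cutoff functions
-/

open MeasureTheory Set Filter Topology Metric
open scoped ContDiff ENNReal NNReal Pointwise

namespace Pool.Agent.Helper41.PS

/-- The scaled cutoff: one on the disc of radius `M`, supported in radius `2M`. -/
noncomputable def chi (M : ℝ) (x : E2) : ℝ := (cut 1 one_pos) (M⁻¹ • x)

/-- The annulus carrying the derivatives of the cutoff `chi M`. -/
def ann (M : ℝ) : Set E2 := {x | M ≤ ‖x‖ ∧ ‖x‖ < 2 * M}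

lemma measurableSet_ann (M : ℝ) : MeasurableSet (ann M) :=
  (measurableSet_le measurable_const measurable_norm).inter
    (measurableSet_lt measurable_norm measurable_const)

lemma ann_subset_ball (M : ℝ) : ann M ⊆ ball (0 : E2) (2 * M) := by
  intro x hx
  rw [mem_ball, dist_zero_right]
  exact hx.2

lemma chi_one (M : ℝ) {x : E2} (hM : 0 < M) (hx : ‖x‖ ≤ M) : chi M x = 1 := by
  unfold chi
  apply (cut_facts (one_pos : (0 : ℝ) < 1)).2.2.2.2.2
  rw [mem_closedBall, dist_zero_right, norm_smul, norm_inv, Real.norm_of_nonneg hM.le]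
  rw [inv_mul_le_iff₀ hM]
  linarith

lemma chi_nonneg (M : ℝ) (x : E2) : 0 ≤ chi M x := (cut_facts (one_pos : (0 : ℝ) < 1)).2.2.2.1 _

lemma chi_le_one (M : ℝ) (x : E2) : chi M x ≤ 1 := (cut_facts (one_pos : (0 : ℝ) < 1)).2.2.2.2.1 _

lemma chi_contDiff (M : ℝ) : ContDiff ℝ ∞ (chi M) := by
  unfold chi
  exact (cut_facts (one_pos : (0 : ℝ) < 1)).1.comp (contDiff_const_smul _)

lemma chi_eq_zero {M : ℝ} (hM : 0 < M) {x : E2} (hx : 3 / 2 * M ≤ ‖x‖) : chi M x = 0 := by
  unfold chi
  apply (cut 1 one_pos).zero_of_le_dist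
  rw [dist_zero_right, norm_smul, norm_inv, Real.norm_of_nonneg hM.le]
  show 3 / 2 * 1 ≤ M⁻¹ * ‖x‖
  rw [← div_eq_inv_mul, le_div_iff₀ hM]
  linarith

lemma chi_tsupport {M : ℝ} (hM : 0 < M) : tsupport (chi M) ⊆ closedBall 0 (3 / 2 * M) := by
  apply closure_minimal _ isClosed_closedBall
  intro x hx
  rw [mem_closedBall, dist_zero_right]
  by_contra hcon
  push Not at hcon
  exact hx (chi_eq_zero hM hcon.le)

lemma chi_tsupport_ball {M : ℝ} (hM : 0 < M) : tsupport (chi M) ⊆ ball 0 (2 * M) :=
  (chi_tsupport hM).trans (closedBall_subset_ball (by linarith))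

lemma chi_compact {M : ℝ} (hM : 0 < M) : HasCompactSupport (chi M) :=
  HasCompactSupport.of_support_subset_isCompact (isCompact_closedBall 0 (3 / 2 * M))
    ((subset_tsupport _).trans (chi_tsupport hM))

lemma grad_chi (M : ℝ) (x : E2) : gradient (chi M) x = M⁻¹ • gradient (cut 1 one_pos) (M⁻¹ • x) := by
  have h : chi M = fun y => (cut 1 one_pos) ((0 : E2) + M⁻¹ • y) := by
    ext y
    simp [chi]
  rw [h, grad_affine 0 M⁻¹ x]
  · simp
  · exact ((cut_facts (one_pos : (0 : ℝ) < 1)).1.differentiable (by simp)) _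

lemma grad_chi_zero {M : ℝ} (hM : 0 < M) {x : E2} (hx : x ∉ ann M) : gradient (chi M) x = 0 := by
  by_cases h1 : ‖x‖ < M
  · have : chi M =ᶠ[𝓝 x] fun _ => 1 := by
      filter_upwards [isOpen_ball.mem_nhds (show x ∈ ball (0 : E2) M by simpa using h1)] with y hy
      apply chi_one M hM
      rw [mem_ball, dist_zero_right] at hy
      exact hy.le
    rw [gradient, this.fderiv_eq]
    simp
  · have h2 : 2 * M ≤ ‖x‖ := by
      by_contra hcon
      push Not at hcon
      exact hx ⟨not_lt.mp h1, hcon⟩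
    have : chi M =ᶠ[𝓝 x] fun _ => 0 := by
      have ho : IsOpen {y : E2 | 3 / 2 * M < ‖y‖} := isOpen_lt continuous_const continuous_norm
      filter_upwards [ho.mem_nhds (show 3 / 2 * M < ‖x‖ by linarith)] with y hy
      exact chi_eq_zero hM (le_of_lt hy)
    rw [gradient, this.fderiv_eq]
    simp

lemma exists_grad_chi_bound : ∃ G : ℝ, 0 < G ∧ ∀ M : ℝ, 0 < M → ∀ x, ‖gradient (chi M) x‖ ≤ G / M := by
  obtain ⟨hψ, hs, -⟩ := cut_facts (one_pos : (0 : ℝ) < 1)
  obtain ⟨G, hG⟩ := (hasCompactSupport_grad hs).exists_bound_of_continuous (smooth_grad_cont hψ)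
  refine ⟨max G 1, by positivity, fun M hM x => ?_⟩
  rw [grad_chi, norm_smul, norm_inv, Real.norm_of_nonneg hM.le, div_eq_inv_mul]
  exact mul_le_mul_of_nonneg_left ((hG _).trans (le_max_left _ _)) (by positivity)

/-- Version of `exists_ibp_bound` keeping track of the support of the second derivatives. -/
lemma exists_ibp_bound_set {ψ : E2 → ℝ} (hψ : ContDiff ℝ ∞ ψ) (hs : HasCompactSupport ψ) {A : Set E2}
    (hA : MeasurableSet A) {R : ℝ} (hAR : A ⊆ ball 0 R)
    (hsub : ∀ i : Fin 2, ∀ x, x ∉ A → fderiv ℝ (fun x => fderiv ℝ ψ x (EuclideanSpace.single i 1)) x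
      (EuclideanSpace.single i 1) = 0) :
    ∃ L : ℝ, 0 ≤ L ∧ ∀ S : E2 → ℝ, ContDiff ℝ 1 S →
      |∫ x, inner ℝ (gradient S x) (gradient ψ x)| ≤ L * ∫ x in A, |S x| := by
  set d : Fin 2 → E2 → ℝ := fun i x => fderiv ℝ ψ x (EuclideanSpace.single i 1) with hd
  have hdc : ∀ i, ContDiff ℝ 1 (d i) := by
    intro i
    have h1 : ContDiff ℝ 1 (fun x => fderiv ℝ ψ x) := hψ.fderiv_right (by norm_cast)
    exact h1.clm_apply contDiff_const
  have hds : ∀ i, HasCompactSupport (d i) := fun i => hs.fderiv_apply (𝕜 := ℝ) _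
  set dd : Fin 2 → E2 → ℝ := fun i x => fderiv ℝ (d i) x (EuclideanSpace.single i 1) with hdd
  have hddc : ∀ i, Continuous (dd i) := fun i =>
    ((hdc i).continuous_fderiv (by simp)).clm_apply continuous_const
  have hdds : ∀ i, HasCompactSupport (dd i) := fun i => (hds i).fderiv_apply (𝕜 := ℝ) _
  have hbd : ∀ i, ∃ C, ∀ x, ‖dd i x‖ ≤ C := fun i =>
    (hdds i).exists_bound_of_continuous (hddc i)
  choose C hC using hbd
  refine ⟨|C 0| + |C 1|, by positivity, fun S hS => ?_⟩
  have c1 : ∀ i : Fin 2, Continuous (fun z => fderiv ℝ S z (EuclideanSpace.single i 1)) := fun i =>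
    (hS.continuous_fderiv (by simp)).clm_apply continuous_const
  have e1 : ∫ x, inner ℝ (gradient S x) (gradient ψ x)
      = ∑ i : Fin 2, ∫ x, fderiv ℝ S x (EuclideanSpace.single i 1) * d i x := by
    rw [← integral_finsetSum]
    · refine integral_congr_ae (Eventually.of_forall (fun x => ?_))
      simp only [Fin.sum_univ_two]
      rw [inner_E2, grad_apply, grad_apply, grad_apply, grad_apply]
    · intro i _
      exact integrable_cc ((c1 i).mul (hdc i).continuous) (hds i).mul_left
  have e2 : ∀ i : Fin 2, |∫ x, fderiv ℝ S x (EuclideanSpace.single i 1) * d i x|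
      ≤ |C i| * ∫ x in A, |S x| := by
    intro i
    rw [ibp_dir hS (hdc i) (hds i), abs_neg]
    have e3 : ∫ x, S x * fderiv ℝ (d i) x (EuclideanSpace.single i 1) = ∫ x in A, S x * dd i x := by
      rw [← integral_indicator hA]
      refine integral_congr_ae (Eventually.of_forall (fun x => ?_))
      by_cases hx : x ∈ A
      · rw [indicator_of_mem hx]
      · rw [indicator_of_notMem hx]
        have : dd i x = 0 := hsub i x hx
        simp only
        rw [show fderiv ℝ (d i) x (EuclideanSpace.single i 1) = dd i x from rfl, this, mul_zero]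
    rw [e3]
    have hint : IntegrableOn (fun x => |C i| * |S x|) A := by
      have hc : Continuous (fun x => |C i| * |S x|) := by
        have := hS.continuous
        fun_prop
      exact (intOn_ball hc 0 R).mono_set hAR
    calc |∫ x in A, S x * dd i x| ≤ ∫ x in A, |C i| * |S x| := by
          rw [← Real.norm_eq_abs]
          refine norm_integral_le_of_norm_le hint (Eventually.of_forall (fun x => ?_))
          rw [norm_mul, Real.norm_eq_abs, mul_comm]
          exact mul_le_mul_of_nonneg_right ((hC i x).trans (le_abs_self _)) (abs_nonneg _)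
      _ = |C i| * ∫ x in A, |S x| := integral_const_mul _ _
  rw [e1, Fin.sum_univ_two]
  calc _ ≤ |∫ x, fderiv ℝ S x (EuclideanSpace.single 0 1) * d 0 x|
        + |∫ x, fderiv ℝ S x (EuclideanSpace.single 1 1) * d 1 x| := abs_add_le _ _
    _ ≤ |C 0| * (∫ x in A, |S x|) + |C 1| * ∫ x in A, |S x| := add_le_add (e2 0) (e2 1)
    _ = _ := by ring

/-- Scaled integration by parts bound against `chi M`. -/
lemma exists_ibp_chi : ∃ L : ℝ, 0 < L ∧ ∀ M : ℝ, 0 < M → ∀ S : E2 → ℝ, ContDiff ℝ 1 S →
    |∫ x, inner ℝ (gradient S x) (gradient (chi M) x)| ≤ L / M ^ 2 * ∫ x in ann M, |S x| := by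
  obtain ⟨hψ, hs, -⟩ := cut_facts (one_pos : (0 : ℝ) < 1)
  have hchi1 : (cut 1 one_pos : E2 → ℝ) = chi 1 := by
    ext x
    simp [chi]
  have hz : ∀ i : Fin 2, ∀ x, x ∉ ann 1 → fderiv ℝ (fun x => fderiv ℝ (cut 1 one_pos) x
      (EuclideanSpace.single i 1)) x (EuclideanSpace.single i 1) = 0 := by
    intro i x hx
    by_cases h1 : ‖x‖ < 1
    · have : (fun x => fderiv ℝ (cut 1 one_pos) x (EuclideanSpace.single i 1)) =ᶠ[𝓝 x] fun _ => 0 := by
        filter_upwards [isOpen_ball.mem_nhds (show x ∈ ball (0 : E2) 1 by simpa using h1)] with y hy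
        rw [← grad_apply, hchi1, grad_chi_zero one_pos]
        · simp
        · rw [mem_ball, dist_zero_right] at hy
          exact fun h => absurd h.1 (not_le.mpr hy)
      rw [this.fderiv_eq]
      simp
    · have h2 : 2 ≤ ‖x‖ := by
        by_contra hcon
        push Not at hcon
        exact hx ⟨not_lt.mp h1, by linarith⟩
      have : (fun x => fderiv ℝ (cut 1 one_pos) x (EuclideanSpace.single i 1)) =ᶠ[𝓝 x] fun _ => 0 := by
        have ho : IsOpen {y : E2 | 3 / 2 < ‖y‖} := isOpen_lt continuous_const continuous_norm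
        filter_upwards [ho.mem_nhds (show 3 / 2 < ‖x‖ by linarith)] with y hy
        have h3 : (cut 1 one_pos : E2 → ℝ) =ᶠ[𝓝 y] fun _ => 0 := by
          filter_upwards [ho.mem_nhds hy] with z hz
          rw [hchi1]
          apply chi_eq_zero one_pos
          have : 3 / 2 < ‖z‖ := hz
          linarith
        rw [h3.fderiv_eq]
        simp
      rw [this.fderiv_eq]
      simp
  obtain ⟨L, hL, hb⟩ := exists_ibp_bound_set hψ hs (measurableSet_ann 1) (ann_subset_ball 1) hz
  refine ⟨L + 1, by positivity, fun M hM S hS => ?_⟩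
  set S1 : E2 → ℝ := fun z => S (M • z) with hS1
  have hS1c : ContDiff ℝ 1 S1 := hS.comp (contDiff_const_smul _)
  have h1 := hb S1 hS1c
  have e1 : ∫ x, inner ℝ (gradient S x) (gradient (chi M) x)
      = ∫ z, inner ℝ (gradient S1 z) (gradient (cut 1 one_pos) z) := by
    have h2 : ∀ z, inner ℝ (gradient S1 z) (gradient (cut 1 one_pos) z)
        = M ^ 2 * (fun x => inner ℝ (gradient S x) (gradient (chi M) x)) (M • z) := by
      intro z
      have h3 : gradient S1 z = M • gradient S (M • z) := by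
        have h : S1 = fun y => S ((0 : E2) + M • y) := by
          ext y
          simp [hS1]
        rw [h, grad_affine 0 M z]
        · simp
        · exact (hS.differentiable (by simp)) _
      simp only
      rw [h3, grad_chi, smul_smul, inv_mul_cancel₀ hM.ne', one_smul, inner_smul_left, inner_smul_right]
      simp only [conj_trivial]
      field_simp
    have h5 := Measure.integral_comp_smul (volume : Measure E2)
      (fun x => inner ℝ (gradient S x) (gradient (chi M) x)) M
    rw [finrank_euclideanSpace, Fintype.card_fin, abs_of_pos (by positivity), smul_eq_mul] at h5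
    rw [integral_congr_ae (Eventually.of_forall h2), integral_const_mul, h5, ← mul_assoc,
      mul_inv_cancel₀ (by positivity), one_mul]
  have e2 : ∫ z in ann 1, |S1 z| = (M ^ 2)⁻¹ * ∫ x in ann M, |S x| := by
    have h2 : M • ann 1 = ann M := by
      ext x
      rw [mem_smul_set_iff_inv_smul_mem₀ hM.ne']
      simp only [ann, mem_ofPred_eq, norm_smul, norm_inv, Real.norm_of_nonneg hM.le]
      rw [← div_eq_inv_mul, le_div_iff₀ hM, div_lt_iff₀ hM, one_mul, mul_one]
    have h3 := Measure.setIntegral_comp_smul_of_pos (volume : Measure E2) (fun x => |S x|) (ann 1) hM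
    rw [h2, finrank_euclideanSpace, Fintype.card_fin, smul_eq_mul] at h3
    exact h3
  rw [e1]
  refine h1.trans ?_
  rw [e2]
  have hI : 0 ≤ ∫ x in ann M, |S x| := integral_nonneg (fun x => abs_nonneg _)
  calc L * ((M ^ 2)⁻¹ * ∫ x in ann M, |S x|) = L / M ^ 2 * ∫ x in ann M, |S x| := by ring
    _ ≤ (L + 1) / M ^ 2 * ∫ x in ann M, |S x| := by
        apply mul_le_mul_of_nonneg_right _ hI
        gcongr
        linarith

end Pool.Agent.Helper41.PS
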