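import Pool.Agent.Helper41.PS.Poincare

/-!
# Level set iteration
-/

open MeasureTheory Set Filter Topology Metric
open scoped ContDiff ENNReal NNReal

namespace Pool.Agent.Helper41.PS

lemma deriv_smoothTransition_zero {s : ℝ} (hs : s ≤ 0 ∨ 1 ≤ s) :
    deriv Real.smoothTransition s = 0 := by
  rcases hs with hs | hs
  · apply IsLocalMin.deriv_eq_zero
    refine Eventually.of_forall (fun t => ?_)
    rw [Real.smoothTransition.zero_of_nonpos hs]
    exact Real.smoothTransition.nonneg t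
  · apply IsLocalMax.deriv_eq_zero
    refine Eventually.of_forall (fun t => ?_)
    rw [Real.smoothTransition.one_of_one_le hs]
    exact Real.smoothTransition.le_one t

lemma exists_bound_deriv_smoothTransition :
    ∃ C : ℝ, 0 < C ∧ ∀ s, |deriv Real.smoothTransition s| ≤ C := by
  have hc : Continuous (deriv Real.smoothTransition) :=
    (Real.smoothTransition.contDiff (n := 1)).continuous_deriv le_rfl
  obtain ⟨C, hC⟩ := isCompact_Icc.exists_bound_of_continuousOn (s := Icc (0 : ℝ) 1) hc.continuousOn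
  refine ⟨max C 1, by positivity, fun s => ?_⟩
  by_cases hs : s ∈ Icc (0 : ℝ) 1
  · exact (hC s hs).trans (le_max_left _ _)
  · rw [deriv_smoothTransition_zero]
    · simp
    · rw [mem_Icc, not_and_or, not_le, not_le] at hs
      rcases hs with h | h
      · exact Or.inl h.le
      · exact Or.inr h.le

lemma sq_integral_le {α : Type*} [MeasurableSpace α] (μ : Measure α) [IsFiniteMeasure μ]
    {f : α → ℝ} (hf : Integrable f μ) (hf2 : Integrable (fun x => f x ^ 2) μ) :
    (∫ x, f x ∂μ) ^ 2 ≤ μ.real univ * ∫ x, f x ^ 2 ∂μ := by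
  set m := μ.real univ with hm
  have hm0 : 0 ≤ m := measureReal_nonneg
  by_cases h0 : m = 0
  · have : μ = 0 := by
      rw [← Measure.measure_univ_eq_zero]
      have := (measureReal_eq_zero_iff (measure_ne_top μ univ)).mp (hm.symm.trans h0)
      exact this
    rw [this]
    simp
  have hmp : 0 < m := lt_of_le_of_ne hm0 (Ne.symm h0)
  set I := ∫ x, f x ∂μ with hI
  have h1 : 0 ≤ ∫ x, (f x - I / m) ^ 2 ∂μ := integral_nonneg (fun x => sq_nonneg _)
  have h2 : ∫ x, (f x - I / m) ^ 2 ∂μ = ∫ x, f x ^ 2 ∂μ - 2 * (I / m) * I + m * (I / m) ^ 2 := by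
    have : ∀ x, (f x - I / m) ^ 2 = f x ^ 2 - 2 * (I / m) * f x + (I / m) ^ 2 := fun x => by ring
    simp_rw [this]
    have a1 : Integrable (fun x => 2 * (I / m) * f x) μ := hf.const_mul _
    have a2 : Integrable (fun x => f x ^ 2 - 2 * (I / m) * f x) μ := hf2.sub a1
    rw [integral_add a2 (integrable_const _),
      integral_sub hf2 a1, integral_const_mul, integral_const, smul_eq_mul]
  rw [h2] at h1
  have h3 : 2 * (I / m) * I = 2 * (I ^ 2 / m) := by ring
  have h4 : m * (I / m) ^ 2 = I ^ 2 / m := by field_simp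
  rw [h3, h4] at h1
  have h5 : I ^ 2 / m ≤ ∫ x, f x ^ 2 ∂μ := by linarith
  rw [div_le_iff₀ hmp] at h5
  linarith

/-- The superlevel measure in a disc. -/
noncomputable def lev (v : E2 → ℝ) (x0 : E2) (r k : ℝ) : ℝ :=
  volume.real {x ∈ ball x0 r | k ≤ v x}

/-- The Dirichlet energy in the band `k ≤ v < k + 1` of a disc. -/
noncomputable def bandE (v : E2 → ℝ) (x0 : E2) (r k : ℝ) : ℝ :=
  ∫ x in {x ∈ ball x0 r | k ≤ v x ∧ v x < k + 1}, ‖fderiv ℝ v x‖ ^ 2

lemma lev_nonneg (v : E2 → ℝ) (x0 : E2) (r k : ℝ) : 0 ≤ lev v x0 r k := measureReal_nonneg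

lemma lev_le (v : E2 → ℝ) (x0 : E2) {r : ℝ} (hr : 0 < r) (k : ℝ) :
    lev v x0 r k ≤ Real.pi * r ^ 2 := by
  rw [← volume_ball_real x0 hr.le]
  exact measureReal_mono (fun x hx => hx.1) measure_ball_lt_top.ne

lemma measSet_band {v : E2 → ℝ} (hv : Continuous v) (x0 : E2) (r k l : ℝ) :
    MeasurableSet {x ∈ ball x0 r | k ≤ v x ∧ v x < l} :=
  measurableSet_ball.inter ((measurableSet_le measurable_const hv.measurable).inter
    (measurableSet_lt hv.measurable measurable_const))

lemma measSet_sup {v : E2 → ℝ} (hv : Continuous v) (x0 : E2) (r k : ℝ) :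
    MeasurableSet {x ∈ ball x0 r | k ≤ v x} :=
  measurableSet_ball.inter (measurableSet_le measurable_const hv.measurable)

lemma volume_band {v : E2 → ℝ} (hv : Continuous v) (x0 : E2) (r k l : ℝ) (hkl : k ≤ l) :
    volume.real {x ∈ ball x0 r | k ≤ v x ∧ v x < l} = lev v x0 r k - lev v x0 r l := by
  have h1 : {x ∈ ball x0 r | k ≤ v x ∧ v x < l}
      = {x ∈ ball x0 r | k ≤ v x} \ {x ∈ ball x0 r | l ≤ v x} := by
    ext x
    simp only [mem_ofPred_eq, Set.mem_sdiff, not_and, not_le]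
    constructor
    · rintro ⟨h1, h2, h3⟩
      exact ⟨⟨h1, h2⟩, fun _ => h3⟩
    · rintro ⟨⟨h1, h2⟩, h3⟩
      exact ⟨h1, h2, h3 h1⟩
  rw [h1, lev, lev]
  have h2 : {x ∈ ball x0 r | l ≤ v x} ⊆ {x ∈ ball x0 r | k ≤ v x} :=
    fun x hx => ⟨hx.1, hkl.trans hx.2⟩
  have h3 : volume {x ∈ ball x0 r | k ≤ v x} ≠ ⊤ :=
    (lt_of_le_of_lt (measure_mono (fun x hx => hx.1)) (measure_ball_lt_top (x := x0) (r := r))).ne
  exact measureReal_sdiff h2 (measSet_sup hv x0 r l) h3

lemma band_cs {v : E2 → ℝ} (hv : ContDiff ℝ 1 v) (x0 : E2) (r k : ℝ) :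
    (∫ x in {x ∈ ball x0 r | k ≤ v x ∧ v x < k + 1}, ‖fderiv ℝ v x‖) ^ 2
      ≤ (lev v x0 r k - lev v x0 r (k + 1)) * bandE v x0 r k := by
  have hvc := hv.continuous
  have hdc : Continuous (fun z => fderiv ℝ v z) := hv.continuous_fderiv (by simp)
  have hsub : {x ∈ ball x0 r | k ≤ v x ∧ v x < k + 1} ⊆ ball x0 r := fun x hx => hx.1
  have hfin : IsFiniteMeasure (volume.restrict {x ∈ ball x0 r | k ≤ v x ∧ v x < k + 1}) := by
    constructor
    rw [Measure.restrict_apply_univ]
    exact lt_of_le_of_lt (measure_mono hsub) measure_ball_lt_top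
  have := sq_integral_le (volume.restrict {x ∈ ball x0 r | k ≤ v x ∧ v x < k + 1})
    (f := fun x => ‖fderiv ℝ v x‖)
    ((intOn_ball (by fun_prop) x0 r).mono_set hsub)
    ((intOn_ball (f := fun x => ‖fderiv ℝ v x‖ ^ 2) (by fun_prop) x0 r).mono_set hsub)
  rw [measureReal_restrict_apply_univ, volume_band hvc x0 r k (k + 1) (by linarith)] at this
  exact this

lemma exists_level_step : ∃ C1 : ℝ, 0 < C1 ∧ ∀ (v : E2 → ℝ), ContDiff ℝ 1 v → ∀ (x0 : E2) (r : ℝ),
    0 < r → ∀ k : ℝ, lev v x0 r k ≤ Real.pi * r ^ 2 / 2 →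
    lev v x0 r (k + 1) ≤ C1 * bandE v x0 r k * (lev v x0 r k - lev v x0 r (k + 1)) := by
  obtain ⟨C, hC, hb⟩ := exists_bound_deriv_smoothTransition
  have hpi := Real.pi_pos
  refine ⟨576 / Real.pi * C ^ 2, by positivity, fun v hv x0 r hr k hk => ?_⟩
  have hvc := hv.continuous
  have hdc : Continuous (fun z => fderiv ℝ v z) := hv.continuous_fderiv (by simp)
  set H : E2 → ℝ := fun x => Real.smoothTransition (v x - k) with hH
  have hHs : ContDiff ℝ 1 H := (Real.smoothTransition.contDiff (n := 1)).comp (hv.sub contDiff_const)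
  have hder : ∀ x, fderiv ℝ H x = (deriv Real.smoothTransition (v x - k)) • fderiv ℝ v x := by
    intro x
    have h1 : HasDerivAt Real.smoothTransition (deriv Real.smoothTransition (v x - k)) (v x - k) :=
      ((Real.smoothTransition.contDiff (n := 1)).differentiable (by simp) _).hasDerivAt
    have h2 : HasFDerivAt (fun x => v x - k) (fderiv ℝ v x) x :=
      ((hv.differentiable (by simp)) x).hasFDerivAt.sub_const k
    exact (h1.comp_hasFDerivAt x h2).fderiv
  have h1 : Real.pi * r ^ 2 / 2 ≤ volume.real {x ∈ ball x0 r | H x = 0} := by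
    have e1 : volume.real (ball x0 r \ {x ∈ ball x0 r | k ≤ v x}) = Real.pi * r ^ 2 - lev v x0 r k := by
      rw [measureReal_sdiff (fun x hx => hx.1) (measSet_sup hvc x0 r k) measure_ball_lt_top.ne,
        volume_ball_real x0 hr.le]
      rfl
    have e2 : volume.real (ball x0 r \ {x ∈ ball x0 r | k ≤ v x}) ≤ volume.real {x ∈ ball x0 r | H x = 0} := by
      apply measureReal_mono
      · intro x hx
        refine ⟨hx.1, ?_⟩
        have : ¬ (k ≤ v x) := fun h => hx.2 ⟨hx.1, h⟩
        push Not at this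
        exact Real.smoothTransition.zero_of_nonpos (by linarith)
      · exact (lt_of_le_of_lt (measure_mono (fun x hx => hx.1)) (measure_ball_lt_top (x := x0) (r := r))).ne
    linarith
  have h2 := isoperimetric_ball H hHs x0 hr h1
  have h3 : lev v x0 r (k + 1) ≤ volume.real {x ∈ ball x0 r | 1 ≤ H x} := by
    apply measureReal_mono
    · intro x hx
      refine ⟨hx.1, ?_⟩
      have h5 : k + 1 ≤ v x := hx.2
      rw [hH]
      simp only
      rw [Real.smoothTransition.one_of_one_le (by linarith)]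
    · exact (lt_of_le_of_lt (measure_mono (fun x hx => hx.1)) (measure_ball_lt_top (x := x0) (r := r))).ne
  have h4 : ∫ z in ball x0 r, ‖fderiv ℝ H z‖
      ≤ C * ∫ x in {x ∈ ball x0 r | k ≤ v x ∧ v x < k + 1}, ‖fderiv ℝ v x‖ := by
    rw [← integral_const_mul, ← integral_indicator measurableSet_ball,
      ← integral_indicator (measSet_band hvc x0 r k (k + 1))]
    apply integral_mono
    · rw [integrable_indicator_iff measurableSet_ball]
      have : Continuous (fun z => fderiv ℝ H z) := hHs.continuous_fderiv (by simp)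
      exact intOn_ball (by fun_prop) _ _
    · rw [integrable_indicator_iff (measSet_band hvc x0 r k (k + 1))]
      exact (intOn_ball (f := fun x => C * ‖fderiv ℝ v x‖) (by fun_prop) x0 r).mono_set (fun x hx => hx.1)
    · intro x
      by_cases hx : x ∈ ball x0 r
      · simp only [indicator_of_mem hx]
        by_cases hb2 : k ≤ v x ∧ v x < k + 1
        · rw [indicator_of_mem (show x ∈ {x ∈ ball x0 r | k ≤ v x ∧ v x < k + 1} from ⟨hx, hb2⟩),
            hder, norm_smul]
          exact mul_le_mul_of_nonneg_right (hb _) (norm_nonneg _)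
        · rw [indicator_of_notMem (fun h => hb2 h.2), hder, deriv_smoothTransition_zero]
          · simp
          · rw [not_and_or, not_le, not_lt] at hb2
            rcases hb2 with h | h
            · left; linarith
            · right; linarith
      · rw [indicator_of_notMem hx]
        apply indicator_nonneg
        intro y _
        positivity
  have h5 := band_cs hv x0 r k
  set J := ∫ x in {x ∈ ball x0 r | k ≤ v x ∧ v x < k + 1}, ‖fderiv ℝ v x‖ with hJ
  have h6 : (∫ z in ball x0 r, ‖fderiv ℝ H z‖) ^ 2 ≤ (C * J) ^ 2 :=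
    pow_le_pow_left₀ (by positivity) h4 2
  calc lev v x0 r (k + 1) ≤ 576 / Real.pi * (∫ z in ball x0 r, ‖fderiv ℝ H z‖) ^ 2 := h3.trans h2
    _ ≤ 576 / Real.pi * (C * J) ^ 2 := mul_le_mul_of_nonneg_left h6 (by positivity)
    _ = 576 / Real.pi * C ^ 2 * J ^ 2 := by ring
    _ ≤ 576 / Real.pi * C ^ 2 * ((lev v x0 r k - lev v x0 r (k + 1)) * bandE v x0 r k) :=
        mul_le_mul_of_nonneg_left h5 (by positivity)
    _ = _ := by ring

lemma lev_anti {v : E2 → ℝ} (x0 : E2) (r : ℝ) {k l : ℝ} (hkl : k ≤ l) :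
    lev v x0 r l ≤ lev v x0 r k := by
  apply measureReal_mono
  · intro x hx
    exact ⟨hx.1, hkl.trans hx.2⟩
  · exact (lt_of_le_of_lt (measure_mono (fun x hx => hx.1)) (measure_ball_lt_top (x := x0) (r := r))).ne

/-- Geometric decay of the measure of superlevel sets when the band energies are bounded. -/
lemma exists_level_decay : ∃ C1 : ℝ, 0 < C1 ∧ ∀ (v : E2 → ℝ), ContDiff ℝ 1 v →
    ∀ (x0 : E2) (r : ℝ), 0 < r → ∀ (k E : ℝ), 0 ≤ E → lev v x0 r k ≤ Real.pi * r ^ 2 / 2 →
    (∀ j : ℕ, bandE v x0 r (k + j) ≤ E) →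
    ∀ j : ℕ, lev v x0 r (k + j) ≤ (C1 * E / (1 + C1 * E)) ^ j * (Real.pi * r ^ 2) := by
  obtain ⟨C1, hC1, hstep⟩ := exists_level_step
  have hpi := Real.pi_pos
  refine ⟨C1, hC1, fun v hv x0 r hr k E hE hk hb j => ?_⟩
  induction j with
  | zero =>
    simp only [Nat.cast_zero, add_zero, pow_zero, one_mul]
    exact lev_le v x0 hr k
  | succ j ih =>
    have hkj : lev v x0 r (k + j) ≤ Real.pi * r ^ 2 / 2 :=
      (lev_anti x0 r (by simp)).trans hk
    have h1 := hstep v hv x0 r hr (k + j) hkj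
    have h2 : k + ((j + 1 : ℕ) : ℝ) = k + j + 1 := by push_cast; ring
    rw [h2]
    have hd : 0 ≤ lev v x0 r (k + j) - lev v x0 r (k + j + 1) := by
      have := lev_anti (v := v) x0 r (show k + j ≤ k + j + 1 by linarith)
      linarith
    have h3 : lev v x0 r (k + j + 1) ≤ C1 * E * (lev v x0 r (k + j) - lev v x0 r (k + j + 1)) := by
      refine h1.trans (mul_le_mul_of_nonneg_right ?_ hd)
      exact mul_le_mul_of_nonneg_left (hb j) hC1.le
    have h4 : lev v x0 r (k + j + 1) ≤ C1 * E / (1 + C1 * E) * lev v x0 r (k + j) := by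
      rw [div_mul_eq_mul_div, le_div_iff₀ (by positivity)]
      linarith
    calc _ ≤ C1 * E / (1 + C1 * E) * lev v x0 r (k + j) := h4
      _ ≤ C1 * E / (1 + C1 * E) * ((C1 * E / (1 + C1 * E)) ^ j * (Real.pi * r ^ 2)) :=
        mul_le_mul_of_nonneg_left ih (by positivity)
      _ = _ := by ring

lemma exists_upper_nat {v : E2 → ℝ} (hv : Continuous v) (x0 : E2) (r k : ℝ) :
    ∃ N : ℕ, ∀ x ∈ ball x0 r, v x < k + N := by
  obtain ⟨C, hC⟩ := (isCompact_closedBall x0 r).exists_bound_of_continuousOn hv.continuousOn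
  obtain ⟨N, hN⟩ := exists_nat_gt (C - k)
  refine ⟨N, fun x hx => ?_⟩
  have := hC x (ball_subset_closedBall hx)
  have := le_abs_self (v x)
  rw [Real.norm_eq_abs] at *
  linarith

/-- The superlevel set is a finite union of bands. -/
lemma setIntegral_sup_le_sum {v : E2 → ℝ} (hv : Continuous v) (x0 : E2) (r k : ℝ) {f : E2 → ℝ}
    (hf : Continuous f) (N : ℕ) :
    ∫ x in {x ∈ ball x0 r | k ≤ v x ∧ v x < k + N}, f x
      = ∑ j ∈ Finset.range N, ∫ x in {x ∈ ball x0 r | k + j ≤ v x ∧ v x < k + j + 1}, f x := by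
  induction N with
  | zero =>
    have : {x ∈ ball x0 r | k ≤ v x ∧ v x < k + (0 : ℕ)} = ∅ := by
      ext x
      simp only [Nat.cast_zero, add_zero, mem_ofPred_eq, mem_empty_iff_false, iff_false, not_and,
        not_lt]
      exact fun _ h => h
    rw [this]
    simp
  | succ N ih =>
    rw [Finset.sum_range_succ, ← ih]
    have h1 : {x ∈ ball x0 r | k ≤ v x ∧ v x < k + ((N + 1 : ℕ) : ℝ)}
        = {x ∈ ball x0 r | k ≤ v x ∧ v x < k + N} ∪
          {x ∈ ball x0 r | k + N ≤ v x ∧ v x < k + N + 1} := by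
      ext x
      simp only [mem_ofPred_eq, mem_union, Nat.cast_add, Nat.cast_one]
      constructor
      · rintro ⟨h1, h2, h3⟩
        by_cases h4 : v x < k + N
        · exact Or.inl ⟨h1, h2, h4⟩
        · exact Or.inr ⟨h1, not_lt.mp h4, by linarith⟩
      · rintro (⟨h1, h2, h3⟩ | ⟨h1, h2, h3⟩)
        · exact ⟨h1, h2, by linarith⟩
        · have : (0 : ℝ) ≤ N := Nat.cast_nonneg N
          exact ⟨h1, by linarith, by linarith⟩
    rw [h1, setIntegral_union]
    · rw [Set.disjoint_left]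
      rintro x ⟨_, _, h3⟩ ⟨_, h4, _⟩
      linarith
    · exact measSet_band hv x0 r _ _
    · exact (intOn_ball hf x0 r).mono_set (fun x hx => hx.1)
    · exact (intOn_ball hf x0 r).mono_set (fun x hx => hx.1)

lemma sum_geom_le {q : ℝ} (h0 : 0 ≤ q) (h1 : q < 1) (N : ℕ) :
    ∑ j ∈ Finset.range N, q ^ j ≤ 1 / (1 - q) := by
  have h2 : HasSum (fun j : ℕ => q ^ j) (1 - q)⁻¹ := hasSum_geometric_of_lt_one h0 h1
  rw [one_div]
  exact sum_le_hasSum _ (fun j _ => pow_nonneg h0 j) h2

/-- The gradient integral over a superlevel set. -/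
lemma grad_sup_le {v : E2 → ℝ} (hv : ContDiff ℝ 1 v) (x0 : E2) {r : ℝ} (hr : 0 < r) {k E q : ℝ}
    (hE : 0 ≤ E) (hq0 : 0 ≤ q) (hq1 : q < 1) (hb : ∀ j : ℕ, bandE v x0 r (k + j) ≤ E)
    (hl : ∀ j : ℕ, lev v x0 r (k + j) ≤ (q ^ 2) ^ j * (Real.pi * r ^ 2)) :
    ∫ x in {x ∈ ball x0 r | k ≤ v x}, ‖fderiv ℝ v x‖ ≤ √(E * Real.pi) * r / (1 - q) := by
  have hpi := Real.pi_pos
  have hvc := hv.continuous
  have hdc : Continuous (fun z => fderiv ℝ v z) := hv.continuous_fderiv (by simp)
  obtain ⟨N, hN⟩ := exists_upper_nat hvc x0 r k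
  have h1 : {x ∈ ball x0 r | k ≤ v x} = {x ∈ ball x0 r | k ≤ v x ∧ v x < k + N} := by
    ext x
    simp only [mem_ofPred_eq]
    exact ⟨fun h => ⟨h.1, h.2, hN x h.1⟩, fun h => ⟨h.1, h.2.1⟩⟩
  rw [h1, setIntegral_sup_le_sum hvc x0 r k (by fun_prop) N]
  have h2 : ∀ j : ℕ, ∫ x in {x ∈ ball x0 r | k + j ≤ v x ∧ v x < k + j + 1}, ‖fderiv ℝ v x‖
      ≤ √(E * Real.pi) * r * q ^ j := by
    intro j
    have h3 := band_cs hv x0 r (k + j)
    have h4 : (lev v x0 r (k + j) - lev v x0 r (k + j + 1)) * bandE v x0 r (k + j)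
        ≤ ((q ^ 2) ^ j * (Real.pi * r ^ 2)) * E := by
      have h5 : 0 ≤ bandE v x0 r (k + j) := integral_nonneg (fun x => sq_nonneg _)
      have h6 := lev_nonneg v x0 r (k + j + 1)
      apply mul_le_mul _ (hb j) h5 (by positivity)
      linarith [hl j]
    have h7 : ((q ^ 2) ^ j * (Real.pi * r ^ 2)) * E = (√(E * Real.pi) * r * q ^ j) ^ 2 := by
      rw [mul_pow, mul_pow, Real.sq_sqrt (by positivity)]
      ring
    rw [h7] at h4
    exact le_of_sq_le_sq (h3.trans h4) (by positivity)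
  calc ∑ j ∈ Finset.range N, ∫ x in {x ∈ ball x0 r | k + j ≤ v x ∧ v x < k + j + 1}, ‖fderiv ℝ v x‖
      ≤ ∑ j ∈ Finset.range N, √(E * Real.pi) * r * q ^ j := Finset.sum_le_sum (fun j _ => h2 j)
    _ = √(E * Real.pi) * r * ∑ j ∈ Finset.range N, q ^ j := by rw [Finset.mul_sum]
    _ ≤ √(E * Real.pi) * r * (1 / (1 - q)) :=
        mul_le_mul_of_nonneg_left (sum_geom_le hq0 hq1 N) (by positivity)
    _ = _ := by ring

/-- Exponential integrability over a disc. -/
lemma exp_int_le {v : E2 → ℝ} (hv : Continuous v) (x0 : E2) {r : ℝ} (hr : 0 < r) {k p θ : ℝ}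
    (hp : 0 ≤ p) (hθ0 : 0 ≤ θ) (hθ1 : θ * Real.exp p < 1)
    (hl : ∀ j : ℕ, lev v x0 r (k + j) ≤ θ ^ j * (Real.pi * r ^ 2)) :
    ∫ x in ball x0 r, Real.exp (p * v x)
      ≤ Real.exp (p * k) * (1 + Real.exp p / (1 - θ * Real.exp p)) * (Real.pi * r ^ 2) := by
  have hpi := Real.pi_pos
  obtain ⟨N, hN⟩ := exists_upper_nat hv x0 r k
  have hc : Continuous (fun x => Real.exp (p * v x)) := by fun_prop
  have h1 : ball x0 r = {x ∈ ball x0 r | v x < k} ∪ {x ∈ ball x0 r | k ≤ v x ∧ v x < k + N} := by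
    ext x
    simp only [mem_union, mem_ofPred_eq]
    constructor
    · intro h
      by_cases h2 : v x < k
      · exact Or.inl ⟨h, h2⟩
      · exact Or.inr ⟨h, not_lt.mp h2, hN x h⟩
    · rintro (h | h)
      · exact h.1
      · exact h.1
  have hms : MeasurableSet {x ∈ ball x0 r | v x < k} :=
    measurableSet_ball.inter (measurableSet_lt hv.measurable measurable_const)
  have h2 : ∫ x in ball x0 r, Real.exp (p * v x) = (∫ x in {x ∈ ball x0 r | v x < k}, Real.exp (p * v x))
      + ∫ x in {x ∈ ball x0 r | k ≤ v x ∧ v x < k + N}, Real.exp (p * v x) := by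
    conv_lhs => rw [h1]
    rw [setIntegral_union]
    · rw [Set.disjoint_left]
      rintro x ⟨_, h3⟩ ⟨_, h4, _⟩
      linarith
    · exact measSet_band hv x0 r _ _
    · exact (intOn_ball hc x0 r).mono_set (fun x hx => hx.1)
    · exact (intOn_ball hc x0 r).mono_set (fun x hx => hx.1)
  have h3 : ∫ x in {x ∈ ball x0 r | v x < k}, Real.exp (p * v x) ≤ Real.exp (p * k) * (Real.pi * r ^ 2) := by
    calc ∫ x in {x ∈ ball x0 r | v x < k}, Real.exp (p * v x)
        ≤ ∫ x in {x ∈ ball x0 r | v x < k}, Real.exp (p * k) := by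
          apply setIntegral_mono_on
          · exact (intOn_ball hc x0 r).mono_set (fun x hx => hx.1)
          · exact (intOn_ball continuous_const x0 r).mono_set (fun x hx => hx.1)
          · exact hms
          · intro x hx
            apply Real.exp_le_exp.mpr
            exact mul_le_mul_of_nonneg_left hx.2.le hp
      _ = volume.real {x ∈ ball x0 r | v x < k} * Real.exp (p * k) := by
          rw [setIntegral_const, smul_eq_mul]
      _ ≤ (Real.pi * r ^ 2) * Real.exp (p * k) := by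
          apply mul_le_mul_of_nonneg_right _ (Real.exp_pos _).le
          rw [← volume_ball_real x0 hr.le]
          exact measureReal_mono (fun x hx => hx.1) measure_ball_lt_top.ne
      _ = _ := by ring
  have h4 : ∀ j : ℕ, ∫ x in {x ∈ ball x0 r | k + j ≤ v x ∧ v x < k + j + 1}, Real.exp (p * v x)
      ≤ Real.exp (p * k) * Real.exp p * (Real.pi * r ^ 2) * (θ * Real.exp p) ^ j := by
    intro j
    have hsub : {x ∈ ball x0 r | k + j ≤ v x ∧ v x < k + j + 1} ⊆ ball x0 r := fun x hx => hx.1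
    calc ∫ x in {x ∈ ball x0 r | k + j ≤ v x ∧ v x < k + j + 1}, Real.exp (p * v x)
        ≤ ∫ x in {x ∈ ball x0 r | k + j ≤ v x ∧ v x < k + j + 1}, Real.exp (p * (k + j + 1)) := by
          apply setIntegral_mono_on
          · exact (intOn_ball hc x0 r).mono_set hsub
          · exact (intOn_ball continuous_const x0 r).mono_set hsub
          · exact measSet_band hv x0 r _ _
          · intro x hx
            apply Real.exp_le_exp.mpr
            exact mul_le_mul_of_nonneg_left hx.2.2.le hp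
      _ = volume.real {x ∈ ball x0 r | k + j ≤ v x ∧ v x < k + j + 1} * Real.exp (p * (k + j + 1)) := by
          rw [setIntegral_const, smul_eq_mul]
      _ ≤ (θ ^ j * (Real.pi * r ^ 2)) * Real.exp (p * (k + j + 1)) := by
          apply mul_le_mul_of_nonneg_right _ (Real.exp_pos _).le
          refine le_trans ?_ (hl j)
          apply measureReal_mono
          · intro x hx
            exact ⟨hx.1, hx.2.1⟩
          · exact (lt_of_le_of_lt (measure_mono (fun x hx => hx.1)) (measure_ball_lt_top (x := x0) (r := r))).ne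
      _ = _ := by
          have : Real.exp (p * (k + j + 1)) = Real.exp (p * k) * Real.exp p * Real.exp p ^ j := by
            rw [← Real.exp_nat_mul, ← Real.exp_add, ← Real.exp_add]
            congr 1
            ring
          rw [this, mul_pow]
          ring
  rw [h2, setIntegral_sup_le_sum hv x0 r k hc N]
  have h5 : ∑ j ∈ Finset.range N, ∫ x in {x ∈ ball x0 r | k + j ≤ v x ∧ v x < k + j + 1}, Real.exp (p * v x)
      ≤ Real.exp (p * k) * Real.exp p * (Real.pi * r ^ 2) * (1 / (1 - θ * Real.exp p)) := by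
    calc _ ≤ ∑ j ∈ Finset.range N, Real.exp (p * k) * Real.exp p * (Real.pi * r ^ 2) * (θ * Real.exp p) ^ j :=
          Finset.sum_le_sum (fun j _ => h4 j)
      _ = Real.exp (p * k) * Real.exp p * (Real.pi * r ^ 2) * ∑ j ∈ Finset.range N, (θ * Real.exp p) ^ j := by
          rw [Finset.mul_sum]
      _ ≤ _ := mul_le_mul_of_nonneg_left (sum_geom_le (by positivity) hθ1 N) (by positivity)
  calc _ ≤ Real.exp (p * k) * (Real.pi * r ^ 2)
        + Real.exp (p * k) * Real.exp p * (Real.pi * r ^ 2) * (1 / (1 - θ * Real.exp p)) :=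
        add_le_add h3 h5
    _ = _ := by ring

end Pool.Agent.Helper41.PS
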