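import Pool.Agent.Helper41.PS.Grad
import Pool.Agent.Helper41.PS.Levels

/-!
# Approximate solutions on discs: the basic truncated energy estimate
-/

open MeasureTheory Set Filter Topology Metric
open scoped ContDiff ENNReal NNReal

namespace Pool.Agent.Helper41.PS

/-- `w` is an approximate solution of `-div(a ∇w) = e^w` on the disc, with error `ε` in `H^{-1}`. -/
structure Adm (a : E2 → E2 →L[ℝ] E2) (w : E2 → ℝ) (η ε Λ : ℝ) (x0 : E2) (R : ℝ) : Prop where
  a_cont : Continuous a
  a_near : ∀ x ∈ ball x0 R, ‖a x - ContinuousLinearMap.id ℝ E2‖ ≤ η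
  smooth : ContDiff ℝ ∞ w
  weak : ∀ v : E2 → ℝ, ContDiff ℝ ∞ v → HasCompactSupport v → tsupport v ⊆ ball x0 R →
    |(∫ x, inner ℝ (a x (gradient w x)) (gradient v x)) - ∫ x, Real.exp (w x) * v x|
      ≤ ε * √(∫ x, ‖gradient v x‖ ^ 2)
  mass : ∫ x in ball x0 R, Real.exp (w x) ≤ Λ

lemma Adm.mono {a : E2 → E2 →L[ℝ] E2} {w : E2 → ℝ} {η ε Λ : ℝ} {x0 : E2} {R : ℝ}
    (h : Adm a w η ε Λ x0 R) {x1 : E2} {R1 : ℝ} (hsub : ball x1 R1 ⊆ ball x0 R) :
    Adm a w η ε Λ x1 R1 where
  a_cont := h.a_cont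
  a_near := fun x hx => h.a_near x (hsub hx)
  smooth := h.smooth
  weak := fun v hv hs ht => h.weak v hv hs (ht.trans hsub)
  mass := by
    refine le_trans (setIntegral_mono_set ?_ ?_ ?_) h.mass
    · have := h.smooth.continuous
      exact intOn_ball (by fun_prop) _ _
    · exact Eventually.of_forall (fun x => (Real.exp_pos _).le)
    · exact Eventually.of_forall hsub

lemma smooth_grad_cont {w : E2 → ℝ} (h : ContDiff ℝ ∞ w) : Continuous (gradient w) :=
  continuous_grad (h.of_le (by norm_cast))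

lemma smooth_diff {w : E2 → ℝ} (h : ContDiff ℝ ∞ w) (x : E2) : DifferentiableAt ℝ w x :=
  (h.differentiable (by simp)) x

lemma hasCompactSupport_grad {f : E2 → ℝ} (hf : HasCompactSupport f) :
    HasCompactSupport (gradient f) := by
  have h1 : HasCompactSupport (fderiv ℝ f) := hf.fderiv ℝ
  have : gradient f = fun x => (InnerProductSpace.toDual ℝ E2).symm (fderiv ℝ f x) := rfl
  rw [this]
  exact h1.comp_left (map_zero _)

lemma tsupport_grad_subset (f : E2 → ℝ) : tsupport (gradient f) ⊆ tsupport f := by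
  have h1 : tsupport (fderiv ℝ f) ⊆ tsupport f := tsupport_fderiv_subset ℝ
  refine subset_trans ?_ h1
  apply closure_mono
  intro x hx
  rw [Function.mem_support] at hx ⊢
  intro h
  apply hx
  rw [gradient, h, map_zero]

lemma near_id_inner {A : E2 →L[ℝ] E2} {η : ℝ} (hA : ‖A - ContinuousLinearMap.id ℝ E2‖ ≤ η)
    (x y : E2) : |inner ℝ (A x) y - inner ℝ x y| ≤ η * (‖x‖ * ‖y‖) := by
  have h1 : inner ℝ (A x) y - inner ℝ x y = inner ℝ ((A - ContinuousLinearMap.id ℝ E2) x) y := by
    rw [sub_apply, inner_sub_left]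
    rfl
  rw [h1]
  calc |inner ℝ ((A - ContinuousLinearMap.id ℝ E2) x) y|
      ≤ ‖(A - ContinuousLinearMap.id ℝ E2) x‖ * ‖y‖ := abs_real_inner_le_norm _ _
    _ ≤ (‖A - ContinuousLinearMap.id ℝ E2‖ * ‖x‖) * ‖y‖ :=
        mul_le_mul_of_nonneg_right (ContinuousLinearMap.le_opNorm _ _) (norm_nonneg _)
    _ ≤ (η * ‖x‖) * ‖y‖ := by gcongr
    _ = _ := by ring

lemma sqrt_add_le' {a b : ℝ} (ha : 0 ≤ a) (hb : 0 ≤ b) : √(a + b) ≤ √a + √b := by
  rw [Real.sqrt_le_iff]
  refine ⟨by positivity, ?_⟩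
  have h1 := Real.sq_sqrt ha
  have h2 := Real.sq_sqrt hb
  nlinarith [mul_nonneg (Real.sqrt_nonneg a) (Real.sqrt_nonneg b)]

/-- The bounded increasing function used to test the equation. -/
noncomputable def TT (s k t : ℝ) : ℝ := Real.pi / 2 + Real.arctan ((t - k) / s)

lemma TT_nonneg (s k t : ℝ) : 0 ≤ TT s k t := by
  have := Real.neg_pi_div_two_lt_arctan ((t - k) / s)
  unfold TT
  linarith

lemma TT_le (s k t : ℝ) : TT s k t ≤ Real.pi := by
  have := Real.arctan_lt_pi_div_two ((t - k) / s)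
  unfold TT
  linarith

lemma TT_contDiff (s k : ℝ) : ContDiff ℝ ∞ (TT s k) := by
  unfold TT
  have : ContDiff ℝ ∞ (fun t : ℝ => (t - k) / s) := by fun_prop
  exact contDiff_const.add (Real.contDiff_arctan.comp this)

lemma TT_hasDerivAt (s k t : ℝ) :
    HasDerivAt (TT s k) (1 / (1 + ((t - k) / s) ^ 2) * (1 / s)) t := by
  unfold TT
  have h1 : HasDerivAt (fun t : ℝ => (t - k) / s) (1 / s) t :=
    ((hasDerivAt_id t).sub_const k).div_const s
  have := (Real.hasDerivAt_arctan ((t - k) / s)).comp t h1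
  exact this.const_add _

/-- The weighted energy `∫ ψ |∇w|² / (s (1 + ((w-k)/s)²))`. -/
noncomputable def XX (ψ w : E2 → ℝ) (s k : ℝ) : ℝ :=
  ∫ x, ψ x * (1 / (1 + ((w x - k) / s) ^ 2) * (1 / s)) * ‖gradient w x‖ ^ 2

lemma X_bound {a : E2 → E2 →L[ℝ] E2} {w : E2 → ℝ} {η ε Λ : ℝ} {x0 : E2} {R : ℝ}
    (h : Adm a w η ε Λ x0 R) (hη : η ≤ 1 / 2) (hε : 0 ≤ ε) {ψ : E2 → ℝ} (hψ : ContDiff ℝ ∞ ψ)
    (hs : HasCompactSupport ψ) (hsub : tsupport ψ ⊆ ball x0 R) (h0 : ∀ x, 0 ≤ ψ x)
    (h1 : ∀ x, ψ x ≤ 1) {s : ℝ} (hspos : 0 < s) (k : ℝ) :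
    XX ψ w s k ≤ 4 * (Real.pi * (∫ x, Real.exp (w x) * ψ x) + 2 * ε ^ 2 / s
      + 5 * ε * √(∫ x, ‖gradient ψ x‖ ^ 2)
      + |∫ x, TT s k (w x) * inner ℝ (a x (gradient w x)) (gradient ψ x)|) := by
  have hpi := Real.pi_pos
  have hw := h.smooth
  have hwc := hw.continuous
  have hgw := smooth_grad_cont hw
  have hgψ := smooth_grad_cont hψ
  have hac := h.a_cont
  have hsg := hasCompactSupport_grad hs
  have hTc : Continuous (fun x => TT s k (w x)) := (TT_contDiff s k).continuous.comp hwc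
  set T' : E2 → ℝ := fun x => 1 / (1 + ((w x - k) / s) ^ 2) * (1 / s) with hT'
  have hT'c : Continuous T' := by
    apply Continuous.mul _ continuous_const
    apply Continuous.div continuous_const
    · fun_prop
    · intro x
      positivity
  have hT'0 : ∀ x, 0 ≤ T' x := fun x => by positivity
  have hT'1 : ∀ x, T' x ≤ 1 / s := fun x => by
    have : 1 / (1 + ((w x - k) / s) ^ 2) ≤ 1 := by
      rw [div_le_one (by positivity)]
      linarith [sq_nonneg ((w x - k) / s)]
    calc T' x ≤ 1 * (1 / s) := mul_le_mul_of_nonneg_right this (by positivity)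
      _ = 1 / s := one_mul _
  set φ : E2 → ℝ := fun x => TT s k (w x) * ψ x with hφ
  have hφs : ContDiff ℝ ∞ φ := ((TT_contDiff s k).comp hw).mul hψ
  have hφc : HasCompactSupport φ := hs.mul_left
  have hφt : tsupport φ ⊆ ball x0 R := (tsupport_mul_subset_right).trans hsub
  have hgφ : ∀ x, gradient φ x = (ψ x * T' x) • gradient w x + TT s k (w x) • gradient ψ x := by
    intro x
    have e1 : DifferentiableAt ℝ (fun x => TT s k (w x)) x :=
      ((TT_contDiff s k).comp hw).differentiable (by simp) x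
    rw [hφ, grad_mul e1 (smooth_diff hψ x), grad_comp (smooth_diff hw x) (TT_hasDerivAt s k (w x)),
      smul_smul, add_comm]
  -- integrability helper
  have I1 : Integrable (fun x => ψ x * T' x * inner ℝ (a x (gradient w x)) (gradient w x)) := by
    apply integrable_cc
    · have : Continuous (fun x => a x (gradient w x)) := hac.clm_apply hgw
      exact (hψ.continuous.mul hT'c).mul (this.inner hgw)
    · exact (hs.mul_right).mul_right
  have I2 : Integrable (fun x => TT s k (w x) * inner ℝ (a x (gradient w x)) (gradient ψ x)) := by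
    apply integrable_cc
    · have : Continuous (fun x => a x (gradient w x)) := hac.clm_apply hgw
      exact hTc.mul (this.inner hgψ)
    · have : HasCompactSupport (fun x => inner ℝ (a x (gradient w x)) (gradient ψ x)) := by
        apply hsg.mono'
        intro x hx
        apply subset_tsupport
        rw [Function.mem_support] at hx ⊢
        intro h
        apply hx
        rw [h, inner_zero_right]
      exact this.mul_left
  have e1 : ∫ x, inner ℝ (a x (gradient w x)) (gradient φ x)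
      = (∫ x, ψ x * T' x * inner ℝ (a x (gradient w x)) (gradient w x))
        + ∫ x, TT s k (w x) * inner ℝ (a x (gradient w x)) (gradient ψ x) := by
    rw [← integral_add I1 I2]
    refine integral_congr_ae (Eventually.of_forall (fun x => ?_))
    simp only
    rw [hgφ, inner_add_right, inner_smul_right, inner_smul_right]
  have IX : Integrable (fun x => ψ x * T' x * ‖gradient w x‖ ^ 2) := by
    apply integrable_cc
    · exact (hψ.continuous.mul hT'c).mul (hgw.norm.pow 2)
    · exact (hs.mul_right).mul_right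
  have hX : XX ψ w s k = ∫ x, ψ x * T' x * ‖gradient w x‖ ^ 2 := rfl
  have hX0 : 0 ≤ XX ψ w s k := by
    rw [hX]
    exact integral_nonneg (fun x => by have := h0 x; positivity)
  have e2 : 1 / 2 * XX ψ w s k ≤ ∫ x, ψ x * T' x * inner ℝ (a x (gradient w x)) (gradient w x) := by
    rw [hX, ← integral_const_mul]
    apply integral_mono (IX.const_mul _) I1
    intro x
    simp only
    by_cases hx : x ∈ ball x0 R
    · have h3 := near_id_inner (h.a_near x hx) (gradient w x) (gradient w x)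
      rw [real_inner_self_eq_norm_sq] at h3
      have h4 := (abs_le.mp h3).1
      have h5 : 1 / 2 * ‖gradient w x‖ ^ 2 ≤ inner ℝ (a x (gradient w x)) (gradient w x) := by
        nlinarith [norm_nonneg (gradient w x)]
      have h6 : 0 ≤ ψ x * T' x := mul_nonneg (h0 x) (hT'0 x)
      calc 1 / 2 * (ψ x * T' x * ‖gradient w x‖ ^ 2) = ψ x * T' x * (1 / 2 * ‖gradient w x‖ ^ 2) := by ring
        _ ≤ _ := mul_le_mul_of_nonneg_left h5 h6
    · have : ψ x = 0 := image_eq_zero_of_notMem_tsupport (fun h => hx (hsub h))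
      rw [this]
      simp
  have e3 : ∫ x, Real.exp (w x) * φ x ≤ Real.pi * ∫ x, Real.exp (w x) * ψ x := by
    rw [← integral_const_mul]
    apply integral_mono
    · exact integrable_cc (by fun_prop) hφc.mul_left
    · exact (integrable_cc (by fun_prop) hs.mul_left).const_mul _
    · intro x
      simp only [hφ]
      have h3 := TT_le s k (w x)
      have h4 : 0 ≤ Real.exp (w x) * ψ x := mul_nonneg (Real.exp_pos _).le (h0 x)
      nlinarith
  set D := ∫ x, ‖gradient ψ x‖ ^ 2 with hD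
  have hD0 : 0 ≤ D := integral_nonneg (fun x => by positivity)
  have ID : Integrable (fun x => ‖gradient ψ x‖ ^ 2) := by
    apply integrable_cc (by fun_prop)
    exact (hsg.norm).comp_left (g := fun t : ℝ => t ^ 2) (by norm_num)
  have e4 : ∫ x, ‖gradient φ x‖ ^ 2 ≤ 2 / s * XX ψ w s k + 2 * Real.pi ^ 2 * D := by
    rw [hX, ← integral_const_mul, hD, ← integral_const_mul, ← integral_add (IX.const_mul _) (ID.const_mul _)]
    apply integral_mono
    · have hgφc : Continuous (gradient φ) := smooth_grad_cont hφs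
      apply integrable_cc (by fun_prop)
      exact ((hasCompactSupport_grad hφc).norm).comp_left (g := fun t : ℝ => t ^ 2) (by norm_num)
    · exact (IX.const_mul _).add (ID.const_mul _)
    · intro x
      simp only
      rw [hgφ]
      have h3 : ‖(ψ x * T' x) • gradient w x + TT s k (w x) • gradient ψ x‖
          ≤ (ψ x * T' x) * ‖gradient w x‖ + Real.pi * ‖gradient ψ x‖ := by
        refine (norm_add_le _ _).trans ?_
        rw [norm_smul, norm_smul, Real.norm_of_nonneg (mul_nonneg (h0 x) (hT'0 x)),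
          Real.norm_of_nonneg (TT_nonneg s k _)]
        gcongr
        exact TT_le s k _
      have h4 : ((ψ x * T' x) * ‖gradient w x‖) ^ 2 ≤ 1 / s * (ψ x * T' x * ‖gradient w x‖ ^ 2) := by
        have h5 : (ψ x * T' x) * (ψ x * T' x) ≤ (1 / s) * (ψ x * T' x) := by
          apply mul_le_mul_of_nonneg_right _ (mul_nonneg (h0 x) (hT'0 x))
          calc ψ x * T' x ≤ 1 * (1 / s) := mul_le_mul (h1 x) (hT'1 x) (hT'0 x) zero_le_one
            _ = 1 / s := one_mul _
        nlinarith [sq_nonneg ‖gradient w x‖]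
      have h5 : ‖(ψ x * T' x) • gradient w x + TT s k (w x) • gradient ψ x‖ ^ 2
          ≤ ((ψ x * T' x) * ‖gradient w x‖ + Real.pi * ‖gradient ψ x‖) ^ 2 :=
        pow_le_pow_left₀ (norm_nonneg _) h3 2
      have h6 : ((ψ x * T' x) * ‖gradient w x‖ + Real.pi * ‖gradient ψ x‖) ^ 2
          ≤ 2 * ((ψ x * T' x) * ‖gradient w x‖) ^ 2 + 2 * (Real.pi * ‖gradient ψ x‖) ^ 2 := by
        nlinarith [sq_nonneg ((ψ x * T' x) * ‖gradient w x‖ - Real.pi * ‖gradient ψ x‖)]
      calc _ ≤ 2 * ((ψ x * T' x) * ‖gradient w x‖) ^ 2 + 2 * (Real.pi * ‖gradient ψ x‖) ^ 2 := h5.trans h6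
        _ ≤ 2 * (1 / s * (ψ x * T' x * ‖gradient w x‖ ^ 2)) + 2 * (Real.pi * ‖gradient ψ x‖) ^ 2 := by
            linarith
        _ = _ := by ring
  have e5 : ε * √(∫ x, ‖gradient φ x‖ ^ 2) ≤ XX ψ w s k / 4 + 2 * ε ^ 2 / s + 5 * ε * √D := by
    have q1 : √(∫ x, ‖gradient φ x‖ ^ 2) ≤ √(2 / s * XX ψ w s k) + √(2 * Real.pi ^ 2 * D) :=
      (Real.sqrt_le_sqrt e4).trans (sqrt_add_le' (by positivity) (by positivity))
    have q2 : √(2 * Real.pi ^ 2 * D) ≤ 5 * √D := by
      rw [show 2 * Real.pi ^ 2 * D = (√2 * Real.pi) ^ 2 * D by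
        rw [mul_pow, Real.sq_sqrt (by norm_num)], Real.sqrt_mul (by positivity), Real.sqrt_sq (by positivity)]
      apply mul_le_mul_of_nonneg_right _ (Real.sqrt_nonneg _)
      have h2 : √2 ≤ 1.5 := by
        rw [show (1.5 : ℝ) = √(1.5 ^ 2) by rw [Real.sqrt_sq (by norm_num)]]
        exact Real.sqrt_le_sqrt (by norm_num)
      have h3 := Real.pi_lt_d2
      nlinarith [Real.sqrt_nonneg 2]
    have q3 : ε * √(2 / s * XX ψ w s k) ≤ XX ψ w s k / 4 + 2 * ε ^ 2 / s := by
      have q4 : 2 * ((√(XX ψ w s k) / 2) * (√(2 / s) * ε)) ≤ (√(XX ψ w s k) / 2) ^ 2 + (√(2 / s) * ε) ^ 2 := by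
        nlinarith [sq_nonneg (√(XX ψ w s k) / 2 - √(2 / s) * ε)]
      rw [Real.sqrt_mul (by positivity)]
      calc ε * (√(2 / s) * √(XX ψ w s k)) = 2 * ((√(XX ψ w s k) / 2) * (√(2 / s) * ε)) := by ring
        _ ≤ (√(XX ψ w s k) / 2) ^ 2 + (√(2 / s) * ε) ^ 2 := q4
        _ = _ := by
            rw [div_pow, mul_pow, Real.sq_sqrt hX0, Real.sq_sqrt (by positivity)]
            ring
    calc ε * √(∫ x, ‖gradient φ x‖ ^ 2)
        ≤ ε * (√(2 / s * XX ψ w s k) + √(2 * Real.pi ^ 2 * D)) := mul_le_mul_of_nonneg_left q1 hε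
      _ = ε * √(2 / s * XX ψ w s k) + ε * √(2 * Real.pi ^ 2 * D) := by ring
      _ ≤ (XX ψ w s k / 4 + 2 * ε ^ 2 / s) + ε * (5 * √D) :=
          add_le_add q3 (mul_le_mul_of_nonneg_left q2 hε)
      _ = _ := by ring
  have e6 := h.weak φ hφs hφc hφt
  rw [e1] at e6
  have e7 := (abs_le.mp e6).2
  have e8 := neg_abs_le (∫ x, TT s k (w x) * inner ℝ (a x (gradient w x)) (gradient ψ x))
  linarith

end Pool.Agent.Helper41.PS
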