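import Pool.Agent.Helper41.PS.Osc

/-!
# Rescaling and the Morrey bound for the gradient
-/

open MeasureTheory Set Filter Topology Metric
open scoped ContDiff ENNReal NNReal

namespace Pool.Agent.Helper41.PS

lemma integral_affine (f : E2 → ℝ) {s : ℝ} (hs : 0 < s) (x : E2) :
    ∫ y, f (x + s • y) = (s ^ 2)⁻¹ * ∫ z, f z := by
  have h1 := Measure.integral_comp_smul (volume : Measure E2) (fun z => f (x + z)) s
  rw [finrank_euclideanSpace, Fintype.card_fin, abs_of_pos (by positivity), smul_eq_mul,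
    integral_add_left_eq_self (fun z => f z) x] at h1
  exact h1

lemma mem_ball_affine {s : ℝ} (hs : 0 < s) (x y y0 : E2) (ρ : ℝ) :
    x + s • y ∈ ball (x + s • y0) (s * ρ) ↔ y ∈ ball y0 ρ := by
  rw [mem_ball, mem_ball, dist_add_left, dist_smul₀, Real.norm_of_nonneg hs.le]
  exact mul_lt_mul_iff_right₀ hs

lemma setIntegral_affine_ball (f : E2 → ℝ) {s : ℝ} (hs : 0 < s) (x y0 : E2) (ρ : ℝ) :
    ∫ y in ball y0 ρ, f (x + s • y) = (s ^ 2)⁻¹ * ∫ z in ball (x + s • y0) (s * ρ), f z := by
  have h := integral_affine (fun z => (ball (x + s • y0) (s * ρ)).indicator f z) hs x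
  rw [integral_indicator measurableSet_ball] at h
  rw [← h, ← integral_indicator measurableSet_ball]
  refine integral_congr_ae (Eventually.of_forall (fun y => ?_))
  simp only
  by_cases hy : y ∈ ball y0 ρ
  · rw [indicator_of_mem hy, indicator_of_mem ((mem_ball_affine hs x y y0 ρ).mpr hy)]
  · rw [indicator_of_notMem hy, indicator_of_notMem (fun h => hy ((mem_ball_affine hs x y y0 ρ).mp h))]

lemma integral_affine' (f : E2 → ℝ) {s : ℝ} (hs : 0 < s) (x : E2) {g : E2 → ℝ}
    (hg : ∀ y, g y = s ^ 2 * f (x + s • y)) : ∫ y, g y = ∫ z, f z := by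
  rw [integral_congr_ae (Eventually.of_forall hg), integral_const_mul, integral_affine f hs x,
    ← mul_assoc, mul_inv_cancel₀ (by positivity), one_mul]

/-- The rescaled function. -/
noncomputable def resc (x : E2) (s : ℝ) (w : E2 → ℝ) (y : E2) : ℝ := w (x + s • y) + 2 * Real.log s

lemma exp_resc (x : E2) {s : ℝ} (hs : 0 < s) (w : E2 → ℝ) (y : E2) :
    Real.exp (resc x s w y) = s ^ 2 * Real.exp (w (x + s • y)) := by
  rw [resc, Real.exp_add, mul_comm]
  congr 1
  rw [← Real.exp_log (pow_pos hs 2), Real.log_pow]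
  norm_num

lemma resc_contDiff {n : ℕ∞} (x : E2) (s : ℝ) {w : E2 → ℝ} (hw : ContDiff ℝ n w) :
    ContDiff ℝ n (resc x s w) := by
  unfold resc
  exact (hw.comp (contDiff_const.add (contDiff_const_smul s))).add contDiff_const

lemma grad_resc (x : E2) (s : ℝ) {w : E2 → ℝ} (hw : ContDiff ℝ 1 w) (y : E2) :
    gradient (resc x s w) y = s • gradient w (x + s • y) := by
  unfold resc
  rw [grad_add_const, grad_affine x s y ((hw.differentiable (by simp)) _)]

lemma mass_resc (x : E2) {s : ℝ} (hs : 0 < s) (w : E2 → ℝ) (y0 : E2) (ρ : ℝ) :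
    ∫ y in ball y0 ρ, Real.exp (resc x s w y) = ∫ z in ball (x + s • y0) (s * ρ), Real.exp (w z) := by
  simp_rw [exp_resc x hs]
  rw [integral_const_mul, setIntegral_affine_ball (fun z => Real.exp (w z)) hs, ← mul_assoc,
    mul_inv_cancel₀ (by positivity), one_mul]

lemma gradint_resc (x : E2) {s : ℝ} (hs : 0 < s) {w : E2 → ℝ} (hw : ContDiff ℝ 1 w) (y0 : E2) (ρ : ℝ) :
    ∫ y in ball y0 ρ, ‖fderiv ℝ (resc x s w) y‖
      = s⁻¹ * ∫ z in ball (x + s • y0) (s * ρ), ‖fderiv ℝ w z‖ := by
  have h1 : ∀ y, ‖fderiv ℝ (resc x s w) y‖ = s * ‖fderiv ℝ w (x + s • y)‖ := by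
    intro y
    rw [← norm_grad, grad_resc x s hw, norm_smul, Real.norm_of_nonneg hs.le, norm_grad]
  simp_rw [h1]
  rw [integral_const_mul, setIntegral_affine_ball (fun z => ‖fderiv ℝ w z‖) hs]
  field_simp

lemma Adm.resc {a : E2 → E2 →L[ℝ] E2} {w : E2 → ℝ} {η ε Λ : ℝ} {x0 : E2} {R : ℝ}
    (h : Adm a w η ε Λ x0 R) (x : E2) {s : ℝ} (hs : 0 < s) {R' : ℝ}
    (hsub : ball x (s * R') ⊆ ball x0 R) :
    Adm (fun y => a (x + s • y)) (resc x s w) η ε Λ 0 R' where
  a_cont := h.a_cont.comp (by fun_prop)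
  a_near := by
    intro y hy
    apply h.a_near
    apply hsub
    have := (mem_ball_affine hs x y 0 R').mpr hy
    simpa using this
  smooth := by
    have := resc_contDiff x s (n := ⊤) h.smooth
    exact this
  weak := by
    intro v hv hvs hvt
    set V : E2 → ℝ := fun z => v (s⁻¹ • (z - x)) with hV
    have hVs : ContDiff ℝ ∞ V := hv.comp ((contDiff_const_smul _).comp (contDiff_id.sub contDiff_const))
    have hhom : V = v ∘ (fun z => s⁻¹ • (z - x)) := rfl
    let e : E2 ≃ₜ E2 := (Homeomorph.subRight x).trans (Homeomorph.smulOfNeZero s⁻¹ (inv_ne_zero hs.ne'))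
    have he : ∀ z, e z = s⁻¹ • (z - x) := fun z => rfl
    have hVe : V = v ∘ e := by
      ext z
      rw [Function.comp_apply, he]
    have hVc : HasCompactSupport V := by
      rw [hVe]
      exact hvs.comp_homeomorph e
    have hVt : tsupport V ⊆ ball x0 R := by
      rw [hVe, tsupport_comp_eq_preimage v e]
      intro z hz
      have h1 : e z ∈ ball (0 : E2) R' := hvt hz
      apply hsub
      rw [he, mem_ball, dist_zero_right, norm_smul, norm_inv, Real.norm_of_nonneg hs.le,
        inv_mul_lt_iff₀ hs] at h1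
      rw [mem_ball, dist_eq_norm]
      exact h1
    have key := h.weak V hVs hVc hVt
    have hVy : ∀ y, V (x + s • y) = v y := by
      intro y
      simp only [hV]
      congr 1
      rw [add_sub_cancel_left, smul_smul, inv_mul_cancel₀ hs.ne', one_smul]
    have hgV : ∀ y, gradient v y = s • gradient V (x + s • y) := by
      intro y
      have h1 : v = fun y => V (x + s • y) := by
        ext y
        rw [hVy]
      conv_lhs => rw [h1]
      rw [grad_affine x s y (smooth_diff hVs _)]
    have hw1 : ContDiff ℝ 1 w := h.smooth.of_le (by norm_cast)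
    have e1 : ∫ y, inner ℝ (a (x + s • y) (gradient (PS.resc x s w) y)) (gradient v y)
        = ∫ z, inner ℝ (a z (gradient w z)) (gradient V z) := by
      apply integral_affine' (fun z => inner ℝ (a z (gradient w z)) (gradient V z)) hs x
      intro y
      rw [grad_resc x s hw1, hgV, map_smul, inner_smul_left, inner_smul_right]
      simp only [conj_trivial]
      ring
    have e2 : ∫ y, Real.exp (PS.resc x s w y) * v y = ∫ z, Real.exp (w z) * V z := by
      apply integral_affine' (fun z => Real.exp (w z) * V z) hs x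
      intro y
      rw [exp_resc x hs, hVy]
      ring
    have e3 : ∫ y, ‖gradient v y‖ ^ 2 = ∫ z, ‖gradient V z‖ ^ 2 := by
      apply integral_affine' (fun z => ‖gradient V z‖ ^ 2) hs x
      intro y
      rw [hgV, norm_smul, mul_pow, Real.norm_of_nonneg hs.le]
    rw [e1, e2, e3]
    exact key
  mass := by
    rw [mass_resc x hs]
    have hw := h.smooth.continuous
    refine le_trans (setIntegral_mono_set ?_ ?_ ?_) h.mass
    · exact intOn_ball (by fun_prop) _ _
    · exact Eventually.of_forall (fun x => (Real.exp_pos _).le)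
    · rw [smul_zero, add_zero]
      exact Eventually.of_forall hsub

lemma chi_integral_pos : 0 < ∫ x, chi 2 x := by
  have h0 : 0 < ∫ x in ball (0 : E2) 2, (1 : ℝ) := by
    rw [setIntegral_const, volume_ball_real 0 (by norm_num)]
    have := Real.pi_pos
    simp only [smul_eq_mul]
    positivity
  refine lt_of_lt_of_le h0 ?_
  rw [← integral_indicator measurableSet_ball]
  apply integral_mono
  · rw [integrable_indicator_iff measurableSet_ball]
    exact intOn_ball continuous_const _ _
  · exact integrable_cc (chi_contDiff 2).continuous (chi_compact (by norm_num))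
  · intro x
    by_cases hx : x ∈ ball (0 : E2) 2
    · simp only [indicator_of_mem hx]
      rw [chi_one 2 (by norm_num)]
      have : ‖x‖ < 2 := by simpa using hx
      exact this.le
    · simp only [indicator_of_notMem hx]
      exact chi_nonneg 2 x

/-- One step of the Campanato type iteration, at unit scale. -/
theorem exists_one_step : ∃ C3 : ℝ, 0 < C3 ∧ ∀ M : ℝ, 6 ≤ M → ∃ CM : ℝ, 0 < CM ∧
    ∀ (a : E2 → E2 →L[ℝ] E2) (w : E2 → ℝ) (η ε Λ : ℝ), Adm a w η ε Λ 0 (2 * M) → 0 ≤ η → η ≤ 1 / 2 →
      0 ≤ ε → ε ≤ 1 →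
      ∫ x in ball (0 : E2) 1, ‖fderiv ℝ w x‖ ≤ CM * (1 + Λ)
        + (CM * η + C3 / M ^ 2) * ∫ x in ball (0 : E2) (2 * M), ‖fderiv ℝ w x‖ := by
  have hpi := Real.pi_pos
  obtain ⟨C, hC, hgrad⟩ := exists_grad_bound
  obtain ⟨C3, hC3, hosc⟩ := exists_osc_dual
  refine ⟨2 * C * C3, by positivity, fun M hM => ?_⟩
  obtain ⟨CM, hCM, hoM⟩ := hosc M hM
  refine ⟨C * (1 + 9 * Real.pi + 4 * CM), by positivity, ?_⟩
  intro a w η ε Λ h hη0 hη hε0 hε
  have hw := h.smooth
  have hwc := hw.continuous
  have hw1 : ContDiff ℝ 1 w := hw.of_le (by norm_cast)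
  have hΛ : 0 ≤ Λ := le_trans (integral_nonneg (fun x => (Real.exp_pos _).le)) h.mass
  set Γ := ∫ x in ball (0 : E2) (2 * M), ‖fderiv ℝ w x‖ with hΓ
  have hΓ0 : 0 ≤ Γ := integral_nonneg (fun x => norm_nonneg _)
  have hsub2 : ball (0 : E2) 2 ⊆ ball 0 (2 * M) := ball_subset_ball (by linarith)
  have hχ := chi_contDiff 2
  have hχc := hχ.continuous
  have hχs := chi_compact (show (0 : ℝ) < 2 by norm_num)
  have hIχ := chi_integral_pos
  -- the constants
  set c := (∫ x, chi 2 x * w x) / ∫ x, chi 2 x with hc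
  set σ : ℝ → ℝ := fun t => t / √(t ^ 2 + 1) with hσ
  have hσs : ContDiff ℝ ∞ σ := by
    apply ContDiff.div contDiff_id
    · apply ContDiff.sqrt (by fun_prop)
      intro t
      positivity
    · intro t
      positivity
  have hσ1 : ∀ t, |σ t| ≤ 1 := by
    intro t
    simp only [hσ]
    rw [abs_div, abs_of_pos (Real.sqrt_pos.mpr (by positivity)), div_le_one (by positivity)]
    apply Real.le_sqrt_of_sq_le
    rw [sq_abs]
    linarith
  have hσt : ∀ t, |t| - 1 ≤ σ t * t := by
    intro t
    simp only [hσ]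
    have h1 : 0 < √(t ^ 2 + 1) := Real.sqrt_pos.mpr (by positivity)
    have h2 : √(t ^ 2 + 1) ≤ |t| + 1 := by
      rw [Real.sqrt_le_iff]
      constructor
      · positivity
      · nlinarith [abs_nonneg t, sq_abs t]
    rw [div_mul_eq_mul_div, le_div_iff₀ h1]
    by_cases h3 : |t| ≤ 1
    · nlinarith [mul_self_nonneg t]
    · push Not at h3
      have h4 : (|t| - 1) * √(t ^ 2 + 1) ≤ (|t| - 1) * (|t| + 1) :=
        mul_le_mul_of_nonneg_left h2 (by linarith)
      nlinarith [sq_abs t]
  set g : E2 → ℝ := fun x => σ (w x - c) with hg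
  have hgs : ContDiff ℝ ∞ g := hσs.comp (hw.sub contDiff_const)
  set κ := (∫ x, chi 2 x * g x) / ∫ x, chi 2 x with hκ
  have iχ : Integrable (fun x => chi 2 x) := integrable_cc hχc hχs
  have iχg : Integrable (fun x => chi 2 x * g x) := integrable_cc (hχc.mul hgs.continuous) hχs.mul_right
  have iχw : Integrable (fun x => chi 2 x * w x) := integrable_cc (hχc.mul hwc) hχs.mul_right
  have hκ1 : |κ| ≤ 1 := by
    rw [hκ, abs_div, abs_of_pos hIχ, div_le_one hIχ, ← Real.norm_eq_abs]
    refine norm_integral_le_of_norm_le iχ (Eventually.of_forall (fun x => ?_))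
    rw [norm_mul, Real.norm_of_nonneg (chi_nonneg 2 x), Real.norm_eq_abs]
    have := hσ1 (w x - c)
    nlinarith [chi_nonneg 2 x]
  set ψ : E2 → ℝ := fun x => 1 / 2 * (chi 2 x * (g x - κ)) with hψ
  have hψs : ContDiff ℝ ∞ ψ := contDiff_const.mul (hχ.mul (hgs.sub contDiff_const))
  have hψc : HasCompactSupport ψ := (hχs.mul_right).mul_left
  have hψ3 : ∀ y, y ∉ closedBall (0 : E2) 3 → ψ y = 0 := by
    intro y hy
    have : chi 2 y = 0 := by
      apply chi_eq_zero (by norm_num)
      rw [mem_closedBall, dist_zero_right, not_le] at hy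
      linarith
    simp only [hψ, this]
    ring
  have hψ1 : ∀ y, |ψ y| ≤ 1 := by
    intro y
    simp only [hψ]
    rw [abs_mul, abs_mul, abs_of_nonneg (chi_nonneg 2 y)]
    have k1 : |g y - κ| ≤ 2 := by
      refine (abs_sub _ _).trans ?_
      have := hσ1 (w y - c)
      simp only [hg]
      linarith
    have k2 := chi_nonneg 2 y
    have k3 := chi_le_one 2 y
    have k4 : |(1 / 2 : ℝ)| = 1 / 2 := by norm_num
    rw [k4]
    nlinarith [abs_nonneg (g y - κ)]
  have hψ0 : ∫ y, ψ y = 0 := by
    simp only [hψ]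
    have k1 : ∀ y, chi 2 y * (g y - κ) = chi 2 y * g y - chi 2 y * κ := fun y => by ring
    simp_rw [integral_const_mul, k1]
    rw [integral_sub iχg (iχ.mul_const κ), integral_mul_const, hκ]
    field_simp
    ring
  have hmain := hoM a w η ε Λ h hη0 hε0 ψ hψs hψc hψ3 hψ1 hψ0
  rw [← hΓ] at hmain
  -- lower bound for the pairing
  have hpair : ∫ x in ball (0 : E2) 2, |w x - c| ≤ 2 * |∫ y, ψ y * w y| + 9 * Real.pi := by
    have k1 : ∫ y, ψ y * w y = 1 / 2 * ∫ y, chi 2 y * (g y * (w y - c)) := by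
      have i1 : Integrable (fun y => chi 2 y * (g y * (w y - c))) :=
        integrable_cc (hχc.mul (hgs.continuous.mul (hwc.sub continuous_const))) hχs.mul_right
      have i2 : Integrable (fun y => chi 2 y * (w y - c)) :=
        integrable_cc (hχc.mul (hwc.sub continuous_const)) hχs.mul_right
      have k2 : ∀ y, ψ y * w y = (1 / 2 * (chi 2 y * (g y * (w y - c))) - 1 / 2 * κ * (chi 2 y * (w y - c)))
          + c * ψ y := by
        intro y
        simp only [hψ]
        ring
      simp_rw [k2]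
      have k3 : ∫ y, chi 2 y * (w y - c) = 0 := by
        have k4 : ∀ y, chi 2 y * (w y - c) = chi 2 y * w y - chi 2 y * c := fun y => by ring
        simp_rw [k4]
        rw [integral_sub iχw (iχ.mul_const c), integral_mul_const, hc]
        field_simp
        ring
      have j1 : Integrable (fun y => 1 / 2 * (chi 2 y * (g y * (w y - c)))) := i1.const_mul _
      have j2 : Integrable (fun y => 1 / 2 * κ * (chi 2 y * (w y - c))) := i2.const_mul _
      have j3 : Integrable (fun y => 1 / 2 * (chi 2 y * (g y * (w y - c))) - 1 / 2 * κ * (chi 2 y * (w y - c))) :=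
        j1.sub j2
      have j4 : Integrable (fun y => c * ψ y) := (integrable_cc hψs.continuous hψc).const_mul _
      rw [integral_add j3 j4, integral_sub j1 j2, integral_const_mul, integral_const_mul, integral_const_mul, k3,
        hψ0]
      ring
    have i1 : Integrable (fun y => chi 2 y * (g y * (w y - c))) :=
      integrable_cc (hχc.mul (hgs.continuous.mul (hwc.sub continuous_const))) hχs.mul_right
    have i3 : Integrable (fun y => chi 2 y * |w y - c|) :=
      integrable_cc (hχc.mul (hwc.sub continuous_const).abs) hχs.mul_right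
    have k5 : ∫ x in ball (0 : E2) 2, |w x - c| ≤ ∫ y, chi 2 y * |w y - c| := by
      rw [← integral_indicator measurableSet_ball]
      apply integral_mono
      · rw [integrable_indicator_iff measurableSet_ball]
        exact intOn_ball (hwc.sub continuous_const).abs _ _
      · exact i3
      · intro x
        by_cases hx : x ∈ ball (0 : E2) 2
        · simp only [indicator_of_mem hx]
          rw [chi_one 2 (by norm_num), one_mul]
          have : ‖x‖ < 2 := by simpa using hx
          exact this.le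
        · simp only [indicator_of_notMem hx]
          exact mul_nonneg (chi_nonneg 2 x) (abs_nonneg _)
    have k6 : ∫ y, chi 2 y * |w y - c| ≤ ∫ y, (chi 2 y * (g y * (w y - c)) + chi 2 y) := by
      apply integral_mono i3 (i1.add iχ)
      intro y
      have := hσt (w y - c)
      have h2 := chi_nonneg 2 y
      simp only [hg, Pi.add_apply]
      nlinarith
    have k7 : ∫ y, chi 2 y ≤ 9 * Real.pi := by
      have e1 : ∫ y, chi 2 y ≤ ∫ y in closedBall (0 : E2) 3, (1 : ℝ) := by
        rw [← integral_indicator measurableSet_closedBall]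
        apply integral_mono iχ
        · rw [integrable_indicator_iff measurableSet_closedBall]
          exact continuous_const.continuousOn.integrableOn_compact (isCompact_closedBall _ _)
        · intro y
          by_cases hy : y ∈ closedBall (0 : E2) 3
          · simp only [indicator_of_mem hy]
            exact chi_le_one 2 y
          · simp only [indicator_of_notMem hy]
            rw [chi_eq_zero (by norm_num)]
            rw [mem_closedBall, dist_zero_right, not_le] at hy
            linarith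
      refine e1.trans (le_of_eq ?_)
      rw [setIntegral_const, smul_eq_mul, mul_one, measureReal_def, Measure.addHaar_closedBall_eq_addHaar_ball,
        ← measureReal_def, volume_ball_real 0 (by norm_num)]
      ring
    rw [integral_add i1 iχ] at k6
    have k8 := le_abs_self (∫ y, ψ y * w y)
    linarith
  have hgb := hgrad a w η ε Λ (h.mono hsub2) hη0 hη hε0 hε c
  have hΓ2 : ∫ x in ball (0 : E2) 2, ‖fderiv ℝ w x‖ ≤ Γ :=
    setIntegral_mono_set (intOn_grad hw1 _ _) (Eventually.of_forall (fun x => norm_nonneg _))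
      (Eventually.of_forall hsub2)
  refine hgb.trans ?_
  have f1 : η * ∫ x in ball (0 : E2) 2, ‖fderiv ℝ w x‖ ≤ η * Γ := mul_le_mul_of_nonneg_left hΓ2 hη0
  have f2 : (1 + Λ + (∫ x in ball (0 : E2) 2, |w x - c|) + η * ∫ x in ball (0 : E2) 2, ‖fderiv ℝ w x‖)
      ≤ (1 + 9 * Real.pi + 4 * CM) * (1 + Λ) + ((1 + 9 * Real.pi + 4 * CM) * η + 2 * C3 / M ^ 2) * Γ := by
    have f3 : 2 * C3 / M ^ 2 * Γ = 2 * (C3 / M ^ 2 * Γ) := by ring
    have f4 : CM * (Λ + ε + η * Γ) ≤ CM * (1 + Λ) + CM * (η * Γ) := by nlinarith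
    have f5 : 0 ≤ η * Γ := by positivity
    have f6 : 0 ≤ CM * (η * Γ) := by positivity
    have f7 : 0 ≤ Real.pi * (η * Γ) := by positivity
    have f8 : 0 ≤ CM * Λ := by positivity
    have f9 : 0 ≤ Real.pi * Λ := by positivity
    nlinarith
  calc C * (1 + Λ + (∫ x in ball (0 : E2) 2, |w x - c|) + η * ∫ x in ball (0 : E2) 2, ‖fderiv ℝ w x‖)
      ≤ C * ((1 + 9 * Real.pi + 4 * CM) * (1 + Λ) + ((1 + 9 * Real.pi + 4 * CM) * η + 2 * C3 / M ^ 2) * Γ) :=
        mul_le_mul_of_nonneg_left f2 hC.le
    _ = _ := by ring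

/-- Morrey bound for the gradient at all small scales. -/
theorem exists_morrey : ∃ η0 C : ℝ, 0 < η0 ∧ η0 ≤ 1 / 2 ∧ 0 < C ∧
    ∀ (a : E2 → E2 →L[ℝ] E2) (w : E2 → ℝ) (η ε Λ : ℝ) (x0 : E2) (R : ℝ), Adm a w η ε Λ x0 R →
      0 < R → 0 ≤ η → η ≤ η0 → 0 ≤ ε → ε ≤ 1 →
      ∀ x ∈ ball x0 (R / 2), ∀ r : ℝ, 0 < r → r ≤ R / 2 →
        ∫ z in ball x r, ‖fderiv ℝ w z‖
          ≤ C * (1 + Λ + R⁻¹ * ∫ z in ball x0 R, ‖fderiv ℝ w z‖) * r := by
  obtain ⟨C3, hC3, hstep⟩ := exists_one_step
  set M : ℝ := max 6 (8 * C3) with hM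
  have hM6 : 6 ≤ M := le_max_left _ _
  have hM8 : 8 * C3 ≤ M := le_max_right _ _
  have hM0 : 0 < M := by linarith
  obtain ⟨CM, hCM, hs⟩ := hstep M hM6
  refine ⟨min (1 / 2) (1 / (8 * M * CM)), max (2 * CM) (4 * M), by positivity, min_le_left _ _,
    by positivity, ?_⟩
  intro a w η ε Λ x0 R h hR hη0 hη hε0 hε x hx
  have hηh : η ≤ 1 / 2 := hη.trans (min_le_left _ _)
  have hη8 : η ≤ 1 / (8 * M * CM) := hη.trans (min_le_right _ _)
  have hw1 : ContDiff ℝ 1 w := h.smooth.of_le (by norm_cast)
  have hΛ : 0 ≤ Λ := le_trans (integral_nonneg (fun x => (Real.exp_pos _).le)) h.mass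
  set Γ := ∫ z in ball x0 R, ‖fderiv ℝ w z‖ with hΓ
  have hΓ0 : 0 ≤ Γ := integral_nonneg (fun x => norm_nonneg _)
  have hsubr : ∀ r, r ≤ R / 2 → ball x r ⊆ ball x0 R := by
    intro r hr
    apply ball_subset_ball'
    rw [mem_ball] at hx
    linarith
  set A := 2 * (CM * (1 + Λ)) + 4 * M * (R⁻¹ * Γ) with hA
  have hA0 : 0 ≤ A := by positivity
  have base : ∀ r : ℝ, 0 < r → r ≤ R / 2 → R / 2 < 2 * M * r →
      ∫ z in ball x r, ‖fderiv ℝ w z‖ ≤ A * r := by
    intro r hr hrR hlow
    have h1 : ∫ z in ball x r, ‖fderiv ℝ w z‖ ≤ Γ :=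
      setIntegral_mono_set (intOn_grad hw1 _ _) (Eventually.of_forall (fun x => norm_nonneg _))
        (Eventually.of_forall (hsubr r hrR))
    have h2 : Γ ≤ 4 * M * (R⁻¹ * Γ) * r := by
      have h3 : 1 ≤ 4 * M * R⁻¹ * r := by
        have h4 : 4 * M * R⁻¹ * r = (4 * M * r) / R := by
          field_simp
        rw [h4, le_div_iff₀ hR]
        linarith
      calc Γ = 1 * Γ := (one_mul _).symm
        _ ≤ (4 * M * R⁻¹ * r) * Γ := mul_le_mul_of_nonneg_right h3 hΓ0
        _ = _ := by ring
    have h5 : 0 ≤ 2 * (CM * (1 + Λ)) * r := by positivity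
    calc ∫ z in ball x r, ‖fderiv ℝ w z‖ ≤ Γ := h1
      _ ≤ 4 * M * (R⁻¹ * Γ) * r := h2
      _ ≤ A * r := by
        rw [hA]
        nlinarith
  have key : ∀ n : ℕ, ∀ r : ℝ, 0 < r → r ≤ R / 2 → R / 2 < (2 * M) ^ (n + 1) * r →
      ∫ z in ball x r, ‖fderiv ℝ w z‖ ≤ A * r := by
    intro n
    induction n with
    | zero =>
      intro r hr hrR hlow
      exact base r hr hrR (by simpa using hlow)
    | succ n ih =>
      intro r hr hrR hlow
      by_cases hcase : R / 2 < 2 * M * r
      · exact base r hr hrR hcase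
      · push Not at hcase
        have h1 := ih (2 * M * r) (by positivity) hcase (by
          calc R / 2 < (2 * M) ^ (n + 1 + 1) * r := hlow
            _ = (2 * M) ^ (n + 1) * (2 * M * r) := by ring)
        have hsub : ball x (r * (2 * M)) ⊆ ball x0 R := by
          apply hsubr
          linarith
        have h2 := hs _ _ η ε Λ (h.resc x hr hsub) hη0 hηh hε0 hε
        rw [gradint_resc x hr hw1, gradint_resc x hr hw1, smul_zero, add_zero, mul_one] at h2
        have e1 : r * (2 * M) = 2 * M * r := by ring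
        rw [e1] at h2
        have h3 : (CM * η + C3 / M ^ 2) * (2 * M) ≤ 1 / 2 := by
          have h4 : CM * η * (2 * M) ≤ 1 / 4 := by
            have h5 : CM * η ≤ CM * (1 / (8 * M * CM)) := mul_le_mul_of_nonneg_left hη8 hCM.le
            have h6 : CM * (1 / (8 * M * CM)) * (2 * M) = 1 / 4 := by
              field_simp
              norm_num
            calc CM * η * (2 * M) ≤ CM * (1 / (8 * M * CM)) * (2 * M) :=
                  mul_le_mul_of_nonneg_right h5 (by positivity)
              _ = 1 / 4 := h6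
          have h7 : C3 / M ^ 2 * (2 * M) ≤ 1 / 4 := by
            have h8 : C3 / M ^ 2 * (2 * M) = 2 * C3 / M := by
              field_simp
            rw [h8, div_le_iff₀ hM0]
            linarith
          linarith
        have h9 : r⁻¹ * ∫ z in ball x r, ‖fderiv ℝ w z‖ ≤ A := by
          refine h2.trans ?_
          have h10 : r⁻¹ * ∫ z in ball x (2 * M * r), ‖fderiv ℝ w z‖ ≤ A * (2 * M) := by
            rw [inv_mul_le_iff₀ hr]
            calc ∫ z in ball x (2 * M * r), ‖fderiv ℝ w z‖ ≤ A * (2 * M * r) := h1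
              _ = _ := by ring
          have h11 : (CM * η + C3 / M ^ 2) * (r⁻¹ * ∫ z in ball x (2 * M * r), ‖fderiv ℝ w z‖)
              ≤ 1 / 2 * A := by
            calc (CM * η + C3 / M ^ 2) * (r⁻¹ * ∫ z in ball x (2 * M * r), ‖fderiv ℝ w z‖)
                ≤ (CM * η + C3 / M ^ 2) * (A * (2 * M)) := mul_le_mul_of_nonneg_left h10 (by positivity)
              _ = ((CM * η + C3 / M ^ 2) * (2 * M)) * A := by ring
              _ ≤ 1 / 2 * A := mul_le_mul_of_nonneg_right h3 hA0
          have h12 : 0 ≤ 4 * M * (R⁻¹ * Γ) := by positivity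
          rw [hA] at h11 ⊢
          linarith
        rwa [inv_mul_le_iff₀ hr, mul_comm r A] at h9
  intro r hr hrR
  obtain ⟨n, hn⟩ := pow_unbounded_of_one_lt (R / 2 / r) (show (1 : ℝ) < 2 * M by linarith)
  have h1 := key n r hr hrR (by
    rw [div_lt_iff₀ hr] at hn
    refine hn.trans_le (mul_le_mul_of_nonneg_right ?_ hr.le)
    exact pow_le_pow_right₀ (by linarith) (Nat.le_succ n))
  refine h1.trans (mul_le_mul_of_nonneg_right ?_ hr.le)
  have h2 : 2 * CM ≤ max (2 * CM) (4 * M) := le_max_left _ _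
  have h3 : 4 * M ≤ max (2 * CM) (4 * M) := le_max_right _ _
  have h4 : 0 ≤ R⁻¹ * Γ := by positivity
  rw [hA]
  nlinarith

end Pool.Agent.Helper41.PS
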