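import Pool.Agent.Helper41.PS.Virial1
import Pool.Agent.Helper41.PS.Cutoff

/-!
# The virial identity
-/

open MeasureTheory Set Filter Topology Metric
open scoped ContDiff ENNReal NNReal

namespace Pool.Agent.Helper41.PS

/-- The mass of a centred disc. -/
noncomputable def ms (w : E2 → ℝ) (r : ℝ) : ℝ := ∫ x in ball (0 : E2) r, Real.exp (w x)

lemma ms_nonneg (w : E2 → ℝ) (r : ℝ) : 0 ≤ ms w r := integral_nonneg (fun x => (Real.exp_pos _).le)

lemma ms_mono {w : E2 → ℝ} (hw : Continuous w) {r s : ℝ} (hrs : r ≤ s) : ms w r ≤ ms w s :=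
  setIntegral_mono_set (intOn_ball (by fun_prop) _ _) (Eventually.of_forall (fun x => (Real.exp_pos _).le))
    (Eventually.of_forall (ball_subset_ball hrs))

lemma ann_eq (S : ℝ) : ann S = ball (0 : E2) (2 * S) \ ball 0 S := by
  ext x
  simp only [ann, mem_ofPred_eq, Set.mem_sdiff, mem_ball, dist_zero_right, not_lt]
  exact and_comm

lemma ms_ann {w : E2 → ℝ} (hw : Continuous w) {S : ℝ} (hS : 0 ≤ S) :
    ∫ x in ann S, Real.exp (w x) = ms w (2 * S) - ms w S := by
  rw [ann_eq, setIntegral_sdiff measurableSet_ball (intOn_ball (by fun_prop) _ _)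
    (ball_subset_ball (by linarith))]
  rfl

/-- First main term of the virial identity. -/
lemma T1_bound {G : ℝ} (hG : ∀ M : ℝ, 0 < M → ∀ x, ‖gradient (chi M) x‖ ≤ G / M) {w : E2 → ℝ}
    (hw : ContDiff ℝ ∞ w) {S : ℝ} (hS : 0 < S) :
    |(∫ x, (Real.exp (w x) * chi S x) * inner ℝ x (gradient w x)) + 2 * ms w S|
      ≤ (2 + 2 * G) * (ms w (2 * S) - ms w S) := by
  have hG0 : 0 ≤ G := by
    have := (norm_nonneg _).trans (hG 1 one_pos 0)
    simpa using this
  have hwc := hw.continuous
  have hχ := chi_contDiff S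
  have hχs := chi_compact hS
  have hχc := hχ.continuous
  have hgχ := smooth_grad_cont hχ
  have hexp : ContDiff ℝ ∞ (fun x => Real.exp (w x)) := hw.exp
  have hge : ∀ x, gradient (fun x => Real.exp (w x)) x = Real.exp (w x) • gradient w x := by
    intro x
    exact grad_comp (T := Real.exp) (smooth_diff hw x) (Real.hasDerivAt_exp _)
  have e1 : ∫ x, (Real.exp (w x) * chi S x) * inner ℝ x (gradient w x)
      = - ∫ x, Real.exp (w x) * (2 * chi S x + inner ℝ x (gradient (chi S) x)) := by
    rw [← div_ibp (hχ.of_le (by norm_cast)) hχs (hexp.of_le (by norm_cast))]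
    refine integral_congr_ae (Eventually.of_forall (fun x => ?_))
    simp only
    rw [hge, inner_smul_right]
    ring
  have hI : Integrable (fun x => Real.exp (w x) * (2 * chi S x + inner ℝ x (gradient (chi S) x))) := by
    apply integrable_cc (by fun_prop)
    apply HasCompactSupport.mul_left
    apply HasCompactSupport.add (hχs.mul_left)
    apply (hasCompactSupport_grad hχs).mono'
    intro x hx
    apply subset_tsupport
    rw [Function.mem_support] at hx ⊢
    intro h
    apply hx
    rw [h, inner_zero_right]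
  have e2 : ∫ x, Real.exp (w x) * (2 * chi S x + inner ℝ x (gradient (chi S) x))
      = 2 * ms w S + ∫ x in ann S, Real.exp (w x) * (2 * chi S x + inner ℝ x (gradient (chi S) x)) := by
    have h1 : ∫ x, Real.exp (w x) * (2 * chi S x + inner ℝ x (gradient (chi S) x))
        = ∫ x in ball (0 : E2) (2 * S), Real.exp (w x) * (2 * chi S x + inner ℝ x (gradient (chi S) x)) := by
      rw [setIntegral_eq_integral_of_forall_compl_eq_zero]
      intro x hx
      have h2 : 2 * S ≤ ‖x‖ := by
        rw [mem_ball, dist_zero_right, not_lt] at hx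
        exact hx
      have h3 : x ∉ ann S := fun h => absurd h.2 (not_lt.mpr h2)
      rw [chi_eq_zero hS (by linarith), grad_chi_zero hS h3]
      simp
    have h2 : ∫ x in ball (0 : E2) S, Real.exp (w x) * (2 * chi S x + inner ℝ x (gradient (chi S) x))
        = 2 * ms w S := by
      rw [ms, ← integral_const_mul]
      refine setIntegral_congr_fun measurableSet_ball (fun x hx => ?_)
      have h4 : ‖x‖ < S := by simpa using hx
      have h3 : x ∉ ann S := fun h => absurd h.1 (not_le.mpr h4)
      rw [chi_one S hS h4.le, grad_chi_zero hS h3, inner_zero_right]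
      ring
    rw [h1, ann_eq, setIntegral_sdiff measurableSet_ball hI.integrableOn (ball_subset_ball (by linarith)), h2]
    ring
  rw [e1, e2]
  have e3 : -(2 * ms w S + ∫ x in ann S, Real.exp (w x) * (2 * chi S x + inner ℝ x (gradient (chi S) x)))
      + 2 * ms w S = -(∫ x in ann S, Real.exp (w x) * (2 * chi S x + inner ℝ x (gradient (chi S) x))) := by ring
  rw [e3, abs_neg, ← ms_ann hwc hS.le, ← integral_const_mul, ← Real.norm_eq_abs]
  apply norm_integral_le_of_norm_le
  · have : IntegrableOn (fun x => (2 + 2 * G) * Real.exp (w x)) (ball (0 : E2) (2 * S)) :=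
      intOn_ball (by fun_prop) _ _
    exact this.mono_set (ann_subset_ball S)
  · filter_upwards [ae_restrict_mem (measurableSet_ann S)] with x hx
    rw [norm_mul, Real.norm_of_nonneg (Real.exp_pos _).le, mul_comm]
    apply mul_le_mul_of_nonneg_right _ (Real.exp_pos _).le
    have h1 := chi_nonneg S x
    have h2 := chi_le_one S x
    have h3 : ‖inner ℝ x (gradient (chi S) x)‖ ≤ 2 * G := by
      refine (norm_inner_le_norm _ _).trans ?_
      calc ‖x‖ * ‖gradient (chi S) x‖ ≤ (2 * S) * (G / S) :=
            mul_le_mul hx.2.le (hG S hS x) (norm_nonneg _) (by positivity)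
        _ = 2 * G := by field_simp
    refine (norm_add_le _ _).trans ?_
    rw [norm_mul, Real.norm_of_nonneg h1, Real.norm_of_nonneg (by norm_num : (0 : ℝ) ≤ 2)]
    linarith

end Pool.Agent.Helper41.PS
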