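import Pool.Agent.Helper41.PS.Radial
import Pool.Agent.Helper41.PS.Virial4
import Pool.Agent.Helper41.PS.Morrey

/-!
# The slope of the weighted averages
-/

open MeasureTheory Set Filter Topology Metric
open scoped ContDiff ENNReal NNReal

namespace Pool.Agent.Helper41.PS

/-- The weighted average over the annulus `1 ≤ |x| ≤ 2`. -/
noncomputable def AA (w : E2 → ℝ) : ℝ := ∫ x, w x * kap x

/-- The weighted average at scale `r`, normalised. -/
noncomputable def bet (w : E2 → ℝ) (r : ℝ) : ℝ := AA (resc 0 r w)

lemma integrable_kap {f : E2 → ℝ} (hf : Continuous f) : Integrable (fun x => f x * kap x) :=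
  integrable_cc (hf.mul kap_contDiff.continuous) kap_compact.mul_left

lemma bet_eq {w : E2 → ℝ} (hw : Continuous w) (r : ℝ) :
    bet w r = (∫ x, w (r • x) * kap x) + 2 * Real.log r := by
  unfold bet AA resc
  have e1 : ∀ x : E2, (w (0 + r • x) + 2 * Real.log r) * kap x
      = w (r • x) * kap x + 2 * Real.log r * kap x := by
    intro x
    rw [zero_add]
    ring
  simp_rw [e1]
  rw [integral_add, integral_const_mul, integral_kap, mul_one]
  · exact integrable_kap (f := fun x => w (r • x)) (by fun_prop)
  · exact (integrable_cc kap_contDiff.continuous kap_compact).const_mul _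

lemma hasDerivAt_bet {w : E2 → ℝ} (hw : ContDiff ℝ ∞ w) (t : ℝ) :
    HasDerivAt (fun t => bet w (Real.exp t))
      ((∫ x, inner ℝ (gradient (resc 0 (Real.exp t) w) x) x * kap x) + 2) t := by
  have hwc := hw.continuous
  have hw1 : ContDiff ℝ 1 w := hw.of_le (by norm_cast)
  have hdc : Continuous (fun z => fderiv ℝ w z) := hw1.continuous_fderiv (by simp)
  have hk := kap_contDiff.continuous
  have hgw := smooth_grad_cont hw
  have e1 : (fun t => bet w (Real.exp t)) = fun t => (∫ x, w (Real.exp t • x) * kap x) + 2 * t := by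
    ext t
    rw [bet_eq hwc, Real.log_exp]
  rw [e1]
  have hcont : Continuous (fun q : ℝ × E2 => inner ℝ (gradient w (Real.exp q.1 • q.2)) (Real.exp q.1 • q.2)) := by
    have : Continuous (fun q : ℝ × E2 => Real.exp q.1 • q.2) := by fun_prop
    exact (hgw.comp this).inner this
  obtain ⟨C, hC⟩ := ((isCompact_closedBall t 1).prod (isCompact_closedBall (0 : E2) 2)).exists_bound_of_continuousOn
    hcont.continuousOn
  have key := hasDerivAt_integral_of_dominated_loc_of_deriv_le (μ := (volume : Measure E2))
    (F := fun t x => w (Real.exp t • x) * kap x)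
    (F' := fun t x => inner ℝ (gradient w (Real.exp t • x)) (Real.exp t • x) * kap x)
    (x₀ := t) (s := ball t 1) (bound := fun x => C * kap x) (ball_mem_nhds t one_pos)
    (Eventually.of_forall (fun s => ?_)) ?_ ?_ ?_ ?_ ?_
  · have h2 := key.2
    have h3 : HasDerivAt (fun t : ℝ => 2 * t) 2 t := by
      simpa using (hasDerivAt_id t).const_mul (2 : ℝ)
    have h4 := h2.add h3
    have e2 : ∫ x, inner ℝ (gradient (resc 0 (Real.exp t) w) x) x * kap x
        = ∫ x, inner ℝ (gradient w (Real.exp t • x)) (Real.exp t • x) * kap x := by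
      refine integral_congr_ae (Eventually.of_forall (fun x => ?_))
      simp only
      rw [grad_resc 0 _ hw1, inner_smul_left, inner_smul_right, zero_add]
      simp
    rw [e2]
    exact h4
  · have : Continuous (fun x : E2 => w (Real.exp s • x) * kap x) := by fun_prop
    exact this.aestronglyMeasurable
  · exact integrable_kap (f := fun x => w (Real.exp t • x)) (by fun_prop)
  · have : Continuous (fun x : E2 => inner ℝ (gradient w (Real.exp t • x)) (Real.exp t • x) * kap x) := by
      have h1 : Continuous (fun x : E2 => Real.exp t • x) := by fun_prop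
      exact ((hgw.comp h1).inner h1).mul hk
    exact this.aestronglyMeasurable
  · refine Eventually.of_forall (fun x s hs => ?_)
    rw [norm_mul, Real.norm_of_nonneg (kap_nonneg x)]
    by_cases hx : x ∈ closedBall (0 : E2) 2
    · exact mul_le_mul_of_nonneg_right (hC (s, x) ⟨ball_subset_closedBall hs, hx⟩) (kap_nonneg x)
    · rw [kap_zero_of_ge, mul_zero, mul_zero]
      rw [mem_closedBall, dist_zero_right, not_le] at hx
      exact hx.le
  · exact (integrable_cc hk kap_compact).const_mul C
  · refine Eventually.of_forall (fun x s _ => ?_)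
    apply HasDerivAt.mul_const
    have h1 : HasDerivAt (fun t : ℝ => Real.exp t • x) (Real.exp s • x) s :=
      (Real.hasDerivAt_exp s).smul_const x
    have h2 := ((smooth_diff hw (Real.exp s • x)).hasFDerivAt).comp_hasDerivAt s h1
    have h3 : inner ℝ (gradient w (Real.exp s • x)) (Real.exp s • x)
        = fderiv ℝ w (Real.exp s • x) (Real.exp s • x) := by
      rw [gradient, InnerProductSpace.toDual_symm_apply]
    rw [h3]
    exact h2

/-- Unit scale slope inequality. -/
lemma exists_slope_unit : ∃ C : ℝ, 0 < C ∧ ∀ (a : E2 → E2 →L[ℝ] E2) (w : E2 → ℝ) (η ε Λ K : ℝ),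
    Adm a w η ε Λ 0 3 → 0 ≤ η → 0 ≤ ε → ∫ x in ball (0 : E2) 3, ‖fderiv ℝ w x‖ ≤ K * 3 →
    (∫ x, inner ℝ (gradient w x) x * kap x) + 2
      ≤ 2 - ms w 1 / (2 * Real.pi) + C * (ε + η * K) := by
  have hpi := Real.pi_pos
  have hφ := phi_contDiff
  have hφs := phi_compact
  have hgφ := smooth_grad_cont hφ
  have hsg := hasCompactSupport_grad hφs
  obtain ⟨G', hG'⟩ := hsg.exists_bound_of_continuous hgφ
  set G := max G' 1 with hGdef
  have hG1 : 1 ≤ G := le_max_right _ _
  have hG : ∀ x, ‖gradient phi x‖ ≤ G := fun x => (hG' x).trans (le_max_left _ _)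
  set D := √(∫ x, ‖gradient phi x‖ ^ 2) with hD
  have hD0 : 0 ≤ D := Real.sqrt_nonneg _
  refine ⟨D + 3 * G, by positivity, ?_⟩
  intro a w η ε Λ K h hη hε hK
  have hK0 : 0 ≤ K := by
    have : 0 ≤ ∫ x in ball (0 : E2) 3, ‖fderiv ℝ w x‖ := integral_nonneg (fun x => norm_nonneg _)
    linarith
  have hw := h.smooth
  have hwc := hw.continuous
  have hw1 : ContDiff ℝ 1 w := hw.of_le (by norm_cast)
  have hgw := smooth_grad_cont hw
  have hac := h.a_cont
  have hsub : tsupport phi ⊆ ball (0 : E2) 3 := phi_tsupport.trans (closedBall_subset_ball (by norm_num))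
  have hcs : ∀ F : E2 → E2, HasCompactSupport (fun x => inner ℝ (F x) (gradient phi x)) := by
    intro F
    apply hsg.mono'
    intro x hx
    apply subset_tsupport
    rw [Function.mem_support] at hx ⊢
    intro h
    apply hx
    rw [h, inner_zero_right]
  have haw : Continuous (fun x => a x (gradient w x)) := hac.clm_apply hgw
  have j1 := integrable_cc (haw.inner hgφ) (hcs _)
  have j2 := integrable_cc (hgw.inner hgφ) (hcs _)
  have q1 := h.weak phi hφ hφs hsub
  rw [← hD] at q1
  have q2 : |(∫ x, inner ℝ (a x (gradient w x)) (gradient phi x)) - ∫ x, inner ℝ (gradient w x) (gradient phi x)|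
      ≤ η * (G * (K * 3)) := by
    rw [← integral_sub j1 j2]
    have j3 : ∫ x, (inner ℝ (a x (gradient w x)) (gradient phi x) - inner ℝ (gradient w x) (gradient phi x))
        = ∫ x in ball (0 : E2) 3, (inner ℝ (a x (gradient w x)) (gradient phi x)
          - inner ℝ (gradient w x) (gradient phi x)) := by
      rw [setIntegral_eq_integral_of_forall_compl_eq_zero]
      intro x hx
      have h1 : gradient phi x = 0 :=
        image_eq_zero_of_notMem_tsupport (fun h => hx (hsub (tsupport_grad_subset _ h)))
      rw [h1]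
      simp
    rw [j3]
    calc |∫ x in ball (0 : E2) 3, (inner ℝ (a x (gradient w x)) (gradient phi x)
          - inner ℝ (gradient w x) (gradient phi x))|
        ≤ ∫ x in ball (0 : E2) 3, η * G * ‖fderiv ℝ w x‖ := by
          rw [← Real.norm_eq_abs]
          apply norm_integral_le_of_norm_le
          · exact (intOn_grad hw1 _ _).const_mul _
          · filter_upwards [ae_restrict_mem measurableSet_ball] with x hx
            refine (near_id_inner (h.a_near x hx) _ _).trans ?_
            rw [norm_grad w x]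
            calc η * (‖fderiv ℝ w x‖ * ‖gradient phi x‖) ≤ η * (‖fderiv ℝ w x‖ * G) := by
                  have := hG x
                  gcongr
              _ = _ := by ring
      _ = η * G * ∫ x in ball (0 : E2) 3, ‖fderiv ℝ w x‖ := integral_const_mul _ _
      _ ≤ η * G * (K * 3) := mul_le_mul_of_nonneg_left hK (by positivity)
      _ = _ := by ring
  have q3 : ms w 1 ≤ ∫ x, Real.exp (w x) * phi x := by
    rw [ms, ← integral_indicator measurableSet_ball]
    apply integral_mono
    · rw [integrable_indicator_iff measurableSet_ball]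
      exact intOn_ball (by fun_prop) _ _
    · have := hφ.continuous
      exact integrable_cc (by fun_prop) hφs.mul_left
    · intro x
      by_cases hx : x ∈ ball (0 : E2) 1
      · simp only [indicator_of_mem hx]
        have : ‖x‖ < 1 := by simpa using hx
        rw [phi_one this.le, mul_one]
      · simp only [indicator_of_notMem hx]
        exact mul_nonneg (Real.exp_pos _).le (phi_nonneg x)
  have q4 : ∫ x, inner ℝ (gradient w x) (gradient phi x)
      = -(2 * Real.pi) * ∫ x, inner ℝ (gradient w x) x * kap x := by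
    rw [← integral_const_mul]
    refine integral_congr_ae (Eventually.of_forall (fun x => ?_))
    simp only
    rw [grad_phi, inner_neg_right, inner_smul_right]
    ring
  rw [q4] at q2
  have q5 := (abs_le.mp q1).1
  have q6 := (abs_le.mp q2).2
  set J := ∫ x, inner ℝ (gradient w x) x * kap x with hJ
  have q7 : 2 * Real.pi * J ≤ -(ms w 1) + ε * D + η * (G * (K * 3)) := by linarith
  have q8 : J ≤ (-(ms w 1) + ε * D + η * (G * (K * 3))) / (2 * Real.pi) := by
    rw [le_div_iff₀ (by positivity)]
    linarith
  have q9 : (-(ms w 1) + ε * D + η * (G * (K * 3))) / (2 * Real.pi)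
      ≤ - (ms w 1 / (2 * Real.pi)) + (D + 3 * G) * (ε + η * K) := by
    have e1 : (-(ms w 1) + ε * D + η * (G * (K * 3))) / (2 * Real.pi)
        = -(ms w 1 / (2 * Real.pi)) + (ε * D + η * (G * (K * 3))) / (2 * Real.pi) := by ring
    rw [e1]
    apply add_le_add le_rfl
    rw [div_le_iff₀ (by positivity)]
    have e2 : ε * D + η * (G * (K * 3)) ≤ (D + 3 * G) * (ε + η * K) := by
      have p1 : 0 ≤ D * (η * K) := by positivity
      have p2 : 0 ≤ G * ε := by positivity
      nlinarith
    have e3 : 0 ≤ (D + 3 * G) * (ε + η * K) := by positivity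
    have hpi3 := Real.pi_gt_three
    nlinarith
  linarith

/-- The slope inequality at all scales. -/
theorem exists_slope : ∃ C : ℝ, 0 < C ∧ ∀ (a : E2 → E2 →L[ℝ] E2) (w : E2 → ℝ) (η ε Λ K R0 m0 r0 r1 : ℝ),
    Adm a w η ε Λ 0 R0 → 0 ≤ η → 0 ≤ ε → 0 < r0 → r0 ≤ r1 → 3 * r1 ≤ R0 →
    (∀ r, r0 ≤ r → r ≤ r1 → ∫ x in ball (0 : E2) (3 * r), ‖fderiv ℝ w x‖ ≤ K * (3 * r)) →
    m0 ≤ ms w r0 →
    bet w r1 - bet w r0 ≤ (2 - m0 / (2 * Real.pi) + C * (ε + η * K)) * Real.log (r1 / r0) := by
  obtain ⟨C, hC, hunit⟩ := exists_slope_unit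
  refine ⟨C, hC, ?_⟩
  intro a w η ε Λ K R0 m0 r0 r1 h hη hε hr0 hr01 hR hK hm
  have hpi := Real.pi_pos
  have hw := h.smooth
  have hwc := hw.continuous
  have hw1 : ContDiff ℝ 1 w := hw.of_le (by norm_cast)
  have hr1 : 0 < r1 := lt_of_lt_of_le hr0 hr01
  have hder := hasDerivAt_bet hw
  have hf := Convex.image_sub_le_mul_sub_of_deriv_le (convex_Icc (Real.log r0) (Real.log r1))
    (f := fun t => bet w (Real.exp t)) (fun t _ => (hder t).continuousAt.continuousWithinAt)
    (fun t _ => (hder t).differentiableAt.differentiableWithinAt)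
    (C := 2 - m0 / (2 * Real.pi) + C * (ε + η * K)) ?_ (Real.log r0)
    ⟨le_rfl, Real.log_le_log hr0 hr01⟩ (Real.log r1) ⟨Real.log_le_log hr0 hr01, le_rfl⟩
    (Real.log_le_log hr0 hr01)
  · rw [Real.exp_log hr0, Real.exp_log hr1] at hf
    rw [Real.log_div hr1.ne' hr0.ne']
    exact hf
  · intro t ht
    rw [interior_Icc] at ht
    rw [(hder t).deriv]
    set r := Real.exp t with hr
    have hrpos : 0 < r := Real.exp_pos t
    have hrr0 : r0 ≤ r := by
      rw [← Real.exp_log hr0]
      exact Real.exp_le_exp.mpr ht.1.le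
    have hrr1 : r ≤ r1 := by
      rw [← Real.exp_log hr1]
      exact Real.exp_le_exp.mpr ht.2.le
    have hsub : ball (0 : E2) (r * 3) ⊆ ball 0 R0 := ball_subset_ball (by linarith)
    have hres := h.resc 0 hrpos hsub
    have h3 := hunit _ _ η ε Λ K hres hη hε (by
      rw [gradint_resc 0 hrpos hw1, smul_zero, add_zero, inv_mul_le_iff₀ hrpos]
      have := hK r hrr0 hrr1
      rw [show r * 3 = 3 * r by ring]
      linarith)
    refine h3.trans ?_
    have h4 : ms (PS.resc 0 r w) 1 = ms w r := by
      rw [ms, mass_resc 0 hrpos, ms, smul_zero, add_zero, mul_one]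
    rw [h4]
    have h5 : m0 ≤ ms w r := hm.trans (ms_mono hwc hrr0)
    have h6 : m0 / (2 * Real.pi) ≤ ms w r / (2 * Real.pi) := by gcongr
    linarith

end Pool.Agent.Helper41.PS
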