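import Pool.Agent.Helper41.PS.SmallMass3
import Pool.Agent.Helper41.PS.Morrey

/-!
# Small mass regularity: scaled versions and covering
-/

open MeasureTheory Set Filter Topology Metric
open scoped ContDiff ENNReal NNReal

namespace Pool.Agent.Helper41.PS

lemma Adm.mass_le {a : E2 → E2 →L[ℝ] E2} {w : E2 → ℝ} {η ε Λ : ℝ} {x0 : E2} {R : ℝ}
    (h : Adm a w η ε Λ x0 R) {x1 : E2} {R1 Λ1 : ℝ} (hsub : ball x1 R1 ⊆ ball x0 R)
    (hm : ∫ x in ball x1 R1, Real.exp (w x) ≤ Λ1) : Adm a w η ε Λ1 x1 R1 :=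
  { h.mono hsub with mass := hm }

/-- Scaled small mass regularity. -/
theorem exists_small_mass' : ∃ ε0 : ℝ, 0 < ε0 ∧ ε0 ≤ 1 ∧ ∀ K : ℝ, 0 ≤ K → ∃ C : ℝ, 0 < C ∧
    ∀ (a : E2 → E2 →L[ℝ] E2) (w : E2 → ℝ) (η ε Λ c : ℝ) (x0 : E2) (R : ℝ) (x : E2) (ρ : ℝ),
    Adm a w η ε Λ x0 R → 0 < ρ → ball x (2 * ρ) ⊆ ball x0 R →
    η ≤ 1 / 2 → 0 ≤ ε → ε ≤ ε0 → ∫ z in ball x (2 * ρ), Real.exp (w z) ≤ ε0 →
    ∫ z in ball x (2 * ρ), |w z - c| ≤ K * ρ ^ 2 →
    ∫ z in ball x (2 * ρ), ‖fderiv ℝ w z‖ ≤ K * ρ →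
    (∫ z in ball x (ρ / 2), Real.exp (2 * (w z - c)) ≤ C * ρ ^ 2) ∧ ρ ^ 2 * Real.exp c ≤ C ∧
    (∫ z in ball x (ρ / 4), ‖fderiv ℝ w z‖ ^ 2 ≤ C) := by
  obtain ⟨ε0, h0, h1, hK⟩ := exists_small_mass
  refine ⟨ε0, h0, h1, fun K hK0 => ?_⟩
  obtain ⟨C, hC, hmain⟩ := hK K hK0
  refine ⟨C, hC, ?_⟩
  intro a w η ε Λ c x0 R x ρ h hρ hsub hη hε0 hε hm hK1 hK2
  have hw1 : ContDiff ℝ 1 w := h.smooth.of_le (by norm_cast)
  have e2 : 2 * ρ = ρ * 2 := by ring
  rw [e2] at hsub hm hK1 hK2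
  have h' := h.mass_le hsub hm
  have hr := h'.resc x hρ (R' := 2) Subset.rfl
  have m1 : ∫ y in ball (0 : E2) 2, |PS.resc x ρ w y - (c + 2 * Real.log ρ)| ≤ K := by
    have : ∀ y, |PS.resc x ρ w y - (c + 2 * Real.log ρ)| = |w (x + ρ • y) - c| := by
      intro y
      rw [PS.resc]
      congr 1
      ring
    simp_rw [this]
    rw [setIntegral_affine_ball (fun z => |w z - c|) hρ, smul_zero, add_zero, inv_mul_le_iff₀ (by positivity),
      mul_comm _ K]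
    exact hK1
  have m2 : ∫ y in ball (0 : E2) 2, ‖fderiv ℝ (PS.resc x ρ w) y‖ ≤ K := by
    rw [gradint_resc x hρ hw1, smul_zero, add_zero, inv_mul_le_iff₀ hρ, mul_comm _ K]
    exact hK2
  obtain ⟨r1, r2, r3⟩ := hmain _ _ η ε ε0 (c + 2 * Real.log ρ) hr hη hε0 hε le_rfl m1 m2
  refine ⟨?_, ?_, ?_⟩
  · have : ∀ y, Real.exp (2 * (PS.resc x ρ w y - (c + 2 * Real.log ρ))) = Real.exp (2 * (w (x + ρ • y) - c)) := by
      intro y
      rw [PS.resc]
      congr 1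
      ring
    simp_rw [this] at r1
    rw [setIntegral_affine_ball (fun z => Real.exp (2 * (w z - c))) hρ, smul_zero, add_zero,
      inv_mul_le_iff₀ (by positivity), mul_comm (ρ ^ 2), show ρ * (1 / 2) = ρ / 2 by ring] at r1
    exact r1
  · rw [Real.exp_add, mul_comm, show Real.exp (2 * Real.log ρ) = ρ ^ 2 by
      rw [show 2 * Real.log ρ = Real.log (ρ ^ 2) by rw [Real.log_pow]; norm_num,
        Real.exp_log (by positivity)]] at r2
    exact r2
  · have : ∀ y, ‖fderiv ℝ (PS.resc x ρ w) y‖ ^ 2 = ρ ^ 2 * ‖fderiv ℝ w (x + ρ • y)‖ ^ 2 := by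
      intro y
      rw [← norm_grad, grad_resc x ρ hw1, norm_smul, Real.norm_of_nonneg hρ.le, norm_grad]
      ring
    simp_rw [this] at r3
    rw [integral_const_mul, setIntegral_affine_ball (fun z => ‖fderiv ℝ w z‖ ^ 2) hρ, smul_zero, add_zero,
      ← mul_assoc, mul_inv_cancel₀ (by positivity), one_mul, show ρ * (1 / 4) = ρ / 4 by ring] at r3
    exact r3

/-- Absolute bounds on discs of small mass. -/
theorem exists_small_mass_abs : ∃ ε0 : ℝ, 0 < ε0 ∧ ε0 ≤ 1 ∧ ∀ K : ℝ, 0 ≤ K → ∃ C : ℝ, 0 < C ∧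
    ∀ (a : E2 → E2 →L[ℝ] E2) (w : E2 → ℝ) (η ε Λ : ℝ) (x0 : E2) (R : ℝ) (x : E2) (ρ : ℝ),
    Adm a w η ε Λ x0 R → 0 < ρ → ball x (2 * ρ) ⊆ ball x0 R →
    η ≤ 1 / 2 → 0 ≤ ε → ε ≤ ε0 → ∫ z in ball x (2 * ρ), Real.exp (w z) ≤ ε0 →
    ∫ z in ball x (2 * ρ), ‖fderiv ℝ w z‖ ≤ K * (2 * ρ) →
    (∫ z in ball x (ρ / 2), Real.exp (w z) ^ 2 ≤ C / ρ ^ 2) ∧
    (∫ z in ball x (ρ / 4), ‖fderiv ℝ w z‖ ^ 2 ≤ C) := by
  obtain ⟨ε0, h0, h1, hK⟩ := exists_small_mass'
  refine ⟨ε0, h0, h1, fun K hK0 => ?_⟩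
  obtain ⟨C, hC, hmain⟩ := hK (24 * K) (by positivity)
  refine ⟨C + C ^ 3, by positivity, ?_⟩
  intro a w η ε Λ x0 R x ρ h hρ hsub hη hε0 hε hm hK2
  have hw1 : ContDiff ℝ 1 w := h.smooth.of_le (by norm_cast)
  have hp := poincare_ball w hw1 x (show 0 < 2 * ρ by positivity)
  obtain ⟨r1, r2, r3⟩ := hmain a w η ε Λ (avg w x (2 * ρ)) x0 R x ρ h hρ hsub hη hε0 hε hm
    (by
      refine hp.trans ?_
      calc 6 * (2 * ρ) * ∫ z in ball x (2 * ρ), ‖fderiv ℝ w z‖ ≤ 6 * (2 * ρ) * (K * (2 * ρ)) :=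
            mul_le_mul_of_nonneg_left hK2 (by positivity)
        _ = 24 * K * ρ ^ 2 := by ring)
    (by
      refine hK2.trans ?_
      have : 0 ≤ K * ρ := by positivity
      nlinarith)
  refine ⟨?_, ?_⟩
  · set c := avg w x (2 * ρ) with hc
    have e1 : ∀ z, Real.exp (w z) ^ 2 = Real.exp c ^ 2 * Real.exp (2 * (w z - c)) := by
      intro z
      rw [← Real.exp_nat_mul, ← Real.exp_nat_mul, ← Real.exp_add]
      congr 1
      push_cast
      ring
    simp_rw [e1]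
    rw [integral_const_mul]
    have r2' : Real.exp c ≤ C / ρ ^ 2 := by
      rw [le_div_iff₀ (by positivity), mul_comm]
      exact r2
    calc Real.exp c ^ 2 * ∫ z in ball x (ρ / 2), Real.exp (2 * (w z - c))
        ≤ (C / ρ ^ 2) ^ 2 * (C * ρ ^ 2) := by
          apply mul_le_mul _ r1 (integral_nonneg (fun x => (Real.exp_pos _).le)) (by positivity)
          exact pow_le_pow_left₀ (Real.exp_pos _).le r2' 2
      _ = C ^ 3 / ρ ^ 2 := by
          field_simp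
      _ ≤ (C + C ^ 3) / ρ ^ 2 := by
          gcongr
          linarith
  · refine r3.trans ?_
    have : 0 < C ^ 3 := by positivity
    linarith

/-- Integrals over compact sets from integrals over balls. -/
lemma exists_cover_integral {Kc : Set E2} (hKc : IsCompact Kc) {r : ℝ} (hr : 0 < r) :
    ∃ N : ℕ, ∀ (f : E2 → ℝ), Continuous f → (∀ x, 0 ≤ f x) → ∀ C : ℝ,
      (∀ x ∈ Kc, ∫ z in ball x r, f z ≤ C) → ∫ z in Kc, f z ≤ N * C := by
  classical
  obtain ⟨t, ht1, ht2⟩ := hKc.elim_nhds_subcover (fun x => ball x r) (fun x _ => ball_mem_nhds x hr)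
  refine ⟨t.card, fun f hf hf0 C hC => ?_⟩
  have i1 : ∀ x, Integrable ((ball x r).indicator f) := by
    intro x
    rw [integrable_indicator_iff measurableSet_ball]
    exact intOn_ball hf x r
  calc ∫ z in Kc, f z = ∫ z, Kc.indicator f z := (integral_indicator hKc.measurableSet).symm
    _ ≤ ∫ z, ∑ x ∈ t, (ball x r).indicator f z := by
        apply integral_mono
        · rw [integrable_indicator_iff hKc.measurableSet]
          exact hf.continuousOn.integrableOn_compact hKc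
        · exact integrable_finsetSum t (fun x _ => i1 x)
        · intro z
          simp only
          by_cases hz : z ∈ Kc
          · rw [indicator_of_mem hz]
            obtain ⟨x, hx, hzx⟩ := mem_iUnion₂.mp (ht2 hz)
            calc f z = (ball x r).indicator f z := (indicator_of_mem hzx f).symm
              _ ≤ _ := Finset.single_le_sum (f := fun x => (ball x r).indicator f z)
                  (fun y _ => indicator_nonneg (fun z _ => hf0 z) z) hx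
          · rw [indicator_of_notMem hz]
            exact Finset.sum_nonneg (fun y _ => indicator_nonneg (fun z _ => hf0 z) z)
    _ = ∑ x ∈ t, ∫ z in ball x r, f z := by
        rw [integral_finsetSum t (fun x _ => i1 x)]
        refine Finset.sum_congr rfl (fun x _ => ?_)
        rw [integral_indicator measurableSet_ball]
    _ ≤ ∑ x ∈ t, C := Finset.sum_le_sum (fun x hx => hC x (ht1 x hx))
    _ = t.card * C := by rw [Finset.sum_const, nsmul_eq_mul]

/-- Regularity on a large disc if all unit discs have small mass. -/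
theorem exists_bulk : ∃ ε0 : ℝ, 0 < ε0 ∧ ε0 ≤ 1 ∧ ∀ K : ℝ, 0 ≤ K → ∀ R : ℝ, ∃ C : ℝ, 0 < C ∧
    ∀ (a : E2 → E2 →L[ℝ] E2) (w : E2 → ℝ) (η ε Λ : ℝ), Adm a w η ε Λ 0 (R + 1) →
    η ≤ 1 / 2 → 0 ≤ ε → ε ≤ ε0 →
    (∀ x ∈ closedBall (0 : E2) R, ∫ z in ball x 1, Real.exp (w z) ≤ ε0) →
    (∀ x ∈ closedBall (0 : E2) R, ∫ z in ball x 1, ‖fderiv ℝ w z‖ ≤ K) →
    (∫ z in closedBall (0 : E2) R, Real.exp (w z) ^ 2 ≤ C) ∧
    (∫ z in closedBall (0 : E2) R, ‖fderiv ℝ w z‖ ^ 2 ≤ C) := by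
  obtain ⟨ε0, h0, h1, hK⟩ := exists_small_mass_abs
  refine ⟨ε0, h0, h1, fun K hK0 R => ?_⟩
  obtain ⟨C, hC, hmain⟩ := hK K hK0
  obtain ⟨N, hN⟩ := exists_cover_integral (isCompact_closedBall (0 : E2) R) (show (0 : ℝ) < 1 / 8 by norm_num)
  refine ⟨N * (4 * C) + 1, by positivity, ?_⟩
  intro a w η ε Λ h hη hε0 hε hm hg
  have hwc := h.smooth.continuous
  have hw1 : ContDiff ℝ 1 w := h.smooth.of_le (by norm_cast)
  have hdc : Continuous (fun z => fderiv ℝ w z) := hw1.continuous_fderiv (by simp)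
  have key : ∀ x ∈ closedBall (0 : E2) R, (∫ z in ball x (1 / 8), Real.exp (w z) ^ 2 ≤ 4 * C) ∧
      (∫ z in ball x (1 / 8), ‖fderiv ℝ w z‖ ^ 2 ≤ 4 * C) := by
    intro x hx
    have e1 : (2 : ℝ) * (1 / 2) = 1 := by norm_num
    obtain ⟨r1, r2⟩ := hmain a w η ε Λ 0 (R + 1) x (1 / 2) h (by norm_num) (by
      rw [e1]
      apply ball_subset_ball'
      rw [mem_closedBall] at hx
      linarith) hη hε0 hε (by rw [e1]; exact hm x hx) (by rw [e1, mul_one]; exact hg x hx)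
    refine ⟨?_, ?_⟩
    · have : ∫ z in ball x (1 / 8), Real.exp (w z) ^ 2 ≤ ∫ z in ball x (1 / 2 / 2), Real.exp (w z) ^ 2 := by
        apply setIntegral_mono_set
        · exact intOn_ball (by fun_prop) _ _
        · exact Eventually.of_forall (fun x => sq_nonneg _)
        · exact Eventually.of_forall (ball_subset_ball (by norm_num))
      refine this.trans (r1.trans (le_of_eq ?_))
      norm_num
      ring
    · have e3 : (1 : ℝ) / 2 / 4 = 1 / 8 := by norm_num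
      rw [e3] at r2
      linarith
  refine ⟨?_, ?_⟩
  · have := hN (fun z => Real.exp (w z) ^ 2) (by fun_prop) (fun z => sq_nonneg _) (4 * C)
      (fun x hx => (key x hx).1)
    linarith
  · have := hN (fun z => ‖fderiv ℝ w z‖ ^ 2) (by fun_prop) (fun z => sq_nonneg _) (4 * C)
      (fun x hx => (key x hx).2)
    linarith

end Pool.Agent.Helper41.PS
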