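import Pool.Agent.Helper41.PS.Seq
import Pool.Agent.Helper41.PS.SmallMass4
import Pool.Agent.Helper41.PS.Slope

/-!
# Atomic structure of the limit when the averages tend to minus infinity
-/

open MeasureTheory Set Filter Topology Metric
open scoped ContDiff ENNReal NNReal

namespace Pool.Agent.Helper41.PS

lemma exists_avg_le_bet : ∃ B : ℝ, 0 < B ∧ ∀ (w : E2 → ℝ) (K R r S : ℝ), ContDiff ℝ ∞ w → MB w K R →
    0 ≤ K → 0 < r → 2 * r ≤ S → S ≤ R →
    avg w 0 S ≤ bet w r + (6 * B * K * S ^ 2 / r ^ 2 - 2 * Real.log r) := by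
  obtain ⟨B, hB, hkB⟩ := exists_kap_bound
  refine ⟨B, hB, ?_⟩
  intro w K R r S hw hMB hK hr hrS hSR
  have hS : 0 < S := by linarith
  have hwc := hw.continuous
  have hw1 : ContDiff ℝ 1 w := hw.of_le (by norm_cast)
  have hk := kap_contDiff.continuous
  rw [bet_eq hwc]
  set c := avg w 0 S with hc
  have e1 : c - ∫ x, w (r • x) * kap x = ∫ x, (c - w (r • x)) * kap x := by
    have : ∀ x, (c - w (r • x)) * kap x = c * kap x - w (r • x) * kap x := fun x => by ring
    simp_rw [this]
    rw [integral_sub ((integrable_cc hk kap_compact).const_mul _)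
      (integrable_kap (f := fun x => w (r • x)) (by fun_prop)), integral_const_mul, integral_kap, mul_one]
  have e2 : ∫ x, (c - w (r • x)) * kap x ≤ 6 * B * K * S ^ 2 / r ^ 2 := by
    calc ∫ x, (c - w (r • x)) * kap x = ∫ x in ball (0 : E2) 2, (c - w (r • x)) * kap x := by
          rw [setIntegral_eq_integral_of_forall_compl_eq_zero]
          intro x hx
          rw [kap_zero_of_ge, mul_zero]
          rw [mem_ball, dist_zero_right, not_lt] at hx
          exact hx
      _ ≤ ∫ x in ball (0 : E2) 2, B * |w (r • x) - c| := by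
          apply setIntegral_mono
          · exact intOn_ball (by fun_prop) _ _
          · exact intOn_ball (by fun_prop) _ _
          · intro x
            simp only
            have h1 : (c - w (r • x)) * kap x ≤ |w (r • x) - c| * kap x := by
              apply mul_le_mul_of_nonneg_right _ (kap_nonneg x)
              rw [abs_sub_comm]
              exact le_abs_self _
            refine h1.trans ?_
            rw [mul_comm]
            exact mul_le_mul_of_nonneg_right (hkB x) (abs_nonneg _)
      _ = B * ((r ^ 2)⁻¹ * ∫ z in ball (0 : E2) (r * 2), |w z - c|) := by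
          rw [integral_const_mul]
          have := setIntegral_affine_ball (fun z => |w z - c|) hr 0 0 2
          simp only [zero_add, smul_zero] at this
          rw [this]
      _ ≤ B * ((r ^ 2)⁻¹ * (6 * S * (K * S))) := by
          apply mul_le_mul_of_nonneg_left _ hB.le
          apply mul_le_mul_of_nonneg_left _ (by positivity)
          have h1 := poincare_ball w hw1 0 hS
          have h2 := hMB 0 S hS (ball_subset_ball hSR)
          have h3 : ∫ z in ball (0 : E2) (r * 2), |w z - c| ≤ ∫ z in ball (0 : E2) S, |w z - c| := by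
            apply setIntegral_mono_set
            · exact intOn_ball (by fun_prop) _ _
            · exact Eventually.of_forall (fun z => abs_nonneg _)
            · exact Eventually.of_forall (ball_subset_ball (by linarith))
          refine h3.trans (h1.trans ?_)
          exact mul_le_mul_of_nonneg_left h2 (by positivity)
      _ = _ := by
          field_simp
  linarith

/-- Discs of small mass lose all their mass. -/
theorem exists_small_to_zero : ∃ ε0 : ℝ, 0 < ε0 ∧ ∀ {U : Ultrafilter ℕ} {a : ℕ → E2 → E2 →L[ℝ] E2}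
    {w : ℕ → E2 → ℝ} {η ε : ℕ → ℝ} {Λ K : ℝ} {R : ℕ → ℝ}, Sq U a w η ε Λ K R →
    ∀ (S : ℝ) (x : E2) (ρ : ℝ), (∀ᶠ n in (U : Filter ℕ), S ≤ R n) → 0 < ρ → ball x ρ ⊆ ball 0 S → 0 < S →
    Tendsto (fun n => Real.exp (avg (w n) 0 S)) U (𝓝 0) →
    (∀ᶠ n in (U : Filter ℕ), mb (w n) x ρ ≤ ε0) → Tendsto (fun n => mb (w n) x (ρ / 4)) U (𝓝 0) := by
  obtain ⟨ε0, he0, he01, hsm⟩ := exists_small_mass'
  refine ⟨ε0, he0, ?_⟩
  intro U a w η ε Λ K R h S x ρ hSR hρ hsub hS hav hmass
  have hK := h.K_nonneg
  set K2 := 24 * K * S ^ 2 / ρ ^ 2 + 2 * K with hK2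
  have hK20 : 0 ≤ K2 := by positivity
  obtain ⟨C, hC, hmain⟩ := hsm K2 hK20
  have hη2 : ∀ᶠ n in (U : Filter ℕ), η n < 1 / 2 := (h.η_lim).eventually (gt_mem_nhds (by norm_num))
  have hεe : ∀ᶠ n in (U : Filter ℕ), ε n < ε0 := (h.ε_lim).eventually (gt_mem_nhds he0)
  have hub : ∀ᶠ n in (U : Filter ℕ), mb (w n) x (ρ / 4)
      ≤ Real.exp (avg (w n) 0 S) * (Real.pi * (ρ / 4) ^ 2 + C * (ρ / 2) ^ 2) := by
    filter_upwards [h.adm, h.grad, hSR, hη2, hεe, hmass] with n hn hg hSn hηn hεn hmn
    have hwc := (h.smooth n).continuous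
    have hw1 : ContDiff ℝ 1 (w n) := (h.smooth n).of_le (by norm_cast)
    set c := avg (w n) 0 S with hc
    have e2 : 2 * (ρ / 2) = ρ := by ring
    have hsubR : ball (0 : E2) S ⊆ ball 0 (R n) := ball_subset_ball hSn
    obtain ⟨r1, -, -⟩ := hmain (a n) (w n) (η n) (ε n) Λ c 0 (R n) x (ρ / 2) hn (by positivity)
      (by rw [e2]; exact hsub.trans hsubR) hηn.le (h.ε_nonneg n) hεn.le (by rw [e2]; exact hmn)
      (by
        rw [e2]
        have h1 := poincare_ball (w n) hw1 0 hS
        have h2 := hg 0 S hS hsubR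
        have h3 : ∫ z in ball x ρ, |w n z - c| ≤ ∫ z in ball (0 : E2) S, |w n z - c| := by
          apply setIntegral_mono_set
          · exact intOn_ball (by fun_prop) _ _
          · exact Eventually.of_forall (fun z => abs_nonneg _)
          · exact Eventually.of_forall hsub
        have h4 : 6 * S * ∫ z in ball (0 : E2) S, ‖fderiv ℝ (w n) z‖ ≤ 6 * S * (K * S) :=
          mul_le_mul_of_nonneg_left h2 (by positivity)
        refine h3.trans (h1.trans (h4.trans ?_))
        have h5 : K2 * (ρ / 2) ^ 2 = 6 * K * S ^ 2 + K * ρ ^ 2 / 2 := by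
          rw [hK2]
          field_simp
          ring
        rw [h5]
        have : 0 ≤ K * ρ ^ 2 / 2 := by positivity
        nlinarith)
      (by
        rw [e2]
        have h2 := hg x ρ hρ (hsub.trans hsubR)
        refine h2.trans ?_
        have h5 : K2 * (ρ / 2) = 24 * K * S ^ 2 / ρ ^ 2 * (ρ / 2) + K * ρ := by
          rw [hK2]
          ring
        rw [h5]
        have : 0 ≤ 24 * K * S ^ 2 / ρ ^ 2 * (ρ / 2) := by positivity
        linarith)
    have e4 : ρ / 2 / 2 = ρ / 4 := by ring
    rw [e4] at r1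
    have e5 : ∀ z, Real.exp (w n z) ≤ Real.exp c * (1 + Real.exp (2 * (w n z - c))) := by
      intro z
      have e3 : Real.exp (w n z) = Real.exp c * Real.exp (w n z - c) := by
        rw [← Real.exp_add]
        ring_nf
      rw [e3]
      apply mul_le_mul_of_nonneg_left _ (Real.exp_pos _).le
      have e4 : Real.exp (2 * (w n z - c)) = Real.exp (w n z - c) ^ 2 := by
        rw [← Real.exp_nat_mul]
        push_cast
        ring_nf
      rw [e4]
      nlinarith [sq_nonneg (Real.exp (w n z - c) - 1), Real.exp_pos (w n z - c)]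
    calc mb (w n) x (ρ / 4)
        ≤ ∫ z in ball x (ρ / 4), Real.exp c * (1 + Real.exp (2 * (w n z - c))) := by
          apply setIntegral_mono
          · exact intOn_ball (by fun_prop) _ _
          · exact intOn_ball (by fun_prop) _ _
          · exact e5
      _ = Real.exp c * (Real.pi * (ρ / 4) ^ 2 + ∫ z in ball x (ρ / 4), Real.exp (2 * (w n z - c))) := by
          rw [integral_const_mul, integral_add (intOn_ball (by fun_prop) _ _) (intOn_ball (by fun_prop) _ _),
            setIntegral_const, volume_ball_real x (by positivity), smul_eq_mul, mul_one]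
      _ ≤ _ := by
          apply mul_le_mul_of_nonneg_left _ (Real.exp_pos _).le
          linarith
  have h0 := hav.mul_const (Real.pi * (ρ / 4) ^ 2 + C * (ρ / 2) ^ 2)
  rw [zero_mul] at h0
  exact tendsto_of_tendsto_of_tendsto_of_le_of_le' tendsto_const_nhds h0
    (Eventually.of_forall (fun n => mb_nonneg _ _ _)) hub

/-- Averages on all discs tend to minus infinity. -/
lemma avg_to_zero {U : Ultrafilter ℕ} {a : ℕ → E2 → E2 →L[ℝ] E2}
    {w : ℕ → E2 → ℝ} {η ε : ℕ → ℝ} {Λ K : ℝ} {R : ℕ → ℝ} (h : Sq U a w η ε Λ K R)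
    {r : ℝ} (hr : 0 < r) (hb : Tendsto (fun n => Real.exp (bet (w n) r)) U (𝓝 0)) {S : ℝ} (hrS : 2 * r ≤ S)
    (hSR : ∀ᶠ n in (U : Filter ℕ), S ≤ R n) : Tendsto (fun n => Real.exp (avg (w n) 0 S)) U (𝓝 0) := by
  obtain ⟨B, hB, hmain⟩ := exists_avg_le_bet
  have h0 := hb.mul_const (Real.exp (6 * B * K * S ^ 2 / r ^ 2 - 2 * Real.log r))
  rw [zero_mul] at h0
  apply tendsto_of_tendsto_of_tendsto_of_le_of_le' tendsto_const_nhds h0
    (Eventually.of_forall (fun n => (Real.exp_pos _).le))
  filter_upwards [h.grad, hSR] with n hg hSn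
  rw [← Real.exp_add]
  exact Real.exp_le_exp.mpr (hmain (w n) K (R n) r S (h.smooth n) hg h.K_nonneg hr hrS hSn)

end Pool.Agent.Helper41.PS
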