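import Mathlib

/-!
# Limits along ultrafilters and atoms of sequences of measures
-/

open MeasureTheory Set Filter Topology

namespace Pool.Agent.Helper41.PS

/-- Limit of a real sequence along an ultrafilter. -/
noncomputable def ulim (U : Ultrafilter ℕ) (f : ℕ → ℝ) : ℝ := limUnder (U : Filter ℕ) f

lemma ulim_of_bdd {U : Ultrafilter ℕ} {f : ℕ → ℝ} {A B : ℝ} (h : ∀ᶠ n in (U : Filter ℕ), f n ∈ Icc A B) :
    Tendsto f U (𝓝 (ulim U f)) := by
  have h1 : ((U.map f : Ultrafilter ℝ) : Filter ℝ) ≤ 𝓟 (Icc A B) := by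
    rw [le_principal_iff]
    exact h
  obtain ⟨x, _, hx⟩ := isCompact_Icc.ultrafilter_le_nhds (U.map f) h1
  exact tendsto_nhds_limUnder ⟨x, hx⟩

lemma ulim_eq {U : Ultrafilter ℕ} {f : ℕ → ℝ} {L : ℝ} (h : Tendsto f U (𝓝 L)) : ulim U f = L :=
  h.limUnder_eq

/-- Diagonal choice along a filter below `atTop`. -/
lemma exists_diag {F : Filter ℕ} (hF : F ≤ atTop) {Q : ℕ → ℕ → Prop} (hQ : ∀ j, ∀ᶠ n in F, Q n j) :
    ∃ J : ℕ → ℕ, Tendsto J F atTop ∧ ∀ᶠ n in F, Q n (J n) := by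
  classical
  have hQ' : ∀ j, ∀ᶠ n in F, ∀ i ≤ j, Q n i := by
    intro j
    have : ∀ᶠ n in F, ∀ i ∈ Finset.range (j + 1), Q n i :=
      (Finset.range (j + 1)).eventually_all.mpr (fun i _ => hQ i)
    filter_upwards [this] with n hn i hi
    exact hn i (Finset.mem_range.mpr (Nat.lt_succ_of_le hi))
  refine ⟨fun n => Nat.findGreatest (fun j => ∀ i ≤ j, Q n i) n, ?_, ?_⟩
  · rw [tendsto_atTop]
    intro j
    filter_upwards [hQ' j, hF (eventually_ge_atTop j)] with n hn hj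
    exact Nat.le_findGreatest hj hn
  · filter_upwards [hQ' 0] with n hn
    have h2 : ∀ i ≤ Nat.findGreatest (fun j => ∀ i ≤ j, Q n i) n, Q n i :=
      Nat.findGreatest_spec (P := fun j => ∀ i ≤ j, Q n i) (m := 0) (n := n) (Nat.zero_le n) hn
    exact h2 _ le_rfl

section Atoms

variable {X : Type*} [TopologicalSpace X] [MeasurableSpace X] (U : Ultrafilter ℕ) (μ : ℕ → Measure X)

/-- The limit content. -/
noncomputable def LL (A : Set X) : ℝ := ulim U (fun n => (μ n).real A)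

variable {U μ} {Λ : ℝ} (hΛ : ∀ n, (μ n) univ ≤ ENNReal.ofReal Λ)
include hΛ

lemma real_le (n : ℕ) (A : Set X) (hΛ0 : 0 ≤ Λ) : (μ n).real A ≤ Λ := by
  rw [measureReal_def]
  apply ENNReal.toReal_le_of_le_ofReal hΛ0
  exact (measure_mono (subset_univ A)).trans (hΛ n)

lemma isFin (n : ℕ) : IsFiniteMeasure (μ n) := ⟨lt_of_le_of_lt (hΛ n) ENNReal.ofReal_lt_top⟩

lemma LL_tendsto (hΛ0 : 0 ≤ Λ) (A : Set X) : Tendsto (fun n => (μ n).real A) U (𝓝 (LL U μ A)) :=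
  ulim_of_bdd (A := 0) (B := Λ) (Eventually.of_forall (fun n => ⟨measureReal_nonneg, real_le hΛ n A hΛ0⟩))

lemma LL_nonneg (hΛ0 : 0 ≤ Λ) (A : Set X) : 0 ≤ LL U μ A :=
  ge_of_tendsto (LL_tendsto hΛ hΛ0 A) (Eventually.of_forall (fun _ => measureReal_nonneg))

lemma LL_le (hΛ0 : 0 ≤ Λ) (A : Set X) : LL U μ A ≤ Λ :=
  le_of_tendsto (LL_tendsto hΛ hΛ0 A) (Eventually.of_forall (fun n => real_le hΛ n A hΛ0))

lemma LL_mono (hΛ0 : 0 ≤ Λ) {A B : Set X} (hAB : A ⊆ B) : LL U μ A ≤ LL U μ B := by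
  refine le_of_tendsto_of_tendsto (LL_tendsto hΛ hΛ0 A) (LL_tendsto hΛ hΛ0 B) (Eventually.of_forall (fun n => ?_))
  have := isFin hΛ n
  exact measureReal_mono hAB (measure_ne_top _ _)

lemma LL_union (hΛ0 : 0 ≤ Λ) {A B : Set X} (hAB : Disjoint A B) (hB : MeasurableSet B) :
    LL U μ (A ∪ B) = LL U μ A + LL U μ B := by
  apply ulim_eq
  refine ((LL_tendsto hΛ hΛ0 A).add (LL_tendsto hΛ hΛ0 B)).congr (fun n => ?_)
  have := isFin hΛ n
  exact (measureReal_union hAB hB).symm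

lemma LL_union_le (hΛ0 : 0 ≤ Λ) (A B : Set X) : LL U μ (A ∪ B) ≤ LL U μ A + LL U μ B := by
  refine le_of_tendsto_of_tendsto (LL_tendsto hΛ hΛ0 _)
    ((LL_tendsto hΛ hΛ0 A).add (LL_tendsto hΛ hΛ0 B)) (Eventually.of_forall (fun n => ?_))
  have := isFin hΛ n
  exact measureReal_union_le A B

lemma LL_empty (hΛ0 : 0 ≤ Λ) : LL U μ ∅ = 0 := by
  apply ulim_eq
  simp

lemma LL_biUnion_zero (hΛ0 : 0 ≤ Λ) {ι : Type*} (t : Finset ι) (V : ι → Set X)
    (hV : ∀ i ∈ t, LL U μ (V i) = 0) : LL U μ (⋃ i ∈ t, V i) = 0 := by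
  classical
  induction t using Finset.induction_on with
  | empty => simpa using LL_empty hΛ hΛ0
  | insert a t ha ih =>
    rw [Finset.set_biUnion_insert]
    apply le_antisymm _ (LL_nonneg hΛ hΛ0 _)
    refine (LL_union_le hΛ hΛ0 _ _).trans ?_
    rw [hV a (Finset.mem_insert_self a t), ih (fun i hi => hV i (Finset.mem_insert_of_mem hi)), add_zero]

lemma LL_compact_zero (hΛ0 : 0 ≤ Λ) {C : Set X} (hC : IsCompact C)
    (h : ∀ x ∈ C, ∃ V, IsOpen V ∧ x ∈ V ∧ LL U μ V = 0) : ∃ V, IsOpen V ∧ C ⊆ V ∧ LL U μ V = 0 := by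
  choose! V hV using h
  obtain ⟨t, ht1, ht2⟩ := hC.elim_nhds_subcover V (fun x hx => (hV x hx).1.mem_nhds (hV x hx).2.1)
  refine ⟨⋃ x ∈ t, V x, isOpen_biUnion (fun x hx => (hV x (ht1 x hx)).1), ht2, ?_⟩
  exact LL_biUnion_zero hΛ hΛ0 t V (fun x hx => (hV x (ht1 x hx)).2.2)

lemma LL_sum_le (hΛ0 : 0 ≤ Λ) [OpensMeasurableSpace X] (t : Finset X) (V : X → Set X)
    (hV : ∀ x ∈ t, IsOpen (V x)) (hd : (t : Set X).PairwiseDisjoint V) {e : ℝ}
    (he : ∀ x ∈ t, e ≤ LL U μ (V x)) : t.card * e ≤ LL U μ (⋃ x ∈ t, V x) := by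
  classical
  induction t using Finset.induction_on with
  | empty =>
    simp only [Finset.card_empty, Nat.cast_zero, zero_mul]
    exact LL_nonneg hΛ hΛ0 _
  | insert a t ha ih =>
    rw [Finset.set_biUnion_insert, Finset.card_insert_of_notMem ha]
    have h1 := ih (fun x hx => hV x (Finset.mem_insert_of_mem hx))
      (hd.subset (by rw [Finset.coe_insert]; exact Set.subset_insert a t))
      (fun x hx => he x (Finset.mem_insert_of_mem hx))
    have hm : MeasurableSet (⋃ x ∈ t, V x) :=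
      (isOpen_biUnion (fun x hx => hV x (Finset.mem_insert_of_mem hx))).measurableSet
    have hdis : Disjoint (V a) (⋃ x ∈ t, V x) := by
      rw [disjoint_iUnion₂_right]
      intro x hx
      apply hd (Finset.mem_coe.mpr (Finset.mem_insert_self a t))
        (Finset.mem_coe.mpr (Finset.mem_insert_of_mem hx))
      intro h
      exact ha (h ▸ hx)
    rw [LL_union hΛ hΛ0 hdis hm]
    have h2 := he a (Finset.mem_insert_self a t)
    push_cast
    linarith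

/-- The set of atoms is finite. -/
lemma atoms_finite (hΛ0 : 0 ≤ Λ) [OpensMeasurableSpace X] [T2Space X] {e : ℝ} (he : 0 < e) :
    {x : X | ∀ V, IsOpen V → x ∈ V → e ≤ LL U μ V}.Finite := by
  by_contra hinf
  rw [Set.not_finite] at hinf
  obtain ⟨n, hn⟩ := exists_nat_gt (Λ / e)
  obtain ⟨t, ht1, ht2⟩ := hinf.exists_subset_card_eq n
  obtain ⟨V, hV1, hV2⟩ := t.finite_toSet.t2_separation
  have h1 := LL_sum_le hΛ hΛ0 (U := U) (μ := μ) t V (fun x _ => (hV1 x).2) hV2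
    (e := e) (fun x hx => ht1 hx (V x) (hV1 x).2 (hV1 x).1)
  have h2 := h1.trans (LL_le hΛ hΛ0 _)
  rw [ht2] at h2
  rw [div_lt_iff₀ he] at hn
  linarith

end Atoms

end Pool.Agent.Helper41.PS
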