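import Pool.Agent.Helper41.PS.Atomic
import Pool.Agent.Helper41.PS.Ultra

/-!
# Atomic structure of the limit, second part
-/

open MeasureTheory Set Filter Topology Metric
open scoped ContDiff ENNReal NNReal

namespace Pool.Agent.Helper41.PS

/-- The measure `e^w dx` on the disc of radius `R`. -/
noncomputable def muN (w : E2 → ℝ) (R : ℝ) : Measure E2 :=
  (volume.restrict (ball 0 R)).withDensity (fun z => ENNReal.ofReal (Real.exp (w z)))

lemma muN_apply {w : E2 → ℝ} (hw : Continuous w) {R : ℝ} {A : Set E2} (hA : MeasurableSet A)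
    (hAR : A ⊆ ball 0 R) : (muN w R) A = ENNReal.ofReal (∫ z in A, Real.exp (w z)) := by
  have hi : IntegrableOn (fun z => Real.exp (w z)) A :=
    (intOn_ball (f := fun z => Real.exp (w z)) (by fun_prop) 0 R).mono_set hAR
  rw [muN, withDensity_apply _ hA, Measure.restrict_restrict hA, inter_eq_left.mpr hAR,
    ofReal_integral_eq_lintegral_ofReal hi (Eventually.of_forall (fun z => (Real.exp_pos _).le))]

lemma muN_univ {w : E2 → ℝ} (hw : Continuous w) (R : ℝ) : (muN w R) univ = ENNReal.ofReal (ms w R) := by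
  have h1 : (muN w R) univ = (muN w R) (ball 0 R) := by
    rw [muN, withDensity_apply _ MeasurableSet.univ, withDensity_apply _ measurableSet_ball,
      Measure.restrict_restrict measurableSet_ball, inter_self, Measure.restrict_univ]
  rw [h1, muN_apply hw measurableSet_ball Subset.rfl]
  rfl

lemma muN_real {w : E2 → ℝ} (hw : Continuous w) {R : ℝ} {A : Set E2} (hA : MeasurableSet A)
    (hAR : A ⊆ ball 0 R) : (muN w R).real A = ∫ z in A, Real.exp (w z) := by
  rw [measureReal_def, muN_apply hw hA hAR, ENNReal.toReal_ofReal]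
  exact integral_nonneg (fun z => (Real.exp_pos _).le)

lemma LL_sum_eq {X : Type*} [TopologicalSpace X] [MeasurableSpace X] [OpensMeasurableSpace X]
    {U : Ultrafilter ℕ} {μ : ℕ → Measure X} {Λ : ℝ} (hΛ : ∀ n, (μ n) univ ≤ ENNReal.ofReal Λ)
    (hΛ0 : 0 ≤ Λ) (t : Finset X) (V : X → Set X)
    (hV : ∀ x ∈ t, IsOpen (V x)) (hd : (t : Set X).PairwiseDisjoint V) :
    LL U μ (⋃ x ∈ t, V x) = ∑ x ∈ t, LL U μ (V x) := by
  classical
  induction t using Finset.induction_on with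
  | empty =>
    simp only [Finset.notMem_empty, iUnion_of_empty, iUnion_empty, Finset.sum_empty]
    exact LL_empty hΛ hΛ0
  | insert a t ha ih =>
    rw [Finset.set_biUnion_insert, Finset.sum_insert ha]
    have h1 := ih (fun x hx => hV x (Finset.mem_insert_of_mem hx))
      (hd.subset (by rw [Finset.coe_insert]; exact Set.subset_insert a t))
    have hm : MeasurableSet (⋃ x ∈ t, V x) :=
      (isOpen_biUnion (fun x hx => hV x (Finset.mem_insert_of_mem hx))).measurableSet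
    have hdis : Disjoint (V a) (⋃ x ∈ t, V x) := by
      rw [disjoint_iUnion₂_right]
      intro x hx
      apply hd (Finset.mem_coe.mpr (Finset.mem_insert_self a t))
        (Finset.mem_coe.mpr (Finset.mem_insert_of_mem hx))
      intro h
      exact ha (h ▸ hx)
    rw [LL_union hΛ hΛ0 hdis hm, h1]

/-- Local quantisation below level `8πN`. -/
def LQP (U : Ultrafilter ℕ) (N : ℕ) : Prop :=
  ∀ (a : ℕ → E2 → E2 →L[ℝ] E2) (w : ℕ → E2 → ℝ) (η ε : ℕ → ℝ) (Λ K : ℝ),
    Sq U a w η ε Λ K (fun _ => 1) →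
    (∀ ρ, 0 < ρ → ρ ≤ 1 → Tendsto (fun n => ms (w n) 1 - ms (w n) ρ) U (𝓝 0)) →
    ∀ m, Tendsto (fun n => ms (w n) 1) U (𝓝 m) → m < 8 * Real.pi * N → ∃ k : ℕ, m = 8 * Real.pi * k

/-- A finite set has separated points. -/
lemma exists_separation (A : Finset E2) {ρ0 : ℝ} (hρ0 : 0 < ρ0) : ∃ δ : ℝ, 0 < δ ∧ δ < ρ0 ∧
    ∀ x ∈ A, ∀ y ∈ A, x ≠ y → 2 * δ < dist x y := by
  have h1 : ∀ᶠ δ in 𝓝[>] (0 : ℝ), ∀ x ∈ A, ∀ y ∈ A, x ≠ y → 2 * δ < dist x y := by
    rw [Finset.eventually_all]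
    intro x _
    rw [Finset.eventually_all]
    intro y _
    by_cases hxy : x = y
    · exact Eventually.of_forall (fun δ h => absurd hxy h)
    · have h2 : 0 < dist x y / 2 := by
        have := dist_pos.mpr hxy
        positivity
      filter_upwards [Ioo_mem_nhdsGT h2] with δ hδ _
      linarith [hδ.2]
  have h2 := (h1.and (Ioo_mem_nhdsGT hρ0)).exists
  obtain ⟨δ, h3, h4⟩ := h2
  exact ⟨δ, h4.1, h4.2, h3⟩

theorem atomic {U : Ultrafilter ℕ} {N : ℕ} (hN : LQP U N) {a : ℕ → E2 → E2 →L[ℝ] E2}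
    {w : ℕ → E2 → ℝ} {η ε : ℕ → ℝ} {Λ K : ℝ} {R : ℕ → ℝ} (h : Sq U a w η ε Λ K R)
    (hR : Tendsto R U atTop) {r : ℝ} (hr : 0 < r)
    (hb : Tendsto (fun n => Real.exp (bet (w n) r)) U (𝓝 0)) {m' : ℝ} (hm' : m' < 8 * Real.pi * N)
    (hx : ∀ x : E2, x ≠ 0 → ∃ ρ > 0, ∀ᶠ n in (U : Filter ℕ), mb (w n) x ρ ≤ m') {k : ℕ} {ρ0 : ℝ}
    (hρ0 : 0 < ρ0) (h0 : ∀ ρ, 0 < ρ → ρ ≤ ρ0 → Tendsto (fun n => ms (w n) ρ) U (𝓝 (8 * Real.pi * k))) :
    ∃ (k' : ℕ) (S0 : ℝ), ∀ S ≥ S0, Tendsto (fun n => ms (w n) S) U (𝓝 (8 * Real.pi * k')) := by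
  classical
  obtain ⟨ε0, he0, hzero⟩ := exists_small_to_zero
  have hΛ0 : 0 ≤ Λ := by
    obtain ⟨n, hn⟩ := h.adm.exists
    exact le_trans (integral_nonneg (fun x => (Real.exp_pos _).le)) hn.mass
  set μ : ℕ → Measure E2 := fun n => if ms (w n) (R n) ≤ Λ then muN (w n) (R n) else 0 with hμ
  have hΛ : ∀ n, (μ n) univ ≤ ENNReal.ofReal Λ := by
    intro n
    simp only [hμ]
    split_ifs with hc
    · rw [muN_univ (h.smooth n).continuous]
      exact ENNReal.ofReal_le_ofReal hc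
    · simp
  -- values on bounded sets
  have hreal : ∀ (A : Set E2), MeasurableSet A → ∀ S : ℝ, A ⊆ ball 0 S →
      ∀ᶠ n in (U : Filter ℕ), (μ n).real A = ∫ z in A, Real.exp (w n z) := by
    intro A hA S hAS
    filter_upwards [h.adm, hR.eventually_ge_atTop S] with n hn hS
    have hc : ms (w n) (R n) ≤ Λ := hn.mass
    simp only [hμ, if_pos hc]
    exact muN_real (h.smooth n).continuous hA (hAS.trans (ball_subset_ball hS))
  have hball : ∀ (x : E2) (s : ℝ), Tendsto (fun n => mb (w n) x s) U (𝓝 (LL U μ (ball x s))) := by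
    intro x s
    refine (LL_tendsto hΛ hΛ0 (ball x s)).congr' ?_
    have hsub : ball x s ⊆ ball 0 (‖x‖ + s) := by
      apply ball_subset_ball'
      rw [dist_zero_right]
      linarith
    exact hreal _ measurableSet_ball _ hsub
  -- zero density
  have hzd : ∀ (x : E2) (ρ : ℝ), 0 < ρ → LL U μ (ball x ρ) < ε0 → LL U μ (ball x (ρ / 4)) = 0 := by
    intro x ρ hρ hlt
    have h1 : ∀ᶠ n in (U : Filter ℕ), mb (w n) x ρ ≤ ε0 :=
      ((hball x ρ).eventually (gt_mem_nhds hlt)).mono (fun n hn => hn.le)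
    set S := ‖x‖ + ρ + 2 * r with hS
    have hSpos : 0 < S := by positivity
    have hSR : ∀ᶠ n in (U : Filter ℕ), S ≤ R n := hR.eventually_ge_atTop S
    have h2 := avg_to_zero h hr hb (S := S) (by
      have := norm_nonneg x
      linarith) hSR
    have hsub : ball x ρ ⊆ ball 0 S := by
      apply ball_subset_ball'
      rw [dist_zero_right]
      linarith
    have h3 := hzero h S x ρ hSR hρ hsub hSpos h2 h1
    exact tendsto_nhds_unique (hball x (ρ / 4)) h3
  have hdich : ∀ x : E2, (∀ V, IsOpen V → x ∈ V → ε0 ≤ LL U μ V) ∨ ∃ V, IsOpen V ∧ x ∈ V ∧ LL U μ V = 0 := by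
    intro x
    by_cases hc : ∀ V, IsOpen V → x ∈ V → ε0 ≤ LL U μ V
    · exact Or.inl hc
    · right
      push Not at hc
      obtain ⟨V, hV1, hV2, hV3⟩ := hc
      obtain ⟨ρ, hρ, hρV⟩ := Metric.isOpen_iff.mp hV1 x hV2
      refine ⟨ball x (ρ / 4), isOpen_ball, mem_ball_self (by positivity), ?_⟩
      exact hzd x ρ hρ (lt_of_le_of_lt (LL_mono hΛ hΛ0 hρV) hV3)
  have hfin := atoms_finite hΛ (U := U) hΛ0 he0
  set A : Finset E2 := hfin.toFinset with hA
  have hAmem : ∀ x, x ∈ A ↔ ∀ V, IsOpen V → x ∈ V → ε0 ≤ LL U μ V := by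
    intro x
    rw [hA, Set.Finite.mem_toFinset]
    rfl
  obtain ⟨δ, hδ, hδρ, hsep⟩ := exists_separation A hρ0
  have hcomp : ∀ C : Set E2, IsCompact C → (∀ x ∈ C, x ∉ A) → LL U μ C = 0 := by
    intro C hC hCA
    obtain ⟨V, _, hV2, hV3⟩ := LL_compact_zero hΛ (U := U) hΛ0 hC (fun x hxC => by
      rcases hdich x with h1 | h1
      · exact absurd ((hAmem x).mpr h1) (hCA x hxC)
      · exact h1)
    apply le_antisymm _ (LL_nonneg hΛ hΛ0 _)
    rw [← hV3]
    exact LL_mono hΛ hΛ0 hV2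
  have hshrink : ∀ x ∈ A, ∀ ρ, 0 < ρ → ρ ≤ δ → LL U μ (ball x ρ) = LL U μ (ball x δ) := by
    intro x hxA ρ hρ hρδ
    apply le_antisymm (LL_mono hΛ hΛ0 (ball_subset_ball hρδ))
    have h1 : ball x δ ⊆ ball x ρ ∪ (closedBall x δ \ ball x ρ) := by
      intro z hz
      by_cases hz2 : z ∈ ball x ρ
      · exact Or.inl hz2
      · exact Or.inr ⟨ball_subset_closedBall hz, hz2⟩
    have h2 : LL U μ (closedBall x δ \ ball x ρ) = 0 := by
      apply hcomp _ ((isCompact_closedBall x δ).diff isOpen_ball)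
      intro z hz hzA
      have hne : z ≠ x := by
        rintro rfl
        exact hz.2 (mem_ball_self hρ)
      have := hsep z hzA x hxA hne
      have h3 : dist z x ≤ δ := hz.1
      linarith
    calc LL U μ (ball x δ) ≤ LL U μ (ball x ρ ∪ (closedBall x δ \ ball x ρ)) := LL_mono hΛ hΛ0 h1
      _ ≤ _ := LL_union_le hΛ hΛ0 _ _
      _ = LL U μ (ball x ρ) := by rw [h2, add_zero]
  -- quantisation at every atom
  have hquant : ∀ x ∈ A, ∃ j : ℕ, LL U μ (ball x δ) = 8 * Real.pi * j := by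
    intro x hxA
    by_cases hx0 : x = 0
    · subst hx0
      refine ⟨k, ?_⟩
      exact tendsto_nhds_unique (hball 0 δ) (h0 δ hδ hδρ.le)
    · obtain ⟨ρ, hρ, hρm⟩ := hx x hx0
      have hsubev : ∀ᶠ n in (U : Filter ℕ), ball x (δ * 1) ⊆ ball 0 (R n) := by
        filter_upwards [hR.eventually_ge_atTop (‖x‖ + δ)] with n hn
        apply ball_subset_ball'
        rw [dist_zero_right]
        linarith
      have hres := h.resc (x := fun _ => x) (s := fun _ => δ) (R' := fun _ => 1) (fun _ => hδ) hsubev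
      have hms : ∀ n ρ, ms (resc x δ (w n)) ρ = mb (w n) x (δ * ρ) := fun n ρ => ms_resc' (w n) x hδ ρ
      apply hN _ _ η ε Λ K hres
      · intro ρ' hρ' hρ'1
        have h1 := (hball x (δ * 1)).sub (hball x (δ * ρ'))
        rw [mul_one, hshrink x hxA (δ * ρ') (by positivity) (mul_le_of_le_one_right hδ.le hρ'1), sub_self] at h1
        refine h1.congr (fun n => ?_)
        rw [hms, hms, mul_one]
      · have h1 := hball x (δ * 1)
        refine Tendsto.congr (fun n => ?_) (by rw [mul_one] at h1; exact h1)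
        rw [hms, mul_one]
      · have h1 : LL U μ (ball x (min ρ δ)) ≤ m' := by
          refine le_of_tendsto (hball x (min ρ δ)) ?_
          filter_upwards [hρm] with n hn
          exact (mb_mono (h.smooth n).continuous (ball_subset_ball (min_le_left _ _))).trans hn
        rw [hshrink x hxA (min ρ δ) (by positivity) (min_le_right _ _)] at h1
        linarith
  choose! j hj using hquant
  have hdisj : (A : Set E2).PairwiseDisjoint (fun x => ball x δ) := by
    intro x hxA y hyA hxy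
    apply ball_disjoint_ball
    have := hsep x hxA y hyA hxy
    linarith
  obtain ⟨S0, hS0⟩ : ∃ S0 : ℝ, ∀ x ∈ A, ‖x‖ + δ ≤ S0 := by
    have h1 : ∀ᶠ S in (atTop : Filter ℝ), ∀ x ∈ A, ‖x‖ + δ ≤ S := by
      rw [Finset.eventually_all]
      intro x _
      exact eventually_ge_atTop _
    exact h1.exists
  refine ⟨∑ x ∈ A, j x, S0, fun S hS => ?_⟩
  have hU : (⋃ x ∈ A, ball x δ) ⊆ ball 0 S := by
    apply iUnion₂_subset
    intro x hxA
    apply ball_subset_ball'
    rw [dist_zero_right]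
    have := hS0 x hxA
    linarith
  have hval : LL U μ (ball 0 S) = 8 * Real.pi * (∑ x ∈ A, j x : ℕ) := by
    have h1 : LL U μ (⋃ x ∈ A, ball x δ) = 8 * Real.pi * (∑ x ∈ A, j x : ℕ) := by
      rw [LL_sum_eq hΛ hΛ0 A (fun x => ball x δ) (fun x _ => isOpen_ball) hdisj, Nat.cast_sum, Finset.mul_sum]
      exact Finset.sum_congr rfl (fun x hxA => hj x hxA)
    rw [← h1]
    apply le_antisymm _ (LL_mono hΛ hΛ0 hU)
    have h2 : ball (0 : E2) S ⊆ (⋃ x ∈ A, ball x δ) ∪ (closedBall 0 S \ ⋃ x ∈ A, ball x δ) := by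
      intro z hz
      by_cases hz2 : z ∈ ⋃ x ∈ A, ball x δ
      · exact Or.inl hz2
      · exact Or.inr ⟨ball_subset_closedBall hz, hz2⟩
    have h3 : LL U μ (closedBall 0 S \ ⋃ x ∈ A, ball x δ) = 0 := by
      apply hcomp _ ((isCompact_closedBall 0 S).diff (isOpen_biUnion (fun x _ => isOpen_ball)))
      intro z hz hzA
      apply hz.2
      exact mem_iUnion₂.mpr ⟨z, hzA, mem_ball_self hδ⟩
    calc LL U μ (ball 0 S) ≤ _ := LL_mono hΛ hΛ0 h2
      _ ≤ _ := LL_union_le hΛ hΛ0 _ _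
      _ = LL U μ (⋃ x ∈ A, ball x δ) := by rw [h3, add_zero]
  rw [← hval]
  exact hball 0 S

end Pool.Agent.Helper41.PS
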