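import Pool.Agent.Helper41.PS.Spec

/-!
# Blowing-up sequences on the surface
-/

open MeasureTheory Set Manifold Bundle Filter Topology
open scoped ContDiff ENNReal

namespace Pool.Agent.Helper41.PS

variable {M : Type*} [TopologicalSpace M] [ChartedSpace E2 M] [IsManifold (𝓡 2) ∞ M]
  [RiemannianBundle (fun x : M => TangentSpace (𝓡 2) x)] [MeasurableSpace M]

/-- Sequences of smooth approximate solutions whose averages `t` tend to minus infinity and with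
bounded total gradient and oscillation. -/
structure GS (vol : Measure M) (h : M → ℝ) (lam : ℝ) (U : Ultrafilter ℕ) (u : ℕ → M → ℝ)
    (ε t : ℕ → ℝ) (G : ℝ) : Prop where
  smooth : ∀ n, ContMDiff (𝓡 2) 𝓘(ℝ, ℝ) ∞ (u n)
  mass : ∀ n, ∫ x, h x * Real.exp (u n x) ∂vol = 1
  ε_nonneg : ∀ n, 0 ≤ ε n
  ε_lim : Tendsto ε U (𝓝 0)
  weak : ∀ n, ∀ φ : M → ℝ, ContMDiff (𝓡 2) 𝓘(ℝ, ℝ) ∞ φ →
      |(∫ x, inner ℝ (grad (u n) x) (grad φ x) ∂vol) + lam * (∫ x, φ x ∂vol)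
         - lam * ∫ x, h x * Real.exp (u n x) * φ x ∂vol|
        ≤ ε n * √((∫ x, φ x ^ 2 ∂vol) + ∫ x, ‖grad φ x‖ ^ 2 ∂vol)
  grad_le : ∀ᶠ n in (U : Filter ℕ), ∫ x, ‖grad (u n) x‖ ∂vol ≤ G
  osc_le : ∀ᶠ n in (U : Filter ℕ), ∫ x, |u n x - t n| ∂vol ≤ G
  t_lim : Tendsto t U atBot

/-- Total `L¹` norm of the gradient from window energies. -/
def TotalGradBound (vol : Measure M) : Prop :=
  ∀ E : ℝ, 0 ≤ E → ∃ C : ℝ, 0 < C ∧ ∀ u : M → ℝ, ContMDiff (𝓡 2) 𝓘(ℝ, ℝ) ∞ u →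
    (∀ k : ℝ, ∫ x, (1 / (1 + (u x - k) ^ 2)) * ‖grad u x‖ ^ 2 ∂vol ≤ E) →
    ∫ x, ‖grad u x‖ ∂vol ≤ C

end Pool.Agent.Helper41.PS
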