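import Pool.Agent.Helper93.PS.Window
import Pool.Agent.Helper99.PS.Global
import Pool.Agent.Helper41.PS.GlobDef

/-!
# Blowing-up sequences from unbounded smooth Palais-Smale sequences
-/

open MeasureTheory Set Manifold Bundle Filter Topology
open scoped ContDiff ENNReal

set_option linter.unusedSectionVars false

namespace Pool.Agent.Helper41.PS

variable {M : Type*} [TopologicalSpace M] [T2Space M] [CompactSpace M] [ConnectedSpace M]
  [ChartedSpace E2 M] [IsManifold (𝓡 2) ∞ M] [RiemannianBundle (fun x : M => TangentSpace (𝓡 2) x)]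
  [IsContMDiffRiemannianBundle (𝓡 2) ∞ E2 (fun x : M => TangentSpace (𝓡 2) x)]
  [MeasurableSpace M] [BorelSpace M] (vol : Measure M) [IsProbabilityMeasure vol]

theorem exists_GS (hvol : IsRiemannianVolume vol) (hTG : TotalGradBound vol)
    {h : M → ℝ} (hh : Continuous h) (hpos : ∀ x, 0 < h x) {lam : ℝ} (hlam : 0 < lam)
    (hns : ¬ SmoothBound vol h lam) :
    ∃ (U : Ultrafilter ℕ) (u : ℕ → M → ℝ) (ε t : ℕ → ℝ) (G : ℝ), (U : Filter ℕ) ≤ atTop ∧
      GS vol h lam U u ε t G := by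
  unfold SmoothBound at hns
  push Not at hns
  obtain ⟨u, ε, c, hu, hm, hε, hw, hJ, hE⟩ := hns
  set E : ℕ → ℝ := fun n => ∫ x, ‖grad (u n) x‖ ^ 2 ∂vol with hEdef
  have hEt : Tendsto E atTop atTop := by
    rw [tendsto_atTop]
    intro b
    filter_upwards [hE b] with n hn
    exact hn.le
  set t : ℕ → ℝ := fun n => ∫ x, u n x ∂vol with htdef
  have ht : Tendsto t atTop atBot := by
    have h1 : Tendsto (fun n => -((1 / 2) * E n)) atTop atBot :=
      tendsto_neg_atTop_atBot.comp (hEt.const_mul_atTop (by norm_num))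
    have h2 : Tendsto (fun n => ((1 / 2) * E n + lam * t n) + -((1 / 2) * E n)) atTop atBot :=
      hJ.add_atBot h1
    have h3 := h2.atBot_div_const hlam
    refine h3.congr (fun n => ?_)
    field_simp
    ring
  have hweak : ∀ n, ∀ φ : M → ℝ, ContMDiff (𝓡 2) 𝓘(ℝ, ℝ) ∞ φ →
      |(∫ x, inner ℝ (grad (u n) x) (grad φ x) ∂vol) + lam * (∫ x, φ x ∂vol)
         - lam * ∫ x, h x * Real.exp (u n x) * φ x ∂vol|
        ≤ |ε n| * √((∫ x, φ x ^ 2 ∂vol) + ∫ x, ‖grad φ x‖ ^ 2 ∂vol) := fun n φ hφ =>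
    (hw n φ hφ).trans (mul_le_mul_of_nonneg_right (le_abs_self _) (Real.sqrt_nonneg _))
  have hpi := Real.pi_pos
  obtain ⟨C1, hC1, hC1'⟩ := hTG (2 * lam * Real.pi + 10) (by positivity)
  obtain ⟨C2, hC2, hC2'⟩ := Helper99.PS.exists_global_poincare vol hvol
  have hεa : Tendsto (fun n => |ε n|) atTop (𝓝 0) := by
    have := hε.abs
    rwa [abs_zero] at this
  have hsmall : ∀ᶠ n in atTop, |ε n| < 1 / 2 := hεa.eventually (gt_mem_nhds (by norm_num))
  have hgr : ∀ᶠ n in atTop, ∫ x, ‖grad (u n) x‖ ∂vol ≤ C1 := by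
    filter_upwards [hsmall] with n hn
    exact hC1' (u n) (hu n) (fun k => Helper93.PS.window_energy vol hvol hh hpos hlam (hu n) (hm n)
      (abs_nonneg _) hn.le (hweak n) k)
  refine ⟨Ultrafilter.of atTop, u, fun n => |ε n|, t, max C1 (C2 * C1), Ultrafilter.of_le _, hu, hm,
    fun n => abs_nonneg _, hεa.mono_left (Ultrafilter.of_le _), hweak, ?_, ?_,
    ht.mono_left (Ultrafilter.of_le _)⟩
  · filter_upwards [(Ultrafilter.of_le atTop) hgr] with n hn
    exact hn.trans (le_max_left _ _)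
  · filter_upwards [(Ultrafilter.of_le atTop) hgr] with n hn
    refine ((hC2' (u n) (hu n)).trans ?_).trans (le_max_right _ _)
    exact mul_le_mul_of_nonneg_left hn hC2.le

end Pool.Agent.Helper41.PS
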