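import Pool.Agent.Helper41.PS.Adm

/-!
# Two sided level set estimates and the gradient bound by the oscillation
-/

open MeasureTheory Set Filter Topology Metric
open scoped ContDiff ENNReal NNReal

namespace Pool.Agent.Helper41.PS

/-- Uniform bound for the Dirichlet energy in windows of levels. -/
def WB (v : E2 → ℝ) (x0 : E2) (r E : ℝ) : Prop :=
  ∀ k : ℝ, ∫ x in {x ∈ ball x0 r | |v x - k| ≤ 1}, ‖fderiv ℝ v x‖ ^ 2 ≤ E

lemma intOn_grad_sq {v : E2 → ℝ} (hv : ContDiff ℝ 1 v) (x0 : E2) (r : ℝ) :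
    IntegrableOn (fun x => ‖fderiv ℝ v x‖ ^ 2) (ball x0 r) := by
  have hdc : Continuous (fun z => fderiv ℝ v z) := hv.continuous_fderiv (by simp)
  exact intOn_ball (by fun_prop) _ _

lemma intOn_grad {v : E2 → ℝ} (hv : ContDiff ℝ 1 v) (x0 : E2) (r : ℝ) :
    IntegrableOn (fun x => ‖fderiv ℝ v x‖) (ball x0 r) := by
  have hdc : Continuous (fun z => fderiv ℝ v z) := hv.continuous_fderiv (by simp)
  exact intOn_ball (by fun_prop) _ _

lemma WB.bandE_le {v : E2 → ℝ} (hv : ContDiff ℝ 1 v) {x0 : E2} {r E : ℝ} (h : WB v x0 r E) (k : ℝ) :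
    bandE v x0 r k ≤ E := by
  refine le_trans (setIntegral_mono_set ?_ ?_ ?_) (h k)
  · exact (intOn_grad_sq hv x0 r).mono_set (fun x hx => hx.1)
  · exact Eventually.of_forall (fun x => sq_nonneg _)
  · refine Eventually.of_forall (fun x hx => ⟨hx.1, ?_⟩)
    rw [abs_le]
    constructor <;> linarith [hx.2.1, hx.2.2]

lemma WB.neg {v : E2 → ℝ} {x0 : E2} {r E : ℝ} (h : WB v x0 r E) :
    WB (fun x => - v x) x0 r E := by
  intro k
  have h1 := h (-k)
  have h2 : {x ∈ ball x0 r | |-v x - k| ≤ 1} = {x ∈ ball x0 r | |v x - -k| ≤ 1} := by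
    ext x
    simp only [mem_ofPred_eq]
    rw [show -v x - k = -(v x - -k) by ring, abs_neg]
  rw [h2]
  have h3 : ∀ x, ‖fderiv ℝ (fun x => - v x) x‖ = ‖fderiv ℝ v x‖ := by
    intro x
    rw [fderiv_fun_neg, norm_neg]
  simp_rw [h3]
  exact h1

theorem exists_two_sided (E : ℝ) (hE : 0 ≤ E) (k0 : ℕ) : ∃ G q p : ℝ, 0 ≤ G ∧ 0 ≤ q ∧ q < 1 ∧ 0 < p ∧
    ∀ v : E2 → ℝ, ContDiff ℝ 1 v → ∀ (x0 : E2) (r : ℝ), 0 < r → WB v x0 r E →
      lev v x0 r k0 ≤ Real.pi * r ^ 2 / 2 → lev (fun x => - v x) x0 r k0 ≤ Real.pi * r ^ 2 / 2 →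
      (∫ x in ball x0 r, ‖fderiv ℝ v x‖ ≤ G * r) ∧
      (∀ i : ℕ, ∫ x in {x ∈ ball x0 r | (k0 : ℝ) + i ≤ v x}, ‖fderiv ℝ v x‖ ≤ G * q ^ i * r) ∧
      (∫ x in ball x0 r, Real.exp (p * |v x|) ≤ G * r ^ 2) := by
  obtain ⟨C1, hC1, hdec⟩ := exists_level_decay
  have hpi := Real.pi_pos
  set θ := C1 * E / (1 + C1 * E) with hθ
  have hθ0 : 0 ≤ θ := by positivity
  have hθ1 : θ < 1 := by
    rw [hθ, div_lt_one (by positivity)]
    linarith
  set q := √θ with hq
  have hq0 : 0 ≤ q := Real.sqrt_nonneg _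
  have hq2 : q ^ 2 = θ := Real.sq_sqrt hθ0
  have hq1 : q < 1 := by
    by_contra hcon
    push Not at hcon
    nlinarith
  set p := Real.log (2 / (1 + θ)) with hp
  have hep : Real.exp p = 2 / (1 + θ) := Real.exp_log (by positivity)
  have hp0 : 0 < p := by
    apply Real.log_pos
    rw [lt_div_iff₀ (by positivity)]
    linarith
  have hθp : θ * Real.exp p < 1 := by
    rw [hep, mul_div_assoc', div_lt_one (by positivity)]
    linarith
  set G1 := √(E * Real.pi) / (1 - q) with hG1
  have hG1n : 0 ≤ G1 := div_nonneg (Real.sqrt_nonneg _) (by linarith)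
  set G2 := Real.exp (p * k0) * (1 + Real.exp p / (1 - θ * Real.exp p)) * Real.pi with hG2
  have hG2n : 0 ≤ G2 := by
    have : 0 < 1 - θ * Real.exp p := by linarith
    positivity
  set G := 2 * G1 + 2 * k0 * √(E * Real.pi) + 2 * G2 with hG
  have hGn : 0 ≤ G := by positivity
  refine ⟨G, q, p, hGn, hq0, hq1, hp0, ?_⟩
  intro v hv x0 r hr hWB hl1 hl2
  have hvc := hv.continuous
  have hnv : ContDiff ℝ 1 (fun x => - v x) := hv.neg
  have hWBn := hWB.neg
  have d1 := hdec v hv x0 r hr k0 E hE hl1 (fun j => hWB.bandE_le hv _)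
  have d2 := hdec (fun x => - v x) hnv x0 r hr k0 E hE hl2 (fun j => hWBn.bandE_le hnv _)
  have hnd : ∀ x, ‖fderiv ℝ (fun x => - v x) x‖ = ‖fderiv ℝ v x‖ := by
    intro x
    rw [fderiv_fun_neg, norm_neg]
  -- tails
  have tail : ∀ i : ℕ, ∫ x in {x ∈ ball x0 r | (k0 : ℝ) + i ≤ v x}, ‖fderiv ℝ v x‖ ≤ G1 * q ^ i * r := by
    intro i
    have hE' : 0 ≤ E * (q ^ 2) ^ i := by positivity
    -- use the band estimates starting from k0 + i
    obtain ⟨N, hN⟩ := exists_upper_nat hvc x0 r (k0 + i)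
    have h1 : {x ∈ ball x0 r | (k0 : ℝ) + i ≤ v x}
        = {x ∈ ball x0 r | (k0 : ℝ) + i ≤ v x ∧ v x < k0 + i + N} := by
      ext x
      simp only [mem_ofPred_eq]
      exact ⟨fun h => ⟨h.1, h.2, hN x h.1⟩, fun h => ⟨h.1, h.2.1⟩⟩
    have hdc : Continuous (fun z => fderiv ℝ v z) := hv.continuous_fderiv (by simp)
    rw [h1, setIntegral_sup_le_sum hvc x0 r (k0 + i) (by fun_prop) N]
    have h2 : ∀ j : ℕ, ∫ x in {x ∈ ball x0 r | (k0 : ℝ) + i + j ≤ v x ∧ v x < k0 + i + j + 1}, ‖fderiv ℝ v x‖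
        ≤ √(E * Real.pi) * r * q ^ i * q ^ j := by
      intro j
      have h3 := band_cs hv x0 r (k0 + i + j)
      have h4 : (lev v x0 r (k0 + i + j) - lev v x0 r (k0 + i + j + 1)) * bandE v x0 r (k0 + i + j)
          ≤ (θ ^ (i + j) * (Real.pi * r ^ 2)) * E := by
        have h5 : 0 ≤ bandE v x0 r (k0 + i + j) := integral_nonneg (fun x => sq_nonneg _)
        have h6 := lev_nonneg v x0 r (k0 + i + j + 1)
        have h7 := d1 (i + j)
        rw [show (k0 : ℝ) + ((i + j : ℕ) : ℝ) = k0 + i + j by push_cast; ring] at h7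
        apply mul_le_mul _ (hWB.bandE_le hv _) h5 (by positivity)
        linarith
      have h7 : (θ ^ (i + j) * (Real.pi * r ^ 2)) * E = (√(E * Real.pi) * r * q ^ i * q ^ j) ^ 2 := by
        rw [mul_pow, mul_pow, mul_pow, Real.sq_sqrt (by positivity), ← hq2]
        ring
      rw [h7] at h4
      exact le_of_sq_le_sq (h3.trans h4) (by positivity)
    calc ∑ j ∈ Finset.range N, ∫ x in {x ∈ ball x0 r | (k0 : ℝ) + i + j ≤ v x ∧ v x < k0 + i + j + 1}, ‖fderiv ℝ v x‖
        ≤ ∑ j ∈ Finset.range N, √(E * Real.pi) * r * q ^ i * q ^ j := Finset.sum_le_sum (fun j _ => h2 j)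
      _ = √(E * Real.pi) * r * q ^ i * ∑ j ∈ Finset.range N, q ^ j := by rw [Finset.mul_sum]
      _ ≤ √(E * Real.pi) * r * q ^ i * (1 / (1 - q)) :=
          mul_le_mul_of_nonneg_left (sum_geom_le hq0 hq1 N) (by positivity)
      _ = _ := by rw [hG1]; ring
  have hG1G : G1 ≤ G := by
    have : 0 ≤ 2 * (k0 : ℝ) * √(E * Real.pi) := by positivity
    linarith
  refine ⟨?_, ?_, ?_⟩
  · -- total gradient
    have t1 : ∫ x in {x ∈ ball x0 r | (k0 : ℝ) ≤ v x}, ‖fderiv ℝ v x‖ ≤ G1 * r := by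
      have := tail 0
      simpa using this
    have t2 : ∫ x in {x ∈ ball x0 r | (k0 : ℝ) ≤ - v x}, ‖fderiv ℝ v x‖ ≤ G1 * r := by
      have := grad_sup_le hnv x0 hr (k := k0) (q := q) hE hq0 hq1 (fun j => hWBn.bandE_le hnv _)
        (fun j => by rw [hq2]; exact d2 j)
      simp_rw [hnd] at this
      refine this.trans (le_of_eq ?_)
      rw [hG1]
      ring
    have t3 : ∫ x in {x ∈ ball x0 r | -(k0 : ℝ) ≤ v x ∧ v x < -(k0 : ℝ) + (2 * k0 : ℕ)}, ‖fderiv ℝ v x‖
        ≤ 2 * k0 * √(E * Real.pi) * r := by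
      have hdc : Continuous (fun z => fderiv ℝ v z) := hv.continuous_fderiv (by simp)
      rw [setIntegral_sup_le_sum hvc x0 r (-(k0 : ℝ)) (by fun_prop) (2 * k0)]
      have h2 : ∀ j : ℕ, ∫ x in {x ∈ ball x0 r | -(k0 : ℝ) + j ≤ v x ∧ v x < -(k0 : ℝ) + j + 1}, ‖fderiv ℝ v x‖
          ≤ √(E * Real.pi) * r := by
        intro j
        have h3 := band_cs hv x0 r (-(k0 : ℝ) + j)
        have h4 : (lev v x0 r (-(k0 : ℝ) + j) - lev v x0 r (-(k0 : ℝ) + j + 1)) * bandE v x0 r (-(k0 : ℝ) + j)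
            ≤ (Real.pi * r ^ 2) * E := by
          have h5 : 0 ≤ bandE v x0 r (-(k0 : ℝ) + j) := integral_nonneg (fun x => sq_nonneg _)
          have h6 := lev_nonneg v x0 r (-(k0 : ℝ) + j + 1)
          have h7 := lev_le v x0 hr (-(k0 : ℝ) + j)
          apply mul_le_mul _ (hWB.bandE_le hv _) h5 (by positivity)
          linarith
        have h7 : (Real.pi * r ^ 2) * E = (√(E * Real.pi) * r) ^ 2 := by
          rw [mul_pow, Real.sq_sqrt (by positivity)]
          ring
        rw [h7] at h4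
        exact le_of_sq_le_sq (h3.trans h4) (by positivity)
      calc _ ≤ ∑ j ∈ Finset.range (2 * k0), √(E * Real.pi) * r := Finset.sum_le_sum (fun j _ => h2 j)
        _ = _ := by
            rw [Finset.sum_const, Finset.card_range, nsmul_eq_mul]
            push_cast
            ring
    have hsub : ball x0 r ⊆ ({x ∈ ball x0 r | (k0 : ℝ) ≤ v x} ∪ {x ∈ ball x0 r | (k0 : ℝ) ≤ - v x}) ∪
        {x ∈ ball x0 r | -(k0 : ℝ) ≤ v x ∧ v x < -(k0 : ℝ) + (2 * k0 : ℕ)} := by
      intro x hx
      by_cases h1 : (k0 : ℝ) ≤ v x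
      · exact Or.inl (Or.inl ⟨hx, h1⟩)
      · by_cases h2 : (k0 : ℝ) ≤ - v x
        · exact Or.inl (Or.inr ⟨hx, h2⟩)
        · refine Or.inr ⟨hx, by linarith, ?_⟩
          push_cast
          linarith
    have hI := intOn_grad hv x0 r
    have hn : ∀ x, 0 ≤ ‖fderiv ℝ v x‖ := fun x => norm_nonneg _
    calc ∫ x in ball x0 r, ‖fderiv ℝ v x‖
        ≤ ∫ x in ({x ∈ ball x0 r | (k0 : ℝ) ≤ v x} ∪ {x ∈ ball x0 r | (k0 : ℝ) ≤ - v x}) ∪
        {x ∈ ball x0 r | -(k0 : ℝ) ≤ v x ∧ v x < -(k0 : ℝ) + (2 * k0 : ℕ)}, ‖fderiv ℝ v x‖ := by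
          apply setIntegral_mono_set
          · apply hI.mono_set
            rintro x ((h | h) | h)
            · exact h.1
            · exact h.1
            · exact h.1
          · exact Eventually.of_forall hn
          · exact Eventually.of_forall hsub
      _ ≤ ((∫ x in {x ∈ ball x0 r | (k0 : ℝ) ≤ v x}, ‖fderiv ℝ v x‖)
          + ∫ x in {x ∈ ball x0 r | (k0 : ℝ) ≤ - v x}, ‖fderiv ℝ v x‖)
          + ∫ x in {x ∈ ball x0 r | -(k0 : ℝ) ≤ v x ∧ v x < -(k0 : ℝ) + (2 * k0 : ℕ)}, ‖fderiv ℝ v x‖ := by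
          have hun : ∀ s t : Set E2, s ⊆ ball x0 r → t ⊆ ball x0 r → MeasurableSet s → MeasurableSet t →
              ∫ x in s ∪ t, ‖fderiv ℝ v x‖ ≤ (∫ x in s, ‖fderiv ℝ v x‖) + ∫ x in t, ‖fderiv ℝ v x‖ := by
            intro s t hs ht hms hmt
            have h5 : s ∪ t = s ∪ (t \ s) := by simp
            rw [h5, setIntegral_union disjoint_sdiff_right (hmt.diff hms) (hI.mono_set hs)
              (hI.mono_set (sdiff_subset.trans ht))]
            gcongr
            · exact Eventually.of_forall hn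
            · exact (hI.mono_set ht)
            · exact sdiff_subset
          have m1 := measSet_sup hvc x0 r (k0 : ℝ)
          have m2 := measSet_sup hvc.neg x0 r (k0 : ℝ)
          have m3 := measSet_band hvc x0 r (-(k0 : ℝ)) (-(k0 : ℝ) + (2 * k0 : ℕ))
          refine (hun _ _ ?_ (fun x hx => hx.1) (m1.union m2) m3).trans ?_
          · rintro x (h | h)
            · exact h.1
            · exact h.1
          · gcongr
            exact hun _ _ (fun x hx => hx.1) (fun x hx => hx.1) m1 m2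
      _ ≤ (G1 * r + G1 * r) + 2 * k0 * √(E * Real.pi) * r := add_le_add (add_le_add t1 t2) t3
      _ ≤ G * r := by
          rw [hG]
          nlinarith
  · intro i
    refine (tail i).trans ?_
    gcongr
  · have e1 := exp_int_le hvc x0 hr (k := k0) (p := p) (θ := θ) hp0.le hθ0 hθp d1
    have e2 := exp_int_le hvc.neg x0 hr (k := k0) (p := p) (θ := θ) hp0.le hθ0 hθp d2
    have hc1 : Continuous (fun x => Real.exp (p * v x)) := by fun_prop
    have hc2 : Continuous (fun x => Real.exp (p * (- v x))) := by fun_prop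
    calc ∫ x in ball x0 r, Real.exp (p * |v x|)
        ≤ ∫ x in ball x0 r, (Real.exp (p * v x) + Real.exp (p * (- v x))) := by
          apply setIntegral_mono
          · exact intOn_ball (by fun_prop) _ _
          · exact intOn_ball (by fun_prop) _ _
          · intro x
            simp only
            rcases abs_cases (v x) with ⟨h1, _⟩ | ⟨h1, _⟩
            · rw [h1]
              linarith [Real.exp_pos (p * -v x)]
            · rw [h1]
              linarith [Real.exp_pos (p * v x)]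
      _ = (∫ x in ball x0 r, Real.exp (p * v x)) + ∫ x in ball x0 r, Real.exp (p * (- v x)) :=
          integral_add (intOn_ball hc1 _ _) (intOn_ball hc2 _ _)
      _ ≤ G2 * r ^ 2 + G2 * r ^ 2 := by
          refine add_le_add (e1.trans (le_of_eq ?_)) (e2.trans (le_of_eq ?_))
          · rw [hG2]; ring
          · rw [hG2]; ring
      _ ≤ G * r ^ 2 := by
          rw [hG]
          have : 0 ≤ 2 * G1 + 2 * (k0 : ℝ) * √(E * Real.pi) := by positivity
          nlinarith [sq_nonneg r]

/-- A fixed radial cutoff, equal to one on the disc of radius `ρ`, supported in radius `2ρ`. -/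
noncomputable def cut (ρ : ℝ) (hρ : 0 < ρ) : ContDiffBump (0 : E2) where
  rIn := ρ
  rOut := 3 / 2 * ρ
  rIn_pos := hρ
  rIn_lt_rOut := by linarith

lemma cut_facts {ρ : ℝ} (hρ : 0 < ρ) :
    ContDiff ℝ ∞ (cut ρ hρ) ∧ HasCompactSupport (cut ρ hρ) ∧ tsupport (cut ρ hρ) ⊆ ball 0 (2 * ρ) ∧
    (∀ x, 0 ≤ (cut ρ hρ) x) ∧ (∀ x, (cut ρ hρ) x ≤ 1) ∧ (∀ x ∈ closedBall (0 : E2) ρ, (cut ρ hρ) x = 1) := by
  refine ⟨(cut ρ hρ).contDiff, (cut ρ hρ).hasCompactSupport, ?_, fun x => (cut ρ hρ).nonneg,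
    fun x => (cut ρ hρ).le_one, fun x hx => (cut ρ hρ).one_of_mem_closedBall hx⟩
  rw [(cut ρ hρ).tsupport_eq]
  apply closedBall_subset_ball
  show 3 / 2 * ρ < 2 * ρ
  linarith

lemma meas_le_of_integral_abs {v : E2 → ℝ} (hv : Continuous v) (x0 : E2) {r : ℝ} {k A : ℝ}
    (hk : 0 < k) (hA : ∫ x in ball x0 r, |v x| ≤ A) : lev v x0 r k ≤ A / k := by
  rw [le_div_iff₀ hk]
  calc lev v x0 r k * k = ∫ x in {x ∈ ball x0 r | k ≤ v x}, k := by
        rw [setIntegral_const, smul_eq_mul]
        rfl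
    _ ≤ ∫ x in {x ∈ ball x0 r | k ≤ v x}, |v x| := by
        apply setIntegral_mono_on
        · exact (intOn_ball continuous_const x0 r).mono_set (fun x hx => hx.1)
        · exact (intOn_ball hv.abs x0 r).mono_set (fun x hx => hx.1)
        · exact measSet_sup hv x0 r k
        · intro x hx
          exact hx.2.trans (le_abs_self _)
    _ ≤ ∫ x in ball x0 r, |v x| := by
        apply setIntegral_mono_set
        · exact intOn_ball hv.abs x0 r
        · exact Eventually.of_forall (fun x => abs_nonneg _)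
        · exact Eventually.of_forall (fun x hx => hx.1)
    _ ≤ A := hA

/-- From the weighted energy bound to the window bound. -/
lemma WB_of_XX {w ψ : E2 → ℝ} (hw : ContDiff ℝ ∞ w) (hψ : ContDiff ℝ ∞ ψ) (hs : HasCompactSupport ψ)
    (h0 : ∀ x, 0 ≤ ψ x) {x0 : E2} {r s c X : ℝ} (hspos : 0 < s) (h1 : ∀ x ∈ ball x0 r, ψ x = 1)
    (hX : ∀ k, XX ψ w s k ≤ X) : WB (fun x => (w x - c) / s) x0 r (2 * X / s) := by
  intro k
  have hgw := smooth_grad_cont hw
  have hwc := hw.continuous
  have hdiff : ∀ x, DifferentiableAt ℝ w x := fun x => smooth_diff hw x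
  have hder : ∀ x, ‖fderiv ℝ (fun x => (w x - c) / s) x‖ = ‖gradient w x‖ / s := by
    intro x
    have : fderiv ℝ (fun x => (w x - c) / s) x = (1 / s) • fderiv ℝ w x := by
      have h5 : HasFDerivAt (fun x => (w x - c) / s) ((1 / s) • fderiv ℝ w x) x := by
        have := ((hdiff x).hasFDerivAt.sub_const c).const_smul (1 / s)
        refine this.congr_of_eventuallyEq (Eventually.of_forall (fun y => ?_))
        simp only [Pi.smul_apply, smul_eq_mul]
        ring
      exact h5.fderiv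
    rw [this, norm_smul, norm_grad, Real.norm_of_nonneg (by positivity)]
    ring
  simp_rw [hder]
  set S := {x ∈ ball x0 r | |(w x - c) / s - k| ≤ 1} with hS
  have hSm : MeasurableSet S := by
    apply measurableSet_ball.inter
    have : Measurable (fun x => |(w x - c) / s - k|) := by
      have : Continuous (fun x => |(w x - c) / s - k|) := by fun_prop
      exact this.measurable
    exact measurableSet_le this measurable_const
  have key := hX (c + k * s)
  have hc' : Continuous (fun x => ψ x * (1 / (1 + ((w x - (c + k * s)) / s) ^ 2) * (1 / s)) * ‖gradient w x‖ ^ 2) := by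
    apply Continuous.mul _ (hgw.norm.pow 2)
    apply Continuous.mul hψ.continuous
    apply Continuous.mul _ continuous_const
    apply Continuous.div continuous_const
    · fun_prop
    · intro x
      positivity
  have hint : Integrable (fun x => ψ x * (1 / (1 + ((w x - (c + k * s)) / s) ^ 2) * (1 / s)) * ‖gradient w x‖ ^ 2) :=
    integrable_cc hc' (hs.mul_right).mul_right
  have h2 : ∫ x in S, (‖gradient w x‖ / s) ^ 2 ≤ (2 / s) * XX ψ w s (c + k * s) := by
    rw [XX, ← integral_const_mul]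
    calc ∫ x in S, (‖gradient w x‖ / s) ^ 2
        ≤ ∫ x in S, (2 / s) * (ψ x * (1 / (1 + ((w x - (c + k * s)) / s) ^ 2) * (1 / s)) * ‖gradient w x‖ ^ 2) := by
          apply setIntegral_mono_on
          · exact (intOn_ball (f := fun x => (‖gradient w x‖ / s) ^ 2) (by fun_prop) x0 r).mono_set (fun x hx => hx.1)
          · exact (hint.const_mul _).integrableOn
          · exact hSm
          · intro x hx
            rw [h1 x hx.1, one_mul]
            have h3 : (w x - (c + k * s)) / s = (w x - c) / s - k := by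
              field_simp
              ring
            have h4 : ((w x - (c + k * s)) / s) ^ 2 ≤ 1 := by
              rw [h3, sq_le_one_iff_abs_le_one]
              exact hx.2
            have h5 : 1 / 2 ≤ 1 / (1 + ((w x - (c + k * s)) / s) ^ 2) := by
              apply one_div_le_one_div_of_le (by positivity)
              linarith
            calc (‖gradient w x‖ / s) ^ 2 = (2 / s) * (1 / 2 * (1 / s) * ‖gradient w x‖ ^ 2) := by
                  field_simp
              _ ≤ _ := by gcongr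
      _ ≤ ∫ x, (2 / s) * (ψ x * (1 / (1 + ((w x - (c + k * s)) / s) ^ 2) * (1 / s)) * ‖gradient w x‖ ^ 2) := by
          apply setIntegral_le_integral (hint.const_mul _)
          refine Eventually.of_forall (fun x => ?_)
          have := h0 x
          simp only [Pi.zero_apply]
          positivity
  calc _ ≤ (2 / s) * XX ψ w s (c + k * s) := h2
    _ ≤ (2 / s) * X := mul_le_mul_of_nonneg_left key (by positivity)
    _ = _ := by ring

end Pool.Agent.Helper41.PS
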