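import Pool.Agent.Helper41.PS.Glob2
import Pool.Agent.Helper41.PS.Blow
import Pool.Agent.Helper99.PS.Total
import Pool.Agent.Helper9.PS.Fin

/-!
# Energy bound for smooth Palais-Smale sequences away from the quantised levels
-/

open MeasureTheory Set Manifold Bundle Filter Topology
open scoped ContDiff ENNReal

set_option linter.unusedSectionVars false

namespace Pool.Agent.Helper41.PS

variable {M : Type*} [TopologicalSpace M] [T2Space M] [CompactSpace M] [ConnectedSpace M]
  [ChartedSpace E2 M] [IsManifold (𝓡 2) ∞ M] [RiemannianBundle (fun x : M => TangentSpace (𝓡 2) x)]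
  [IsContMDiffRiemannianBundle (𝓡 2) ∞ E2 (fun x : M => TangentSpace (𝓡 2) x)]
  [MeasurableSpace M] [BorelSpace M] (vol : Measure M) [IsProbabilityMeasure vol]

theorem smoothBound (hvol : IsRiemannianVolume vol) {h : M → ℝ}
    (hh : ContMDiff (𝓡 2) 𝓘(ℝ, ℝ) ∞ h) (hpos : ∀ x, 0 < h x) {lam : ℝ} (hlam : 0 < lam)
    (hne : ∀ k : ℕ, lam ≠ 8 * Real.pi * k) : SmoothBound vol h lam := by
  by_contra hns
  obtain ⟨U, u, ε, t, G, hU, hg⟩ := exists_GS vol hvol
    (Helper99.PS.totalGradBound vol hvol) hh.continuous hpos hlam hns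
  obtain ⟨k, hk⟩ := hg.quant hvol hU hh hpos hlam
  exact hne k hk

theorem psProperty (hvol : IsRiemannianVolume vol) {h : M → ℝ}
    (hh : ContMDiff (𝓡 2) 𝓘(ℝ, ℝ) ∞ h) (hpos : ∀ x, 0 < h x) {lam : ℝ} (hlam : 0 < lam)
    (hne : ∀ k : ℕ, lam ≠ 8 * Real.pi * k) : Helper9.PS.PSProperty vol h lam :=
  Helper9.PS.ps_of_smoothBound (Helper99.PS.exists_global_poincare vol hvol)
    (Helper33.PS.exists_exp_bound vol hvol) (Helper33.PS.rellich vol hvol) hh.continuous hpos hlam
    (smoothBound vol hvol hh hpos hlam hne)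

end Pool.Agent.Helper41.PS
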