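import Pool.Agent.Helper41.PS.ShortDefs
import Pool.Agent.Helper41.PS.Final
import Pool.Agent.Helper99.PS.Inj

/-!
# From the statement over smooth Riemannian metrics to the bundle formulation
-/

open MeasureTheory Set Manifold Bundle Filter Topology
open scoped ContDiff ENNReal

set_option linter.unusedSectionVars false

namespace Pool.Agent.Helper41.PSShort

section Bridge

variable {M : Type*} [TopologicalSpace M] [ch : ChartedSpace EE M] [mf : IsManifold 𝓘(ℝ, EE) ∞ M]

/-- the same charts -/
@[reducible] def chE : ChartedSpace PS.E2 M := ch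

theorem mfE : @IsManifold ℝ _ PS.E2 _ _ PS.E2 _ (𝓡 2) ∞ M _ chE := mf

/-- the Riemannian bundle of a metric -/
@[reducible] noncomputable def rbE (g : Metric M) :
    @RiemannianBundle M (fun x => @TangentSpace ℝ _ PS.E2 _ _ PS.E2 _ (𝓡 2) M _ chE x)
      (fun x => @instTopologicalSpaceTangentSpace ℝ _ PS.E2 _ _ PS.E2 _ (𝓡 2) M _ chE x)
      (fun x => @instAddCommGroupTangentSpace ℝ _ PS.E2 _ _ PS.E2 _ (𝓡 2) M _ chE x)
      (fun x => @instModuleTangentSpace ℝ _ PS.E2 _ _ PS.E2 _ (𝓡 2) M _ chE x) :=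
  ⟨g.toRiemannianMetric⟩

theorem crbE (g : Metric M) :
    letI := chE (M := M)
    haveI := mfE (M := M)
    letI := rbE g
    IsContMDiffRiemannianBundle (𝓡 2) ∞ PS.E2 (fun x : M => TangentSpace (𝓡 2) x) :=
  letI := chE (M := M)
  haveI := mfE (M := M)
  letI := rbE g
  ⟨g.inner, g.contMDiff, fun _ _ _ => rfl⟩

theorem smooth_iff (u : M → ℝ) :
    letI := chE (M := M)
    Smooth u ↔ ContMDiff (𝓡 2) 𝓘(ℝ, ℝ) ∞ u := Iff.rfl

theorem dot_eq (g : Metric M) (x : M) (v w : PS.E2) :
    letI := chE (M := M)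
    letI := rbE g
    dot g x v w = @inner ℝ (TangentSpace (𝓡 2) x) _ v w := rfl

theorem grad_eq (g : Metric M) (u : M → ℝ) (x : M) :
    letI := chE (M := M)
    haveI := mfE (M := M)
    letI := rbE g
    grad g u x = PS.grad u x := by
  letI := chE (M := M)
  haveI := mfE (M := M)
  letI := rbE g
  have h0 : ∀ η, dot g x (PS.grad u x) η = diff u x η := fun η =>
    Helper93.PS.inner_grad_left u x η
  have h1 : ∀ η, dot g x (grad g u x) η = diff u x η :=
    Classical.epsilon_spec (p := fun ξ => ∀ η, dot g x ξ η = diff u x η) ⟨_, h0⟩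
  apply ext_inner_right ℝ (E := TangentSpace (𝓡 2) x)
  intro η
  exact (h1 η).trans (h0 η).symm

theorem dir_eq (g : Metric M) (u v : M → ℝ) (x : M) :
    letI := chE (M := M)
    haveI := mfE (M := M)
    letI := rbE g
    dot g x (grad g u x) (grad g v x) = inner ℝ (PS.grad u x) (PS.grad v x) := by
  letI := chE (M := M)
  haveI := mfE (M := M)
  letI := rbE g
  rw [grad_eq, grad_eq]
  rfl

theorem isArea_iff [MeasurableSpace M] (g : Metric M) (vol : Measure M) :
    letI := chE (M := M)
    haveI := mfE (M := M)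
    letI := rbE g
    IsArea g vol ↔ PS.IsRiemannianVolume vol := Iff.rfl

end Bridge

end Pool.Agent.Helper41.PSShort
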