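import Pool.Agent.Helper41.PS.ShortDefs
import Pool.Agent.Helper9.PS.Fin

/-!
# Transfer of the Palais-Smale property between models of the Sobolev space
-/

open MeasureTheory Set Manifold Bundle Filter Topology
open scoped ContDiff ENNReal

set_option linter.unusedSectionVars false

namespace Pool.Agent.Helper41.PSShort

open Pool.Agent.Helper41.PS (E2)
open Pool.Agent.Helper9.PS (H1 toL2 PreH1 toL2_ae norm_toL2_le)

variable {M : Type*} [TopologicalSpace M] [T2Space M] [CompactSpace M]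
  [ChartedSpace E2 M] [IsManifold (𝓡 2) ∞ M] [RiemannianBundle (fun x : M => TangentSpace (𝓡 2) x)]
  [IsContMDiffRiemannianBundle (𝓡 2) ∞ E2 (fun x : M => TangentSpace (𝓡 2) x)]
  [MeasurableSpace M] [BorelSpace M] (vol : Measure M) [IsProbabilityMeasure vol]

theorem norm_sq_Lp (f : Lp ℝ 2 vol) : ‖f‖ ^ 2 = ∫ x, f x ^ 2 ∂vol := by
  rw [← real_inner_self_eq_norm_sq, L2.inner_def]
  refine integral_congr_ae (Eventually.of_forall fun x => ?_)
  simp only
  rw [real_inner_self_eq_norm_sq, Real.norm_eq_abs, sq_abs]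

theorem lintegral_Lp (f g : Lp ℝ 2 vol) :
    ∫⁻ x, ‖f x - g x‖ₑ ^ 2 ∂vol = ENNReal.ofReal (‖f - g‖ ^ 2) := by
  rw [norm_sq_Lp, ofReal_integral_eq_lintegral_ofReal]
  · refine lintegral_congr_ae ?_
    filter_upwards [Lp.coeFn_sub f g] with x hx
    rw [hx, Pi.sub_apply, ← ofReal_norm_eq_enorm, ← ENNReal.ofReal_pow (norm_nonneg _),
      Real.norm_eq_abs, sq_abs]
  · exact (Lp.memLp (f - g)).integrable_sq
  · exact Eventually.of_forall fun x => sq_nonneg _

variable {H : Type*} [NormedAddCommGroup H] [InnerProductSpace ℝ H] (j : H → M → ℝ)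

theorem transfer (Φ : H1 vol ≃ₗᵢ[ℝ] H) (hΦ : ∀ w, j (Φ w) =ᵐ[vol] toL2 vol w)
    (h : M → ℝ) (lam : ℝ) (hinj : Function.Injective (toL2 vol))
    (hint : ∀ (u : H1 vol) (q : ℝ), Integrable (fun x => Real.exp (q * toL2 vol u x)) vol)
    (hC1 : ContDiff ℝ 1 (Helper9.PS.J vol h lam)) (hPS : Helper9.PS.PSProperty vol h lam) :
    (∀ w w', j w =ᵐ[vol] j w' → w = w') ∧
      (∀ (w : H) (q : ℝ), Integrable (fun x => Real.exp (q * j w x)) vol) ∧
      ContDiff ℝ 1 (J vol j h lam) ∧ PalaisSmale vol j h lam := by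
  have e1 : ∀ w : H, j w =ᵐ[vol] toL2 vol (Φ.symm w) := by
    intro w
    have := hΦ (Φ.symm w)
    rwa [LinearIsometryEquiv.apply_symm_apply] at this
  have hJ : ∀ w, J vol j h lam w = Helper9.PS.J vol h lam (Φ.symm w) := by
    intro w
    have h1 : ∫ x, j w x ^ 2 ∂vol = ‖toL2 vol (Φ.symm w)‖ ^ 2 := by
      rw [norm_sq_Lp]
      refine integral_congr_ae ?_
      filter_upwards [e1 w] with x hx
      rw [hx]
    have h2 : ∫ x, j w x ∂vol = ∫ x, toL2 vol (Φ.symm w) x ∂vol := integral_congr_ae (e1 w)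
    have h3 : ∫ x, h x * Real.exp (j w x) ∂vol = ∫ x, h x * Real.exp (toL2 vol (Φ.symm w) x) ∂vol := by
      refine integral_congr_ae ?_
      filter_upwards [e1 w] with x hx
      rw [hx]
    rw [J, Helper9.PS.J, h1, h2, h3, LinearIsometryEquiv.norm_map]
  have hJ' : J vol j h lam = Helper9.PS.J vol h lam ∘ Φ.symm := funext hJ
  have hC : ContDiff ℝ 1 (J vol j h lam) := by
    rw [hJ']
    exact hC1.comp Φ.symm.toContinuousLinearEquiv.contDiff
  refine ⟨fun w w' hw => ?_, fun w q => ?_, hC, ?_⟩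
  · have h1 : toL2 vol (Φ.symm w) = toL2 vol (Φ.symm w') := by
      apply Lp.ext
      exact (e1 w).symm.trans (hw.trans (e1 w'))
    exact Φ.symm.injective (hinj h1)
  · refine (hint (Φ.symm w) q).congr ?_
    filter_upwards [e1 w] with x hx
    rw [hx]
  · intro w c hw1 hwJ hwd
    obtain ⟨φ, hφ, v, hv⟩ := hPS (fun n => Φ.symm (w n)) c (fun n => by
      rw [← hw1 n]
      refine integral_congr_ae ?_
      filter_upwards [e1 (w n)] with x hx
      rw [hx]) (by
      refine hwJ.congr fun n => ?_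
      rw [hJ]) (by
      refine hwd.congr fun n => ?_
      have h1 : Helper9.PS.J vol h lam = J vol j h lam ∘ Φ := by
        ext u
        rw [Function.comp_apply, hJ, LinearIsometryEquiv.symm_apply_apply]
      have h2 : HasFDerivAt (J vol j h lam) (fderiv ℝ (J vol j h lam) (w n)) (Φ (Φ.symm (w n))) := by
        rw [LinearIsometryEquiv.apply_symm_apply]
        exact ((hC.differentiable (by simp)) (w n)).hasFDerivAt
      have h3 := h2.comp (Φ.symm (w n)) Φ.toContinuousLinearEquiv.hasFDerivAt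
      rw [h1]
      have h4 : HasFDerivAt (J vol j h lam ∘ Φ) ((fderiv ℝ (J vol j h lam) (w n)).comp
          (Φ.toContinuousLinearEquiv : H1 vol →L[ℝ] H)) (Φ.symm (w n)) := h3
      rw [h4.fderiv]
      exact (ContinuousLinearMap.opNorm_comp_linearIsometryEquiv (fderiv ℝ (J vol j h lam) (w n)) Φ).symm)
    refine ⟨φ, hφ, Φ v, ?_⟩
    have := (Φ.continuous.tendsto v).comp hv
    refine this.congr fun n => ?_
    simp only [Function.comp_apply, LinearIsometryEquiv.apply_symm_apply]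

open Classical in
/-- The smooth functions in the concrete model. -/
noncomputable def iota (u : M → ℝ) : H1 vol :=
  if hu : ContMDiff (𝓡 2) 𝓘(ℝ, ℝ) ∞ u then ((PreH1.mk u hu : PreH1 vol) : H1 vol) else 0

theorem iota_eq {u : M → ℝ} (hu : ContMDiff (𝓡 2) 𝓘(ℝ, ℝ) ∞ u) :
    iota vol u = ((PreH1.mk u hu : PreH1 vol) : H1 vol) := by
  rw [iota, dif_pos hu]

theorem iota_inner {u v : M → ℝ} (hu : ContMDiff (𝓡 2) 𝓘(ℝ, ℝ) ∞ u)
    (hv : ContMDiff (𝓡 2) 𝓘(ℝ, ℝ) ∞ v) :
    inner ℝ (iota vol u) (iota vol v)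
      = (∫ x, u x * v x ∂vol) + ∫ x, inner ℝ (PS.grad u x) (PS.grad v x) ∂vol := by
  rw [iota_eq vol hu, iota_eq vol hv, UniformSpace.Completion.inner_coe, PreH1.inner_def]
  rfl

theorem iota_dense : Dense (iota vol '' {u : M → ℝ | ContMDiff (𝓡 2) 𝓘(ℝ, ℝ) ∞ u}) := by
  have hd : DenseRange ((↑) : PreH1 vol → H1 vol) := UniformSpace.Completion.denseRange_coe
  refine hd.mono ?_
  rintro _ ⟨f, rfl⟩
  refine ⟨f.toFun, f.smooth, ?_⟩
  rw [iota_eq vol f.smooth]
  rfl

theorem toL2_cont (w w' : H1 vol) :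
    ∫⁻ x, ‖toL2 vol w x - toL2 vol w' x‖ₑ ^ 2 ∂vol ≤ ENNReal.ofReal (‖w - w'‖ ^ 2) := by
  rw [lintegral_Lp, ← map_sub]
  apply ENNReal.ofReal_le_ofReal
  exact pow_le_pow_left₀ (norm_nonneg _) (norm_toL2_le _) 2

theorem toL2_repr {u : M → ℝ} (hu : ContMDiff (𝓡 2) 𝓘(ℝ, ℝ) ∞ u) : toL2 vol (iota vol u) =ᵐ[vol] u := by
  rw [iota_eq vol hu]
  exact toL2_ae (PreH1.mk u hu : PreH1 vol)

end Pool.Agent.Helper41.PSShort
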