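import Mathlib

/-!
# Closed Riemannian surfaces: volume measure, gradients, smooth functions
-/

open MeasureTheory Set Manifold Bundle Filter Topology
open scoped ContDiff ENNReal

namespace Pool.Agent.Helper41.PS

/-- The Euclidean plane, the model space of surfaces. -/
abbrev E2 : Type := EuclideanSpace ℝ (Fin 2)

section Defs

variable {M : Type*} [TopologicalSpace M] [ChartedSpace E2 M] [IsManifold (𝓡 2) ∞ M]
  [RiemannianBundle (fun x : M => TangentSpace (𝓡 2) x)]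

/-- The coordinate tangent vector `∂_i` at the point with coordinates `y` in the chart
centred at `x0`. -/
noncomputable def coordVec (x0 : M) (y : E2) (i : Fin 2) :
    TangentSpace (𝓡 2) ((chartAt E2 x0).symm y) :=
  mfderiv (𝓡 2) (𝓡 2) (chartAt E2 x0).symm y (EuclideanSpace.single i (1 : ℝ))

/-- The matrix `g_ij` of the Riemannian metric in the chart centred at `x0`. -/
noncomputable def gram (x0 : M) (y : E2) : Matrix (Fin 2) (Fin 2) ℝ :=
  Matrix.of fun i j => inner ℝ (coordVec x0 y i) (coordVec x0 y j)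

/-- `vol` is the Riemannian volume measure: in every chart it has density `√det(g_ij)` with
respect to Lebesgue measure. -/
def IsRiemannianVolume [MeasurableSpace M] (vol : Measure M) : Prop :=
  ∀ x0 : M, ∀ s : Set M, MeasurableSet s → s ⊆ (chartAt E2 x0).source →
    vol s = ∫⁻ y in (chartAt E2 x0) '' s, ENNReal.ofReal (√(gram x0 y).det)

instance finDimTangent (x : M) : FiniteDimensional ℝ (TangentSpace (𝓡 2) x) :=
  inferInstanceAs (FiniteDimensional ℝ E2)

instance completeTangent (x : M) : CompleteSpace (TangentSpace (𝓡 2) x) :=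
  FiniteDimensional.complete ℝ _

/-- The Riemannian gradient of a function. -/
noncomputable def grad (u : M → ℝ) (x : M) : TangentSpace (𝓡 2) x :=
  (InnerProductSpace.toDual ℝ (TangentSpace (𝓡 2) x)).symm (mfderiv (𝓡 2) 𝓘(ℝ, ℝ) u x)

/-- Data of a good local parametrisation `P` of a neighbourhood of `x0` by the disc of radius
`δ`: `σ` is the density of the volume and `a` the (conformally invariant) coefficient matrix of
the Dirichlet form in the coordinates `P`. -/
structure Param [MeasurableSpace M] (vol : Measure M) (x0 : M) where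
  δ : ℝ
  P : E2 → M
  a : E2 → (E2 →L[ℝ] E2)
  σ : E2 → ℝ
  δ_pos : 0 < δ
  P_zero : P 0 = x0
  cont_P : ContinuousOn P (Metric.ball 0 δ)
  inj_P : InjOn P (Metric.ball 0 δ)
  open_P : ∀ U : Set E2, U ⊆ Metric.ball 0 δ → IsOpen U → IsOpen (P '' U)
  a_cont : ContinuousOn a (Metric.ball 0 δ)
  a_zero : a 0 = ContinuousLinearMap.id ℝ E2
  σ_smooth : ContDiffOn ℝ ∞ σ (Metric.ball 0 δ)
  σ_pos : ∀ y ∈ Metric.ball (0 : E2) δ, 0 < σ y
  smooth_comp : ∀ u : M → ℝ, ContMDiff (𝓡 2) 𝓘(ℝ, ℝ) ∞ u →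
    ContDiffOn ℝ ∞ (u ∘ P) (Metric.ball 0 δ)
  grad_eq : ∀ u v : M → ℝ, ContMDiff (𝓡 2) 𝓘(ℝ, ℝ) ∞ u → ContMDiff (𝓡 2) 𝓘(ℝ, ℝ) ∞ v →
    ∀ y ∈ Metric.ball (0 : E2) δ,
      inner ℝ (grad u (P y)) (grad v (P y)) * σ y
        = inner ℝ (a y (gradient (u ∘ P) y)) (gradient (v ∘ P) y)
  vol_eq : ∀ f : M → ℝ≥0∞, Measurable f →
    ∫⁻ x in P '' (Metric.ball 0 δ), f x ∂vol
      = ∫⁻ y in Metric.ball 0 δ, f (P y) * ENNReal.ofReal (σ y)
  extend : ∀ v : E2 → ℝ, ContDiff ℝ ∞ v → HasCompactSupport v →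
    tsupport v ⊆ Metric.ball 0 δ →
    ∃ V : M → ℝ, ContMDiff (𝓡 2) 𝓘(ℝ, ℝ) ∞ V ∧ (∀ y ∈ Metric.ball (0 : E2) δ, V (P y) = v y) ∧
      (∀ x, x ∉ P '' (Metric.ball 0 δ) → V x = 0)

end Defs

end Pool.Agent.Helper41.PS
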