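import Pool.Agent.Helper41.PS.Virial3
import Pool.Agent.Helper41.PS.Virial4

/-!
# The virial identity, assembly
-/

open MeasureTheory Set Filter Topology Metric
open scoped ContDiff ENNReal NNReal

namespace Pool.Agent.Helper41.PS

/-- Decomposition of the Dirichlet pairing with the cut off potential. -/
lemma pairing_split {w p κ : E2 → ℝ} (hw : ContDiff ℝ ∞ w) (hp : ContDiff ℝ ∞ p) (hκ : ContDiff ℝ ∞ κ)
    (hs : HasCompactSupport κ) (c : ℝ) :
    ∫ x, inner ℝ (gradient w x) (gradient (fun x => κ x * p x) x)
      = (∫ x, inner ℝ (gradient (fun x => κ x * (w x - c)) x) (gradient p x))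
        - (∫ x, inner ℝ (gradient (fun x => (w x - c) * p x) x) (gradient κ x))
        + 2 * ∫ x, p x * inner ℝ (gradient w x) (gradient κ x) := by
  have hgw := smooth_grad_cont hw
  have hgp := smooth_grad_cont hp
  have hgκ := smooth_grad_cont hκ
  have hsg := hasCompactSupport_grad hs
  have hwc := hw.continuous
  have hpc := hp.continuous
  have hκc := hκ.continuous
  have hf : ContDiff ℝ ∞ (fun x => w x - c) := hw.sub contDiff_const
  have hfp : ContDiff ℝ ∞ (fun x => (w x - c) * p x) := hf.mul hp
  have hκf : ContDiff ℝ ∞ (fun x => κ x * (w x - c)) := hκ.mul hf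
  have hgfp := smooth_grad_cont hfp
  have hgκf := smooth_grad_cont hκf
  have hin : ∀ F : E2 → E2, HasCompactSupport (fun x => inner ℝ (F x) (gradient κ x)) := by
    intro F
    apply hsg.mono'
    intro x hx
    apply subset_tsupport
    rw [Function.mem_support] at hx ⊢
    intro h
    apply hx
    rw [h, inner_zero_right]
  have I1 : Integrable (fun x => inner ℝ (gradient (fun x => κ x * (w x - c)) x) (gradient p x)) := by
    apply integrable_cc (hgκf.inner hgp)
    have h1 : HasCompactSupport (fun x => κ x * (w x - c)) := hs.mul_right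
    apply (hasCompactSupport_grad h1).mono'
    intro x hx
    apply subset_tsupport
    rw [Function.mem_support] at hx ⊢
    intro h
    apply hx
    rw [h, inner_zero_left]
  have I2 : Integrable (fun x => inner ℝ (gradient (fun x => (w x - c) * p x) x) (gradient κ x)) :=
    integrable_cc (hgfp.inner hgκ) (hin _)
  have I3 : Integrable (fun x => p x * inner ℝ (gradient w x) (gradient κ x)) :=
    integrable_cc (hpc.mul (hgw.inner hgκ)) (hin _).mul_left
  rw [← integral_const_mul, ← integral_sub I1 I2]
  have I12 : Integrable (fun x => inner ℝ (gradient (fun x => κ x * (w x - c)) x) (gradient p x)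
      - inner ℝ (gradient (fun x => (w x - c) * p x) x) (gradient κ x)) := I1.sub I2
  rw [← integral_add I12 (I3.const_mul _)]
  refine integral_congr_ae (Eventually.of_forall (fun x => ?_))
  simp only
  have d1 := smooth_diff hκ x
  have d2 := smooth_diff hp x
  have d3 := smooth_diff hf x
  rw [grad_mul d1 d2, grad_mul d1 d3, grad_mul d3 d2, grad_sub_const]
  simp only [inner_add_left, inner_add_right, inner_smul_left, inner_smul_right, conj_trivial]
  rw [real_inner_comm (gradient κ x) (gradient p x)]
  ring

/-- The bound of the energy norm of the test function. -/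
lemma N_bound {A Q S E2' Y G : ℝ} (hS : 0 ≤ S) (hE : 0 ≤ E2') (hY : 0 ≤ Y) (hG : 0 ≤ G)
    (hA : A ≤ 4 * S ^ 2 * E2') (hQ : Q ≤ 4 * Real.pi * (Y * G) ^ 2) :
    √(16 * A + 26 * Q) ≤ (8 + 19 * G) * (S * √E2' + Y) := by
  rw [Real.sqrt_le_iff]
  have h1 := Real.sq_sqrt hE
  have h2 := Real.sqrt_nonneg E2'
  have hpi := Real.pi_lt_d2
  have hpi0 := Real.pi_pos
  refine ⟨by positivity, ?_⟩
  have h3 : 26 * Q ≤ 361 * (Y * G) ^ 2 := by nlinarith [sq_nonneg (Y * G)]
  have h4 : 16 * A ≤ 64 * (S * √E2') ^ 2 := by
    rw [mul_pow, h1]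
    linarith
  have h5 : 0 ≤ S * √E2' := by positivity
  set u := S * √E2' with hu
  have h6 : ((8 + 19 * G) * (u + Y)) ^ 2 = 64 * u ^ 2 + 361 * (Y * G) ^ 2
      + (64 * (2 * u * Y + Y ^ 2) + 304 * G * (u + Y) ^ 2 + 361 * G ^ 2 * (u ^ 2 + 2 * u * Y)) := by ring
  rw [h6]
  have h7 : 0 ≤ 64 * (2 * u * Y + Y ^ 2) + 304 * G * (u + Y) ^ 2 + 361 * G ^ 2 * (u ^ 2 + 2 * u * Y) := by
    positivity
  linarith

lemma coef_one {G L Λ : ℝ} (hG : 0 < G) (hL : 0 < L) (hΛ : 0 ≤ Λ) :
    (2 + 2 * G) + (1 + 2 * G) * Λ
      ≤ ((3 + 4 * G) + (24 * L + 4 * G) + (8 + 19 * G)) * (1 + Λ) := by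
  have e : ((3 + 4 * G) + (24 * L + 4 * G) + (8 + 19 * G)) * (1 + Λ) - ((2 + 2 * G) + (1 + 2 * G) * Λ)
      = 9 + 25 * G + 24 * L + 10 * Λ + 25 * (G * Λ) + 24 * (L * Λ) := by ring
  have : 0 ≤ 9 + 25 * G + 24 * L + 10 * Λ + 25 * (G * Λ) + 24 * (L * Λ) := by positivity
  linarith

lemma coef_two {G L : ℝ} (hG : 0 < G) (hL : 0 < L) :
    24 * L + 4 * G ≤ (3 + 4 * G) + (24 * L + 4 * G) + (8 + 19 * G) := by linarith

lemma coef_three {G L : ℝ} (hG : 0 < G) (hL : 0 < L) :
    8 + 19 * G ≤ (3 + 4 * G) + (24 * L + 4 * G) + (8 + 19 * G) := by linarith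

theorem exists_virial : ∃ C : ℝ, 0 < C ∧ ∀ (a : E2 → E2 →L[ℝ] E2) (w : E2 → ℝ) (η ε Λ K S R E2' D : ℝ),
    Adm a w η ε Λ 0 (2 * R) → 0 ≤ η → 0 ≤ ε → 0 < S → 4 * S ≤ R →
    ∫ x in ball (0 : E2) (2 * R), ‖fderiv ℝ w x‖ ≤ K * (2 * R) →
    ∫ x in ball (0 : E2) (2 * S), Real.exp (w x) ^ 2 ≤ E2' →
    ∫ x in ball (0 : E2) (2 * R), ‖fderiv ℝ w x‖ ^ 2 ≤ D →
    |2 * ms w S - (ms w S) ^ 2 / (4 * Real.pi)|
      ≤ C * (1 + Λ) * (ms w (2 * R) - ms w S) + C * (S * Λ * K / R)
        + C * ((ε + η * √D) * (S * √E2' + S * Λ / R)) := by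
  have hpi := Real.pi_pos
  obtain ⟨G, hG0, hG⟩ := exists_grad_chi_bound
  obtain ⟨L, hL0, hL⟩ := exists_ibp_chi
  refine ⟨(3 + 4 * G) + (24 * L + 4 * G) + (8 + 19 * G), by positivity, ?_⟩
  intro a w η ε Λ K S R E2' D h hη0 hε0 hS hR hK hE hD
  have hR0 : 0 < R := by linarith
  have hw := h.smooth
  have hwc := hw.continuous
  have hw1 : ContDiff ℝ 1 w := hw.of_le (by norm_cast)
  have hgw := smooth_grad_cont hw
  have hΛ : 0 ≤ Λ := le_trans (integral_nonneg (fun x => (Real.exp_pos _).le)) h.mass
  have hΓ0 : 0 ≤ ∫ x in ball (0 : E2) (2 * R), ‖fderiv ℝ w x‖ := integral_nonneg (fun x => norm_nonneg _)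
  have hE0 : 0 ≤ E2' := le_trans (integral_nonneg (fun x => sq_nonneg _)) hE
  have hD0 : 0 ≤ D := le_trans (integral_nonneg (fun x => sq_nonneg _)) hD
  -- cutoffs
  have hχ := chi_contDiff S
  have hχs := chi_compact hS
  have hχc := hχ.continuous
  have hκ := chi_contDiff R
  have hκs := chi_compact hR0
  have hκc := hκ.continuous
  have hgκ := smooth_grad_cont hκ
  set g : E2 → ℝ := fun x => Real.exp (w x) * chi S x with hg
  have hgs : ContDiff ℝ ∞ g := hw.exp.mul hχ
  have hgc : HasCompactSupport g := hχs.mul_left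
  have hgcont := hgs.continuous
  have hg0 : ∀ x, 0 ≤ g x := fun x => mul_nonneg (Real.exp_pos _).le (chi_nonneg S x)
  have hgS : ∀ y, 2 * S ≤ ‖y‖ → g y = 0 := by
    intro y hy
    simp only [hg]
    rw [chi_eq_zero hS (by linarith), mul_zero]
  have hm2R : ms w (2 * R) ≤ Λ := h.mass
  have hgint : ∫ y, g y ≤ Λ := by
    refine le_trans ?_ hm2R
    rw [ms, ← integral_indicator measurableSet_ball]
    apply integral_mono (integrable_cc hgcont hgc)
    · rw [integrable_indicator_iff measurableSet_ball]
      exact intOn_ball (by fun_prop) _ _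
    · intro x
      by_cases hx : x ∈ ball (0 : E2) (2 * R)
      · simp only [indicator_of_mem hx, hg]
        exact mul_le_of_le_one_right (Real.exp_pos _).le (chi_le_one S x)
      · simp only [indicator_of_notMem hx]
        rw [hgS]
        rw [mem_ball, dist_zero_right, not_lt] at hx
        linarith
  have hgint0 : 0 ≤ ∫ y, g y := integral_nonneg hg0
  have hA : ∫ x, (g x * ‖x‖) ^ 2 ≤ 4 * S ^ 2 * E2' := by
    calc ∫ x, (g x * ‖x‖) ^ 2 ≤ ∫ x in ball (0 : E2) (2 * S), 4 * S ^ 2 * Real.exp (w x) ^ 2 := by
          rw [← integral_indicator measurableSet_ball]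
          apply integral_mono
          · apply integrable_cc (by fun_prop)
            exact (hgc.mul_right).comp_left (g := fun t : ℝ => t ^ 2) (by norm_num)
          · rw [integrable_indicator_iff measurableSet_ball]
            exact intOn_ball (by fun_prop) _ _
          · intro x
            by_cases hx : x ∈ ball (0 : E2) (2 * S)
            · simp only [indicator_of_mem hx, hg]
              have h1 : ‖x‖ < 2 * S := by simpa using hx
              have h2 := chi_nonneg S x
              have h3 := chi_le_one S x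
              have h4 : Real.exp (w x) * chi S x * ‖x‖ ≤ Real.exp (w x) * (2 * S) := by
                calc Real.exp (w x) * chi S x * ‖x‖ ≤ Real.exp (w x) * 1 * (2 * S) := by gcongr
                  _ = _ := by ring
              have h5 : 0 ≤ Real.exp (w x) * chi S x * ‖x‖ := by positivity
              calc (Real.exp (w x) * chi S x * ‖x‖) ^ 2 ≤ (Real.exp (w x) * (2 * S)) ^ 2 :=
                    pow_le_pow_left₀ h5 h4 2
                _ = _ := by ring
            · simp only [indicator_of_notMem hx]
              rw [hgS x (by rwa [mem_ball, dist_zero_right, not_lt] at hx)]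
              simp
      _ = 4 * S ^ 2 * ∫ x in ball (0 : E2) (2 * S), Real.exp (w x) ^ 2 := integral_const_mul _ _
      _ ≤ _ := mul_le_mul_of_nonneg_left hE (by positivity)
  set p : ℝ → E2 → ℝ := fun c => qq (1 / c) (psi g) with hp
  have hps : ∀ c, 0 < c → ContDiff ℝ ∞ (p c) := fun c hc =>
    qq_contDiff (one_div_pos.mpr hc) (psi_contDiff hgs) (psi_compact hgc)
  set Y := S * Λ / R with hY
  have hY0 : 0 ≤ Y := by positivity
  have hpY : ∀ c, 0 < c → ∀ x ∈ ann R, |p c x| ≤ Y := by
    intro c hc x hx
    have hx1 : R ≤ ‖x‖ := hx.1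
    refine (qq_psi_far (one_div_pos.mpr hc) hgs hgc hg0 hS hgS (by linarith)).trans ?_
    have hx0 : 0 < ‖x‖ := by linarith
    have h1 : 2 * S / (Real.pi * ‖x‖) ≤ S / R := by
      rw [div_le_div_iff₀ (by positivity) hR0]
      have h3 := Real.pi_gt_three
      have h4 : 2 * R ≤ Real.pi * ‖x‖ := by nlinarith
      nlinarith
    calc 2 * S / (Real.pi * ‖x‖) * ∫ y, g y ≤ S / R * Λ := mul_le_mul h1 hgint hgint0 (by positivity)
      _ = Y := by rw [hY]; ring
  have hQ : ∀ c, 0 < c → ∫ x, p c x ^ 2 * ‖gradient (chi R) x‖ ^ 2 ≤ 4 * Real.pi * (Y * G) ^ 2 := by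
    intro c hc
    have hpc := (hps c hc).continuous
    calc ∫ x, p c x ^ 2 * ‖gradient (chi R) x‖ ^ 2
        ≤ ∫ x in ball (0 : E2) (2 * R), Y ^ 2 * (G / R) ^ 2 := by
          rw [← integral_indicator measurableSet_ball]
          apply integral_mono
          · apply integrable_cc (by fun_prop)
            exact (((hasCompactSupport_grad hκs).norm).comp_left (g := fun t : ℝ => t ^ 2)
              (by norm_num)).mul_left
          · rw [integrable_indicator_iff measurableSet_ball]
            exact intOn_ball (by fun_prop) _ _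
          · intro x
            simp only
            by_cases hx : x ∈ ann R
            · rw [indicator_of_mem (ann_subset_ball R hx)]
              have h1 := hpY c hc x hx
              have h2 := hG R hR0 x
              apply mul_le_mul _ _ (sq_nonneg _) (sq_nonneg _)
              · rw [← sq_abs]
                exact pow_le_pow_left₀ (abs_nonneg _) h1 2
              · exact pow_le_pow_left₀ (norm_nonneg _) h2 2
            · rw [grad_chi_zero hR0 hx]
              have : 0 ≤ (ball (0 : E2) (2 * R)).indicator (fun _ => Y ^ 2 * (G / R) ^ 2) x :=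
                indicator_nonneg (fun _ _ => by positivity) x
              simpa using this
      _ = _ := by
          rw [setIntegral_const, volume_ball_real 0 (by positivity), smul_eq_mul]
          field_simp
          ring
  set N := (8 + 19 * G) * (S * √E2' + Y) with hN
  have hN0 : 0 ≤ N := by positivity
  have hVN : ∀ c, 0 < c → √(∫ x, ‖gradient (fun x => chi R x * p c x) x‖ ^ 2) ≤ N := by
    intro c hc
    refine le_trans (Real.sqrt_le_sqrt (energy_cut (one_div_pos.mpr hc) hgs hgc hκ hκs
      (chi_nonneg R) (chi_le_one R))) ?_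
    exact N_bound hS.le hE0 hY0 hG0.le hA (hQ c hc)
  -- the constant
  set cc := avg w 0 (2 * R) with hcc
  have hpoin : ∫ x in ball (0 : E2) (2 * R), |w x - cc| ≤ 24 * K * R ^ 2 := by
    refine (poincare_ball w hw1 0 (show 0 < 2 * R by positivity)).trans ?_
    calc 6 * (2 * R) * ∫ x in ball (0 : E2) (2 * R), ‖fderiv ℝ w x‖ ≤ 6 * (2 * R) * (K * (2 * R)) :=
          mul_le_mul_of_nonneg_left hK (by positivity)
      _ = _ := by ring
  have hfs : ContDiff ℝ ∞ (fun x => w x - cc) := hw.sub contDiff_const
  -- the measure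
  set μ : E2 → ℝ := fun x => Real.exp (w x) * chi R x with hμ
  have hμc : Continuous μ := by fun_prop
  have hμs : HasCompactSupport μ := hκs.mul_left
  have hμ0 : ∀ x, 0 ≤ μ x := fun x => mul_nonneg (Real.exp_pos _).le (chi_nonneg R x)
  have iμ : Integrable μ := integrable_cc hμc hμs
  have hXc : Continuous (XS S) := by
    unfold XS
    fun_prop
  have hXL := XS_lip hG hS
  have hXS : ∀ x ∈ ball (0 : E2) S, XS S x = x := by
    intro x hx
    have h4 : ‖x‖ < S := by simpa using hx
    rw [XS, chi_one S hS h4.le, one_smul]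
  set I : ℝ → ℝ := fun c => ∫ x, μ x * ∫ y, μ y * inner ℝ (XS S x - XS S y) (KK (1 / c) (x - y)) with hI
  set I0 := ∫ x, μ x * ∫ y, μ y * inner ℝ (XS S x - XS S y) (KK 0 (x - y)) with hI0
  have hIlim : Tendsto I atTop (𝓝 I0) := sym_limit hμc hμs hXc (by positivity) hXL
  have hIval := sym_value hμc hμs hμ0 hXc (by positivity) hXL hXS
  rw [← hI0] at hIval
  -- exponential term
  have hexpV : ∀ c, 0 < c → ∫ x, Real.exp (w x) * (chi R x * p c x) = -(1 / (4 * Real.pi)) * I c := by
    intro c hc
    have e1 : ∀ x, Real.exp (w x) * (chi R x * p c x)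
        = 1 / (2 * Real.pi) * (μ x * ∫ y, μ y * inner ℝ (XS S y) (KK (1 / c) (x - y))) := by
      intro x
      have e2 : p c x = 1 / (2 * Real.pi) * ∫ y, μ y * inner ℝ (XS S y) (KK (1 / c) (x - y)) := by
        simp only [hp]
        rw [qq_eq_field (one_div_pos.mpr hc) hgs hgc]
        congr 1
        refine integral_congr_ae (Eventually.of_forall (fun y => ?_))
        simp only [hg, hμ, XS]
        rw [inner_smul_left]
        simp only [conj_trivial]
        by_cases hy : 3 / 2 * S ≤ ‖y‖
        · rw [chi_eq_zero hS hy]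
          ring
        · push Not at hy
          rw [chi_one R hR0 (by linarith)]
          ring
      rw [e2, hμ]
      ring
    simp_rw [e1]
    rw [integral_const_mul, sym_term (one_div_pos.mpr hc) hμc hμs hXc]
    simp only [hI]
    field_simp
    ring
  -- first term and its limit
  set T : ℝ → ℝ := fun c => ∫ x, inner ℝ (gradient (fun x => chi R x * (w x - cc)) x) (gradient (p c) x) with hT
  have hκf : ContDiff ℝ ∞ (fun x => chi R x * (w x - cc)) := hκ.mul hfs
  have hκfs : HasCompactSupport (fun x => chi R x * (w x - cc)) := hκs.mul_right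
  have hTlim : Tendsto T atTop (𝓝 (∫ y, psi g y * (chi R y * (w y - cc)))) :=
    qq_duality_tendsto (psi_contDiff hgs).continuous (psi_compact hgc) (hκf.of_le (by norm_cast)) hκfs
  have hT1 : ∫ y, psi g y * (chi R y * (w y - cc)) = ∫ x, (Real.exp (w x) * chi S x) * inner ℝ x (gradient w x) := by
    rw [psi_pair (hgs.of_le (by norm_cast)) hgc (hκf.of_le (by norm_cast))]
    refine integral_congr_ae (Eventually.of_forall (fun x => ?_))
    simp only
    by_cases hx : 2 * S ≤ ‖x‖
    · have h1 := hgS x hx
      rw [h1]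
      simp only [hg] at h1
      rw [h1]
      ring
    · push Not at hx
      have h3 : x ∉ ann R := fun h => absurd h.1 (not_le.mpr (by linarith))
      rw [grad_mul (smooth_diff hκ x) (smooth_diff hfs x), chi_one R hR0 (by linarith), grad_chi_zero hR0 h3,
        grad_sub_const, smul_zero, add_zero, one_smul]
  rw [hT1] at hTlim
  set T0 := ∫ x, (Real.exp (w x) * chi S x) * inner ℝ x (gradient w x) with hT0
  have hT0b := T1_bound hG hw hS
  rw [← hT0] at hT0b
  -- inequality at level c
  have hineq : ∀ c, 0 < c → |T c + 1 / (4 * Real.pi) * I c|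
      ≤ (ε + η * √D) * N + (L / R ^ 2 * (Y * (24 * K * R ^ 2)) + 2 * (Y * (G / R) * (K * (2 * R)))) := by
    intro c hc
    have hpc := hps c hc
    have hpcc := hpc.continuous
    have hVs : ContDiff ℝ ∞ (fun x => chi R x * p c x) := hκ.mul hpc
    have hVc : HasCompactSupport (fun x => chi R x * p c x) := hκs.mul_right
    have hVt : tsupport (fun x => chi R x * p c x) ⊆ ball 0 (2 * R) := by
      refine (closure_mono ?_).trans (chi_tsupport_ball hR0)
      intro x hx
      rw [Function.mem_support] at hx ⊢
      intro h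
      apply hx
      rw [h, zero_mul]
    have hgV := smooth_grad_cont hVs
    have hgVs := hasCompactSupport_grad hVc
    have hgVt : ∀ x, x ∉ ball (0 : E2) (2 * R) → gradient (fun x => chi R x * p c x) x = 0 := by
      intro x hx
      have h1 : x ∉ tsupport (gradient (fun x => chi R x * p c x)) :=
        fun h => hx (hVt (tsupport_grad_subset _ h))
      exact image_eq_zero_of_notMem_tsupport h1
    have q1 := h.weak _ hVs hVc hVt
    have q2 : |(∫ x, inner ℝ (a x (gradient w x)) (gradient (fun x => chi R x * p c x) x))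
        - ∫ x, inner ℝ (gradient w x) (gradient (fun x => chi R x * p c x) x)| ≤ η * √D * N := by
      have hac := h.a_cont
      have haw : Continuous (fun x => a x (gradient w x)) := hac.clm_apply hgw
      have hcs : ∀ F : E2 → E2, HasCompactSupport (fun x => inner ℝ (F x) (gradient (fun x => chi R x * p c x) x)) := by
        intro F
        apply hgVs.mono'
        intro x hx
        apply subset_tsupport
        rw [Function.mem_support] at hx ⊢
        intro h
        apply hx
        rw [h, inner_zero_right]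
      have j1 := integrable_cc (haw.inner hgV) (hcs _)
      have j2 := integrable_cc (hgw.inner hgV) (hcs _)
      rw [← integral_sub j1 j2]
      have j3 : ∫ x, (inner ℝ (a x (gradient w x)) (gradient (fun x => chi R x * p c x) x)
            - inner ℝ (gradient w x) (gradient (fun x => chi R x * p c x) x))
          = ∫ x in ball (0 : E2) (2 * R), (inner ℝ (a x (gradient w x)) (gradient (fun x => chi R x * p c x) x)
            - inner ℝ (gradient w x) (gradient (fun x => chi R x * p c x) x)) := by
        rw [setIntegral_eq_integral_of_forall_compl_eq_zero]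
        intro x hx
        rw [hgVt x hx]
        simp
      rw [j3]
      have m1 : MemLp (fun x => ‖gradient w x‖) 2 (volume.restrict (ball (0 : E2) (2 * R))) := by
        rw [memLp_two_iff_integrable_sq (by fun_prop)]
        exact intOn_ball (by fun_prop) _ _
      have m2 : MemLp (fun x => ‖gradient (fun x => chi R x * p c x) x‖) 2
          (volume.restrict (ball (0 : E2) (2 * R))) := by
        rw [memLp_two_iff_integrable_sq (by fun_prop)]
        exact intOn_ball (by fun_prop) _ _
      have j4 := cs_integral m1 m2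
      have j5 : √(∫ x in ball (0 : E2) (2 * R), ‖gradient w x‖ ^ 2) ≤ √D := by
        apply Real.sqrt_le_sqrt
        simp_rw [norm_grad]
        exact hD
      have j6 : √(∫ x in ball (0 : E2) (2 * R), ‖gradient (fun x => chi R x * p c x) x‖ ^ 2) ≤ N := by
        refine le_trans (Real.sqrt_le_sqrt ?_) (hVN c hc)
        apply setIntegral_le_integral
        · apply integrable_cc (by fun_prop)
          exact (hgVs.norm).comp_left (g := fun t : ℝ => t ^ 2) (by norm_num)
        · exact Eventually.of_forall (fun x => sq_nonneg _)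
      calc |∫ x in ball (0 : E2) (2 * R), (inner ℝ (a x (gradient w x)) (gradient (fun x => chi R x * p c x) x)
            - inner ℝ (gradient w x) (gradient (fun x => chi R x * p c x) x))|
          ≤ ∫ x in ball (0 : E2) (2 * R), η * (|‖gradient w x‖| * |‖gradient (fun x => chi R x * p c x) x‖|) := by
            rw [← Real.norm_eq_abs]
            apply norm_integral_le_of_norm_le
            · exact intOn_ball (by fun_prop) _ _
            · filter_upwards [ae_restrict_mem measurableSet_ball] with x hx
              rw [abs_norm, abs_norm]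
              exact near_id_inner (h.a_near x hx) _ _
        _ = η * ∫ x in ball (0 : E2) (2 * R), |‖gradient w x‖| * |‖gradient (fun x => chi R x * p c x) x‖| :=
            integral_const_mul _ _
        _ ≤ η * (√D * N) := by
            apply mul_le_mul_of_nonneg_left _ hη0
            exact j4.trans (mul_le_mul j5 j6 (Real.sqrt_nonneg _) (Real.sqrt_nonneg _))
        _ = _ := by ring
    have q3 := pairing_split hw hpc hκ hκs cc
    have q4 : |∫ x, inner ℝ (gradient (fun x => (w x - cc) * p c x) x) (gradient (chi R) x)|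
        ≤ L / R ^ 2 * (Y * (24 * K * R ^ 2)) := by
      have hfp : ContDiff ℝ ∞ (fun x => (w x - cc) * p c x) := hfs.mul hpc
      refine (hL R hR0 _ (hfp.of_le (by norm_cast))).trans ?_
      apply mul_le_mul_of_nonneg_left _ (by positivity)
      calc ∫ x in ann R, |(w x - cc) * p c x| ≤ ∫ x in ann R, Y * |w x - cc| := by
            apply setIntegral_mono_on
            · have : IntegrableOn (fun x => |(w x - cc) * p c x|) (ball (0 : E2) (2 * R)) :=
                intOn_ball (by fun_prop) _ _
              exact this.mono_set (ann_subset_ball R)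
            · have : IntegrableOn (fun x => Y * |w x - cc|) (ball (0 : E2) (2 * R)) :=
                intOn_ball (by fun_prop) _ _
              exact this.mono_set (ann_subset_ball R)
            · exact measurableSet_ann R
            · intro x hx
              rw [abs_mul, mul_comm]
              exact mul_le_mul_of_nonneg_right (hpY c hc x hx) (abs_nonneg _)
        _ ≤ ∫ x in ball (0 : E2) (2 * R), Y * |w x - cc| := by
            apply setIntegral_mono_set
            · exact intOn_ball (by fun_prop) _ _
            · exact Eventually.of_forall (fun x => by positivity)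
            · exact Eventually.of_forall (ann_subset_ball R)
        _ = Y * ∫ x in ball (0 : E2) (2 * R), |w x - cc| := integral_const_mul _ _
        _ ≤ _ := mul_le_mul_of_nonneg_left hpoin hY0
    have q5 : |∫ x, p c x * inner ℝ (gradient w x) (gradient (chi R) x)| ≤ Y * (G / R) * (K * (2 * R)) := by
      have e1 : ∫ x, p c x * inner ℝ (gradient w x) (gradient (chi R) x)
          = ∫ x in ball (0 : E2) (2 * R), p c x * inner ℝ (gradient w x) (gradient (chi R) x) := by
        rw [setIntegral_eq_integral_of_forall_compl_eq_zero]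
        intro x hx
        rw [grad_chi_zero hR0 (fun h => hx (ann_subset_ball R h))]
        simp
      rw [e1]
      calc |∫ x in ball (0 : E2) (2 * R), p c x * inner ℝ (gradient w x) (gradient (chi R) x)|
          ≤ ∫ x in ball (0 : E2) (2 * R), Y * (G / R) * ‖fderiv ℝ w x‖ := by
            rw [← Real.norm_eq_abs]
            apply norm_integral_le_of_norm_le
            · exact (intOn_grad hw1 _ _).const_mul _
            · refine Eventually.of_forall (fun x => ?_)
              by_cases hx : x ∈ ann R
              · rw [norm_mul, ← norm_grad, mul_assoc]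
                have h1 := hpY c hc x hx
                have h2 : ‖inner ℝ (gradient w x) (gradient (chi R) x)‖ ≤ G / R * ‖gradient w x‖ := by
                  refine (norm_inner_le_norm _ _).trans ?_
                  rw [mul_comm]
                  exact mul_le_mul_of_nonneg_right (hG R hR0 x) (norm_nonneg _)
                exact mul_le_mul h1 h2 (norm_nonneg _) hY0
              · rw [grad_chi_zero hR0 hx, inner_zero_right, mul_zero, norm_zero]
                positivity
        _ = Y * (G / R) * ∫ x in ball (0 : E2) (2 * R), ‖fderiv ℝ w x‖ := integral_const_mul _ _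
        _ ≤ _ := mul_le_mul_of_nonneg_left hK (by positivity)
    have q6 := hVN c hc
    rw [hexpV c hc] at q1
    have q7 : ε * √(∫ x, ‖gradient (fun x => chi R x * p c x) x‖ ^ 2) ≤ ε * N :=
      mul_le_mul_of_nonneg_left q6 hε0
    have q8 : T c = ∫ x, inner ℝ (gradient (fun x => chi R x * (w x - cc)) x) (gradient (p c) x) := rfl
    rw [← q8] at q3
    rw [abs_le] at q1 q2 q4 q5 ⊢
    have r1 : (ε + η * √D) * N = ε * N + η * √D * N := by ring
    rw [r1]
    constructor
    · linarith [q1.1, q1.2, q2.1, q2.2, q4.1, q4.2, q5.1, q5.2]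
    · linarith [q1.1, q1.2, q2.1, q2.2, q4.1, q4.2, q5.1, q5.2]
  -- pass to the limit
  have hlim : |T0 + 1 / (4 * Real.pi) * I0|
      ≤ (ε + η * √D) * N + (L / R ^ 2 * (Y * (24 * K * R ^ 2)) + 2 * (Y * (G / R) * (K * (2 * R)))) := by
    have h1 : Tendsto (fun c => |T c + 1 / (4 * Real.pi) * I c|) atTop (𝓝 |T0 + 1 / (4 * Real.pi) * I0|) :=
      (hTlim.add (hIlim.const_mul _)).abs
    apply le_of_tendsto h1
    filter_upwards [eventually_gt_atTop 0] with c hc
    exact hineq c hc
  -- masses
  have hMle : ∫ x, μ x ≤ ms w (2 * R) := by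
    rw [ms, ← integral_indicator measurableSet_ball]
    apply integral_mono iμ
    · rw [integrable_indicator_iff measurableSet_ball]
      exact intOn_ball (by fun_prop) _ _
    · intro x
      by_cases hx : x ∈ ball (0 : E2) (2 * R)
      · simp only [indicator_of_mem hx, hμ]
        exact mul_le_of_le_one_right (Real.exp_pos _).le (chi_le_one R x)
      · simp only [indicator_of_notMem hx, hμ]
        rw [chi_eq_zero hR0, mul_zero]
        rw [mem_ball, dist_zero_right, not_lt] at hx
        linarith
  have hMball : ∫ x in ball (0 : E2) S, μ x = ms w S := by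
    rw [ms]
    refine setIntegral_congr_fun measurableSet_ball (fun x hx => ?_)
    have h4 : ‖x‖ < S := by simpa using hx
    simp only [hμ]
    rw [chi_one R hR0 (by linarith), mul_one]
  rw [hMball] at hIval
  set m := ms w S with hm
  have hm0 : 0 ≤ m := ms_nonneg w S
  have hm2 : ms w (2 * S) ≤ ms w (2 * R) := ms_mono hwc (by linarith)
  have hmm : m ≤ ms w (2 * R) := ms_mono hwc (by linarith)
  have hM0 : 0 ≤ ∫ x, μ x := integral_nonneg hμ0
  have hIval2 : |I0 - m ^ 2| ≤ 2 * (1 + 2 * G) * Λ * (ms w (2 * R) - m) := by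
    refine hIval.trans ?_
    have hMm : m ≤ ∫ x, μ x := by
      rw [← hMball]
      exact setIntegral_le_integral iμ (Eventually.of_forall hμ0)
    apply mul_le_mul _ (by linarith) (by linarith) (by positivity)
    exact mul_le_mul_of_nonneg_left (hMle.trans hm2R) (by positivity)
  have hT0b2 : |T0 + 2 * m| ≤ (2 + 2 * G) * (ms w (2 * R) - m) := by
    refine hT0b.trans ?_
    apply mul_le_mul_of_nonneg_left _ (by positivity)
    linarith
  have hfin : |2 * m - m ^ 2 / (4 * Real.pi)| ≤ |T0 + 1 / (4 * Real.pi) * I0| + |T0 + 2 * m|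
      + 1 / (4 * Real.pi) * |I0 - m ^ 2| := by
    have e1 : 2 * m - m ^ 2 / (4 * Real.pi) = -(T0 + 1 / (4 * Real.pi) * I0) + (T0 + 2 * m)
        + 1 / (4 * Real.pi) * (I0 - m ^ 2) := by
      ring
    rw [e1]
    refine (abs_add_le _ _).trans ?_
    refine add_le_add ((abs_add_le _ _).trans ?_) ?_
    · rw [abs_neg]
    · rw [abs_mul, abs_of_pos (by positivity : (0 : ℝ) < 1 / (4 * Real.pi))]
  refine hfin.trans ?_
  have hpi3 := Real.pi_gt_three
  have s1 : 1 / (4 * Real.pi) * |I0 - m ^ 2| ≤ (1 + 2 * G) * Λ * (ms w (2 * R) - m) := by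
    have s2 : 1 / (4 * Real.pi) ≤ 1 / 2 := by
      apply one_div_le_one_div_of_le (by norm_num)
      linarith
    calc 1 / (4 * Real.pi) * |I0 - m ^ 2| ≤ 1 / 2 * (2 * (1 + 2 * G) * Λ * (ms w (2 * R) - m)) :=
          mul_le_mul s2 hIval2 (abs_nonneg _) (by norm_num)
      _ = _ := by ring
  have s3 : L / R ^ 2 * (Y * (24 * K * R ^ 2)) + 2 * (Y * (G / R) * (K * (2 * R)))
      = (24 * L + 4 * G) * (S * Λ * K / R) := by
    rw [hY]
    field_simp
    ring
  rw [s3] at hlim
  have s4 : (ε + η * √D) * N = (8 + 19 * G) * ((ε + η * √D) * (S * √E2' + Y)) := by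
    rw [hN]
    ring
  rw [s4] at hlim
  have hK0 : 0 ≤ S * Λ * K / R := by
    have hK1 : 0 ≤ K := by
      by_contra hneg
      push Not at hneg
      have : K * (2 * R) < 0 := mul_neg_of_neg_of_pos hneg (by positivity)
      linarith
    positivity
  have hX0 : 0 ≤ (ε + η * √D) * (S * √E2' + Y) := by positivity
  have hd0 : 0 ≤ ms w (2 * R) - m := by linarith
  have t1 : (2 + 2 * G) * (ms w (2 * R) - m) + (1 + 2 * G) * Λ * (ms w (2 * R) - m)
      ≤ ((3 + 4 * G) + (24 * L + 4 * G) + (8 + 19 * G)) * (1 + Λ) * (ms w (2 * R) - m) := by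
    have t2 : (2 + 2 * G) + (1 + 2 * G) * Λ ≤ ((3 + 4 * G) + (24 * L + 4 * G) + (8 + 19 * G)) * (1 + Λ) := by
      exact coef_one hG0 hL0 hΛ
    calc _ = ((2 + 2 * G) + (1 + 2 * G) * Λ) * (ms w (2 * R) - m) := by ring
      _ ≤ _ := mul_le_mul_of_nonneg_right t2 hd0
  have t5 : (24 * L + 4 * G) * (S * Λ * K / R)
      ≤ ((3 + 4 * G) + (24 * L + 4 * G) + (8 + 19 * G)) * (S * Λ * K / R) := by
    exact mul_le_mul_of_nonneg_right (coef_two hG0 hL0) hK0
  have t6 : (8 + 19 * G) * ((ε + η * √D) * (S * √E2' + Y))
      ≤ ((3 + 4 * G) + (24 * L + 4 * G) + (8 + 19 * G)) * ((ε + η * √D) * (S * √E2' + Y)) := by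
    exact mul_le_mul_of_nonneg_right (coef_three hG0 hL0) hX0
  linarith

end Pool.Agent.Helper41.PS
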