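import Pool.Agent.Helper41.PS.Seq
import Pool.Agent.Helper41.PS.Ultra
import Pool.Agent.Helper41.PS.SmallMass4
import Pool.Agent.Helper41.PS.Virial5

/-!
# The first bubble has mass `8π`
-/

open MeasureTheory Set Filter Topology Metric
open scoped ContDiff ENNReal NNReal

namespace Pool.Agent.Helper41.PS

lemma mb_le {a : E2 → E2 →L[ℝ] E2} {w : E2 → ℝ} {η ε Λ : ℝ} {x0 : E2} {R : ℝ}
    (h : Adm a w η ε Λ x0 R) {x : E2} {r : ℝ} (hs : ball x r ⊆ ball x0 R) : mb w x r ≤ Λ :=
  (mb_mono h.smooth.continuous hs).trans h.mass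

/-- The limiting mass function of a sequence with small local masses equals `8π` at infinity. -/
theorem bubble_mass {U : Ultrafilter ℕ} {a : ℕ → E2 → E2 →L[ℝ] E2} {w : ℕ → E2 → ℝ}
    {η ε : ℕ → ℝ} {Λ K : ℝ} {R : ℕ → ℝ} (h : Sq U a w η ε Λ K R) (hR : Tendsto R U atTop)
    {e0 : ℝ} (he0 : ∀ S : ℝ, ∀ᶠ n in (U : Filter ℕ), ∀ x ∈ closedBall (0 : E2) S, mb (w n) x 1 ≤ e0)
    {e1 : ℝ} (he1 : 0 < e1) (he1' : ∀ᶠ n in (U : Filter ℕ), e1 ≤ ms (w n) 1)
    (hbulk : ∀ S : ℝ, ∃ C : ℝ, 0 < C ∧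
      ∀ (a : E2 → E2 →L[ℝ] E2) (w : E2 → ℝ) (η ε Λ : ℝ), Adm a w η ε Λ 0 (S + 1) →
      η ≤ 1 / 2 → 0 ≤ ε → ε ≤ e0 →
      (∀ x ∈ closedBall (0 : E2) S, ∫ z in ball x 1, Real.exp (w z) ≤ e0) →
      (∀ x ∈ closedBall (0 : E2) S, ∫ z in ball x 1, ‖fderiv ℝ w z‖ ≤ K) →
      (∫ z in closedBall (0 : E2) S, Real.exp (w z) ^ 2 ≤ C) ∧
      (∫ z in closedBall (0 : E2) S, ‖fderiv ℝ w z‖ ^ 2 ≤ C)) (he00 : 0 < e0) :
    ∀ δ > 0, ∃ S0 > 0, ∀ S ≥ S0, ∀ᶠ n in (U : Filter ℕ), |ms (w n) S - 8 * Real.pi| ≤ δ := by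
  have hpi := Real.pi_pos
  obtain ⟨C, hC, hvir⟩ := exists_virial
  set M : ℝ → ℝ := fun S => ulim U (fun n => ms (w n) S) with hM
  have hbd : ∀ S, ∀ᶠ n in (U : Filter ℕ), ms (w n) S ∈ Icc 0 Λ := by
    intro S
    filter_upwards [h.adm, hR.eventually_ge_atTop S] with n hn hS
    exact ⟨ms_nonneg _ _, mb_le hn (ball_subset_ball hS)⟩
  have hMlim : ∀ S, Tendsto (fun n => ms (w n) S) U (𝓝 (M S)) := fun S => ulim_of_bdd (hbd S)
  have hMmono : Monotone M := by
    intro S T hST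
    exact le_of_tendsto_of_tendsto (hMlim S) (hMlim T)
      (Eventually.of_forall (fun n => ms_mono (h.smooth n).continuous hST))
  have hMΛ : ∀ S, M S ≤ Λ := fun S => le_of_tendsto (hMlim S) ((hbd S).mono (fun n hn => hn.2))
  have hbdd : BddAbove (range M) := ⟨Λ, by rintro _ ⟨S, rfl⟩; exact hMΛ S⟩
  set Mi := ⨆ S, M S with hMi
  have hMt : Tendsto M atTop (𝓝 Mi) := tendsto_atTop_ciSup hMmono hbdd
  have hMi0 : 0 < Mi := by
    have h1 : e1 ≤ M 1 := ge_of_tendsto (hMlim 1) he1'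
    have h2 : M 1 ≤ Mi := le_ciSup hbdd 1
    linarith
  -- virial for fixed S, R
  have key : ∀ S : ℝ, 0 < S → ∀ R' : ℝ, 4 * S ≤ R' →
      |2 * M S - (M S) ^ 2 / (4 * Real.pi)| ≤ C * (1 + Λ) * (M (2 * R') - M S) + C * (S * Λ * K / R') := by
    intro S hS R' hR'
    have hR'0 : 0 < R' := by linarith
    obtain ⟨CR, hCR, hb⟩ := hbulk (2 * R')
    have hev : ∀ᶠ n in (U : Filter ℕ), |2 * ms (w n) S - (ms (w n) S) ^ 2 / (4 * Real.pi)|
        ≤ C * (1 + Λ) * (ms (w n) (2 * R') - ms (w n) S) + C * (S * Λ * K / R')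
          + C * ((ε n + η n * √CR) * (S * √CR + S * Λ / R')) := by
      have hη2 : ∀ᶠ n in (U : Filter ℕ), η n < 1 / 2 := (h.η_lim).eventually (gt_mem_nhds (by norm_num))
      have hεe : ∀ᶠ n in (U : Filter ℕ), ε n < e0 := (h.ε_lim).eventually (gt_mem_nhds he00)
      filter_upwards [h.adm, h.grad, hR.eventually_ge_atTop (2 * R' + 1), he0 (2 * R'), hη2, hεe] with
        n hn hg hRn he hηn hεn
      have hsub : ∀ x ∈ closedBall (0 : E2) (2 * R'), ball x 1 ⊆ ball 0 (R n) := by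
        intro x hx
        apply ball_subset_ball'
        rw [mem_closedBall] at hx
        linarith
      have hn' : Adm (a n) (w n) (η n) (ε n) Λ 0 (2 * R' + 1) := hn.mono (ball_subset_ball hRn)
      have hb' := hb (a n) (w n) (η n) (ε n) Λ hn' hηn.le (h.ε_nonneg n) hεn.le he (by
        intro x hx
        have := hg x 1 one_pos (hsub x hx)
        linarith)
      have hn'' : Adm (a n) (w n) (η n) (ε n) Λ 0 (2 * R') := hn.mono (ball_subset_ball (by linarith))
      apply hvir (a n) (w n) (η n) (ε n) Λ K S R' CR CR hn'' (h.η_nonneg n) (h.ε_nonneg n) hS hR'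
        (hg 0 (2 * R') (by positivity) (ball_subset_ball (by linarith)))
      · refine le_trans (setIntegral_mono_set ?_ ?_ ?_) hb'.1
        · have hwc := (h.smooth n).continuous
          have : Continuous (fun z => Real.exp (w n z) ^ 2) := by fun_prop
          exact this.continuousOn.integrableOn_compact (isCompact_closedBall _ _)
        · exact Eventually.of_forall (fun z => sq_nonneg _)
        · exact Eventually.of_forall (ball_subset_closedBall.trans (closedBall_subset_closedBall (by linarith)))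
      · refine le_trans (setIntegral_mono_set ?_ ?_ ?_) hb'.2
        · have hw1 : ContDiff ℝ 1 (w n) := (h.smooth n).of_le (by norm_cast)
          have hdc : Continuous (fun z => fderiv ℝ (w n) z) := hw1.continuous_fderiv (by simp)
          have : Continuous (fun z => ‖fderiv ℝ (w n) z‖ ^ 2) := by fun_prop
          exact this.continuousOn.integrableOn_compact (isCompact_closedBall _ _)
        · exact Eventually.of_forall (fun z => sq_nonneg _)
        · exact Eventually.of_forall ball_subset_closedBall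
    have hl : Tendsto (fun n => |2 * ms (w n) S - (ms (w n) S) ^ 2 / (4 * Real.pi)|) U
        (𝓝 |2 * M S - (M S) ^ 2 / (4 * Real.pi)|) :=
      (((hMlim S).const_mul 2).sub (((hMlim S).pow 2).div_const _)).abs
    have hr : Tendsto (fun n => C * (1 + Λ) * (ms (w n) (2 * R') - ms (w n) S) + C * (S * Λ * K / R')
          + C * ((ε n + η n * √CR) * (S * √CR + S * Λ / R'))) U
        (𝓝 (C * (1 + Λ) * (M (2 * R') - M S) + C * (S * Λ * K / R')
          + C * ((0 + 0 * √CR) * (S * √CR + S * Λ / R')))) := by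
      have h1 := ((hMlim (2 * R')).sub (hMlim S)).const_mul (C * (1 + Λ))
      have h2 := ((h.ε_lim.add (h.η_lim.mul_const (√CR))).mul_const (S * √CR + S * Λ / R')).const_mul C
      exact (h1.add_const _).add h2
    have := le_of_tendsto_of_tendsto hl hr hev
    simpa using this
  -- R' to infinity
  have key2 : ∀ S : ℝ, 0 < S → |2 * M S - (M S) ^ 2 / (4 * Real.pi)| ≤ C * (1 + Λ) * (Mi - M S) := by
    intro S hS
    have h1 : Tendsto (fun R' : ℝ => C * (1 + Λ) * (M (2 * R') - M S) + C * (S * Λ * K / R')) atTop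
        (𝓝 (C * (1 + Λ) * (Mi - M S) + C * 0)) := by
      have h2 : Tendsto (fun R' : ℝ => M (2 * R')) atTop (𝓝 Mi) :=
        hMt.comp (tendsto_id.const_mul_atTop (by norm_num : (0 : ℝ) < 2))
      have h3 : Tendsto (fun R' : ℝ => S * Λ * K / R') atTop (𝓝 0) := tendsto_const_nhds.div_atTop tendsto_id
      exact ((h2.sub_const _).const_mul _).add (h3.const_mul C)
    rw [mul_zero, add_zero] at h1
    apply ge_of_tendsto h1
    filter_upwards [eventually_ge_atTop (4 * S)] with R' hR'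
    exact key S hS R' hR'
  -- S to infinity
  have key3 : |2 * Mi - Mi ^ 2 / (4 * Real.pi)| ≤ C * (1 + Λ) * (Mi - Mi) := by
    have h1 : Tendsto (fun S => |2 * M S - (M S) ^ 2 / (4 * Real.pi)|) atTop
        (𝓝 |2 * Mi - Mi ^ 2 / (4 * Real.pi)|) := ((hMt.const_mul 2).sub ((hMt.pow 2).div_const _)).abs
    have h2 : Tendsto (fun S => C * (1 + Λ) * (Mi - M S)) atTop (𝓝 (C * (1 + Λ) * (Mi - Mi))) :=
      (hMt.const_sub _).const_mul _
    apply le_of_tendsto_of_tendsto h1 h2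
    filter_upwards [eventually_gt_atTop 0] with S hS
    exact key2 S hS
  rw [sub_self, mul_zero] at key3
  have hMi8 : Mi = 8 * Real.pi := by
    have h1 : 2 * Mi - Mi ^ 2 / (4 * Real.pi) = 0 := abs_nonpos_iff.mp key3
    have h2 : Mi * (8 * Real.pi - Mi) = 0 := by
      have : 2 * Mi - Mi ^ 2 / (4 * Real.pi) = Mi * (8 * Real.pi - Mi) / (4 * Real.pi) := by
        field_simp
        ring
      rw [this, div_eq_zero_iff] at h1
      rcases h1 with h1 | h1
      · exact h1
      · exfalso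
        linarith
    rcases mul_eq_zero.mp h2 with h3 | h3
    · linarith
    · linarith
  intro δ hδ
  rw [hMi8] at hMt
  have h1 : ∀ᶠ S in atTop, |M S - 8 * Real.pi| < δ := by
    have := Metric.tendsto_nhds.mp hMt δ hδ
    simpa [Real.dist_eq] using this
  obtain ⟨S0, hS0⟩ := eventually_atTop.mp h1
  refine ⟨max S0 1, by positivity, fun S hS => ?_⟩
  have h2 := hS0 S ((le_max_left _ _).trans hS)
  have h3 : Tendsto (fun n => |ms (w n) S - 8 * Real.pi|) U (𝓝 |M S - 8 * Real.pi|) :=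
    ((hMlim S).sub_const _).abs
  exact (h3.eventually (gt_mem_nhds h2)).mono (fun n hn => hn.le)

theorem exists_first_bubble {U : Ultrafilter ℕ} {a : ℕ → E2 → E2 →L[ℝ] E2} {w : ℕ → E2 → ℝ}
    {η ε : ℕ → ℝ} {Λ K : ℝ} (h : Sq U a w η ε Λ K (fun _ => 1))
    (hconc : ∀ ρ, 0 < ρ → ρ ≤ 1 → Tendsto (fun n => ms (w n) 1 - ms (w n) ρ) U (𝓝 0)) {m : ℝ}
    (hm : Tendsto (fun n => ms (w n) 1) U (𝓝 m)) (hm0 : 0 < m) :
    ∃ (x : ℕ → E2) (s : ℕ → ℝ), (∀ n, 0 < s n) ∧ Tendsto s U (𝓝 0) ∧ Tendsto x U (𝓝 0) ∧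
      ∀ δ > 0, ∃ S0 > 0, ∀ S ≥ S0, ∀ᶠ n in (U : Filter ℕ), |mb (w n) (x n) (s n * S) - 8 * Real.pi| ≤ δ := by
  obtain ⟨e0, he0, he01, hbulk⟩ := exists_bulk
  set e := min e0 m / 2 with he
  have hepos : 0 < e := by positivity
  have hem : e < m := by
    have : min e0 m ≤ m := min_le_right _ _
    linarith
  have hee0 : e ≤ e0 := by
    have : min e0 m ≤ e0 := min_le_left _ _
    linarith
  have hρ : ∀ ρ > 0, ∀ᶠ n in (U : Filter ℕ), e ≤ ms (w n) ρ := by
    intro ρ hρ
    have hρ' : 0 < min ρ 1 := lt_min hρ one_pos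
    have h1 : Tendsto (fun n => ms (w n) (min ρ 1)) U (𝓝 (m - 0)) := by
      have := hm.sub (hconc (min ρ 1) hρ' (min_le_right _ _))
      simpa using this
    rw [sub_zero] at h1
    refine (h1.eventually (lt_mem_nhds hem)).mono (fun n hn => hn.le.trans ?_)
    exact ms_mono (h.smooth n).continuous (min_le_left _ _)
  have hch : ∀ n, ∃ (x : E2) (s : ℝ), 0 < s ∧ (e ≤ ms (w n) (1 / 4) → x ∈ closedBall (0 : E2) (1 / 4) ∧
      s ≤ 1 / 4 ∧ e ≤ mb (w n) x s ∧
      (∀ y ∈ closedBall (0 : E2) (1 / 4), mb (w n) y s ≤ e) ∧ (∀ t, 0 < t → e ≤ ms (w n) t → s ≤ t)) := by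
    intro n
    by_cases hcase : e ≤ ms (w n) (1 / 4)
    · obtain ⟨x, s, h1, h2, h3, h4, h5, h6⟩ := exists_conc (h.smooth n).continuous hepos hcase
      exact ⟨x, s, h2, fun _ => ⟨h1, h3, h4, h5, h6⟩⟩
    · exact ⟨0, 1, one_pos, fun hc => absurd hc hcase⟩
  choose x s hs hxs using hch
  have hprop : ∀ᶠ n in (U : Filter ℕ), x n ∈ closedBall (0 : E2) (1 / 4) ∧
      s n ≤ 1 / 4 ∧ e ≤ mb (w n) (x n) (s n) ∧
      (∀ y ∈ closedBall (0 : E2) (1 / 4), mb (w n) y (s n) ≤ e) ∧
      (∀ t, 0 < t → e ≤ ms (w n) t → s n ≤ t) :=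
    (hρ (1 / 4) (by norm_num)).mono (fun n hn => hxs n hn)
  have hslim : Tendsto s U (𝓝 0) := by
    rw [Metric.tendsto_nhds]
    intro ρ hρ0
    filter_upwards [hprop, hρ (ρ / 2) (by positivity)] with n hn h2
    rw [Real.dist_eq, sub_zero, abs_of_pos (hs n)]
    have := hn.2.2.2.2 (ρ / 2) (by positivity) h2
    linarith
  have hxlim : Tendsto x U (𝓝 0) := by
    rw [Metric.tendsto_nhds]
    intro ρ hρ0
    by_cases hρ1 : ρ / 2 ≤ 1
    swap
    · filter_upwards [hprop] with n hn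
      have hx1 : dist (x n) 0 ≤ 1 / 4 := hn.1
      linarith
    have h1 : ∀ᶠ n in (U : Filter ℕ), ms (w n) 1 - ms (w n) (ρ / 2) < e :=
      (hconc (ρ / 2) (by positivity) hρ1).eventually (gt_mem_nhds hepos)
    have h2 : ∀ᶠ n in (U : Filter ℕ), s n < ρ / 2 := hslim.eventually (gt_mem_nhds (by positivity))
    filter_upwards [hprop, h1, h2] with n hn h3 h4
    by_contra hcon
    rw [dist_zero_right, not_lt] at hcon
    have hwc := (h.smooth n).continuous
    have hx1 : ‖x n‖ ≤ 1 / 4 := by simpa using hn.1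
    have hsub : ball (x n) (s n) ⊆ ball (0 : E2) 1 \ ball 0 (ρ / 2) := by
      intro z hz
      rw [mem_ball, dist_eq_norm] at hz
      have e1 := norm_sub_norm_le (x n) z
      rw [norm_sub_rev] at e1
      have e2 := norm_sub_norm_le z (x n)
      constructor
      · rw [mem_ball, dist_zero_right]
        linarith [hn.2.1]
      · rw [mem_ball, dist_zero_right, not_lt]
        linarith
    have h5 : mb (w n) (x n) (s n) ≤ ms (w n) 1 - ms (w n) (ρ / 2) := by
      have e1 : ms (w n) 1 - ms (w n) (ρ / 2) = ∫ z in ball (0 : E2) 1 \ ball 0 (ρ / 2), Real.exp (w n z) := by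
        rw [setIntegral_sdiff measurableSet_ball (intOn_ball (by fun_prop) _ _) (ball_subset_ball hρ1)]
        rfl
      rw [e1, mb]
      have i1 : IntegrableOn (fun z => Real.exp (w n z)) (ball (0 : E2) 1) := intOn_ball (by fun_prop) _ _
      exact setIntegral_mono_set (i1.mono_set diff_subset)
        (Eventually.of_forall (fun z => (Real.exp_pos _).le)) (Eventually.of_forall hsub)
    linarith [hn.2.2.1]
  -- the rescaled sequence
  set R' : ℕ → ℝ := fun n => 1 / (2 * s n) with hR'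
  have hRlim : Tendsto R' U atTop := by
    have h1 : Tendsto (fun n => 2 * s n) U (𝓝[>] 0) := by
      rw [tendsto_nhdsWithin_iff]
      constructor
      · have := hslim.const_mul 2
        simpa using this
      · exact Eventually.of_forall (fun n => by
          have := hs n
          simp only [mem_Ioi]
          positivity)
    have h2 := tendsto_inv_nhdsGT_zero.comp h1
    refine h2.congr (fun n => ?_)
    simp [hR']
  have hsubR : ∀ᶠ n in (U : Filter ℕ), ball (x n) (s n * R' n) ⊆ ball 0 ((fun _ => 1 : ℕ → ℝ) n) := by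
    filter_upwards [hprop] with n hn
    apply ball_subset_ball'
    have hx1 : dist (x n) 0 ≤ 1 / 4 := hn.1
    have e1 : s n * R' n = 1 / 2 := by
      simp only [hR']
      have := hs n
      field_simp
    rw [e1]
    linarith
  have hres := h.resc hs hsubR
  have hsmall : ∀ S : ℝ, ∀ᶠ n in (U : Filter ℕ), ∀ y ∈ closedBall (0 : E2) S,
      mb (resc (x n) (s n) (w n)) y 1 ≤ e0 := by
    intro S
    have h1 : Tendsto (fun n => ‖x n‖ + s n * |S|) U (𝓝 (‖(0 : E2)‖ + 0 * |S|)) :=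
      hxlim.norm.add (hslim.mul_const _)
    rw [norm_zero, zero_mul, zero_add] at h1
    have h2 : ∀ᶠ n in (U : Filter ℕ), ‖x n‖ + s n * |S| < 1 / 4 := h1.eventually (gt_mem_nhds (by norm_num))
    filter_upwards [hprop, h2] with n hn h3 y hy
    rw [mb_resc (w n) (x n) (hs n), mul_one]
    refine le_trans (hn.2.2.2.1 _ ?_) hee0
    rw [mem_closedBall, dist_zero_right]
    refine (norm_add_le _ _).trans ?_
    rw [norm_smul, Real.norm_of_nonneg (hs n).le]
    have hy1 : ‖y‖ ≤ |S| := by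
      have : ‖y‖ ≤ S := by simpa using hy
      exact this.trans (le_abs_self S)
    have := mul_le_mul_of_nonneg_left hy1 (hs n).le
    linarith
  have hone : ∀ᶠ n in (U : Filter ℕ), e ≤ ms (resc (x n) (s n) (w n)) 1 := by
    filter_upwards [hprop] with n hn
    rw [ms_resc' (w n) (x n) (hs n), mul_one]
    exact hn.2.2.1
  refine ⟨x, s, hs, hslim, hxlim, ?_⟩
  have hfin := bubble_mass hres hRlim hsmall hepos hone (fun S => hbulk K h.K_nonneg S) he0
  intro δ hδ
  obtain ⟨S0, hS0, hS⟩ := hfin δ hδ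
  refine ⟨S0, hS0, fun S hSS => ?_⟩
  filter_upwards [hS S hSS] with n hn
  rwa [ms_resc' (w n) (x n) (hs n)] at hn

end Pool.Agent.Helper41.PS
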