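import Pool.Agent.Helper41.PS.Virial4
import Pool.Agent.Helper41.PS.Morrey

/-!
# Sequences of admissible functions, concentration points
-/

open MeasureTheory Set Filter Topology Metric
open scoped ContDiff ENNReal NNReal

namespace Pool.Agent.Helper41.PS

/-- Morrey bound on all discs contained in the disc of radius `R`. -/
def MB (w : E2 → ℝ) (K R : ℝ) : Prop :=
  ∀ (x : E2) (r : ℝ), 0 < r → ball x r ⊆ ball 0 R → ∫ z in ball x r, ‖fderiv ℝ w z‖ ≤ K * r

/-- Sequences of admissible functions with errors tending to zero. -/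
structure Sq (F : Filter ℕ) (a : ℕ → E2 → E2 →L[ℝ] E2) (w : ℕ → E2 → ℝ) (η ε : ℕ → ℝ) (Λ K : ℝ)
    (R : ℕ → ℝ) : Prop where
  adm : ∀ᶠ n in F, Adm (a n) (w n) (η n) (ε n) Λ 0 (R n)
  smooth : ∀ n, ContDiff ℝ ∞ (w n)
  η_nonneg : ∀ n, 0 ≤ η n
  ε_nonneg : ∀ n, 0 ≤ ε n
  η_lim : Tendsto η F (𝓝 0)
  ε_lim : Tendsto ε F (𝓝 0)
  grad : ∀ᶠ n in F, MB (w n) K (R n)
  K_nonneg : 0 ≤ K

lemma ball_affine_sub {x y : E2} {s r R' : ℝ} (hs : 0 < s) (h : ball y r ⊆ ball (0 : E2) R') :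
    ball (x + s • y) (s * r) ⊆ ball x (s * R') := by
  intro z hz
  have e1 : z = x + s • (s⁻¹ • (z - x)) := by
    rw [smul_smul, mul_inv_cancel₀ hs.ne', one_smul]
    abel
  rw [e1] at hz ⊢
  rw [mem_ball_affine hs] at hz
  have := (mem_ball_affine hs x (s⁻¹ • (z - x)) 0 R').mpr (h hz)
  rwa [smul_zero, add_zero] at this

lemma MB.resc {w : E2 → ℝ} {K R : ℝ} (h : MB w K R) (hw : ContDiff ℝ 1 w) {x : E2} {s : ℝ} (hs : 0 < s)
    {R' : ℝ} (hsub : ball x (s * R') ⊆ ball 0 R) : MB (PS.resc x s w) K R' := by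
  intro y r hr hy
  rw [gradint_resc x hs hw, inv_mul_le_iff₀ hs]
  refine (h (x + s • y) (s * r) (by positivity) ((ball_affine_sub hs hy).trans hsub)).trans ?_
  linarith

lemma MB.mono {w : E2 → ℝ} {K R R' : ℝ} (h : MB w K R) (hR : R' ≤ R) : MB w K R' :=
  fun x r hr hx => h x r hr (hx.trans (ball_subset_ball hR))

lemma Sq.resc {F : Filter ℕ} {a : ℕ → E2 → E2 →L[ℝ] E2} {w : ℕ → E2 → ℝ} {η ε : ℕ → ℝ} {Λ K : ℝ}
    {R : ℕ → ℝ} (h : Sq F a w η ε Λ K R) {x : ℕ → E2} {s R' : ℕ → ℝ} (hs : ∀ n, 0 < s n)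
    (hsub : ∀ᶠ n in F, ball (x n) (s n * R' n) ⊆ ball 0 (R n)) :
    Sq F (fun n y => a n (x n + s n • y)) (fun n => PS.resc (x n) (s n) (w n)) η ε Λ K R' where
  adm := by
    filter_upwards [h.adm, hsub] with n hn hn2
    exact hn.resc (x n) (hs n) hn2
  smooth := fun n => resc_contDiff (x n) (s n) (n := ⊤) (h.smooth n)
  η_nonneg := h.η_nonneg
  ε_nonneg := h.ε_nonneg
  η_lim := h.η_lim
  ε_lim := h.ε_lim
  grad := by
    filter_upwards [h.grad, hsub] with n hn hn2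
    exact hn.resc ((h.smooth n).of_le (by norm_cast)) (hs n) hn2
  K_nonneg := h.K_nonneg

/-- Mass of a disc. -/
noncomputable def mb (w : E2 → ℝ) (x : E2) (r : ℝ) : ℝ := ∫ z in ball x r, Real.exp (w z)

lemma mb_zero (w : E2 → ℝ) (r : ℝ) : mb w 0 r = ms w r := rfl

lemma mb_nonneg (w : E2 → ℝ) (x : E2) (r : ℝ) : 0 ≤ mb w x r := integral_nonneg (fun _ => (Real.exp_pos _).le)

lemma mb_mono {w : E2 → ℝ} (hw : Continuous w) {x y : E2} {r s : ℝ} (h : ball x r ⊆ ball y s) :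
    mb w x r ≤ mb w y s :=
  setIntegral_mono_set (intOn_ball (by fun_prop) _ _) (Eventually.of_forall (fun _ => (Real.exp_pos _).le))
    (Eventually.of_forall h)

lemma mb_resc (w : E2 → ℝ) (x : E2) {s : ℝ} (hs : 0 < s) (y : E2) (r : ℝ) :
    mb (resc x s w) y r = mb w (x + s • y) (s * r) := by
  rw [mb, mass_resc x hs, mb]

lemma ms_resc' (w : E2 → ℝ) (x : E2) {s : ℝ} (hs : 0 < s) (r : ℝ) :
    ms (resc x s w) r = mb w x (s * r) := by
  rw [← mb_zero, mb_resc w x hs, smul_zero, add_zero]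

/-- The mass as a continuous function of centre and radius. -/
noncomputable def mF (w : E2 → ℝ) (q : E2 × ℝ) : ℝ :=
  q.2 ^ 2 * ∫ y in closedBall (0 : E2) 1, Real.exp (w (q.1 + q.2 • y))

lemma continuous_mF {w : E2 → ℝ} (hw : Continuous w) : Continuous (mF w) := by
  unfold mF
  apply (continuous_snd.pow 2).mul
  apply continuous_parametric_integral_of_continuous (f := fun (q : E2 × ℝ) (y : E2) =>
    Real.exp (w (q.1 + q.2 • y))) _ (isCompact_closedBall (0 : E2) 1)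
  unfold Function.uncurry
  fun_prop

lemma mF_eq (w : E2 → ℝ) (x : E2) {s : ℝ} (hs : 0 < s) : mF w (x, s) = mb w x s := by
  have h1 : ∫ y in closedBall (0 : E2) 1, Real.exp (w (x + s • y)) = ∫ y in ball (0 : E2) 1, Real.exp (w (x + s • y)) := by
    apply setIntegral_congr_set
    exact (ae_eq_of_subset_of_measure_ge ball_subset_closedBall
      (Measure.addHaar_closedBall_eq_addHaar_ball volume 0 1).le measurableSet_ball.nullMeasurableSet
      (isCompact_closedBall _ _).measure_lt_top.ne).symm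
  unfold mF
  simp only
  rw [h1, setIntegral_affine_ball (fun z => Real.exp (w z)) hs, ← mul_assoc, mul_inv_cancel₀ (by positivity),
    one_mul, smul_zero, add_zero, mul_one, mb]

lemma exists_conc {w : E2 → ℝ} (hw : Continuous w) {e : ℝ} (he : 0 < e) (hm : e ≤ ms w (1 / 4)) :
    ∃ (x : E2) (s : ℝ), x ∈ closedBall (0 : E2) (1 / 4) ∧ 0 < s ∧ s ≤ 1 / 4 ∧ e ≤ mb w x s ∧
      (∀ y ∈ closedBall (0 : E2) (1 / 4), mb w y s ≤ e) ∧ (∀ t, 0 < t → e ≤ ms w t → s ≤ t) := by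
  have hc := continuous_mF hw
  set T : Set (E2 × ℝ) := (closedBall (0 : E2) (1 / 4) ×ˢ Icc (0 : ℝ) (1 / 4)) ∩ {q | e ≤ mF w q} with hT
  have hTc : IsCompact T := ((isCompact_closedBall (0 : E2) (1 / 4)).prod isCompact_Icc).inter_right
    (isClosed_le continuous_const hc)
  have h0mem : (0 : E2) ∈ closedBall (0 : E2) (1 / 4) := mem_closedBall_self (by norm_num)
  have hTn : T.Nonempty := by
    refine ⟨(0, 1 / 4), ⟨⟨h0mem, by constructor <;> norm_num⟩, ?_⟩⟩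
    show e ≤ mF w (0, 1 / 4)
    rw [mF_eq w 0 (by norm_num)]
    exact hm
  obtain ⟨⟨x, s⟩, hq, hmin⟩ := hTc.exists_isMinOn hTn continuous_snd.continuousOn
  have hx : x ∈ closedBall (0 : E2) (1 / 4) := hq.1.1
  have hs1 : 0 ≤ s := hq.1.2.1
  have hs2 : s ≤ 1 / 4 := hq.1.2.2
  have hs3 : e ≤ mF w (x, s) := hq.2
  have hmin' : ∀ y ∈ closedBall (0 : E2) (1 / 4), ∀ t ∈ Icc (0 : ℝ) (1 / 4), e ≤ mF w (y, t) → s ≤ t := by
    intro y hy t ht h
    exact hmin (show (y, t) ∈ T from ⟨⟨hy, ht⟩, h⟩)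
  have hspos : 0 < s := by
    rcases hs1.eq_or_lt with h | h
    · exfalso
      rw [← h] at hs3
      unfold mF at hs3
      simp at hs3
      linarith
    · exact h
  refine ⟨x, s, hx, hspos, hs2, ?_, ?_, ?_⟩
  · rwa [mF_eq w x hspos] at hs3
  · intro y hy
    rw [← mF_eq w y hspos]
    have h1 : ContinuousWithinAt (fun t => mF w (y, t)) (Iio s) s :=
      (hc.comp (by fun_prop : Continuous (fun t : ℝ => (y, t)))).continuousWithinAt
    have h2 : ∀ᶠ t in 𝓝[<] s, mF w (y, t) ≤ e := by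
      filter_upwards [Ioo_mem_nhdsLT hspos] with t ht
      by_contra hcon
      push Not at hcon
      have := hmin' y hy t ⟨ht.1.le, ht.2.le.trans hs2⟩ hcon.le
      linarith [ht.2]
    exact le_of_tendsto h1 h2
  · intro t ht h
    by_cases h4 : t ≤ 1 / 4
    · exact hmin' 0 h0mem t ⟨ht.le, h4⟩ (by rw [mF_eq w 0 ht]; exact h)
    · push Not at h4
      linarith

end Pool.Agent.Helper41.PS
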