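import Pool.Agent.Helper41.PS.LocRep3
import Pool.Agent.Helper41.PS.GlobDef
import Pool.Agent.Helper41.PS.SmallMass4
import Pool.Agent.Helper41.PS.Seq
import Pool.Agent.Helper41.PS.Ultra

/-!
# Quantisation on the surface, part 1: local package along a sequence
-/

open MeasureTheory Set Manifold Bundle Filter Topology
open scoped ContDiff ENNReal

set_option linter.unusedSectionVars false

namespace Pool.Agent.Helper41.PS

section Glob

variable {M : Type*} [TopologicalSpace M] [T2Space M] [CompactSpace M] [ChartedSpace E2 M]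
  [IsManifold (𝓡 2) ∞ M] [RiemannianBundle (fun x : M => TangentSpace (𝓡 2) x)]
  [IsContMDiffRiemannianBundle (𝓡 2) ∞ E2 (fun x : M => TangentSpace (𝓡 2) x)]
  [MeasurableSpace M] [BorelSpace M] {vol : Measure M} [IsProbabilityMeasure vol]

/-- The mass measure on the surface. -/
noncomputable def muM (vol : Measure M) (h : M → ℝ) (lam : ℝ) (u : M → ℝ) : Measure M :=
  vol.withDensity (fun x => ENNReal.ofReal (lam * (h x * Real.exp (u x))))

lemma muM_apply {h : M → ℝ} (hh : Continuous h) (hpos : ∀ x, 0 < h x) {lam : ℝ} (hlam : 0 < lam)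
    {u : M → ℝ} (hu : Continuous u) {A : Set M} (hA : MeasurableSet A) :
    (muM vol h lam u) A = ENNReal.ofReal (lam * ∫ x in A, h x * Real.exp (u x) ∂vol) := by
  have hc : Continuous (fun x => lam * (h x * Real.exp (u x))) := by fun_prop
  have hi : Integrable (fun x => lam * (h x * Real.exp (u x))) vol := Helper99.PS.integrable_of_cont hc
  rw [muM, withDensity_apply _ hA, ← integral_const_mul,
    ofReal_integral_eq_lintegral_ofReal hi.integrableOn (Eventually.of_forall (fun x => by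
      have := hpos x
      have := Real.exp_pos (u x)
      positivity))]

lemma muM_real {h : M → ℝ} (hh : Continuous h) (hpos : ∀ x, 0 < h x) {lam : ℝ} (hlam : 0 < lam)
    {u : M → ℝ} (hu : Continuous u) {A : Set M} (hA : MeasurableSet A) :
    (muM vol h lam u).real A = lam * ∫ x in A, h x * Real.exp (u x) ∂vol := by
  rw [measureReal_def, muM_apply hh hpos hlam hu hA, ENNReal.toReal_ofReal]
  apply mul_nonneg hlam.le
  exact integral_nonneg (fun x => (mul_pos (hpos x) (Real.exp_pos _)).le)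

lemma muM_univ {h : M → ℝ} (hh : Continuous h) (hpos : ∀ x, 0 < h x) {lam : ℝ} (hlam : 0 < lam)
    {u : M → ℝ} (hu : Continuous u) (hm : ∫ x, h x * Real.exp (u x) ∂vol = 1) :
    (muM vol h lam u) univ = ENNReal.ofReal lam := by
  rw [muM_apply hh hpos hlam hu MeasurableSet.univ, Measure.restrict_univ, hm, mul_one]

lemma muM_ball {x0 : M} (p : Param vol x0) {h : M → ℝ} (hh : Continuous h) (hpos : ∀ x, 0 < h x)
    {lam : ℝ} (hlam : 0 < lam) {u : M → ℝ} (hu : Continuous u) {ρ : ℝ} (hρ : ρ ≤ p.δ / 2) :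
    (muM vol h lam u).real (p.P '' Metric.ball 0 ρ) = ms (Wf p h lam u) ρ := by
  have hsub : Metric.ball (0 : E2) ρ ⊆ Metric.ball 0 (p.δ / 2) := Metric.ball_subset_ball hρ
  rw [muM_real hh hpos hlam hu
    (p.open_P _ (hsub.trans (half_sub p)) Metric.isOpen_ball).measurableSet, ms,
    mass_param p hh hpos hlam hu Metric.isOpen_ball hsub]

variable {h : M → ℝ} {lam : ℝ} {U : Ultrafilter ℕ} {u : ℕ → M → ℝ} {ε t : ℕ → ℝ} {G : ℝ}

theorem GS.local_package (hg : GS vol h lam U u ε t G) (hh : ContMDiff (𝓡 2) 𝓘(ℝ, ℝ) ∞ h)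
    (hpos : ∀ x, 0 < h x) (hlam : 0 < lam) {x0 : M} (p : Param vol x0) :
    ∃ (B ρ0 K : ℝ) (ηf : ℝ → ℝ), 0 < B ∧ 0 < ρ0 ∧ ρ0 ≤ 1 ∧ ρ0 ≤ p.δ / 2 ∧ 0 ≤ K ∧
      (∀ ρ, 0 ≤ ηf ρ) ∧ Tendsto ηf (𝓝[>] 0) (𝓝 0) ∧
      (∀ n ρ, 0 < ρ → ρ ≤ ρ0 → Adm (af p) (Wf p h lam (u n)) (ηf ρ) (B * (ε n + ρ)) lam 0 ρ) ∧
      (∀ᶠ n in (U : Filter ℕ), MB (Wf p h lam (u n)) K ρ0) ∧
      (∀ᶠ n in (U : Filter ℕ), ∫ y in Metric.ball (0 : E2) ρ0, |Wf p h lam (u n) y - t n| ≤ K) ∧
      (∀ᶠ n in (U : Filter ℕ), ∫ y in Metric.ball (0 : E2) ρ0, ‖fderiv ℝ (Wf p h lam (u n)) y‖ ≤ K) := by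
  have hδ := p.δ_pos
  obtain ⟨B, ηf, hB, hη0, hηlim, hadm⟩ := exists_adm p hh hpos hlam
  obtain ⟨η0, C, hη0pos, hη0h, hC, hmorrey⟩ := exists_morrey
  obtain ⟨C1, hC1, hl1⟩ := exists_l1 p hh hpos hlam
  -- the radius
  have hev : ∀ᶠ ρ in 𝓝[>] (0 : ℝ), ηf ρ < η0 ∧ ρ ∈ Ioo (0 : ℝ) (min (min 1 (p.δ / 2)) (1 / (2 * B))) :=
    (hηlim.eventually (gt_mem_nhds hη0pos)).and (Ioo_mem_nhdsGT (by positivity))
  obtain ⟨R1, hR1η, hR10, hR1m⟩ := hev.exists
  have hR11 : R1 ≤ 1 := hR1m.le.trans ((min_le_left _ _).trans (min_le_left _ _))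
  have hR1δ : R1 ≤ p.δ / 2 := hR1m.le.trans ((min_le_left _ _).trans (min_le_right _ _))
  have hR1B : R1 ≤ 1 / (2 * B) := hR1m.le.trans (min_le_right _ _)
  have hBR : B * R1 ≤ 1 / 2 := by
    calc B * R1 ≤ B * (1 / (2 * B)) := mul_le_mul_of_nonneg_left hR1B hB.le
      _ = 1 / 2 := by field_simp
  have hint : ∀ n, Integrable (fun x => h x * Real.exp (u n x)) vol := fun n => by
    have h1 := hh.continuous
    have h2 := (hg.smooth n).continuous
    exact Helper99.PS.integrable_of_cont (by fun_prop)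
  have hAdm : ∀ n ρ, 0 < ρ → ρ ≤ R1 → Adm (af p) (Wf p h lam (u n)) (ηf ρ) (B * (ε n + ρ)) lam 0 ρ :=
    fun n ρ hρ0 hρ => hadm (u n) (ε n) (hg.smooth n) (hint n) (hg.mass n) (hg.ε_nonneg n) (hg.weak n) ρ hρ0
      (hρ.trans hR11) (hρ.trans hR1δ)
  have hG0 : 0 ≤ G := by
    obtain ⟨n, hn⟩ := hg.grad_le.exists
    exact le_trans (integral_nonneg (fun x => norm_nonneg _)) hn
  set K0 := C1 * (1 + G) with hK0
  have hK00 : 0 ≤ K0 := by positivity
  have hball : Metric.ball (0 : E2) R1 ⊆ Metric.ball 0 (p.δ / 2) := Metric.ball_subset_ball hR1δ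
  have hgr : ∀ᶠ n in (U : Filter ℕ), ∀ ρ ≤ R1,
      ∫ y in Metric.ball (0 : E2) ρ, ‖fderiv ℝ (Wf p h lam (u n)) y‖ ≤ K0 := by
    filter_upwards [hg.grad_le] with n hn ρ hρ
    have hWs := Wf_smooth p hh hpos hlam (hg.smooth n)
    have hWf : Continuous (fderiv ℝ (Wf p h lam (u n))) := hWs.continuous_fderiv (by simp)
    calc ∫ y in Metric.ball (0 : E2) ρ, ‖fderiv ℝ (Wf p h lam (u n)) y‖
        ≤ ∫ y in Metric.ball (0 : E2) (p.δ / 2), ‖fderiv ℝ (Wf p h lam (u n)) y‖ := by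
          apply setIntegral_mono_set
          · exact intOn_ball (by fun_prop) _ _
          · exact Eventually.of_forall (fun z => norm_nonneg _)
          · exact Eventually.of_forall (Metric.ball_subset_ball (hρ.trans hR1δ))
      _ ≤ C1 * (1 + ∫ x, ‖grad (u n) x‖ ∂vol) := (hl1 (u n) (hg.smooth n)).1
      _ ≤ K0 := mul_le_mul_of_nonneg_left (by linarith) hC1
  have hos : ∀ᶠ n in (U : Filter ℕ), ∀ ρ ≤ R1,
      ∫ y in Metric.ball (0 : E2) ρ, |Wf p h lam (u n) y - t n| ≤ K0 := by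
    filter_upwards [hg.osc_le] with n hn ρ hρ
    have hWs := Wf_smooth p hh hpos hlam (hg.smooth n)
    have hWc := hWs.continuous
    calc ∫ y in Metric.ball (0 : E2) ρ, |Wf p h lam (u n) y - t n|
        ≤ ∫ y in Metric.ball (0 : E2) (p.δ / 2), |Wf p h lam (u n) y - t n| := by
          apply setIntegral_mono_set
          · exact intOn_ball (by fun_prop) _ _
          · exact Eventually.of_forall (fun z => abs_nonneg _)
          · exact Eventually.of_forall (Metric.ball_subset_ball (hρ.trans hR1δ))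
      _ ≤ C1 * (1 + ∫ x, |u n x - t n| ∂vol) := (hl1 (u n) (hg.smooth n)).2 (t n)
      _ ≤ K0 := mul_le_mul_of_nonneg_left (by linarith) hC1
  set K := K0 + C * (1 + lam + R1⁻¹ * K0) with hK
  have hK1 : 0 ≤ C * (1 + lam + R1⁻¹ * K0) := by positivity
  refine ⟨B, R1 / 2, K, ηf, hB, by positivity, by linarith, by linarith, by positivity, hη0, hηlim,
    fun n ρ hρ0 hρ => hAdm n ρ hρ0 (by linarith), ?_, ?_, ?_⟩
  · have hεs : ∀ᶠ n in (U : Filter ℕ), ε n < 1 / (2 * B) := hg.ε_lim.eventually (gt_mem_nhds (by positivity))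
    filter_upwards [hgr, hεs] with n hn hεn
    intro x r hr hsub
    have hBε : B * ε n ≤ 1 / 2 := by
      calc B * ε n ≤ B * (1 / (2 * B)) := mul_le_mul_of_nonneg_left hεn.le hB.le
        _ = 1 / 2 := by field_simp
    have hx : x ∈ Metric.ball (0 : E2) (R1 / 2) := hsub (Metric.mem_ball_self hr)
    have hrR : r ≤ R1 / 2 := radius_le hr (by positivity) hsub
    have h1 := hmorrey (af p) (Wf p h lam (u n)) (ηf R1) (B * (ε n + R1)) lam 0 R1
      (hAdm n R1 hR10 le_rfl) hR10 (hη0 R1) hR1η.le (mul_nonneg hB.le (add_nonneg (hg.ε_nonneg n) hR10.le))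
      (by rw [mul_add]; linarith) x hx r hr hrR
    refine h1.trans ?_
    apply mul_le_mul_of_nonneg_right _ hr.le
    have h2 : C * (1 + lam + R1⁻¹ * ∫ z in Metric.ball 0 R1, ‖fderiv ℝ (Wf p h lam (u n)) z‖)
        ≤ C * (1 + lam + R1⁻¹ * K0) := by
      apply mul_le_mul_of_nonneg_left _ hC.le
      have := mul_le_mul_of_nonneg_left (hn R1 le_rfl) (inv_nonneg.mpr hR10.le)
      linarith
    linarith
  · filter_upwards [hos] with n hn
    have := hn (R1 / 2) (by linarith)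
    linarith
  · filter_upwards [hgr] with n hn
    have := hn (R1 / 2) (by linarith)
    linarith

/-- Small mass near a point implies zero mass near that point. -/
theorem exists_zero_density : ∃ e0 : ℝ, 0 < e0 ∧ ∀ {M : Type*} [TopologicalSpace M] [T2Space M]
    [CompactSpace M] [ChartedSpace E2 M]
    [IsManifold (𝓡 2) ∞ M] [RiemannianBundle (fun x : M => TangentSpace (𝓡 2) x)]
    [IsContMDiffRiemannianBundle (𝓡 2) ∞ E2 (fun x : M => TangentSpace (𝓡 2) x)]
    [MeasurableSpace M] [BorelSpace M] {vol : Measure M} [IsProbabilityMeasure vol]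
    {h : M → ℝ} {lam : ℝ} {U : Ultrafilter ℕ} {u : ℕ → M → ℝ} {ε t : ℕ → ℝ} {G : ℝ},
    GS vol h lam U u ε t G → ContMDiff (𝓡 2) 𝓘(ℝ, ℝ) ∞ h →
    (∀ x, 0 < h x) → 0 < lam → ∀ {x0 : M} (_ : Param vol x0) (V : Set M), IsOpen V → x0 ∈ V →
    LL U (fun n => muM vol h lam (u n)) V < e0 →
    ∃ V' : Set M, IsOpen V' ∧ x0 ∈ V' ∧ LL U (fun n => muM vol h lam (u n)) V' = 0 := by
  obtain ⟨e0, he0, he01, hsm⟩ := exists_small_mass'
  refine ⟨e0, he0, ?_⟩
  intro M _ _ _ _ _ _ _ _ _ vol _ h lam U u ε t G hg hh hpos hlam x0 p V hV hxV hLV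
  have hδ := p.δ_pos
  have hhc := hh.continuous
  have huc : ∀ n, Continuous (u n) := fun n => (hg.smooth n).continuous
  set μ : ℕ → Measure M := fun n => muM vol h lam (u n) with hμ
  have hΛ : ∀ n, (μ n) univ ≤ ENNReal.ofReal lam := fun n =>
    (muM_univ hhc hpos hlam (huc n) (hg.mass n)).le
  obtain ⟨B, ρ0, K, ηf, hB, hρ0, hρ01, hρ0δ, hK, hη0, hηlim, hAdm, hMB, hosc, hgrd⟩ :=
    hg.local_package hh hpos hlam p
  have hPc : ContinuousAt p.P 0 := p.cont_P.continuousAt (Metric.ball_mem_nhds 0 hδ)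
  have hPV : ∀ᶠ y in 𝓝 (0 : E2), p.P y ∈ V := hPc (by rw [p.P_zero]; exact hV.mem_nhds hxV)
  obtain ⟨r1, hr1, hr1V⟩ := Metric.eventually_nhds_iff_ball.mp hPV
  have hev : ∀ᶠ s in 𝓝[>] (0 : ℝ), ηf s < 1 / 2 ∧ s ∈ Ioo (0 : ℝ) (min (min r1 ρ0) (e0 / (2 * B))) :=
    (hηlim.eventually (gt_mem_nhds (by norm_num))).and (Ioo_mem_nhdsGT (by positivity))
  obtain ⟨s, hsη, hs0, hsm'⟩ := hev.exists
  have hsr1 : s ≤ r1 := hsm'.le.trans ((min_le_left _ _).trans (min_le_left _ _))
  have hsρ0 : s ≤ ρ0 := hsm'.le.trans ((min_le_left _ _).trans (min_le_right _ _))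
  have hsB : s ≤ e0 / (2 * B) := hsm'.le.trans (min_le_right _ _)
  have hBs : B * s ≤ e0 / 2 := by
    calc B * s ≤ B * (e0 / (2 * B)) := mul_le_mul_of_nonneg_left hsB hB.le
      _ = e0 / 2 := by field_simp
  set ρ := s / 2 with hρ
  have hρpos : 0 < ρ := by positivity
  have e2 : 2 * ρ = s := by rw [hρ]; ring
  have hsδ : s ≤ p.δ / 2 := hsρ0.trans hρ0δ
  have hsubV : p.P '' Metric.ball 0 s ⊆ V := by
    rintro _ ⟨y, hy, rfl⟩
    exact hr1V y (Metric.ball_subset_ball hsr1 hy)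
  have hreal : ∀ r, r ≤ p.δ / 2 → Tendsto (fun n => ms (Wf p h lam (u n)) r) U
      (𝓝 (LL U μ (p.P '' Metric.ball 0 r))) := by
    intro r hr
    refine (LL_tendsto hΛ hlam.le (p.P '' Metric.ball 0 r)).congr (fun n => ?_)
    exact muM_ball p hhc hpos hlam (huc n) hr
  have hsmall : ∀ᶠ n in (U : Filter ℕ), ms (Wf p h lam (u n)) s < e0 :=
    (hreal s hsδ).eventually (gt_mem_nhds (lt_of_le_of_lt (LL_mono hΛ hlam.le hsubV) hLV))
  obtain ⟨C, hC, hmain⟩ := hsm (K / ρ ^ 2 + K / ρ) (by positivity)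
  have hεs : ∀ᶠ n in (U : Filter ℕ), ε n < e0 / (2 * B) := hg.ε_lim.eventually (gt_mem_nhds (by positivity))
  have hub : ∀ᶠ n in (U : Filter ℕ), ms (Wf p h lam (u n)) (ρ / 2)
      ≤ Real.exp (t n) * (Real.pi * (ρ / 2) ^ 2 + C * ρ ^ 2) := by
    filter_upwards [hsmall, hεs, hosc, hgrd] with n hn hεn ho hgn
    have hWs := Wf_smooth p hh hpos hlam (hg.smooth n)
    have hwc := hWs.continuous
    have hWf : Continuous (fderiv ℝ (Wf p h lam (u n))) := hWs.continuous_fderiv (by simp)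
    have hBε : B * ε n ≤ e0 / 2 := by
      calc B * ε n ≤ B * (e0 / (2 * B)) := mul_le_mul_of_nonneg_left hεn.le hB.le
        _ = e0 / 2 := by field_simp
    set w := Wf p h lam (u n) with hw
    set c := t n with hc
    have hmono : ∀ f : E2 → ℝ, Continuous f → (∀ z, 0 ≤ f z) →
        ∫ z in Metric.ball (0 : E2) s, f z ≤ ∫ z in Metric.ball (0 : E2) ρ0, f z := by
      intro f hf hf0
      apply setIntegral_mono_set
      · exact intOn_ball hf _ _
      · exact Eventually.of_forall hf0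
      · exact Eventually.of_forall (Metric.ball_subset_ball hsρ0)
    have hKρ : 0 ≤ K / ρ := by positivity
    have hKρ2 : 0 ≤ K / ρ ^ 2 := by positivity
    obtain ⟨r1, -, -⟩ := hmain (af p) w (ηf s) (B * (ε n + s)) lam c 0 s 0 ρ (hAdm n s hs0 hsρ0) hρpos
      (by rw [e2]) hsη.le (mul_nonneg hB.le (add_nonneg (hg.ε_nonneg n) hs0.le))
      (by rw [mul_add]; linarith) (by rw [e2]; exact hn.le)
      (by
        rw [e2]
        refine (hmono _ (by fun_prop) (fun z => abs_nonneg _)).trans (ho.trans ?_)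
        have h1 : K / ρ ^ 2 * ρ ^ 2 = K := by field_simp
        have h2 : 0 ≤ K / ρ * ρ ^ 2 := by positivity
        rw [add_mul]
        linarith)
      (by
        rw [e2]
        refine (hmono _ (by fun_prop) (fun z => norm_nonneg _)).trans (hgn.trans ?_)
        have h1 : K / ρ * ρ = K := by field_simp
        have h2 : 0 ≤ K / ρ ^ 2 * ρ := by positivity
        rw [add_mul]
        linarith)
    have e5 : ∀ z, Real.exp (w z) ≤ Real.exp c * (1 + Real.exp (2 * (w z - c))) := by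
      intro z
      have e3 : Real.exp (w z) = Real.exp c * Real.exp (w z - c) := by
        rw [← Real.exp_add]
        ring_nf
      rw [e3]
      apply mul_le_mul_of_nonneg_left _ (Real.exp_pos _).le
      have e4 : Real.exp (2 * (w z - c)) = Real.exp (w z - c) ^ 2 := by
        rw [← Real.exp_nat_mul]
        push_cast
        ring_nf
      rw [e4]
      nlinarith [sq_nonneg (Real.exp (w z - c) - 1), Real.exp_pos (w z - c)]
    calc ms w (ρ / 2)
        ≤ ∫ z in Metric.ball (0 : E2) (ρ / 2), Real.exp c * (1 + Real.exp (2 * (w z - c))) := by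
          apply setIntegral_mono
          · exact intOn_ball (by fun_prop) _ _
          · exact intOn_ball (by fun_prop) _ _
          · exact e5
      _ = Real.exp c * (Real.pi * (ρ / 2) ^ 2
            + ∫ z in Metric.ball (0 : E2) (ρ / 2), Real.exp (2 * (w z - c))) := by
          rw [integral_const_mul, integral_add (intOn_ball (by fun_prop) _ _) (intOn_ball (by fun_prop) _ _),
            setIntegral_const, volume_ball_real 0 (by positivity), smul_eq_mul, mul_one]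
      _ ≤ _ := by
          apply mul_le_mul_of_nonneg_left _ (Real.exp_pos _).le
          linarith
  have h0 : Tendsto (fun n => Real.exp (t n) * (Real.pi * (ρ / 2) ^ 2 + C * ρ ^ 2)) U (𝓝 0) := by
    have := (Real.tendsto_exp_atBot.comp hg.t_lim).mul_const (Real.pi * (ρ / 2) ^ 2 + C * ρ ^ 2)
    rwa [zero_mul] at this
  have hlim : Tendsto (fun n => ms (Wf p h lam (u n)) (ρ / 2)) U (𝓝 0) :=
    tendsto_of_tendsto_of_tendsto_of_le_of_le' tendsto_const_nhds h0
      (Eventually.of_forall (fun n => ms_nonneg _ _)) hub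
  have hρδ : ρ / 2 ≤ p.δ / 2 := by linarith
  refine ⟨p.P '' Metric.ball 0 (ρ / 2), p.open_P _ ((Metric.ball_subset_ball hρδ).trans (half_sub p))
    Metric.isOpen_ball, ⟨0, Metric.mem_ball_self (by positivity), p.P_zero⟩, ?_⟩
  exact tendsto_nhds_unique (hreal (ρ / 2) hρδ) hlim

end Glob

end Pool.Agent.Helper41.PS
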