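import Pool.Agent.Helper41.PS.LQ
import Pool.Agent.Helper41.PS.FirstBubble

/-!
# Local quantisation, conclusion of the induction
-/

open MeasureTheory Set Filter Topology Metric
open scoped ContDiff ENNReal NNReal

namespace Pool.Agent.Helper41.PS

lemma exists_max_nat {P : ℕ → Prop} {B : ℕ} (hB : ∀ k, P k → k ≤ B) (h1 : P 1) :
    ∃ k, 1 ≤ k ∧ P k ∧ ∀ k', k < k' → ¬ P k' := by
  classical
  have hfin : {k | P k}.Finite := (Set.finite_Iic B).subset (fun k hk => hB k hk)
  obtain ⟨k, hk, hmax⟩ := hfin.exists_maximal ⟨1, h1⟩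
  have hle : ∀ j, P j → j ≤ k := by
    intro j hj
    rcases le_total j k with h | h
    · exact h
    · exact hmax hj h
  exact ⟨k, hle 1 h1, hk, fun k' hk' hP => absurd (hle k' hP) (not_le.mpr hk')⟩

lemma GP_le {U : Ultrafilter ℕ} {w : ℕ → E2 → ℝ} (hw : ∀ n, Continuous (w n)) {m : ℝ}
    (hm : Tendsto (fun n => ms (w n) 1) U (𝓝 m)) {k : ℕ} (h : GP U w k) : 8 * Real.pi * k ≤ m := by
  obtain ⟨s, hs, hs0, hms⟩ := h
  apply le_of_forall_pos_le_add
  intro δ hδ
  obtain ⟨S0, hS0, hS⟩ := hms δ hδ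
  have h1 : Tendsto (fun n => s n * S0) U (𝓝 (0 * S0)) := hs0.mul_const _
  rw [zero_mul] at h1
  have h2 : ∀ᶠ n in (U : Filter ℕ), 8 * Real.pi * k ≤ ms (w n) 1 + δ := by
    filter_upwards [hS S0 le_rfl, h1.eventually (gt_mem_nhds one_pos)] with n hn hn2
    have h3 := (abs_le.mp hn).1
    have h4 := ms_mono (hw n) hn2.le
    linarith
  exact ge_of_tendsto (hm.add_const δ) h2

/-- Local quantisation of the mass. -/
theorem LQ {U : Ultrafilter ℕ} (hU : (U : Filter ℕ) ≤ atTop) (N : ℕ) : LQP U N := by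
  induction N with
  | zero =>
    intro a w η ε Λ K h hconc m hm hmN
    exfalso
    have : 0 ≤ m := ge_of_tendsto hm (Eventually.of_forall (fun n => ms_nonneg _ _))
    simp at hmN
    linarith
  | succ N ih =>
    intro a w η ε Λ K h hconc m hm hmN
    have hpi := Real.pi_pos
    have hwc : ∀ n, Continuous (w n) := fun n => (h.smooth n).continuous
    have hm0 : 0 ≤ m := ge_of_tendsto hm (Eventually.of_forall (fun n => ms_nonneg _ _))
    rcases hm0.eq_or_lt with hz | hpos
    · exact ⟨0, by rw [← hz]; simp⟩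
    obtain ⟨x, s, hs, hs0, hx0, hbub⟩ := exists_first_bubble h hconc hm hpos
    -- recentre
    have hxsmall : ∀ ρ > 0, ∀ᶠ n in (U : Filter ℕ), ‖x n‖ < ρ := by
      intro ρ hρ
      have := Metric.tendsto_nhds.mp hx0 ρ hρ
      simpa using this
    have hsub : ∀ᶠ n in (U : Filter ℕ), ball (x n) ((1 / 2 : ℝ) * 1) ⊆ ball 0 ((fun _ => 1 : ℕ → ℝ) n) := by
      filter_upwards [hxsmall (1 / 2) (by norm_num)] with n hn
      apply ball_subset_ball'
      rw [dist_zero_right]
      linarith
    have hres := h.resc (x := x) (s := fun _ => (1 / 2 : ℝ)) (R' := fun _ => 1) (fun _ => by norm_num) hsub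
    have hms : ∀ n ρ, ms (resc (x n) (1 / 2) (w n)) ρ = mb (w n) (x n) (1 / 2 * ρ) :=
      fun n ρ => ms_resc' (w n) (x n) (by norm_num) ρ
    -- lower and upper bounds
    have hlow : ∀ ρ, 0 < ρ → ∀ᶠ n in (U : Filter ℕ), ms (w n) (ρ / 4) ≤ mb (w n) (x n) (1 / 2 * ρ) := by
      intro ρ hρ
      filter_upwards [hxsmall (ρ / 4) (by positivity)] with n hn
      apply mb_mono (hwc n)
      apply ball_subset_ball'
      rw [dist_comm, dist_zero_right]
      linarith
    have hup : ∀ᶠ n in (U : Filter ℕ), mb (w n) (x n) (1 / 2 * 1) ≤ ms (w n) 1 := by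
      filter_upwards [hsub] with n hn
      exact mb_mono (hwc n) hn
    have hlimρ : ∀ ρ, 0 < ρ → ρ ≤ 1 → Tendsto (fun n => mb (w n) (x n) (1 / 2 * ρ)) U (𝓝 m) := by
      intro ρ hρ hρ1
      have l1 : Tendsto (fun n => ms (w n) (ρ / 4)) U (𝓝 m) := by
        have := hm.sub (hconc (ρ / 4) (by positivity) (by linarith))
        simpa using this
      apply tendsto_of_tendsto_of_tendsto_of_le_of_le' l1 hm (hlow ρ hρ)
      filter_upwards [hup] with n hn
      refine le_trans (mb_mono (hwc n) (ball_subset_ball ?_)) hn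
      linarith
    have hm' : Tendsto (fun n => ms (resc (x n) (1 / 2) (w n)) 1) U (𝓝 m) := by
      refine (hlimρ 1 one_pos le_rfl).congr (fun n => ?_)
      rw [hms]
    have hconc' : ∀ ρ, 0 < ρ → ρ ≤ 1 → Tendsto (fun n => ms (resc (x n) (1 / 2) (w n)) 1
        - ms (resc (x n) (1 / 2) (w n)) ρ) U (𝓝 0) := by
      intro ρ hρ hρ1
      have := (hlimρ 1 one_pos le_rfl).sub (hlimρ ρ hρ hρ1)
      rw [sub_self] at this
      refine this.congr (fun n => ?_)
      rw [hms, hms]
    have hGP : GP U (fun n => resc (x n) (1 / 2) (w n)) 1 := by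
      refine ⟨fun n => 2 * s n, fun n => by have := hs n; positivity, ?_, ?_⟩
      · have := hs0.const_mul 2
        simpa using this
      · intro δ hδ
        obtain ⟨S0, hS0, hS⟩ := hbub δ hδ
        refine ⟨S0, hS0, fun S hSS => ?_⟩
        filter_upwards [hS S hSS] with n hn
        rw [hms, show (1 : ℝ) / 2 * (2 * s n * S) = s n * S by ring]
        simpa using hn
    have hwc' : ∀ n, Continuous (resc (x n) (1 / 2) (w n)) := fun n => (hres.smooth n).continuous
    obtain ⟨k, hk1, hkP, hkmax⟩ := exists_max_nat (P := GP U (fun n => resc (x n) (1 / 2) (w n)))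
      (B := ⌊m / (8 * Real.pi)⌋₊) (fun k hk => by
        apply Nat.le_floor
        rw [le_div_iff₀ (by positivity)]
        have := GP_le hwc' hm' hk
        linarith) hGP
    exact LQ_step hU ih hres hconc' hm' hmN hk1 hkP hkmax

end Pool.Agent.Helper41.PS
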