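import Pool.Agent.Helper41.PS.Glob1
import Pool.Agent.Helper41.PS.LQ2

/-!
# Quantisation on the surface, part 2: atoms and total mass
-/

open MeasureTheory Set Manifold Bundle Filter Topology
open scoped ContDiff ENNReal

set_option linter.unusedSectionVars false

namespace Pool.Agent.Helper41.PS

section Glob

variable {M : Type*} [TopologicalSpace M] [T2Space M] [CompactSpace M] [ChartedSpace E2 M]
  [IsManifold (𝓡 2) ∞ M] [RiemannianBundle (fun x : M => TangentSpace (𝓡 2) x)]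
  [IsContMDiffRiemannianBundle (𝓡 2) ∞ E2 (fun x : M => TangentSpace (𝓡 2) x)]
  [MeasurableSpace M] [BorelSpace M] {vol : Measure M} [IsProbabilityMeasure vol]

variable {h : M → ℝ} {lam : ℝ} {U : Ultrafilter ℕ} {u : ℕ → M → ℝ} {ε t : ℕ → ℝ} {G : ℝ}

/-- Quantisation at an isolated atom. -/
theorem GS.atom (hU : (U : Filter ℕ) ≤ atTop) (hg : GS vol h lam U u ε t G)
    (hh : ContMDiff (𝓡 2) 𝓘(ℝ, ℝ) ∞ h)
    (hpos : ∀ x, 0 < h x) (hlam : 0 < lam) {x0 : M} (p : Param vol x0) {V : Set M} (hV : IsOpen V)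
    (hxV : x0 ∈ V) (hz : ∀ x ∈ V, x ≠ x0 → ∃ V' : Set M, IsOpen V' ∧ x ∈ V' ∧
      LL U (fun n => muM vol h lam (u n)) V' = 0) :
    ∃ W : Set M, IsOpen W ∧ x0 ∈ W ∧ W ⊆ V ∧
      ∃ k : ℕ, LL U (fun n => muM vol h lam (u n)) W = 8 * Real.pi * k := by
  have hδ := p.δ_pos
  have hhc := hh.continuous
  have huc : ∀ n, Continuous (u n) := fun n => (hg.smooth n).continuous
  set μ : ℕ → Measure M := fun n => muM vol h lam (u n) with hμ
  have hΛ : ∀ n, (μ n) univ ≤ ENNReal.ofReal lam := fun n =>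
    (muM_univ hhc hpos hlam (huc n) (hg.mass n)).le
  obtain ⟨B, ρ0, K, ηf, hB, hρ0, hρ01, hρ0δ, hK, hη0, hηlim, hAdm, hMB, hosc, hgrd⟩ :=
    hg.local_package hh hpos hlam p
  have hPc : ContinuousAt p.P 0 := p.cont_P.continuousAt (Metric.ball_mem_nhds 0 hδ)
  have hPV : ∀ᶠ y in 𝓝 (0 : E2), p.P y ∈ V := hPc (by rw [p.P_zero]; exact hV.mem_nhds hxV)
  obtain ⟨r1, hr1, hr1V⟩ := Metric.eventually_nhds_iff_ball.mp hPV
  set ρ1 := min (r1 / 2) (ρ0 / 2) with hρ1
  have hρ1pos : 0 < ρ1 := by positivity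
  have hρ1r : ρ1 < r1 := lt_of_le_of_lt (min_le_left _ _) (by linarith)
  have hρ1ρ : ρ1 < ρ0 := lt_of_le_of_lt (min_le_right _ _) (by linarith)
  have hρ1δ : ρ1 < p.δ / 2 := by linarith
  have hcb : Metric.closedBall (0 : E2) ρ1 ⊆ Metric.ball 0 p.δ :=
    Metric.closedBall_subset_ball (by linarith)
  have hcbV : ∀ y ∈ Metric.closedBall (0 : E2) ρ1, p.P y ∈ V := fun y hy =>
    hr1V y (Metric.closedBall_subset_ball hρ1r hy)
  set W : ℕ → E2 → ℝ := fun n => Wf p h lam (u n) with hW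
  have hWs : ∀ n, ContDiff ℝ ∞ (W n) := fun n => Wf_smooth p hh hpos hlam (hg.smooth n)
  have hreal : ∀ r, r ≤ p.δ / 2 → Tendsto (fun n => ms (W n) r) U
      (𝓝 (LL U μ (p.P '' Metric.ball 0 r))) := by
    intro r hr
    refine (LL_tendsto hΛ hlam.le (p.P '' Metric.ball 0 r)).congr (fun n => ?_)
    exact muM_ball p hhc hpos hlam (huc n) hr
  set m := LL U μ (p.P '' Metric.ball 0 ρ1) with hm
  -- the limit mass does not depend on the radius
  have hconst : ∀ ρ, 0 < ρ → ρ ≤ ρ1 → LL U μ (p.P '' Metric.ball 0 ρ) = m := by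
    intro ρ hρ hρle
    apply le_antisymm (LL_mono hΛ hlam.le (image_mono (Metric.ball_subset_ball hρle)))
    set Cc := p.P '' (Metric.closedBall (0 : E2) ρ1 \ Metric.ball 0 ρ) with hCc
    have hCcomp : IsCompact Cc :=
      ((isCompact_closedBall (0 : E2) ρ1).diff Metric.isOpen_ball).image_of_continuousOn
        (p.cont_P.mono (diff_subset.trans hcb))
    obtain ⟨V2, _, hV22, hV23⟩ := LL_compact_zero hΛ (U := U) hlam.le hCcomp (fun x hx => by
      obtain ⟨y, hy, rfl⟩ := hx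
      apply hz _ (hcbV y hy.1)
      intro heq
      have h0 := p.inj_P (hcb hy.1) (Metric.mem_ball_self hδ) (heq.trans p.P_zero.symm)
      rw [h0] at hy
      exact hy.2 (Metric.mem_ball_self hρ))
    have h2 : p.P '' Metric.ball 0 ρ1 ⊆ p.P '' Metric.ball 0 ρ ∪ V2 := by
      rintro _ ⟨y, hy, rfl⟩
      by_cases hy2 : y ∈ Metric.ball (0 : E2) ρ
      · exact Or.inl ⟨y, hy2, rfl⟩
      · exact Or.inr (hV22 ⟨y, ⟨Metric.ball_subset_closedBall hy, hy2⟩, rfl⟩)
    calc m ≤ LL U μ (p.P '' Metric.ball 0 ρ ∪ V2) := LL_mono hΛ hlam.le h2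
      _ ≤ _ := LL_union_le hΛ hlam.le _ _
      _ = _ := by rw [hV23, add_zero]
  have hlimm : ∀ ρ, 0 < ρ → ρ ≤ ρ1 → Tendsto (fun n => ms (W n) ρ) U (𝓝 m) := by
    intro ρ hρ hρle
    have := hreal ρ (by linarith)
    rwa [hconst ρ hρ hρle] at this
  -- the diagonal sequence of radii
  have hj1 : ∀ j : ℕ, (1 : ℝ) ≤ (j : ℝ) + 1 := fun j => by
    have : (0 : ℝ) ≤ (j : ℝ) := Nat.cast_nonneg j
    linarith
  obtain ⟨J, hJ, hJQ⟩ := exists_diag hU (Q := fun n j =>
      |ms (W n) (ρ1 / ((j : ℝ) + 1) ^ 2) - m| ≤ 1 / ((j : ℝ) + 1) ∧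
      |ms (W n) (ρ1 / ((j : ℝ) + 1)) - m| ≤ 1 / ((j : ℝ) + 1)) (by
    intro j
    have h1 := hj1 j
    have hpos1 : (0 : ℝ) < 1 / ((j : ℝ) + 1) := by positivity
    have a1 := hlimm (ρ1 / ((j : ℝ) + 1) ^ 2) (by positivity)
      (div_le_self hρ1pos.le (one_le_pow₀ h1))
    have a2 := hlimm (ρ1 / ((j : ℝ) + 1)) (by positivity) (div_le_self hρ1pos.le h1)
    have b1 := a1.eventually (Metric.closedBall_mem_nhds m hpos1)
    have b2 := a2.eventually (Metric.closedBall_mem_nhds m hpos1)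
    filter_upwards [b1, b2] with n h1 h2
    rw [← Real.dist_eq, ← Real.dist_eq]
    exact ⟨h1, h2⟩)
  set s : ℕ → ℝ := fun n => ρ1 / ((J n : ℝ) + 1) with hs
  have hs0 : ∀ n, 0 < s n := fun n => by
    have := hj1 (J n)
    positivity
  have hs1 : ∀ n, s n ≤ ρ1 := fun n => div_le_self hρ1pos.le (hj1 (J n))
  have hinv : Tendsto (fun n => 1 / ((J n : ℝ) + 1)) U (𝓝 0) :=
    (tendsto_one_div_add_atTop_nhds_zero_nat (𝕜 := ℝ)).comp hJ
  have hslim : Tendsto s U (𝓝 0) := by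
    have := hinv.const_mul ρ1
    rw [mul_zero] at this
    refine this.congr (fun n => ?_)
    rw [hs]
    simp only
    ring
  have hslim' : Tendsto s U (𝓝[>] 0) :=
    tendsto_nhdsWithin_iff.mpr ⟨hslim, Eventually.of_forall hs0⟩
  have hres : ∀ n ρ, ms (resc 0 (s n) (W n)) ρ = ms (W n) (s n * ρ) := fun n ρ => by
    rw [ms_resc' (W n) 0 (hs0 n), mb_zero]
  have hsq : Sq U (fun n y => af p (0 + s n • y)) (fun n => resc 0 (s n) (W n)) (fun n => ηf (s n))
      (fun n => B * (ε n + s n)) lam K (fun _ => 1) := by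
    refine ⟨?_, ?_, fun n => hη0 _, fun n => mul_nonneg hB.le (add_nonneg (hg.ε_nonneg n) (hs0 n).le),
      hηlim.comp hslim', ?_, ?_, hK⟩
    · refine Eventually.of_forall (fun n => ?_)
      have h1 := hAdm n (s n) (hs0 n) (by linarith [hs1 n])
      exact h1.resc 0 (hs0 n) (R' := 1) (by rw [mul_one])
    · intro n
      exact resc_contDiff 0 (s n) (n := ⊤) (hWs n)
    · have := (hg.ε_lim.add hslim).const_mul B
      rwa [add_zero, mul_zero] at this
    · filter_upwards [hMB] with n hn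
      exact hn.resc ((hWs n).of_le (by norm_cast)) (hs0 n)
        (Metric.ball_subset_ball (by linarith [hs1 n]))
  have hconv : ∀ ρ, 0 < ρ → ρ ≤ 1 → Tendsto (fun n => ms (resc 0 (s n) (W n)) ρ) U (𝓝 m) := by
    intro ρ hρ hρ1'
    have hlow : ∀ᶠ n in (U : Filter ℕ), m - 1 / ((J n : ℝ) + 1) ≤ ms (resc 0 (s n) (W n)) ρ := by
      filter_upwards [hJQ, hinv.eventually (gt_mem_nhds hρ)] with n hn hn2
      rw [hres n ρ]
      have h1 := (abs_le.mp hn.1).1
      have h2 : ms (W n) (ρ1 / ((J n : ℝ) + 1) ^ 2) ≤ ms (W n) (s n * ρ) := by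
        rw [← mb_zero, ← mb_zero]
        apply mb_mono (hWs n).continuous
        apply Metric.ball_subset_ball
        have h3 := hj1 (J n)
        calc ρ1 / ((J n : ℝ) + 1) ^ 2 = s n * (1 / ((J n : ℝ) + 1)) := by
              rw [hs]
              field_simp
          _ ≤ s n * ρ := mul_le_mul_of_nonneg_left hn2.le (hs0 n).le
      linarith
    have hup : ∀ᶠ n in (U : Filter ℕ), ms (resc 0 (s n) (W n)) ρ ≤ m + 1 / ((J n : ℝ) + 1) := by
      filter_upwards [hJQ] with n hn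
      rw [hres n ρ]
      have h1 := (abs_le.mp hn.2).2
      have h2 : ms (W n) (s n * ρ) ≤ ms (W n) (ρ1 / ((J n : ℝ) + 1)) := by
        rw [← mb_zero, ← mb_zero]
        apply mb_mono (hWs n).continuous
        apply Metric.ball_subset_ball
        exact mul_le_of_le_one_right (hs0 n).le hρ1'
      linarith
    have l1 : Tendsto (fun n => m - 1 / ((J n : ℝ) + 1)) U (𝓝 m) := by
      have := hinv.const_sub m
      rwa [sub_zero] at this
    have l2 : Tendsto (fun n => m + 1 / ((J n : ℝ) + 1)) U (𝓝 m) := by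
      have := hinv.const_add m
      rwa [add_zero] at this
    exact tendsto_of_tendsto_of_tendsto_of_le_of_le' l1 l2 hlow hup
  have hpi := Real.pi_pos
  obtain ⟨N, hN⟩ := exists_nat_gt (m / (8 * Real.pi))
  have hmN : m < 8 * Real.pi * N := by
    rw [div_lt_iff₀ (by positivity)] at hN
    linarith
  have hq := LQ hU N _ _ _ _ lam K hsq (fun ρ hρ hρ1' => by
    have := (hconv 1 one_pos le_rfl).sub (hconv ρ hρ hρ1')
    rwa [sub_self] at this) m (hconv 1 one_pos le_rfl) hmN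
  have hsub : Metric.ball (0 : E2) ρ1 ⊆ Metric.ball 0 p.δ := Metric.ball_subset_ball (by linarith)
  refine ⟨p.P '' Metric.ball 0 ρ1, p.open_P _ hsub Metric.isOpen_ball,
    ⟨0, Metric.mem_ball_self hρ1pos, p.P_zero⟩, ?_, hq⟩
  rintro _ ⟨y, hy, rfl⟩
  exact hcbV y (Metric.ball_subset_closedBall hy)

/-- Quantisation of the total mass. -/
theorem GS.quant (hvol : IsRiemannianVolume vol) (hU : (U : Filter ℕ) ≤ atTop)
    (hg : GS vol h lam U u ε t G) (hh : ContMDiff (𝓡 2) 𝓘(ℝ, ℝ) ∞ h)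
    (hpos : ∀ x, 0 < h x) (hlam : 0 < lam) : ∃ k : ℕ, lam = 8 * Real.pi * k := by
  classical
  have hhc := hh.continuous
  have huc : ∀ n, Continuous (u n) := fun n => (hg.smooth n).continuous
  set μ : ℕ → Measure M := fun n => muM vol h lam (u n) with hμ
  have hΛ : ∀ n, (μ n) univ ≤ ENNReal.ofReal lam := fun n =>
    (muM_univ hhc hpos hlam (huc n) (hg.mass n)).le
  have hp : ∀ x : M, Nonempty (Param vol x) := fun x => Helper75.PS.exists_param vol hvol x
  set p : ∀ x : M, Param vol x := fun x => (hp x).some with hpdef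
  obtain ⟨e0, he0, hzd⟩ := exists_zero_density
  have hdich : ∀ x : M, (∀ V, IsOpen V → x ∈ V → e0 ≤ LL U μ V) ∨ ∃ V, IsOpen V ∧ x ∈ V ∧ LL U μ V = 0 := by
    intro x
    by_cases hc : ∀ V, IsOpen V → x ∈ V → e0 ≤ LL U μ V
    · exact Or.inl hc
    · right
      push Not at hc
      obtain ⟨V, hV1, hV2, hV3⟩ := hc
      exact hzd hg hh hpos hlam (p x) V hV1 hV2 hV3
  have hfin := atoms_finite hΛ (U := U) hlam.le he0
  obtain ⟨Vs, hVs1, hVs2⟩ := hfin.t2_separation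
  set A : Finset M := hfin.toFinset with hA
  have hAmem : ∀ x, x ∈ A ↔ ∀ V, IsOpen V → x ∈ V → e0 ≤ LL U μ V := by
    intro x
    rw [hA, Set.Finite.mem_toFinset]
    rfl
  have hzero : ∀ x, x ∉ A → ∃ V, IsOpen V ∧ x ∈ V ∧ LL U μ V = 0 := by
    intro x hx
    rcases hdich x with h1 | h1
    · exact absurd ((hAmem x).mpr h1) hx
    · exact h1
  have hatom : ∀ x ∈ A, ∃ W : Set M, IsOpen W ∧ x ∈ W ∧ W ⊆ Vs x ∧ ∃ k : ℕ, LL U μ W = 8 * Real.pi * k := by
    intro x hxA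
    apply hg.atom hU hh hpos hlam (p x) (hVs1 x).2 (hVs1 x).1
    intro y hyV hyx
    apply hzero
    intro hyA
    have hd := hVs2 ((hAmem y).mp hyA) ((hAmem x).mp hxA) hyx
    exact Set.disjoint_left.mp hd (hVs1 y).1 hyV
  choose! W hW using hatom
  have hdisj : (A : Set M).PairwiseDisjoint W := by
    intro x hxA y hyA hxy
    exact (hVs2 ((hAmem x).mp hxA) ((hAmem y).mp hyA) hxy).mono (hW x hxA).2.2.1 (hW y hyA).2.2.1
  choose! k hk using fun x hx => (hW x hx).2.2.2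
  have hWo : ∀ x ∈ A, IsOpen (W x) := fun x hx => (hW x hx).1
  have hUo : IsOpen (⋃ x ∈ A, W x) := isOpen_biUnion hWo
  refine ⟨∑ x ∈ A, k x, ?_⟩
  have h1 : LL U μ (⋃ x ∈ A, W x) = 8 * Real.pi * (∑ x ∈ A, k x : ℕ) := by
    rw [LL_sum_eq hΛ hlam.le A W hWo hdisj, Nat.cast_sum, Finset.mul_sum]
    exact Finset.sum_congr rfl (fun x hxA => hk x hxA)
  rw [← h1]
  have h2 : LL U μ univ = lam := by
    apply ulim_eq
    refine tendsto_const_nhds.congr (fun n => ?_)
    simp only [hμ]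
    rw [measureReal_def, muM_univ hhc hpos hlam (huc n) (hg.mass n), ENNReal.toReal_ofReal hlam.le]
  rw [← h2]
  apply le_antisymm _ (LL_mono hΛ hlam.le (subset_univ _))
  obtain ⟨V2, _, hV22, hV23⟩ := LL_compact_zero hΛ (U := U) hlam.le
    (C := (⋃ x ∈ A, W x)ᶜ) (hUo.isClosed_compl.isCompact) (fun x hx => by
      apply hzero
      intro hxA
      exact hx (mem_iUnion₂.mpr ⟨x, hxA, (hW x hxA).2.1⟩))
  calc LL U μ univ ≤ LL U μ ((⋃ x ∈ A, W x) ∪ V2) := by
        apply LL_mono hΛ hlam.le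
        intro x _
        by_cases hx : x ∈ ⋃ x ∈ A, W x
        · exact Or.inl hx
        · exact Or.inr (hV22 hx)
    _ ≤ _ := LL_union_le hΛ hlam.le _ _
    _ = _ := by rw [hV23, add_zero]

end Glob

end Pool.Agent.Helper41.PS
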