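import Pool.Agent.Helper41.PS.Defs

/-!
# Gradients and integration by parts in the plane
-/

open MeasureTheory Set Filter Topology Metric
open scoped ContDiff ENNReal NNReal

namespace Pool.Agent.Helper41.PS

lemma norm_grad (f : E2 → ℝ) (x : E2) : ‖gradient f x‖ = ‖fderiv ℝ f x‖ := by
  rw [gradient]
  exact (InnerProductSpace.toDual ℝ E2).symm.norm_map _

lemma continuous_grad {f : E2 → ℝ} (hf : ContDiff ℝ 1 f) : Continuous (gradient f) := by
  have : Continuous (fun z => fderiv ℝ f z) := hf.continuous_fderiv (by simp)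
  exact (InnerProductSpace.toDual ℝ E2).symm.continuous.comp this

lemma grad_add {f g : E2 → ℝ} {x : E2} (hf : DifferentiableAt ℝ f x)
    (hg : DifferentiableAt ℝ g x) :
    gradient (fun x => f x + g x) x = gradient f x + gradient g x := by
  rw [gradient, gradient, gradient, ← map_add, fderiv_fun_add hf hg]

lemma grad_sub {f g : E2 → ℝ} {x : E2} (hf : DifferentiableAt ℝ f x)
    (hg : DifferentiableAt ℝ g x) :
    gradient (fun x => f x - g x) x = gradient f x - gradient g x := by
  rw [gradient, gradient, gradient, ← map_sub, fderiv_fun_sub hf hg]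

lemma grad_neg (f : E2 → ℝ) (x : E2) :
    gradient (fun x => - f x) x = - gradient f x := by
  rw [gradient, gradient, ← map_neg, fderiv_fun_neg]

lemma grad_add_const (f : E2 → ℝ) (c : ℝ) (x : E2) :
    gradient (fun x => f x + c) x = gradient f x := by
  rw [gradient, gradient, fderiv_add_const]

lemma grad_sub_const (f : E2 → ℝ) (c : ℝ) (x : E2) :
    gradient (fun x => f x - c) x = gradient f x := by
  rw [gradient, gradient, fderiv_sub_const]

lemma grad_const (c : ℝ) (x : E2) : gradient (fun _ : E2 => c) x = 0 := by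
  rw [gradient, fderiv_fun_const]
  simp

lemma toDual_symm_smul (c : ℝ) (l : StrongDual ℝ E2) :
    (InnerProductSpace.toDual ℝ E2).symm (c • l) = c • (InnerProductSpace.toDual ℝ E2).symm l := by
  rw [map_smulₛₗ]
  simp

lemma grad_mul {f g : E2 → ℝ} {x : E2} (hf : DifferentiableAt ℝ f x)
    (hg : DifferentiableAt ℝ g x) :
    gradient (fun x => f x * g x) x = f x • gradient g x + g x • gradient f x := by
  rw [gradient, gradient, gradient, ← toDual_symm_smul, ← toDual_symm_smul, ← map_add,
    fderiv_fun_mul hf hg]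

lemma grad_const_mul {f : E2 → ℝ} {x : E2} (hf : DifferentiableAt ℝ f x) (c : ℝ) :
    gradient (fun x => c * f x) x = c • gradient f x := by
  rw [gradient, gradient, ← toDual_symm_smul, fderiv_const_mul hf]

lemma grad_comp {f : E2 → ℝ} {T : ℝ → ℝ} {x : E2} (hf : DifferentiableAt ℝ f x) {T' : ℝ}
    (hT : HasDerivAt T T' (f x)) :
    gradient (fun x => T (f x)) x = T' • gradient f x := by
  rw [gradient, gradient, ← toDual_symm_smul]
  congr 1
  exact (hT.comp_hasFDerivAt x hf.hasFDerivAt).fderiv

lemma grad_affine {f : E2 → ℝ} (x0 : E2) (s : ℝ) (y : E2) (hf : DifferentiableAt ℝ f (x0 + s • y)) :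
    gradient (fun y => f (x0 + s • y)) y = s • gradient f (x0 + s • y) := by
  rw [gradient, gradient, ← toDual_symm_smul]
  congr 1
  have h1 : HasFDerivAt (fun y : E2 => x0 + s • y) (s • ContinuousLinearMap.id ℝ E2) y := by
    have := ((hasFDerivAt_id (𝕜 := ℝ) y).const_smul s).const_add x0
    simpa using this
  have h2 := (hf.hasFDerivAt.comp y h1).fderiv
  have h3 : (f ∘ fun y => x0 + s • y) = fun y => f (x0 + s • y) := rfl
  rw [h3] at h2
  rw [h2]
  ext v
  simp

lemma grad_apply (f : E2 → ℝ) (x : E2) (i : Fin 2) :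
    (gradient f x) i = fderiv ℝ f x (EuclideanSpace.single i 1) := by
  rw [← inner_gradient_left]
  rw [EuclideanSpace.inner_single_right]
  simp

lemma inner_E2 (x y : E2) : inner ℝ x y = x 0 * y 0 + x 1 * y 1 := by
  rw [PiLp.inner_apply]
  simp [mul_comm]

lemma integrable_cc {f : E2 → ℝ} (hf : Continuous f) (hs : HasCompactSupport f) : Integrable f :=
  hf.integrable_of_hasCompactSupport hs

/-- Integration by parts, one coordinate direction. -/
lemma ibp_dir {f g : E2 → ℝ} (hf : ContDiff ℝ 1 f) (hg : ContDiff ℝ 1 g) (hs : HasCompactSupport g)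
    (e : E2) : ∫ x, fderiv ℝ f x e * g x = - ∫ x, f x * fderiv ℝ g x e := by
  have c1 : Continuous (fun z => fderiv ℝ f z e) := (hf.continuous_fderiv (by simp)).clm_apply continuous_const
  have c2 : Continuous (fun z => fderiv ℝ g z e) := (hg.continuous_fderiv (by simp)).clm_apply continuous_const
  have s2 : HasCompactSupport (fun z => fderiv ℝ g z e) := hs.fderiv_apply (𝕜 := ℝ) e
  rw [integral_mul_fderiv_eq_neg_fderiv_mul_of_integrable (f := f) (g := g) (v := e)]
  · ring
  · exact integrable_cc (c1.mul hg.continuous) hs.mul_left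
  · exact integrable_cc (hf.continuous.mul c2) s2.mul_left
  · exact integrable_cc (hf.continuous.mul hg.continuous) hs.mul_left
  · exact fun x _ => hf.differentiable (by simp) x
  · exact fun x _ => hg.differentiable (by simp) x

/-- For a fixed test function `ψ`, the Dirichlet pairing with `ψ` is controlled by the `L¹` norm. -/
lemma exists_ibp_bound {ψ : E2 → ℝ} (hψ : ContDiff ℝ ∞ ψ) (hs : HasCompactSupport ψ) {x0 : E2} {R : ℝ}
    (hsub : tsupport ψ ⊆ ball x0 R) :
    ∃ L : ℝ, 0 ≤ L ∧ ∀ S : E2 → ℝ, ContDiff ℝ 1 S →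
      |∫ x, inner ℝ (gradient S x) (gradient ψ x)| ≤ L * ∫ x in ball x0 R, |S x| := by
  set d : Fin 2 → E2 → ℝ := fun i x => fderiv ℝ ψ x (EuclideanSpace.single i 1) with hd
  have hdc : ∀ i, ContDiff ℝ 1 (d i) := by
    intro i
    have h1 : ContDiff ℝ 1 (fun x => fderiv ℝ ψ x) := hψ.fderiv_right (by norm_cast)
    exact h1.clm_apply contDiff_const
  have hds : ∀ i, HasCompactSupport (d i) := fun i => hs.fderiv_apply (𝕜 := ℝ) _
  have hdsub : ∀ i, tsupport (d i) ⊆ tsupport ψ := fun i => tsupport_fderiv_apply_subset ℝ _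
  set dd : Fin 2 → E2 → ℝ := fun i x => fderiv ℝ (d i) x (EuclideanSpace.single i 1) with hdd
  have hddc : ∀ i, Continuous (dd i) := fun i =>
    ((hdc i).continuous_fderiv (by simp)).clm_apply continuous_const
  have hdds : ∀ i, HasCompactSupport (dd i) := fun i => (hds i).fderiv_apply (𝕜 := ℝ) _
  have hddsub : ∀ i, tsupport (dd i) ⊆ ball x0 R := fun i =>
    (tsupport_fderiv_apply_subset ℝ _).trans ((hdsub i).trans hsub)
  have hbd : ∀ i, ∃ C, ∀ x, ‖dd i x‖ ≤ C := fun i =>
    (hdds i).exists_bound_of_continuous (hddc i)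
  choose C hC using hbd
  refine ⟨|C 0| + |C 1|, by positivity, fun S hS => ?_⟩
  have c1 : ∀ i : Fin 2, Continuous (fun z => fderiv ℝ S z (EuclideanSpace.single i 1)) := fun i =>
    (hS.continuous_fderiv (by simp)).clm_apply continuous_const
  have e1 : ∫ x, inner ℝ (gradient S x) (gradient ψ x)
      = ∑ i : Fin 2, ∫ x, fderiv ℝ S x (EuclideanSpace.single i 1) * d i x := by
    rw [← integral_finsetSum]
    · refine integral_congr_ae (Eventually.of_forall (fun x => ?_))
      simp only [Fin.sum_univ_two]
      rw [inner_E2, grad_apply, grad_apply, grad_apply, grad_apply]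
    · intro i _
      exact integrable_cc ((c1 i).mul (hdc i).continuous) (hds i).mul_left
  have e2 : ∀ i : Fin 2, |∫ x, fderiv ℝ S x (EuclideanSpace.single i 1) * d i x|
      ≤ |C i| * ∫ x in ball x0 R, |S x| := by
    intro i
    rw [ibp_dir hS (hdc i) (hds i), abs_neg]
    have e3 : ∫ x, S x * fderiv ℝ (d i) x (EuclideanSpace.single i 1) = ∫ x in ball x0 R, S x * dd i x := by
      rw [← integral_indicator measurableSet_ball]
      refine integral_congr_ae (Eventually.of_forall (fun x => ?_))
      by_cases hx : x ∈ ball x0 R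
      · rw [indicator_of_mem hx]
      · rw [indicator_of_notMem hx]
        have : dd i x = 0 := image_eq_zero_of_notMem_tsupport (fun h => hx (hddsub i h))
        simp only
        rw [show fderiv ℝ (d i) x (EuclideanSpace.single i 1) = dd i x from rfl, this, mul_zero]
    rw [e3]
    have hint : IntegrableOn (fun x => |C i| * |S x|) (ball x0 R) := by
      have hc : Continuous (fun x => |C i| * |S x|) := by
        have := hS.continuous
        fun_prop
      exact (hc.continuousOn.integrableOn_compact (isCompact_closedBall x0 R)).mono_set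
        ball_subset_closedBall
    calc |∫ x in ball x0 R, S x * dd i x| ≤ ∫ x in ball x0 R, |C i| * |S x| := by
          rw [← Real.norm_eq_abs]
          refine norm_integral_le_of_norm_le hint (Eventually.of_forall (fun x => ?_))
          rw [norm_mul, Real.norm_eq_abs, mul_comm]
          exact mul_le_mul_of_nonneg_right ((hC i x).trans (le_abs_self _)) (abs_nonneg _)
      _ = |C i| * ∫ x in ball x0 R, |S x| := integral_const_mul _ _
  rw [e1, Fin.sum_univ_two]
  calc _ ≤ |∫ x, fderiv ℝ S x (EuclideanSpace.single 0 1) * d 0 x|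
        + |∫ x, fderiv ℝ S x (EuclideanSpace.single 1 1) * d 1 x| := abs_add_le _ _
    _ ≤ |C 0| * (∫ x in ball x0 R, |S x|) + |C 1| * ∫ x in ball x0 R, |S x| := add_le_add (e2 0) (e2 1)
    _ = _ := by ring

end Pool.Agent.Helper41.PS
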