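import Pool.Agent.Helper41.PS.TwoSided

/-!
# The gradient is controlled by the oscillation (unit scale)
-/

open MeasureTheory Set Filter Topology Metric
open scoped ContDiff ENNReal NNReal

namespace Pool.Agent.Helper41.PS

/-- A primitive of `TT s k` vanishing at `c`. -/
noncomputable def FF (s k c t : ℝ) : ℝ := ∫ u in c..t, TT s k u

lemma FF_hasDerivAt (s k c t : ℝ) : HasDerivAt (FF s k c) (TT s k t) t :=
  intervalIntegral.integral_hasDerivAt_right ((TT_contDiff s k).continuous.intervalIntegrable _ _)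
    ((TT_contDiff s k).continuous.stronglyMeasurableAtFilter _ _)
    (TT_contDiff s k).continuous.continuousAt

lemma FF_contDiff (s k c : ℝ) : ContDiff ℝ 1 (FF s k c) := by
  rw [contDiff_one_iff_deriv]
  refine ⟨fun t => (FF_hasDerivAt s k c t).differentiableAt, ?_⟩
  have : deriv (FF s k c) = TT s k := by
    ext t
    exact (FF_hasDerivAt s k c t).deriv
  rw [this]
  exact (TT_contDiff s k).continuous

lemma FF_bound (s k c t : ℝ) : |FF s k c t| ≤ Real.pi * |t - c| := by
  have := intervalIntegral.norm_integral_le_of_norm_le_const (f := TT s k) (a := c) (b := t)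
    (C := Real.pi) (fun u _ => by
      rw [Real.norm_of_nonneg (TT_nonneg s k u)]
      exact TT_le s k u)
  exact this

/-- Bound for the cutoff term of `X_bound` by oscillation. -/
lemma Tterm_bound {a : E2 → E2 →L[ℝ] E2} {w : E2 → ℝ} {η ε Λ : ℝ} {x0 : E2} {R : ℝ}
    (h : Adm a w η ε Λ x0 R) {ψ : E2 → ℝ} (hψ : ContDiff ℝ ∞ ψ)
    (hs : HasCompactSupport ψ) (hsub : tsupport ψ ⊆ ball x0 R) {L : ℝ}
    (hL : 0 ≤ L) (hibp : ∀ S : E2 → ℝ, ContDiff ℝ 1 S →
      |∫ x, inner ℝ (gradient S x) (gradient ψ x)| ≤ L * ∫ x in ball x0 R, |S x|)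
    {G : ℝ} (hG : ∀ x, ‖gradient ψ x‖ ≤ G) (s k c : ℝ) :
    |∫ x, TT s k (w x) * inner ℝ (a x (gradient w x)) (gradient ψ x)|
      ≤ Real.pi * L * (∫ x in ball x0 R, |w x - c|) + Real.pi * G * (η * ∫ x in ball x0 R, ‖fderiv ℝ w x‖) := by
  have hpi := Real.pi_pos
  have hw := h.smooth
  have hwc := hw.continuous
  have hgw := smooth_grad_cont hw
  have hgψ := smooth_grad_cont hψ
  have hac := h.a_cont
  have hsg := hasCompactSupport_grad hs
  have hTc : Continuous (fun x => TT s k (w x)) := (TT_contDiff s k).continuous.comp hwc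
  have hG0 : 0 ≤ G := (norm_nonneg _).trans (hG 0)
  have haw : Continuous (fun x => a x (gradient w x)) := hac.clm_apply hgw
  have hcs : ∀ F : E2 → E2, HasCompactSupport (fun x => inner ℝ (F x) (gradient ψ x)) := by
    intro F
    apply hsg.mono'
    intro x hx
    apply subset_tsupport
    rw [Function.mem_support] at hx ⊢
    intro h
    apply hx
    rw [h, inner_zero_right]
  have I2 : Integrable (fun x => TT s k (w x) * inner ℝ (a x (gradient w x)) (gradient ψ x)) :=
    integrable_cc (hTc.mul (haw.inner hgψ)) (hcs _).mul_left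
  have I3 : Integrable (fun x => TT s k (w x) * inner ℝ (gradient w x) (gradient ψ x)) :=
    integrable_cc (hTc.mul (hgw.inner hgψ)) (hcs _).mul_left
  -- flat part
  have e1 : |∫ x, TT s k (w x) * inner ℝ (gradient w x) (gradient ψ x)|
      ≤ Real.pi * L * ∫ x in ball x0 R, |w x - c| := by
    have hS : ContDiff ℝ 1 (fun x => FF s k c (w x)) := (FF_contDiff s k c).comp (hw.of_le (by norm_cast))
    have h1 := hibp _ hS
    have h2 : ∫ x, inner ℝ (gradient (fun x => FF s k c (w x)) x) (gradient ψ x)
        = ∫ x, TT s k (w x) * inner ℝ (gradient w x) (gradient ψ x) := by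
      refine integral_congr_ae (Eventually.of_forall (fun x => ?_))
      simp only
      rw [grad_comp (smooth_diff hw x) (FF_hasDerivAt s k c (w x)), inner_smul_left]
      simp
    rw [h2] at h1
    refine h1.trans ?_
    have h3 : ∫ x in ball x0 R, |FF s k c (w x)| ≤ ∫ x in ball x0 R, Real.pi * |w x - c| := by
      apply setIntegral_mono
      · exact intOn_ball hS.continuous.abs _ _
      · exact intOn_ball (by fun_prop) _ _
      · intro x
        exact FF_bound s k c (w x)
    rw [integral_const_mul] at h3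
    calc L * ∫ x in ball x0 R, |FF s k c (w x)| ≤ L * (Real.pi * ∫ x in ball x0 R, |w x - c|) :=
          mul_le_mul_of_nonneg_left h3 hL
      _ = _ := by ring
  -- perturbation
  have e2 : |∫ x, (TT s k (w x) * inner ℝ (a x (gradient w x)) (gradient ψ x)
      - TT s k (w x) * inner ℝ (gradient w x) (gradient ψ x))|
      ≤ Real.pi * G * (η * ∫ x in ball x0 R, ‖fderiv ℝ w x‖) := by
    have h1 : ∫ x, (TT s k (w x) * inner ℝ (a x (gradient w x)) (gradient ψ x)
      - TT s k (w x) * inner ℝ (gradient w x) (gradient ψ x)) = ∫ x in ball x0 R,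
        (TT s k (w x) * inner ℝ (a x (gradient w x)) (gradient ψ x)
      - TT s k (w x) * inner ℝ (gradient w x) (gradient ψ x)) := by
      rw [← integral_indicator measurableSet_ball]
      refine integral_congr_ae (Eventually.of_forall (fun x => ?_))
      by_cases hx : x ∈ ball x0 R
      · rw [indicator_of_mem hx]
      · rw [indicator_of_notMem hx]
        have : gradient ψ x = 0 :=
          image_eq_zero_of_notMem_tsupport (fun h => hx (hsub (tsupport_grad_subset ψ h)))
        simp [this]
    rw [h1]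
    have h2 : ∀ x ∈ ball x0 R, ‖TT s k (w x) * inner ℝ (a x (gradient w x)) (gradient ψ x)
      - TT s k (w x) * inner ℝ (gradient w x) (gradient ψ x)‖ ≤ Real.pi * G * η * ‖fderiv ℝ w x‖ := by
      intro x hx
      rw [← mul_sub, norm_mul, Real.norm_of_nonneg (TT_nonneg _ _ _), Real.norm_eq_abs]
      have h3 := near_id_inner (h.a_near x hx) (gradient w x) (gradient ψ x)
      have hη : 0 ≤ η := (norm_nonneg _).trans (h.a_near x hx)
      calc TT s k (w x) * |inner ℝ (a x (gradient w x)) (gradient ψ x) - inner ℝ (gradient w x) (gradient ψ x)|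
          ≤ Real.pi * (η * (‖gradient w x‖ * G)) := by
            apply mul_le_mul (TT_le _ _ _) _ (abs_nonneg _) hpi.le
            refine h3.trans ?_
            gcongr
            exact hG x
        _ = _ := by rw [norm_grad]; ring
    rw [← Real.norm_eq_abs]
    have hI : IntegrableOn (fun x => Real.pi * G * η * ‖fderiv ℝ w x‖) (ball x0 R) :=
      (intOn_grad (hw.of_le (by norm_cast)) x0 R).const_mul _
    refine (norm_integral_le_of_norm_le hI ?_).trans (le_of_eq ?_)
    · filter_upwards [ae_restrict_mem measurableSet_ball] with x hx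
      exact h2 x hx
    · rw [integral_const_mul]
      ring
  have e3 : ∫ x, TT s k (w x) * inner ℝ (a x (gradient w x)) (gradient ψ x)
      = (∫ x, (TT s k (w x) * inner ℝ (a x (gradient w x)) (gradient ψ x)
      - TT s k (w x) * inner ℝ (gradient w x) (gradient ψ x)))
        + ∫ x, TT s k (w x) * inner ℝ (gradient w x) (gradient ψ x) := by
    rw [integral_sub I2 I3]
    ring
  rw [e3]
  refine (abs_add_le _ _).trans ?_
  linarith

theorem exists_grad_bound : ∃ C : ℝ, 0 < C ∧ ∀ (a : E2 → E2 →L[ℝ] E2) (w : E2 → ℝ) (η ε Λ : ℝ),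
    Adm a w η ε Λ 0 2 → 0 ≤ η → η ≤ 1 / 2 → 0 ≤ ε → ε ≤ 1 → ∀ c : ℝ,
    ∫ x in ball (0 : E2) 1, ‖fderiv ℝ w x‖
      ≤ C * (1 + Λ + (∫ x in ball (0 : E2) 2, |w x - c|)
        + η * ∫ x in ball (0 : E2) 2, ‖fderiv ℝ w x‖) := by
  have hpi := Real.pi_pos
  set ψ := cut 1 one_pos with hψdef
  obtain ⟨hψ, hs, hsub, h0, h1, hone⟩ := cut_facts (one_pos : (0 : ℝ) < 1)
  rw [mul_one] at hsub
  obtain ⟨L, hL, hibp⟩ := exists_ibp_bound hψ hs hsub
  obtain ⟨G, hG⟩ := (hasCompactSupport_grad hs).exists_bound_of_continuous (smooth_grad_cont hψ)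
  have hG0 : 0 ≤ G := (norm_nonneg _).trans (hG 0)
  set D := ∫ x, ‖gradient ψ x‖ ^ 2 with hD
  set CX := 4 * (Real.pi + 2 + 5 * √D + Real.pi * L + Real.pi * G) with hCX
  have hCX0 : 0 < CX := by positivity
  obtain ⟨G', q, p, hG', hq0, hq1, hp0, htwo⟩ := exists_two_sided (2 * CX) (by positivity) 1
  refine ⟨G' + 1, by positivity, fun a w η ε Λ h hη0 hη hε0 hε c => ?_⟩
  have hw := h.smooth
  have hwc := hw.continuous
  have hw1 : ContDiff ℝ 1 w := hw.of_le (by norm_cast)
  set O := ∫ x in ball (0 : E2) 2, |w x - c| with hO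
  set Γ := ∫ x in ball (0 : E2) 2, ‖fderiv ℝ w x‖ with hΓ
  have hO0 : 0 ≤ O := integral_nonneg (fun x => abs_nonneg _)
  have hΓ0 : 0 ≤ Γ := integral_nonneg (fun x => norm_nonneg _)
  have hΛ : 0 ≤ Λ := le_trans (integral_nonneg (fun x => (Real.exp_pos _).le)) h.mass
  set s := 1 + Λ + O + η * Γ with hsdef
  have hs1 : 1 ≤ s := by
    have : 0 ≤ η * Γ := by positivity
    linarith
  have hspos : 0 < s := by linarith
  have hmass : ∫ x, Real.exp (w x) * ψ x ≤ Λ := by
    refine le_trans ?_ h.mass
    rw [← integral_indicator measurableSet_ball]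
    apply integral_mono
    · exact integrable_cc (by fun_prop) hs.mul_left
    · rw [integrable_indicator_iff measurableSet_ball]
      exact intOn_ball (by fun_prop) _ _
    · intro x
      by_cases hx : x ∈ ball (0 : E2) 2
      · simp only [indicator_of_mem hx]
        have := h1 x
        have := Real.exp_pos (w x)
        nlinarith
      · simp only [indicator_of_notMem hx]
        have : ψ x = 0 := image_eq_zero_of_notMem_tsupport (fun h => hx (hsub h))
        rw [this, mul_zero]
  have hX : ∀ k, XX ψ w s k ≤ CX * s := by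
    intro k
    have e1 := X_bound h hη hε0 hψ hs hsub h0 h1 hspos k
    have e2 := Tterm_bound h hψ hs hsub hL hibp hG s k c
    rw [← hO, ← hΓ] at e2
    rw [← hD] at e1
    have e3 : 2 * ε ^ 2 / s ≤ 2 * s := by
      rw [div_le_iff₀ hspos]
      nlinarith
    have e4 : 5 * ε * √D ≤ 5 * √D * s := by
      have : 0 ≤ √D := Real.sqrt_nonneg _
      nlinarith
    have e5 : Real.pi * (∫ x, Real.exp (w x) * ψ x) ≤ Real.pi * s := by
      apply mul_le_mul_of_nonneg_left _ hpi.le
      have : 0 ≤ η * Γ := by positivity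
      linarith
    have e6 : Real.pi * L * O ≤ Real.pi * L * s := by
      apply mul_le_mul_of_nonneg_left _ (by positivity)
      have : 0 ≤ η * Γ := by positivity
      linarith
    have e7 : Real.pi * G * (η * Γ) ≤ Real.pi * G * s := by
      apply mul_le_mul_of_nonneg_left _ (by positivity)
      linarith
    calc XX ψ w s k ≤ 4 * (Real.pi * (∫ x, Real.exp (w x) * ψ x) + 2 * ε ^ 2 / s
      + 5 * ε * √D + |∫ x, TT s k (w x) * inner ℝ (a x (gradient w x)) (gradient ψ x)|) := e1
      _ ≤ 4 * (Real.pi * s + 2 * s + 5 * √D * s + (Real.pi * L * s + Real.pi * G * s)) := by linarith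
      _ = _ := by rw [hCX]; ring
  have hWB := WB_of_XX (x0 := 0) (r := 1) (c := c) hw hψ hs h0 hspos
    (fun x hx => hone x (ball_subset_closedBall hx)) hX
  rw [show 2 * (CX * s) / s = 2 * CX by field_simp] at hWB
  set v : E2 → ℝ := fun x => (w x - c) / s with hv
  have hv1 : ContDiff ℝ 1 v := by
    apply ContDiff.div_const
    exact hw1.sub contDiff_const
  have hvabs : ∫ x in ball (0 : E2) 1, |v x| ≤ 1 := by
    have : ∀ x, |v x| = |w x - c| / s := by
      intro x
      rw [hv]
      simp only
      rw [abs_div, abs_of_pos hspos]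
    simp_rw [this]
    rw [integral_div, div_le_one hspos]
    calc ∫ x in ball (0 : E2) 1, |w x - c| ≤ ∫ x in ball (0 : E2) 2, |w x - c| := by
          apply setIntegral_mono_set
          · exact intOn_ball (by fun_prop) _ _
          · exact Eventually.of_forall (fun x => abs_nonneg _)
          · exact Eventually.of_forall (ball_subset_ball (by norm_num))
      _ ≤ s := by
          have : 0 ≤ η * Γ := by positivity
          linarith
  have hlev1 : lev v 0 1 ((1 : ℕ) : ℝ) ≤ Real.pi * 1 ^ 2 / 2 := by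
    have := meas_le_of_integral_abs (k := 1) hv1.continuous 0 one_pos hvabs
    have h3 := Real.pi_gt_three
    rw [Nat.cast_one]
    linarith
  have hlev2 : lev (fun x => - v x) 0 1 ((1 : ℕ) : ℝ) ≤ Real.pi * 1 ^ 2 / 2 := by
    have hvabs' : ∫ x in ball (0 : E2) 1, |- v x| ≤ 1 := by simpa using hvabs
    have hcn : Continuous (fun x => - v x) := hv1.continuous.neg
    have := meas_le_of_integral_abs (k := 1) hcn 0 one_pos hvabs'
    have h3 := Real.pi_gt_three
    rw [Nat.cast_one]
    linarith
  have hfin := (htwo v hv1 0 1 one_pos hWB hlev1 hlev2).1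
  have hder : ∀ x, ‖fderiv ℝ v x‖ = ‖fderiv ℝ w x‖ / s := by
    intro x
    have : fderiv ℝ v x = (1 / s) • fderiv ℝ w x := by
      have h5 : HasFDerivAt v ((1 / s) • fderiv ℝ w x) x := by
        have := (((hw1.differentiable (by simp)) x).hasFDerivAt.sub_const c).const_smul (1 / s)
        refine this.congr_of_eventuallyEq (Eventually.of_forall (fun y => ?_))
        simp only [hv, Pi.smul_apply, smul_eq_mul]
        ring
      exact h5.fderiv
    rw [this, norm_smul, Real.norm_of_nonneg (by positivity)]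
    ring
  simp_rw [hder] at hfin
  rw [integral_div, div_le_iff₀ hspos] at hfin
  calc ∫ x in ball (0 : E2) 1, ‖fderiv ℝ w x‖ ≤ G' * 1 * s := hfin
    _ ≤ (G' + 1) * s := by nlinarith
    _ = _ := by rw [hsdef]

end Pool.Agent.Helper41.PS
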