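import Pool.Agent.Helper41.PS.Neck

/-!
# The neck lemma, second part
-/

open MeasureTheory Set Filter Topology Metric
open scoped ContDiff ENNReal NNReal

namespace Pool.Agent.Helper41.PS

lemma ms_resc (w : E2 → ℝ) {r : ℝ} (hr : 0 < r) (ρ : ℝ) : ms (resc 0 r w) ρ = ms w (r * ρ) := by
  rw [ms, mass_resc 0 hr, ms, smul_zero, add_zero]

theorem exists_neck : ∃ ε0 : ℝ, 0 < ε0 ∧ ε0 ≤ 1 ∧ ∀ K : ℝ, 0 ≤ K → ∃ C ε1 : ℝ, 0 < C ∧ 0 < ε1 ∧
    ∀ (a : E2 → E2 →L[ℝ] E2) (w : E2 → ℝ) (η ε Λ R0 r0 r1 : ℝ), Adm a w η ε Λ 0 R0 →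
    0 ≤ η → η ≤ ε1 → 0 ≤ ε → ε ≤ ε1 → 0 < r0 → r0 ≤ r1 → 3 * r1 ≤ R0 →
    (∀ r, r0 ≤ r → r ≤ r1 → ∫ x in ball (0 : E2) (3 * r), ‖fderiv ℝ w x‖ ≤ K * (3 * r)) →
    (∀ r, r0 ≤ r → r ≤ r1 → ms w (3 * r) - ms w (r / 2) ≤ ε0) →
    7 * Real.pi ≤ ms w r0 →
    ms w r1 - ms w r0 ≤ C * (ms w (2 * r0) - ms w r0) ∧
    Real.exp (bet w r1) ≤ C * (ms w (2 * r0) - ms w r0) := by
  have hpi := Real.pi_pos
  obtain ⟨B, hB, hjen⟩ := exists_jensen
  obtain ⟨ε0, h0, h1, hmass⟩ := exists_mass_le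
  obtain ⟨Cs, hCs, hslope⟩ := exists_slope
  refine ⟨ε0, h0, h1, fun K hK => ?_⟩
  obtain ⟨C, hC, hmle⟩ := hmass K hK
  refine ⟨2 * C * B + B, min (min (1 / 2) ε0) (1 / (2 * Cs * (1 + K))), by positivity, by positivity, ?_⟩
  intro a w η ε Λ R0 r0 r1 h hη0 hη hε0 hε hr0 hr01 hR hg hm h7
  have hη2 : η ≤ 1 / 2 := hη.trans ((min_le_left _ _).trans (min_le_left _ _))
  have hεε : ε ≤ ε0 := hε.trans ((min_le_left _ _).trans (min_le_right _ _))
  have hsm : Cs * (ε + η * K) ≤ 1 / 2 := by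
    have e1 : η ≤ 1 / (2 * Cs * (1 + K)) := hη.trans (min_le_right _ _)
    have e2 : ε ≤ 1 / (2 * Cs * (1 + K)) := hε.trans (min_le_right _ _)
    calc Cs * (ε + η * K) ≤ Cs * (1 / (2 * Cs * (1 + K)) + 1 / (2 * Cs * (1 + K)) * K) := by gcongr
      _ = 1 / 2 := by
        field_simp
  have hw := h.smooth
  have hwc := hw.continuous
  have hw1 : ContDiff ℝ 1 w := hw.of_le (by norm_cast)
  -- jensen at scale r0
  have hj0 : Real.exp (bet w r0) ≤ B * (ms w (2 * r0) - ms w r0) := by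
    have := hjen (resc 0 r0 w) (resc_contDiff 0 r0 (n := 0) (contDiff_zero.mpr hwc)).continuous
    rw [ms_resc w hr0, ms_resc w hr0, mul_one, mul_comm r0 2] at this
    exact this
  have hd0 : 0 ≤ ms w (2 * r0) - ms w r0 := by
    have := ms_mono hwc (show r0 ≤ 2 * r0 by linarith)
    linarith
  -- slope
  have hsl : ∀ r, r0 ≤ r → r ≤ r1 → Real.exp (bet w r) ≤ Real.exp (bet w r0) * (r0 / r) := by
    intro r hr hrr1
    have hrpos : 0 < r := lt_of_lt_of_le hr0 hr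
    have e1 := hslope a w η ε Λ K R0 (7 * Real.pi) r0 r h hη0 hε0 hr0 hr (by linarith)
      (fun s hs1 hs2 => hg s hs1 (hs2.trans hrr1)) h7
    have e2 : 2 - 7 * Real.pi / (2 * Real.pi) + Cs * (ε + η * K) ≤ -1 := by
      have : 7 * Real.pi / (2 * Real.pi) = 7 / 2 := by field_simp
      rw [this]
      linarith
    have e3 : 0 ≤ Real.log (r / r0) := Real.log_nonneg ((one_le_div hr0).mpr hr)
    have e4 : bet w r ≤ bet w r0 - Real.log (r / r0) := by
      have := mul_le_mul_of_nonneg_right e2 e3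
      linarith
    calc Real.exp (bet w r) ≤ Real.exp (bet w r0 - Real.log (r / r0)) := Real.exp_le_exp.mpr e4
      _ = _ := by
        rw [Real.exp_sub, Real.exp_log (by positivity)]
        field_simp
  -- masses of annuli
  have hann : ∀ r, r0 ≤ r → r ≤ r1 → ms w (2 * r) - ms w r ≤ C * Real.exp (bet w r) := by
    intro r hr hrr1
    have hrpos : 0 < r := lt_of_lt_of_le hr0 hr
    have hsub : ball (0 : E2) (r * 3) ⊆ ball 0 R0 := ball_subset_ball (by linarith)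
    have e1 := hmle _ _ η ε Λ (h.resc 0 hrpos hsub) hη2 hε0 hεε (by
      rw [gradint_resc 0 hrpos hw1, smul_zero, add_zero, inv_mul_le_iff₀ hrpos]
      have := hg r hr hrr1
      rw [show r * 3 = 3 * r by ring]
      linarith) (by
      rw [ms_resc w hrpos, ms_resc w hrpos, show r * 3 = 3 * r by ring, show r * (1 / 2) = r / 2 by ring]
      exact hm r hr hrr1)
    rw [ms_resc w hrpos, ms_resc w hrpos, mul_one, mul_comm r 2] at e1
    exact e1
  have hsum : ∀ n : ℕ, (∀ j < n, 2 ^ j * r0 ≤ r1) →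
      ms w (2 ^ n * r0) - ms w r0 ≤ ∑ j ∈ Finset.range n, C * Real.exp (bet w r0) * (1 / 2) ^ j := by
    intro n
    induction n with
    | zero =>
      intro _
      simp
    | succ n ih =>
      intro hn
      have e1 := ih (fun j hj => hn j (Nat.lt_succ_of_lt hj))
      have e2 : r0 ≤ 2 ^ n * r0 := by
        have : (1 : ℝ) ≤ 2 ^ n := one_le_pow₀ (by norm_num)
        nlinarith
      have e3 : 2 ^ n * r0 ≤ r1 := hn n (Nat.lt_succ_self n)
      have e4 := hann (2 ^ n * r0) e2 e3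
      have e5 := hsl (2 ^ n * r0) e2 e3
      have e6 : r0 / (2 ^ n * r0) = (1 / 2) ^ n := by
        rw [one_div, inv_pow]
        field_simp
      rw [e6] at e5
      rw [Finset.sum_range_succ]
      have e7 : (2 : ℝ) ^ (n + 1) * r0 = 2 * (2 ^ n * r0) := by ring
      rw [e7]
      have e8 : C * Real.exp (bet w (2 ^ n * r0)) ≤ C * (Real.exp (bet w r0) * (1 / 2) ^ n) :=
        mul_le_mul_of_nonneg_left e5 hC.le
      linarith
  constructor
  · -- choose n
    have hex : ∃ n : ℕ, r1 < 2 ^ n * r0 := by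
      obtain ⟨n, hn⟩ := pow_unbounded_of_one_lt (r1 / r0) (show (1 : ℝ) < 2 by norm_num)
      exact ⟨n, (div_lt_iff₀ hr0).mp hn⟩
    classical
    set n := Nat.find hex with hn
    have hn1 : r1 < 2 ^ n * r0 := Nat.find_spec hex
    have hn2 : ∀ j < n, 2 ^ j * r0 ≤ r1 := fun j hj => not_lt.mp (Nat.find_min hex hj)
    have e1 := hsum n hn2
    rw [← Finset.mul_sum] at e1
    have e2 := sum_geom_le (q := 1 / 2) (by norm_num) (by norm_num) n
    have e3 : ms w r1 ≤ ms w (2 ^ n * r0) := ms_mono hwc hn1.le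
    have e4 : C * Real.exp (bet w r0) * ∑ j ∈ Finset.range n, (1 / 2 : ℝ) ^ j ≤ C * Real.exp (bet w r0) * 2 := by
      apply mul_le_mul_of_nonneg_left _ (by positivity)
      refine e2.trans (by norm_num)
    have e5 : C * Real.exp (bet w r0) * 2 ≤ C * (B * (ms w (2 * r0) - ms w r0)) * 2 := by gcongr
    have e6 : 0 ≤ B * (ms w (2 * r0) - ms w r0) := by positivity
    nlinarith
  · have e1 := hsl r1 hr01 le_rfl
    have hr1 : 0 < r1 := lt_of_lt_of_le hr0 hr01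
    have e2 : r0 / r1 ≤ 1 := (div_le_one hr1).mpr hr01
    have e3 : Real.exp (bet w r0) * (r0 / r1) ≤ Real.exp (bet w r0) * 1 :=
      mul_le_mul_of_nonneg_left e2 (Real.exp_pos _).le
    have e6 : 0 ≤ 2 * C * B * (ms w (2 * r0) - ms w r0) := by positivity
    nlinarith

end Pool.Agent.Helper41.PS
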