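import Pool.Agent.Helper41.PS.Atomic2
import Pool.Agent.Helper41.PS.Neck2

/-!
# Local quantisation
-/

open MeasureTheory Set Filter Topology Metric
open scoped ContDiff ENNReal NNReal

namespace Pool.Agent.Helper41.PS

/-- The mass `8πk` is concentrated at a scale tending to zero. -/
def GP (U : Ultrafilter ℕ) (w : ℕ → E2 → ℝ) (k : ℕ) : Prop :=
  ∃ s : ℕ → ℝ, (∀ n, 0 < s n) ∧ Tendsto s U (𝓝 0) ∧
    ∀ δ > 0, ∃ S0 > 0, ∀ S ≥ S0, ∀ᶠ n in (U : Filter ℕ), |ms (w n) (s n * S) - 8 * Real.pi * k| ≤ δ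

lemma good_scales {U : Ultrafilter ℕ} (hU : (U : Filter ℕ) ≤ atTop) {w : ℕ → E2 → ℝ}
    (hw : ∀ n, Continuous (w n)) {k : ℕ} (h : GP U w k) :
    ∃ r : ℕ → ℝ, (∀ n, 0 < r n) ∧ Tendsto r U (𝓝 0) ∧
      ∀ S, 0 < S → Tendsto (fun n => ms (w n) (S * r n)) U (𝓝 (8 * Real.pi * k)) := by
  obtain ⟨s, hs, hs0, hms⟩ := h
  have hpos : ∀ j : ℕ, (0 : ℝ) < 1 / (j + 1) := fun j => by positivity
  choose S0 hS0 hS using fun j : ℕ => hms (1 / (j + 1)) (hpos j)
  set T : ℕ → ℝ := fun j => max (S0 j) (j + 1) with hT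
  have hT1 : ∀ j : ℕ, (j : ℝ) + 1 ≤ T j := fun j => le_max_right _ _
  have hT0 : ∀ j : ℕ, 1 ≤ T j := fun j => by
    have := hT1 j
    have h2 : (0 : ℝ) ≤ j := Nat.cast_nonneg j
    linarith
  have hTS : ∀ j : ℕ, S0 j ≤ T j := fun j => le_max_left _ _
  have hT4 : ∀ j : ℕ, T j ≤ T j ^ 4 := fun j => le_self_pow₀ (hT0 j) (by norm_num)
  set Q : ℕ → ℕ → Prop := fun n j => |ms (w n) (s n * T j) - 8 * Real.pi * k| ≤ 1 / (j + 1) ∧
    |ms (w n) (s n * T j ^ 4) - 8 * Real.pi * k| ≤ 1 / (j + 1) ∧ s n * T j ^ 4 ≤ 1 / (j + 1) with hQ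
  have hQev : ∀ j, ∀ᶠ n in (U : Filter ℕ), Q n j := by
    intro j
    have h3 : Tendsto (fun n => s n * T j ^ 4) U (𝓝 (0 * T j ^ 4)) := hs0.mul_const _
    rw [zero_mul] at h3
    have h4 : ∀ᶠ n in (U : Filter ℕ), s n * T j ^ 4 < 1 / (j + 1) := h3.eventually (gt_mem_nhds (hpos j))
    filter_upwards [hS j (T j) (hTS j), hS j (T j ^ 4) ((hTS j).trans (hT4 j)), h4] with n h5 h6 h7
    exact ⟨h5, h6, h7.le⟩
  obtain ⟨J, hJ, hJQ⟩ := exists_diag hU hQev
  have hJ1 : Tendsto (fun n => 1 / ((J n : ℝ) + 1)) U (𝓝 0) := by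
    have h1 : Tendsto (fun n => (J n : ℝ)) U atTop := tendsto_natCast_atTop_atTop.comp hJ
    exact tendsto_const_nhds.div_atTop (tendsto_atTop_add_const_right _ _ h1)
  refine ⟨fun n => s n * T (J n) ^ 2, fun n => ?_, ?_, ?_⟩
  · have := hT0 (J n)
    have := hs n
    positivity
  · apply tendsto_of_tendsto_of_tendsto_of_le_of_le' tendsto_const_nhds hJ1
    · refine Eventually.of_forall (fun n => ?_)
      have := hT0 (J n)
      have := hs n
      positivity
    · filter_upwards [hJQ] with n hn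
      refine le_trans ?_ hn.2.2
      apply mul_le_mul_of_nonneg_left _ (hs n).le
      exact pow_le_pow_right₀ (hT0 _) (by norm_num)
  · intro S hS
    have hev : ∀ᶠ n in (U : Filter ℕ), max S (1 / S) ≤ T (J n) := by
      have h1 : Tendsto (fun n => (J n : ℝ)) U atTop := tendsto_natCast_atTop_atTop.comp hJ
      filter_upwards [h1.eventually_ge_atTop (max S (1 / S))] with n hn
      have := hT1 (J n)
      linarith
    have hlow : ∀ᶠ n in (U : Filter ℕ), 8 * Real.pi * k - 1 / ((J n : ℝ) + 1)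
        ≤ ms (w n) (S * (s n * T (J n) ^ 2)) := by
      filter_upwards [hJQ, hev] with n hn h1
      have h2 := (abs_le.mp hn.1).1
      have h3 : ms (w n) (s n * T (J n)) ≤ ms (w n) (S * (s n * T (J n) ^ 2)) := by
        apply ms_mono (hw n)
        have h4 : 1 ≤ S * T (J n) := by
          have h5 : 1 / S ≤ T (J n) := (le_max_right _ _).trans h1
          rw [div_le_iff₀ hS] at h5
          linarith
        have h6 : 0 < s n * T (J n) := mul_pos (hs n) (by linarith [hT0 (J n)])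
        calc s n * T (J n) = (s n * T (J n)) * 1 := (mul_one _).symm
          _ ≤ (s n * T (J n)) * (S * T (J n)) := mul_le_mul_of_nonneg_left h4 h6.le
          _ = _ := by ring
      linarith
    have hup : ∀ᶠ n in (U : Filter ℕ), ms (w n) (S * (s n * T (J n) ^ 2))
        ≤ 8 * Real.pi * k + 1 / ((J n : ℝ) + 1) := by
      filter_upwards [hJQ, hev] with n hn h1
      have h2 := (abs_le.mp hn.2.1).2
      have h3 : ms (w n) (S * (s n * T (J n) ^ 2)) ≤ ms (w n) (s n * T (J n) ^ 4) := by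
        apply ms_mono (hw n)
        have h5 : S ≤ T (J n) := (le_max_left _ _).trans h1
        have h6 := hT0 (J n)
        have h7 : S ≤ T (J n) ^ 2 := by nlinarith
        have h8 : 0 < s n * T (J n) ^ 2 := mul_pos (hs n) (by positivity)
        calc S * (s n * T (J n) ^ 2) ≤ T (J n) ^ 2 * (s n * T (J n) ^ 2) :=
              mul_le_mul_of_nonneg_right h7 h8.le
          _ = _ := by ring
      linarith
    have l1 : Tendsto (fun n => 8 * Real.pi * k - 1 / ((J n : ℝ) + 1)) U (𝓝 (8 * Real.pi * k)) := by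
      simpa using hJ1.const_sub (8 * Real.pi * k)
    have l2 : Tendsto (fun n => 8 * Real.pi * k + 1 / ((J n : ℝ) + 1)) U (𝓝 (8 * Real.pi * k)) := by
      simpa using hJ1.const_add (8 * Real.pi * k)
    exact tendsto_of_tendsto_of_tendsto_of_le_of_le' l1 l2 hlow hup

lemma resc_resc (w : E2 → ℝ) {τ r : ℝ} (hτ : 0 < τ) (hr : 0 < r) :
    resc 0 r (resc 0 τ w) = resc 0 (τ * r) w := by
  ext y
  unfold resc
  rw [Real.log_mul hτ.ne' hr.ne', zero_add, zero_add, zero_add, smul_smul]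
  ring

lemma bet_resc (w : E2 → ℝ) {τ r : ℝ} (hτ : 0 < τ) (hr : 0 < r) :
    bet (resc 0 τ w) r = bet w (τ * r) := by
  unfold bet
  rw [resc_resc w hτ hr]

/-- The end of the neck. -/
lemma exists_tau {w : E2 → ℝ} (hw : Continuous w) {r e : ℝ} (hr : 0 < r) (he : 0 < e) :
    ∃ τ : ℝ, 0 < τ ∧ (r ≤ 1 / 4 → r ≤ τ ∧ τ ≤ 1 / 4 ∧ ms w τ - ms w r ≤ e ∧
      (τ < 1 / 4 → ms w τ - ms w r = e) ∧
      (∀ t, r ≤ t → t ≤ 1 / 4 → ms w t - ms w r ≤ e → t ≤ τ)) := by
  by_cases hr4 : r ≤ 1 / 4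
  swap
  · exact ⟨1, one_pos, fun h => absurd h hr4⟩
  have hc : Continuous (fun t => mF w (0, t) - mF w (0, r)) := by
    have := continuous_mF hw
    fun_prop
  have heq : ∀ t, 0 < t → mF w (0, t) - mF w (0, r) = ms w t - ms w r := by
    intro t ht
    rw [mF_eq w 0 ht, mF_eq w 0 hr, mb_zero, mb_zero]
  set T : Set ℝ := Icc r (1 / 4) ∩ {t | mF w (0, t) - mF w (0, r) ≤ e} with hT
  have hTc : IsCompact T := isCompact_Icc.inter_right (isClosed_le hc continuous_const)
  have hTn : T.Nonempty := ⟨r, ⟨le_rfl, hr4⟩, by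
    show mF w (0, r) - mF w (0, r) ≤ e
    linarith⟩
  obtain ⟨τ, hτ, hmax⟩ := hTc.exists_isGreatest hTn
  have hτpos : 0 < τ := lt_of_lt_of_le hr hτ.1.1
  have hτe : ms w τ - ms w r ≤ e := by
    rw [← heq τ hτpos]
    exact hτ.2
  refine ⟨τ, hτpos, fun _ => ⟨hτ.1.1, hτ.1.2, hτe, ?_, ?_⟩⟩
  · intro hlt
    by_contra hne
    have hlt2 : ms w τ - ms w r < e := lt_of_le_of_ne hτe hne
    rw [← heq τ hτpos] at hlt2
    have h1 : ∀ᶠ t in 𝓝[>] τ, mF w (0, t) - mF w (0, r) < e :=
      (hc.continuousAt.eventually (gt_mem_nhds hlt2)).filter_mono nhdsWithin_le_nhds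
    obtain ⟨t, ht1, ht2⟩ := (h1.and (Ioo_mem_nhdsGT hlt)).exists
    have h2 : t ∈ T := ⟨⟨hτ.1.1.trans ht2.1.le, ht2.2.le⟩, ht1.le⟩
    have := hmax h2
    linarith [ht2.1]
  · intro t ht1 ht2 ht3
    apply hmax
    refine ⟨⟨ht1, ht2⟩, ?_⟩
    show mF w (0, t) - mF w (0, r) ≤ e
    rw [heq t (lt_of_lt_of_le hr ht1)]
    exact ht3

lemma LQ_step {U : Ultrafilter ℕ} (hU : (U : Filter ℕ) ≤ atTop) {N : ℕ} (hN : LQP U N)
    {a : ℕ → E2 → E2 →L[ℝ] E2} {w : ℕ → E2 → ℝ} {η ε : ℕ → ℝ} {Λ K : ℝ}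
    (h : Sq U a w η ε Λ K (fun _ => 1))
    (hconc : ∀ ρ, 0 < ρ → ρ ≤ 1 → Tendsto (fun n => ms (w n) 1 - ms (w n) ρ) U (𝓝 0)) {m : ℝ}
    (hm : Tendsto (fun n => ms (w n) 1) U (𝓝 m)) (hmN : m < 8 * Real.pi * (N + 1 : ℕ)) {k : ℕ} (hk : 1 ≤ k)
    (hGP : GP U w k) (hmax : ∀ k', k < k' → ¬ GP U w k') : ∃ j : ℕ, m = 8 * Real.pi * j := by
  have hpi := Real.pi_pos
  have hwc : ∀ n, Continuous (w n) := fun n => (h.smooth n).continuous
  have hk1 : (1 : ℝ) ≤ k := by exact_mod_cast hk
  obtain ⟨r, hr, hr0, hrm⟩ := good_scales hU hwc hGP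
  obtain ⟨ε0, he0, he01, hneck⟩ := exists_neck
  obtain ⟨C, ε1, hC, hε1, hnk⟩ := hneck K h.K_nonneg
  set e1 := ε0 / 2 with he1
  have he1pos : 0 < e1 := by positivity
  choose τ hτ hτp using fun n => exists_tau (hwc n) (hr n) he1pos
  have hrm1 : Tendsto (fun n => ms (w n) (r n)) U (𝓝 (8 * Real.pi * k)) := by
    have := hrm 1 one_pos
    simpa using this
  have hr4 : ∀ᶠ n in (U : Filter ℕ), r n ≤ 1 / 4 :=
    (hr0.eventually (gt_mem_nhds (by norm_num : (0 : ℝ) < 1 / 4))).mono (fun n hn => hn.le)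
  have hτp' : ∀ᶠ n in (U : Filter ℕ), r n ≤ τ n ∧ τ n ≤ 1 / 4 ∧ ms (w n) (τ n) - ms (w n) (r n) ≤ e1 ∧
      (τ n < 1 / 4 → ms (w n) (τ n) - ms (w n) (r n) = e1) ∧
      (∀ t, r n ≤ t → t ≤ 1 / 4 → ms (w n) t - ms (w n) (r n) ≤ e1 → t ≤ τ n) :=
    hr4.mono (fun n hn => hτp n hn)
  -- F1
  have F1 : ∀ S : ℝ, ∀ᶠ n in (U : Filter ℕ), S * r n ≤ τ n := by
    intro S
    set S' := max S 1 with hS'
    have hS'1 : 1 ≤ S' := le_max_right _ _
    have h1 : Tendsto (fun n => ms (w n) (S' * r n) - ms (w n) (r n)) U (𝓝 0) := by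
      have := (hrm S' (by positivity)).sub hrm1
      simpa using this
    have h2 : Tendsto (fun n => S' * r n) U (𝓝 0) := by
      have := hr0.const_mul S'
      simpa using this
    filter_upwards [hτp', h1.eventually (gt_mem_nhds he1pos),
      h2.eventually (gt_mem_nhds (by norm_num : (0 : ℝ) < 1 / 4))] with n hn h3 h4
    have h5 := hn.2.2.2.2 (S' * r n) (le_mul_of_one_le_left (hr n).le hS'1) h4.le h3.le
    refine le_trans ?_ h5
    exact mul_le_mul_of_nonneg_right (le_max_left _ _) (hr n).le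
  -- the neck
  have hneckev : ∀ᶠ n in (U : Filter ℕ),
      ms (w n) (τ n / 3) - ms (w n) (r n) ≤ C * (ms (w n) (2 * r n) - ms (w n) (r n)) ∧
      Real.exp (bet (w n) (τ n / 3)) ≤ C * (ms (w n) (2 * r n) - ms (w n) (r n)) := by
    have hη1 : ∀ᶠ n in (U : Filter ℕ), η n < ε1 := h.η_lim.eventually (gt_mem_nhds hε1)
    have hε1' : ∀ᶠ n in (U : Filter ℕ), ε n < ε1 := h.ε_lim.eventually (gt_mem_nhds hε1)
    have hhalf : Tendsto (fun n => ms (w n) (r n) - ms (w n) (1 / 2 * r n)) U (𝓝 0) := by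
      have := hrm1.sub (hrm (1 / 2) (by norm_num))
      simpa using this
    have h7 : ∀ᶠ n in (U : Filter ℕ), 7 * Real.pi < ms (w n) (r n) := by
      apply hrm1.eventually (lt_mem_nhds _)
      nlinarith
    filter_upwards [h.adm, h.grad, hη1, hε1', hτp', F1 3, hhalf.eventually (gt_mem_nhds he1pos), h7] with
      n hn hg hηn hεn ht h3 h4 h5
    apply hnk (a n) (w n) (η n) (ε n) Λ 1 (r n) (τ n / 3) hn (h.η_nonneg n) hηn.le (h.ε_nonneg n) hεn.le
      (hr n) (by linarith) (by linarith [ht.2.1])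
    · intro s hs1 hs2
      apply hg 0 (3 * s) (by linarith [hr n])
      apply ball_subset_ball
      linarith [ht.2.1]
    · intro s hs1 hs2
      have e1' : ms (w n) (3 * s) ≤ ms (w n) (τ n) := ms_mono (hwc n) (by linarith)
      have e2' : ms (w n) (1 / 2 * r n) ≤ ms (w n) (s / 2) := ms_mono (hwc n) (by linarith)
      have e3' := ht.2.2.1
      have : ε0 = e1 + e1 := by rw [he1]; ring
      linarith
    · exact h5.le
  have hCz : Tendsto (fun n => C * (ms (w n) (2 * r n) - ms (w n) (r n))) U (𝓝 0) := by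
    have := ((hrm 2 (by norm_num)).sub hrm1).const_mul C
    simpa using this
  have hτ3 : Tendsto (fun n => ms (w n) (τ n / 3)) U (𝓝 (8 * Real.pi * k)) := by
    have l2 : Tendsto (fun n => ms (w n) (r n) + C * (ms (w n) (2 * r n) - ms (w n) (r n))) U
        (𝓝 (8 * Real.pi * k)) := by
      have := hrm1.add hCz
      simpa using this
    apply tendsto_of_tendsto_of_tendsto_of_le_of_le' hrm1 l2
    · filter_upwards [F1 3] with n hn
      exact ms_mono (hwc n) (by linarith)
    · filter_upwards [hneckev] with n hn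
      linarith [hn.1]
  have hbz : Tendsto (fun n => Real.exp (bet (w n) (τ n / 3))) U (𝓝 0) :=
    tendsto_of_tendsto_of_tendsto_of_le_of_le' tendsto_const_nhds hCz
      (Eventually.of_forall (fun n => (Real.exp_pos _).le)) (hneckev.mono (fun n hn => hn.2))
  -- limit of τ
  have hτbd : ∀ᶠ n in (U : Filter ℕ), τ n ∈ Icc 0 (1 / 4) :=
    hτp'.mono (fun n hn => ⟨(hτ n).le, hn.2.1⟩)
  have hTlim := ulim_of_bdd hτbd
  set T := ulim U τ with hTdef
  have hT0 : 0 ≤ T := ge_of_tendsto hTlim (Eventually.of_forall (fun n => (hτ n).le))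
  rcases hT0.eq_or_lt with hTz | hTpos
  swap
  · -- no further concentration
    refine ⟨k, ?_⟩
    have hT4 : T ≤ 1 / 4 := le_of_tendsto hTlim (hτbd.mono (fun n hn => hn.2))
    have hcc := hconc (T / 6) (by positivity) (by linarith)
    have hup : Tendsto (fun n => (ms (w n) 1 - ms (w n) (T / 6)) + ms (w n) (τ n / 3)) U
        (𝓝 (8 * Real.pi * k)) := by
      have := hcc.add hτ3
      simpa using this
    have h1 : m ≤ 8 * Real.pi * k := by
      apply le_of_tendsto_of_tendsto hm hup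
      filter_upwards [hTlim.eventually (lt_mem_nhds (by linarith : T / 2 < T))] with n hn
      have := ms_mono (hwc n) (show T / 6 ≤ τ n / 3 by linarith)
      linarith
    have h2 : 8 * Real.pi * k ≤ m := by
      apply le_of_tendsto_of_tendsto hτ3 hm
      filter_upwards [hτp'] with n hn
      exact ms_mono (hwc n) (by linarith [hn.2.1])
    linarith
  · -- a larger scale
    exfalso
    rw [← hTz] at hTlim
    have hτlt : ∀ᶠ n in (U : Filter ℕ), τ n < 1 / 4 := hTlim.eventually (gt_mem_nhds (by norm_num))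
    have hτ1 : Tendsto (fun n => ms (w n) (τ n)) U (𝓝 (8 * Real.pi * k + e1)) := by
      refine (hrm1.add_const e1).congr' ?_
      filter_upwards [hτp', hτlt] with n hn hlt
      have := hn.2.2.2.1 hlt
      linarith
    set R' : ℕ → ℝ := fun n => 1 / τ n with hR'
    have hRlim : Tendsto R' U atTop := by
      have h1 : Tendsto τ U (𝓝[>] 0) := by
        rw [tendsto_nhdsWithin_iff]
        exact ⟨hTlim, Eventually.of_forall (fun n => hτ n)⟩
      have h2 := tendsto_inv_nhdsGT_zero.comp h1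
      refine h2.congr (fun n => ?_)
      simp [hR']
    have hres := h.resc (x := fun _ => 0) hτ (R' := R') (Eventually.of_forall (fun n => by
      apply ball_subset_ball
      simp only [hR']
      rw [mul_one_div_cancel (hτ n).ne']))
    have hms : ∀ n ρ, ms (resc 0 (τ n) (w n)) ρ = ms (w n) (τ n * ρ) := fun n ρ => ms_resc (w n) (hτ n) ρ
    have hb' : Tendsto (fun n => Real.exp (bet (resc 0 (τ n) (w n)) (1 / 3))) U (𝓝 0) := by
      refine hbz.congr (fun n => ?_)
      rw [bet_resc (w n) (hτ n) (by norm_num)]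
      congr 2
      ring
    have hNcast : 8 * Real.pi * ((N + 1 : ℕ) : ℝ) = 8 * Real.pi * N + 8 * Real.pi := by
      push_cast
      ring
    rw [hNcast] at hmN
    set m' := (m - 8 * Real.pi * k + 8 * Real.pi * N) / 2 with hm'
    have hm'1 : m - 8 * Real.pi * k < 8 * Real.pi * N := by nlinarith
    have hm'2 : m' < 8 * Real.pi * N := by
      rw [hm']
      linarith
    have hm'3 : m - 8 * Real.pi * k < m' := by
      rw [hm']
      linarith
    obtain ⟨k', S0, hk'⟩ := atomic hN hres hRlim (by norm_num : (0 : ℝ) < 1 / 3) hb' hm'2 (by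
      intro x hx0
      have hxn : 0 < ‖x‖ := norm_pos_iff.mpr hx0
      refine ⟨‖x‖ / 2, by positivity, ?_⟩
      have h1 : Tendsto (fun n => ms (w n) 1 - ms (w n) (r n)) U (𝓝 (m - 8 * Real.pi * k)) := hm.sub hrm1
      have h2 : Tendsto (fun n => τ n * (2 * ‖x‖)) U (𝓝 0) := by
        have := hTlim.mul_const (2 * ‖x‖)
        simpa using this
      filter_upwards [h1.eventually (gt_mem_nhds hm'3), F1 (2 / ‖x‖),
        h2.eventually (gt_mem_nhds one_pos)] with n h3 h4 h5
      have hwn : Continuous (resc 0 (τ n) (w n)) := (hres.smooth n).continuous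
      have e1' : mb (resc 0 (τ n) (w n)) x (‖x‖ / 2) + ms (resc 0 (τ n) (w n)) (‖x‖ / 2)
          ≤ ms (resc 0 (τ n) (w n)) (2 * ‖x‖) := by
        rw [mb, ms, ms, ← setIntegral_union _ measurableSet_ball (intOn_ball (by fun_prop) _ _)
          (intOn_ball (by fun_prop) _ _)]
        · apply setIntegral_mono_set (intOn_ball (by fun_prop) _ _)
            (Eventually.of_forall (fun z => (Real.exp_pos _).le))
          refine Eventually.of_forall ?_
          apply union_subset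
          · apply ball_subset_ball'
            rw [dist_zero_right]
            linarith
          · exact ball_subset_ball (by linarith)
        · apply ball_disjoint_ball
          rw [dist_zero_right]
          linarith
      have e2' : ms (w n) (r n) ≤ ms (resc 0 (τ n) (w n)) (‖x‖ / 2) := by
        rw [hms]
        apply ms_mono (hwc n)
        rw [div_mul_eq_mul_div, div_le_iff₀ hxn] at h4
        linarith
      have e3' : ms (resc 0 (τ n) (w n)) (2 * ‖x‖) ≤ ms (w n) 1 := by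
        rw [hms]
        exact ms_mono (hwc n) h5.le
      linarith) (ρ0 := 1 / 3) (by norm_num) (k := k) (by
      intro ρ hρ hρ3
      have hlow : ∀ᶠ n in (U : Filter ℕ), ms (w n) (r n) ≤ ms (resc 0 (τ n) (w n)) ρ := by
        filter_upwards [F1 (1 / ρ)] with n hn
        rw [hms]
        apply ms_mono (hwc n)
        rw [div_mul_eq_mul_div, div_le_iff₀ hρ] at hn
        linarith
      have hup : ∀ᶠ n in (U : Filter ℕ), ms (resc 0 (τ n) (w n)) ρ ≤ ms (w n) (τ n / 3) := by
        refine Eventually.of_forall (fun n => ?_)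
        rw [hms]
        apply ms_mono (hwc n)
        have := hτ n
        nlinarith
      exact tendsto_of_tendsto_of_tendsto_of_le_of_le' hrm1 hτ3 hlow hup)
    have hkk' : k < k' := by
      have h1 := hk' (max S0 1) (le_max_left _ _)
      have h2 : 8 * Real.pi * k + e1 ≤ 8 * Real.pi * k' := by
        apply le_of_tendsto_of_tendsto hτ1 h1
        refine Eventually.of_forall (fun n => ?_)
        simp only
        rw [hms]
        apply ms_mono (hwc n)
        have h3 : 1 ≤ max S0 1 := le_max_right _ _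
        have := hτ n
        nlinarith
      have h3 : (k : ℝ) < k' := by
        have h4 : 8 * Real.pi * k < 8 * Real.pi * k' := by linarith
        exact lt_of_mul_lt_mul_left h4 (by positivity)
      exact_mod_cast h3
    apply hmax k' hkk'
    refine ⟨τ, hτ, hTlim, fun δ hδ => ⟨max S0 1, by positivity, fun S hS => ?_⟩⟩
    have h1 := hk' S ((le_max_left _ _).trans hS)
    have h2 := Metric.tendsto_nhds.mp h1 δ hδ
    filter_upwards [h2] with n hn
    rw [Real.dist_eq, hms] at hn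
    exact hn.le

end Pool.Agent.Helper41.PS
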