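import Pool.Agent.Helper41.PS.Virial1
import Pool.Agent.Helper41.PS.Cutoff
import Pool.Agent.Helper93.PS.R0

/-!
# Local representation of functions on the surface: basic facts
-/

open MeasureTheory Set Manifold Bundle Filter Topology
open scoped ContDiff ENNReal

namespace Pool.Agent.Helper41.PS

lemma cut_smooth {δ : ℝ} (hδ : 0 < δ) {w : E2 → ℝ}
    (hw : ContDiffOn ℝ ∞ w (Metric.ball (0 : E2) δ)) :
    ContDiff ℝ ∞ (fun y => chi (δ / 2) y * w y) := by
  rw [contDiff_iff_contDiffAt]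
  intro y
  by_cases hy : y ∈ Metric.ball (0 : E2) δ
  · exact (chi_contDiff _).contDiffAt.mul (hw.contDiffAt (Metric.isOpen_ball.mem_nhds hy))
  · have hy' : y ∉ tsupport (chi (δ / 2)) := by
      intro h
      have := chi_tsupport_ball (by positivity : 0 < δ / 2) h
      rw [show 2 * (δ / 2) = δ by ring] at this
      exact hy this
    have : (fun y => chi (δ / 2) y * w y) =ᶠ[𝓝 y] fun _ => 0 := by
      filter_upwards [(notMem_tsupport_iff_eventuallyEq).1 hy'] with z hz
      rw [hz]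
      simp
    exact contDiffAt_const.congr_of_eventuallyEq this

lemma cut_cont {F : Type*} [NormedAddCommGroup F] [NormedSpace ℝ F] {δ : ℝ} (hδ : 0 < δ) {w : E2 → F}
    (hw : ContinuousOn w (Metric.ball (0 : E2) δ)) :
    Continuous (fun y => chi (δ / 2) y • w y) := by
  rw [continuous_iff_continuousAt]
  intro y
  by_cases hy : y ∈ Metric.ball (0 : E2) δ
  · exact (chi_contDiff _).continuous.continuousAt.smul (hw.continuousAt (Metric.isOpen_ball.mem_nhds hy))
  · have hy' : y ∉ tsupport (chi (δ / 2)) := by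
      intro h
      have := chi_tsupport_ball (by positivity : 0 < δ / 2) h
      rw [show 2 * (δ / 2) = δ by ring] at this
      exact hy this
    have : (fun y => chi (δ / 2) y • w y) =ᶠ[𝓝 y] fun _ => 0 := by
      filter_upwards [(notMem_tsupport_iff_eventuallyEq).1 hy'] with z hz
      rw [hz]
      simp
    exact continuousAt_const.congr_of_eventuallyEq this

/-- Friedrichs inequality on a disc. -/
lemma friedrichs {v : E2 → ℝ} (hv : ContDiff ℝ ∞ v) (hs : HasCompactSupport v) {ρ : ℝ} (hρ : 0 ≤ ρ)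
    (ht : tsupport v ⊆ Metric.ball 0 ρ) : ∫ x, v x ^ 2 ≤ ρ ^ 2 * ∫ x, ‖gradient v x‖ ^ 2 := by
  have hvc := hv.continuous
  have hg := smooth_grad_cont hv
  have hgs := hasCompactSupport_grad hs
  set A := ∫ x, v x ^ 2 with hA
  set D := ∫ x, ‖gradient v x‖ ^ 2 with hD
  have hA0 : 0 ≤ A := integral_nonneg (fun x => sq_nonneg _)
  have hD0 : 0 ≤ D := integral_nonneg (fun x => sq_nonneg _)
  have hv2 : ContDiff ℝ 1 (fun x => v x * v x) := (hv.mul hv).of_le (by norm_cast)
  have h1 := div_ibp hv2 (hs.mul_left) (contDiff_const (c := (1 : ℝ)) (n := 1))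
  have e1 : ∀ x : E2, gradient (fun _ : E2 => (1 : ℝ)) x = 0 := fun x => grad_const 1 x
  simp_rw [e1, inner_zero_right, mul_zero, integral_zero, one_mul] at h1
  have e2 : ∀ x, gradient (fun x => v x * v x) x = (2 * v x) • gradient v x := by
    intro x
    rw [grad_mul (smooth_diff hv x) (smooth_diff hv x), ← add_smul]
    ring_nf
  simp_rw [e2, inner_smul_right] at h1
  have i1 : Integrable (fun x => 2 * (v x * v x)) := (integrable_cc (by fun_prop) (hs.mul_left)).const_mul 2
  have i2 : Integrable (fun x => 2 * v x * inner ℝ x (gradient v x)) := by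
    have hc : HasCompactSupport (fun x => v x * inner ℝ x (gradient v x)) := hs.mul_right
    have : Integrable (fun x => v x * inner ℝ x (gradient v x)) :=
      integrable_cc (hvc.mul (continuous_id.inner hg)) hc
    refine (this.const_mul 2).congr (Eventually.of_forall (fun x => ?_))
    simp only
    ring
  rw [integral_add i1 i2, integral_const_mul] at h1
  have e3 : ∫ x, v x * v x = A := by
    rw [hA]
    congr 1
    ext x
    ring
  have h2 : A ≤ ρ * (√A * √D) := by
    have h3 : |∫ x, 2 * v x * inner ℝ x (gradient v x)| ≤ ∫ x, 2 * ρ * (|v x| * |‖gradient v x‖|) := by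
      rw [← Real.norm_eq_abs]
      apply norm_integral_le_of_norm_le
      · apply Integrable.const_mul
        exact integrable_cc (by fun_prop) hs.abs.mul_right
      · refine Eventually.of_forall (fun x => ?_)
        by_cases hx : x ∈ Metric.ball (0 : E2) ρ
        · have hxn : ‖x‖ ≤ ρ := by
            rw [mem_ball_zero_iff] at hx
            exact hx.le
          rw [norm_mul, norm_mul, Real.norm_eq_abs, Real.norm_eq_abs, abs_norm, abs_two]
          have h4 : ‖inner ℝ x (gradient v x)‖ ≤ ρ * ‖gradient v x‖ :=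
            (norm_inner_le_norm _ _).trans (mul_le_mul_of_nonneg_right hxn (norm_nonneg _))
          calc 2 * |v x| * ‖inner ℝ x (gradient v x)‖ ≤ 2 * |v x| * (ρ * ‖gradient v x‖) :=
                mul_le_mul_of_nonneg_left h4 (by positivity)
            _ = _ := by ring
        · rw [image_eq_zero_of_notMem_tsupport (fun h => hx (ht h))]
          simp
    have h4 := cs_integral (memLp_cc hvc hs) (memLp_cc hg.norm hgs.norm)
    rw [integral_const_mul] at h3
    have h5 : 2 * ρ * ∫ x, |v x| * |‖gradient v x‖| ≤ 2 * ρ * (√A * √D) :=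
      mul_le_mul_of_nonneg_left h4 (by positivity)
    have h6 := (abs_le.mp (h3.trans h5)).1
    rw [e3] at h1
    linarith
  have h7 := Real.sq_sqrt hA0
  have h8 := Real.sq_sqrt hD0
  have h9 : √A ≤ ρ * √D := by
    by_cases hz : √A = 0
    · rw [hz]
      positivity
    · have hp : 0 < √A := lt_of_le_of_ne (Real.sqrt_nonneg _) (Ne.symm hz)
      have : √A * √A ≤ √A * (ρ * √D) := by
        calc √A * √A = A := Real.mul_self_sqrt hA0
          _ ≤ ρ * (√A * √D) := h2
          _ = _ := by ring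
      exact le_of_mul_le_mul_left this hp
  calc A = √A ^ 2 := h7.symm
    _ ≤ (ρ * √D) ^ 2 := pow_le_pow_left₀ (Real.sqrt_nonneg _) h9 2
    _ = ρ ^ 2 * D := by rw [mul_pow, h8]

section Local

variable {M : Type*} [TopologicalSpace M] [T2Space M] [CompactSpace M] [ChartedSpace E2 M]
  [IsManifold (𝓡 2) ∞ M] [RiemannianBundle (fun x : M => TangentSpace (𝓡 2) x)]
  [IsContMDiffRiemannianBundle (𝓡 2) ∞ E2 (fun x : M => TangentSpace (𝓡 2) x)]
  [MeasurableSpace M] [BorelSpace M] {vol : Measure M}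

/-- The logarithm of the density. -/
noncomputable def Lg {x0 : M} (p : Param vol x0) (h : M → ℝ) (lam : ℝ) (y : E2) : ℝ :=
  Real.log (lam * h (p.P y) * p.σ y)

/-- The local function, cut off. -/
noncomputable def Wf {x0 : M} (p : Param vol x0) (h : M → ℝ) (lam : ℝ) (u : M → ℝ) (y : E2) : ℝ :=
  chi (p.δ / 2) y * (u (p.P y) + Lg p h lam y)

/-- The coefficient field, cut off. -/
noncomputable def af {x0 : M} (p : Param vol x0) (y : E2) : E2 →L[ℝ] E2 :=
  ContinuousLinearMap.id ℝ E2 + chi (p.δ / 2) y • (p.a y - ContinuousLinearMap.id ℝ E2)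

variable {x0 : M} (p : Param vol x0)

lemma Lg_smooth {h : M → ℝ} (hh : ContMDiff (𝓡 2) 𝓘(ℝ, ℝ) ∞ h) (hpos : ∀ x, 0 < h x) {lam : ℝ}
    (hlam : 0 < lam) : ContDiffOn ℝ ∞ (Lg p h lam) (Metric.ball 0 p.δ) := by
  unfold Lg
  apply ContDiffOn.log
  · exact (contDiffOn_const.mul (p.smooth_comp h hh)).mul p.σ_smooth
  · intro y hy
    have h1 := hpos (p.P y)
    have h2 := p.σ_pos y hy
    positivity

lemma Wf_smooth {h : M → ℝ} (hh : ContMDiff (𝓡 2) 𝓘(ℝ, ℝ) ∞ h) (hpos : ∀ x, 0 < h x) {lam : ℝ}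
    (hlam : 0 < lam) {u : M → ℝ} (hu : ContMDiff (𝓡 2) 𝓘(ℝ, ℝ) ∞ u) : ContDiff ℝ ∞ (Wf p h lam u) :=
  cut_smooth p.δ_pos ((p.smooth_comp u hu).add (Lg_smooth p hh hpos hlam))

lemma af_cont : Continuous (af p) :=
  continuous_const.add (cut_cont p.δ_pos (p.a_cont.sub continuousOn_const))

lemma chi_half_one {y : E2} (hy : y ∈ Metric.ball (0 : E2) (p.δ / 2)) : chi (p.δ / 2) y = 1 := by
  have hδ := p.δ_pos
  rw [mem_ball_zero_iff] at hy
  exact chi_one _ (by linarith) hy.le

lemma af_eq {y : E2} (hy : y ∈ Metric.ball (0 : E2) (p.δ / 2)) : af p y = p.a y := by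
  rw [af, chi_half_one p hy, one_smul]
  abel

lemma Wf_eq (h : M → ℝ) (lam : ℝ) (u : M → ℝ) {y : E2} (hy : y ∈ Metric.ball (0 : E2) (p.δ / 2)) :
    Wf p h lam u y = u (p.P y) + Lg p h lam y := by
  rw [Wf, chi_half_one p hy, one_mul]

lemma half_sub : Metric.ball (0 : E2) (p.δ / 2) ⊆ Metric.ball 0 p.δ :=
  Metric.ball_subset_ball (by have := p.δ_pos; linarith)

lemma exp_Wf {h : M → ℝ} (hpos : ∀ x, 0 < h x) {lam : ℝ}
    (hlam : 0 < lam) (u : M → ℝ) {y : E2} (hy : y ∈ Metric.ball (0 : E2) (p.δ / 2)) :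
    Real.exp (Wf p h lam u y) = lam * (h (p.P y) * Real.exp (u (p.P y)) * p.σ y) := by
  have h1 := hpos (p.P y)
  have h2 := p.σ_pos y (half_sub p hy)
  rw [Wf_eq p h lam u hy, Real.exp_add, Lg, Real.exp_log (by positivity)]
  ring

/-- Masses in the parametrisation. -/
lemma mass_param {h : M → ℝ} (hh : Continuous h) (hpos : ∀ x, 0 < h x) {lam : ℝ}
    (hlam : 0 < lam) {u : M → ℝ} (hu : Continuous u) {A : Set E2} (hA : IsOpen A)
    (hAs : A ⊆ Metric.ball 0 (p.δ / 2)) :
    ∫ y in A, Real.exp (Wf p h lam u y) = lam * ∫ x in p.P '' A, h x * Real.exp (u x) ∂vol := by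
  have hc : Continuous (fun x => h x * Real.exp (u x)) := by fun_prop
  rw [Helper93.PS.integral_param p hc hA (hAs.trans (half_sub p)), ← integral_const_mul]
  refine setIntegral_congr_fun hA.measurableSet (fun y hy => ?_)
  exact exp_Wf p hpos hlam u (hAs hy)

lemma grad_comp_P {u : M → ℝ} (hu : ContMDiff (𝓡 2) 𝓘(ℝ, ℝ) ∞ u) {h : M → ℝ}
    (hh : ContMDiff (𝓡 2) 𝓘(ℝ, ℝ) ∞ h) (hpos : ∀ x, 0 < h x) {lam : ℝ}
    (hlam : 0 < lam) {y : E2} (hy : y ∈ Metric.ball (0 : E2) (p.δ / 2)) :
    gradient (Wf p h lam u) y = gradient (u ∘ p.P) y + gradient (Lg p h lam) y := by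
  have hy' := half_sub p hy
  have e1 : Wf p h lam u =ᶠ[𝓝 y] fun y => (u ∘ p.P) y + Lg p h lam y := by
    filter_upwards [Metric.isOpen_ball.mem_nhds hy] with z hz
    exact Wf_eq p h lam u hz
  have d1 : DifferentiableAt ℝ (u ∘ p.P) y :=
    ((p.smooth_comp u hu).contDiffAt (Metric.isOpen_ball.mem_nhds hy')).differentiableAt (by simp)
  have d2 : DifferentiableAt ℝ (Lg p h lam) y :=
    ((Lg_smooth p hh hpos hlam).contDiffAt (Metric.isOpen_ball.mem_nhds hy')).differentiableAt (by simp)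
  rw [← Pool.Agent.Helper41.PS.grad_add d1 d2, gradient, gradient, e1.fderiv_eq]

end Local

end Pool.Agent.Helper41.PS
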