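import Pool.Agent.Helper41.PS.LocRep

/-!
# The equation in a local parametrisation
-/

open MeasureTheory Set Manifold Bundle Filter Topology
open scoped ContDiff ENNReal

set_option linter.unusedSectionVars false

namespace Pool.Agent.Helper41.PS

/-- L1 against L2 on a disc. -/
lemma l1_le_l2 {f : E2 → ℝ} (hf : Continuous f) {ρ : ℝ} (hρ : 0 ≤ ρ) (hs : HasCompactSupport f) :
    ∫ x in Metric.ball (0 : E2) ρ, |f x| ≤ 2 * ρ * √(∫ x, f x ^ 2) := by
  have h1 : MemLp f 2 (volume.restrict (Metric.ball (0 : E2) ρ)) :=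
    (memLp_cc hf hs).restrict _
  have hfin : IsFiniteMeasure (volume.restrict (Metric.ball (0 : E2) ρ)) :=
    ⟨by rw [Measure.restrict_apply_univ]; exact measure_ball_lt_top⟩
  have h2 : MemLp (fun _ : E2 => (1 : ℝ)) 2 (volume.restrict (Metric.ball (0 : E2) ρ)) := memLp_const 1
  have h3 := cs_integral h1 h2
  simp only [abs_one, mul_one, one_pow] at h3
  have h4 : ∫ _ in Metric.ball (0 : E2) ρ, (1 : ℝ) = Real.pi * ρ ^ 2 := by
    rw [setIntegral_const, volume_ball_real 0 hρ, smul_eq_mul, mul_one]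
  rw [h4] at h3
  have h5 : √(Real.pi * ρ ^ 2) ≤ 2 * ρ := by
    rw [Real.sqrt_le_iff]
    have := Real.pi_lt_four
    exact ⟨by positivity, by nlinarith [sq_nonneg ρ]⟩
  have h6 : √(∫ x in Metric.ball (0 : E2) ρ, f x ^ 2) ≤ √(∫ x, f x ^ 2) := by
    apply Real.sqrt_le_sqrt
    apply setIntegral_le_integral
    · exact integrable_cc (by fun_prop) (hs.comp_left (g := fun t : ℝ => t ^ 2) (by norm_num))
    · exact Eventually.of_forall (fun x => sq_nonneg _)
  calc ∫ x in Metric.ball (0 : E2) ρ, |f x| ≤ _ := h3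
    _ ≤ √(∫ x, f x ^ 2) * (2 * ρ) := mul_le_mul h6 h5 (Real.sqrt_nonneg _) (Real.sqrt_nonneg _)
    _ = _ := by ring

section Local

variable {M : Type*} [TopologicalSpace M] [T2Space M] [CompactSpace M] [ChartedSpace E2 M]
  [IsManifold (𝓡 2) ∞ M] [RiemannianBundle (fun x : M => TangentSpace (𝓡 2) x)]
  [IsContMDiffRiemannianBundle (𝓡 2) ∞ E2 (fun x : M => TangentSpace (𝓡 2) x)]
  [MeasurableSpace M] [BorelSpace M] {vol : Measure M}

variable {x0 : M} (p : Param vol x0)

lemma exists_consts {h : M → ℝ} (hh : ContMDiff (𝓡 2) 𝓘(ℝ, ℝ) ∞ h) (hpos : ∀ x, 0 < h x) {lam : ℝ}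
    (hlam : 0 < lam) : ∃ B : ℝ, 1 ≤ B ∧ ∀ y ∈ Metric.ball (0 : E2) (p.δ / 2),
      p.σ y ≤ B ∧ ‖p.a y‖ ≤ B ∧ ‖gradient (Lg p h lam) y‖ ≤ B ∧ |Lg p h lam y| ≤ B := by
  have hδ := p.δ_pos
  have hsub : Metric.closedBall (0 : E2) (p.δ / 2) ⊆ Metric.ball 0 p.δ :=
    Metric.closedBall_subset_ball (by linarith)
  have hc := isCompact_closedBall (0 : E2) (p.δ / 2)
  have hL := Lg_smooth p hh hpos hlam
  obtain ⟨B1, h1⟩ := hc.exists_bound_of_continuousOn (p.σ_smooth.continuousOn.mono hsub)
  obtain ⟨B2, h2⟩ := hc.exists_bound_of_continuousOn (p.a_cont.mono hsub)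
  obtain ⟨B3, h3⟩ := hc.exists_bound_of_continuousOn
    ((Helper93.PS.cont_gradient Metric.isOpen_ball hL).mono hsub)
  obtain ⟨B4, h4⟩ := hc.exists_bound_of_continuousOn (hL.continuousOn.mono hsub)
  refine ⟨max 1 (max (max B1 B2) (max B3 B4)), le_max_left _ _, fun y hy => ?_⟩
  have hy' := Metric.ball_subset_closedBall hy
  have m1 : B1 ≤ max 1 (max (max B1 B2) (max B3 B4)) :=
    (le_max_left _ _).trans ((le_max_left _ _).trans (le_max_right _ _))
  have m2 : B2 ≤ max 1 (max (max B1 B2) (max B3 B4)) :=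
    (le_max_right _ _).trans ((le_max_left _ _).trans (le_max_right _ _))
  have m3 : B3 ≤ max 1 (max (max B1 B2) (max B3 B4)) :=
    (le_max_left _ _).trans ((le_max_right _ _).trans (le_max_right _ _))
  have m4 : B4 ≤ max 1 (max (max B1 B2) (max B3 B4)) :=
    (le_max_right _ _).trans ((le_max_right _ _).trans (le_max_right _ _))
  exact ⟨((le_abs_self _).trans (h1 y hy')).trans m1, (h2 y hy').trans m2, (h3 y hy').trans m3,
    (h4 y hy').trans m4⟩

lemma grad_ext_zero {v : E2 → ℝ} (hs : HasCompactSupport v) (ht : tsupport v ⊆ Metric.ball 0 p.δ)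
    {V : M → ℝ} (hV1 : ∀ y ∈ Metric.ball (0 : E2) p.δ, V (p.P y) = v y)
    (hV2 : ∀ x, x ∉ p.P '' (Metric.ball 0 p.δ) → V x = 0) {x : M} (hx : x ∉ p.P '' (tsupport v)) :
    grad V x = 0 := by
  have hcl : IsClosed (p.P '' (tsupport v)) := by
    have hc : IsCompact (tsupport v) := hs
    exact (hc.image_of_continuousOn (p.cont_P.mono ht)).isClosed
  have hz : ∀ z, z ∉ p.P '' (tsupport v) → V z = 0 := by
    intro z hz
    by_cases hz2 : z ∈ p.P '' (Metric.ball 0 p.δ)
    · obtain ⟨y, hy, rfl⟩ := hz2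
      rw [hV1 y hy]
      apply image_eq_zero_of_notMem_tsupport
      intro hyt
      exact hz ⟨y, hyt, rfl⟩
    · exact hV2 z hz2
  have he : V =ᶠ[𝓝 x] fun _ => (0 : ℝ) := by
    filter_upwards [hcl.isOpen_compl.mem_nhds hx] with z hzz
    exact hz z hzz
  have h1 : grad V x = grad (fun _ : M => (0 : ℝ)) x := by
    rw [Helper93.PS.grad_eq_symm, Helper93.PS.grad_eq_symm]
    congr 1
    exact he.mfderiv_eq
  rw [h1]
  exact Helper93.PS.grad_const 0 x

/-- The equation in the parametrisation. -/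
theorem local_weak {h : M → ℝ} (hh : ContMDiff (𝓡 2) 𝓘(ℝ, ℝ) ∞ h) (hpos : ∀ x, 0 < h x) {lam : ℝ}
    (hlam : 0 < lam) {B : ℝ} (hB1 : 1 ≤ B) (hB : ∀ y ∈ Metric.ball (0 : E2) (p.δ / 2),
      p.σ y ≤ B ∧ ‖p.a y‖ ≤ B ∧ ‖gradient (Lg p h lam) y‖ ≤ B ∧ |Lg p h lam y| ≤ B)
    {u : M → ℝ} (hu : ContMDiff (𝓡 2) 𝓘(ℝ, ℝ) ∞ u) {ε : ℝ} (hε : 0 ≤ ε)
    (hweak : ∀ φ : M → ℝ, ContMDiff (𝓡 2) 𝓘(ℝ, ℝ) ∞ φ →
      |(∫ x, inner ℝ (grad u x) (grad φ x) ∂vol) + lam * (∫ x, φ x ∂vol)
         - lam * ∫ x, h x * Real.exp (u x) * φ x ∂vol|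
        ≤ ε * √((∫ x, φ x ^ 2 ∂vol) + ∫ x, ‖grad φ x‖ ^ 2 ∂vol))
    {ρ : ℝ} (hρ0 : 0 < ρ) (hρ1 : ρ ≤ 1) (hρδ : ρ ≤ p.δ / 2)
    {v : E2 → ℝ} (hv : ContDiff ℝ ∞ v) (hs : HasCompactSupport v) (ht : tsupport v ⊆ Metric.ball 0 ρ) :
    |(∫ x, inner ℝ (af p x (gradient (Wf p h lam u) x)) (gradient v x))
        - ∫ x, Real.exp (Wf p h lam u x) * v x|
      ≤ ((2 * B + 1) + 2 * lam * B + 2 * B ^ 2) * (ε + ρ) * √(∫ x, ‖gradient v x‖ ^ 2) := by
  have hδ := p.δ_pos
  have hvc := hv.continuous
  have hgv := smooth_grad_cont hv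
  have hsg := hasCompactSupport_grad hs
  have hρh : Metric.ball (0 : E2) ρ ⊆ Metric.ball 0 (p.δ / 2) := Metric.ball_subset_ball hρδ
  have hth : tsupport v ⊆ Metric.ball 0 (p.δ / 2) := ht.trans hρh
  have htδ : tsupport v ⊆ Metric.ball 0 p.δ := hth.trans (half_sub p)
  obtain ⟨V, hVs, hV1, hV2⟩ := p.extend v hv hs htδ
  have hVc : Continuous V := hVs.continuous
  have huc : Continuous u := hu.continuous
  have hhc : Continuous h := hh.continuous
  have hVz : ∀ x, x ∉ p.P '' (Metric.ball 0 p.δ) → grad V x = 0 := by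
    intro x hx
    apply grad_ext_zero p hs htδ hV1 hV2
    exact fun h => hx (image_mono htδ h)
  have hg0 : ∀ y, y ∉ Metric.ball (0 : E2) ρ → gradient v y = 0 := fun y hy =>
    image_eq_zero_of_notMem_tsupport (fun h => hy (ht (tsupport_grad_subset v h)))
  have hv0 : ∀ y, y ∉ Metric.ball (0 : E2) ρ → v y = 0 := fun y hy =>
    image_eq_zero_of_notMem_tsupport (fun h => hy (ht h))
  have hVg : ∀ y ∈ Metric.ball (0 : E2) p.δ, gradient (V ∘ p.P) y = gradient v y := by
    intro y hy
    have : V ∘ p.P =ᶠ[𝓝 y] v := by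
      filter_upwards [Metric.isOpen_ball.mem_nhds hy] with z hz
      exact hV1 z hz
    rw [gradient, gradient, this.fderiv_eq]
  -- transfer of integrals
  have htr : ∀ f : M → ℝ, Continuous f → (∀ x, x ∉ p.P '' (Metric.ball 0 p.δ) → f x = 0) →
      ∫ x, f x ∂vol = ∫ y in Metric.ball (0 : E2) p.δ, f (p.P y) * p.σ y := by
    intro f hf hf0
    rw [← Helper93.PS.integral_param p hf Metric.isOpen_ball Subset.rfl,
      setIntegral_eq_integral_of_forall_compl_eq_zero hf0]
  set W := Wf p h lam u with hW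
  have hWs : ContDiff ℝ ∞ W := Wf_smooth p hh hpos hlam hu
  have hWc := hWs.continuous
  have hgW := smooth_grad_cont hWs
  have hac := af_cont p
  set Lc : E2 → E2 := fun y => chi (p.δ / 2) y • gradient (Lg p h lam) y with hLc
  have hLcc : Continuous Lc :=
    cut_cont hδ (Helper93.PS.cont_gradient Metric.isOpen_ball (Lg_smooth p hh hpos hlam))
  have hcs : ∀ F : E2 → E2, HasCompactSupport (fun x => inner ℝ (F x) (gradient v x)) := by
    intro F
    apply hsg.mono'
    intro x hx
    apply subset_tsupport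
    rw [Function.mem_support] at hx ⊢
    intro h
    apply hx
    rw [h, inner_zero_right]
  have haW : Continuous (fun x => af p x (gradient W x)) := hac.clm_apply hgW
  have haL : Continuous (fun x => af p x (Lc x)) := hac.clm_apply hLcc
  have I1 := integrable_cc (haW.inner hgv) (hcs _)
  have I2 := integrable_cc (haL.inner hgv) (hcs _)
  -- Dirichlet term
  have e1 : ∫ x, inner ℝ (grad u x) (grad V x) ∂vol
      = (∫ x, inner ℝ (af p x (gradient W x)) (gradient v x)) - ∫ x, inner ℝ (af p x (Lc x)) (gradient v x) := by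
    rw [htr _ (Helper93.PS.continuous_inner_grad hu hVs) (fun x hx => by rw [hVz x hx, inner_zero_right]),
      ← integral_sub I1 I2]
    have e2 : ∀ x : E2, x ∉ Metric.ball (0 : E2) p.δ → inner ℝ (af p x (gradient W x)) (gradient v x)
        - inner ℝ (af p x (Lc x)) (gradient v x) = 0 := by
      intro x hx
      rw [hg0 x (fun h => hx (half_sub p (hρh h)))]
      simp
    rw [← setIntegral_eq_integral_of_forall_compl_eq_zero e2]
    refine setIntegral_congr_fun Metric.isOpen_ball.measurableSet (fun y hy => ?_)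
    rw [p.grad_eq u V hu hVs y hy, hVg y hy]
    by_cases hy2 : y ∈ Metric.ball (0 : E2) ρ
    · have hy3 := hρh hy2
      rw [af_eq p hy3, ← inner_sub_left, ← map_sub, hW, grad_comp_P p hu hh hpos hlam hy3, hLc]
      simp only
      rw [chi_half_one p hy3, one_smul, add_sub_cancel_right]
    · rw [hg0 y hy2]
      simp
  have e3 : ∫ x, V x ∂vol = ∫ y in Metric.ball (0 : E2) p.δ, v y * p.σ y := by
    rw [htr V hVc hV2]
    refine setIntegral_congr_fun Metric.isOpen_ball.measurableSet (fun y hy => ?_)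
    rw [hV1 y hy]
  have e4 : lam * ∫ x, h x * Real.exp (u x) * V x ∂vol = ∫ x, Real.exp (W x) * v x := by
    have hc1 : Continuous (fun x => h x * Real.exp (u x) * V x) := by fun_prop
    rw [htr _ hc1 (fun x hx => by rw [hV2 x hx, mul_zero]), ← integral_const_mul]
    have e5 : ∀ x : E2, x ∉ Metric.ball (0 : E2) p.δ → Real.exp (W x) * v x = 0 := by
      intro x hx
      rw [hv0 x (fun h => hx (half_sub p (hρh h))), mul_zero]
    rw [← setIntegral_eq_integral_of_forall_compl_eq_zero e5]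
    refine setIntegral_congr_fun Metric.isOpen_ball.measurableSet (fun y hy => ?_)
    rw [hV1 y hy]
    by_cases hy2 : y ∈ Metric.ball (0 : E2) ρ
    · rw [hW, exp_Wf p hpos hlam u (hρh hy2)]
      ring
    · rw [hv0 y hy2]
      ring
  -- norms
  set D := ∫ x, ‖gradient v x‖ ^ 2 with hD
  have hD0 : 0 ≤ D := integral_nonneg (fun x => sq_nonneg _)
  have hfr := friedrichs hv hs hρ0.le ht
  rw [← hD] at hfr
  have iv2 : Integrable (fun x => v x ^ 2) :=
    integrable_cc (by fun_prop) (hs.comp_left (g := fun t : ℝ => t ^ 2) (by norm_num))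
  have iD : Integrable (fun x => ‖gradient v x‖ ^ 2) :=
    integrable_cc (by fun_prop) ((hsg.norm).comp_left (g := fun t : ℝ => t ^ 2) (by norm_num))
  have hσδ : ∀ y ∈ Metric.ball (0 : E2) ρ, 0 ≤ p.σ y ∧ p.σ y ≤ B := fun y hy =>
    ⟨(p.σ_pos y (half_sub p (hρh hy))).le, (hB y (hρh hy)).1⟩
  have e6 : ∫ x, V x ^ 2 ∂vol ≤ B * (ρ ^ 2 * D) := by
    have hc1 : Continuous (fun x => V x ^ 2) := by fun_prop
    rw [htr _ hc1 (fun x hx => by rw [hV2 x hx]; norm_num)]
    calc ∫ y in Metric.ball (0 : E2) p.δ, V (p.P y) ^ 2 * p.σ y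
        = ∫ y in Metric.ball (0 : E2) ρ, v y ^ 2 * p.σ y := by
          rw [setIntegral_congr_fun Metric.isOpen_ball.measurableSet
            (g := fun y => v y ^ 2 * p.σ y) (fun y hy => by simp only; rw [hV1 y hy])]
          apply setIntegral_eq_of_subset_of_forall_sdiff_eq_zero Metric.isOpen_ball.measurableSet
            (hρh.trans (half_sub p))
          intro y hy
          rw [hv0 y hy.2]
          ring
      _ ≤ ∫ y in Metric.ball (0 : E2) ρ, B * v y ^ 2 := by
          apply setIntegral_mono_on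
          · have hσc : ContinuousOn (fun y => v y ^ 2 * p.σ y) (Metric.closedBall 0 (p.δ / 2)) :=
              (by fun_prop : Continuous (fun y => v y ^ 2)).continuousOn.mul
                (p.σ_smooth.continuousOn.mono (Metric.closedBall_subset_ball (by linarith)))
            exact (hσc.integrableOn_compact (isCompact_closedBall _ _)).mono_set
              (hρh.trans Metric.ball_subset_closedBall)
          · exact (iv2.const_mul B).integrableOn
          · exact Metric.isOpen_ball.measurableSet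
          · intro y hy
            rw [mul_comm]
            exact mul_le_mul_of_nonneg_right (hσδ y hy).2 (sq_nonneg _)
      _ ≤ ∫ y, B * v y ^ 2 := by
          apply setIntegral_le_integral (iv2.const_mul B)
          exact Eventually.of_forall (fun y => by positivity)
      _ = B * ∫ y, v y ^ 2 := integral_const_mul _ _
      _ ≤ _ := mul_le_mul_of_nonneg_left hfr (by linarith)
  have e7 : ∫ x, ‖grad V x‖ ^ 2 ∂vol ≤ B * D := by
    have hc1 : Continuous (fun x => ‖grad V x‖ ^ 2) := (Helper93.PS.continuous_norm_grad hVs).pow 2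
    rw [htr _ hc1 (fun x hx => by rw [hVz x hx]; simp)]
    calc ∫ y in Metric.ball (0 : E2) p.δ, ‖grad V (p.P y)‖ ^ 2 * p.σ y
        = ∫ y in Metric.ball (0 : E2) ρ, inner ℝ (af p y (gradient v y)) (gradient v y) := by
          rw [setIntegral_congr_fun Metric.isOpen_ball.measurableSet
            (g := fun y => inner ℝ (p.a y (gradient v y)) (gradient v y)) (fun y hy => by
              simp only
              rw [← real_inner_self_eq_norm_sq, p.grad_eq V V hVs hVs y hy, hVg y hy])]
          rw [setIntegral_eq_of_subset_of_forall_sdiff_eq_zero Metric.isOpen_ball.measurableSet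
            (hρh.trans (half_sub p)) (f := fun y => inner ℝ (p.a y (gradient v y)) (gradient v y))
            (fun y hy => by rw [hg0 y hy.2]; simp)]
          refine setIntegral_congr_fun Metric.isOpen_ball.measurableSet (fun y hy => ?_)
          rw [af_eq p (hρh hy)]
      _ ≤ ∫ y in Metric.ball (0 : E2) ρ, B * ‖gradient v y‖ ^ 2 := by
          apply setIntegral_mono_on
          · exact (integrable_cc ((hac.clm_apply hgv).inner hgv) (hcs _)).integrableOn
          · exact (iD.const_mul B).integrableOn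
          · exact Metric.isOpen_ball.measurableSet
          · intro y hy
            rw [af_eq p (hρh hy)]
            calc inner ℝ (p.a y (gradient v y)) (gradient v y) ≤ ‖p.a y (gradient v y)‖ * ‖gradient v y‖ :=
                  real_inner_le_norm _ _
              _ ≤ (‖p.a y‖ * ‖gradient v y‖) * ‖gradient v y‖ :=
                  mul_le_mul_of_nonneg_right ((p.a y).le_opNorm _) (norm_nonneg _)
              _ ≤ (B * ‖gradient v y‖) * ‖gradient v y‖ := by
                  have := (hB y (hρh hy)).2.1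
                  gcongr
              _ = _ := by ring
      _ ≤ ∫ y, B * ‖gradient v y‖ ^ 2 := by
          apply setIntegral_le_integral (iD.const_mul B)
          exact Eventually.of_forall (fun y => by positivity)
      _ = B * D := integral_const_mul _ _
  have e8 : √((∫ x, V x ^ 2 ∂vol) + ∫ x, ‖grad V x‖ ^ 2 ∂vol) ≤ (2 * B + 1) * √D := by
    have h1 : (∫ x, V x ^ 2 ∂vol) + ∫ x, ‖grad V x‖ ^ 2 ∂vol ≤ (2 * B + 1) ^ 2 * D := by
      have h2 : ρ ^ 2 ≤ 1 := pow_le_one₀ hρ0.le hρ1
      have h3 : B * (ρ ^ 2 * D) ≤ B * D := by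
        apply mul_le_mul_of_nonneg_left _ (by linarith)
        exact mul_le_of_le_one_left hD0 h2
      have h4 : 2 * B ≤ (2 * B + 1) ^ 2 := by nlinarith
      have h5 : 2 * B * D ≤ (2 * B + 1) ^ 2 * D := mul_le_mul_of_nonneg_right h4 hD0
      linarith
    calc _ ≤ √((2 * B + 1) ^ 2 * D) := Real.sqrt_le_sqrt h1
      _ = (2 * B + 1) * √D := by rw [Real.sqrt_mul (by positivity), Real.sqrt_sq (by linarith)]
  have e9 : |lam * ∫ x, V x ∂vol| ≤ 2 * lam * B * (ρ * √D) := by
    rw [e3, abs_mul, abs_of_pos hlam]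
    have h1 : |∫ y in Metric.ball (0 : E2) p.δ, v y * p.σ y| ≤ B * ∫ y in Metric.ball (0 : E2) ρ, |v y| := by
      have h2 : ∫ y in Metric.ball (0 : E2) p.δ, v y * p.σ y = ∫ y in Metric.ball (0 : E2) ρ, v y * p.σ y := by
        apply setIntegral_eq_of_subset_of_forall_sdiff_eq_zero Metric.isOpen_ball.measurableSet
          (hρh.trans (half_sub p))
        intro y hy
        rw [hv0 y hy.2]
        ring
      rw [h2, ← integral_const_mul, ← Real.norm_eq_abs]
      apply norm_integral_le_of_norm_le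
      · exact ((integrable_cc hvc hs).abs.const_mul B).integrableOn
      · filter_upwards [ae_restrict_mem Metric.isOpen_ball.measurableSet] with y hy
        rw [norm_mul, Real.norm_eq_abs, Real.norm_of_nonneg (hσδ y hy).1, mul_comm]
        exact mul_le_mul_of_nonneg_right (hσδ y hy).2 (abs_nonneg _)
    have h3 := l1_le_l2 hvc hρ0.le hs
    have h4 : √(∫ x, v x ^ 2) ≤ √D := by
      apply Real.sqrt_le_sqrt
      refine hfr.trans ?_
      exact mul_le_of_le_one_left hD0 (pow_le_one₀ hρ0.le hρ1)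
    calc lam * |∫ y in Metric.ball (0 : E2) p.δ, v y * p.σ y|
        ≤ lam * (B * (2 * ρ * √D)) := by
          apply mul_le_mul_of_nonneg_left _ hlam.le
          refine h1.trans ?_
          apply mul_le_mul_of_nonneg_left _ (by linarith)
          refine h3.trans ?_
          exact mul_le_mul_of_nonneg_left h4 (by positivity)
      _ = _ := by ring
  have e10 : |∫ x, inner ℝ (af p x (Lc x)) (gradient v x)| ≤ 2 * B ^ 2 * (ρ * √D) := by
    have h1 : ∫ x, inner ℝ (af p x (Lc x)) (gradient v x)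
        = ∫ x in Metric.ball (0 : E2) ρ, inner ℝ (af p x (Lc x)) (gradient v x) := by
      rw [setIntegral_eq_integral_of_forall_compl_eq_zero]
      intro x hx
      rw [hg0 x hx, inner_zero_right]
    have h2 : |∫ x in Metric.ball (0 : E2) ρ, inner ℝ (af p x (Lc x)) (gradient v x)|
        ≤ ∫ x in Metric.ball (0 : E2) ρ, B ^ 2 * |‖gradient v x‖| := by
      rw [← Real.norm_eq_abs]
      apply norm_integral_le_of_norm_le
      · exact ((integrable_cc hgv.norm hsg.norm).abs.const_mul _).integrableOn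
      · filter_upwards [ae_restrict_mem Metric.isOpen_ball.measurableSet] with y hy
        have hy3 := hρh hy
        rw [abs_norm]
        refine (norm_inner_le_norm _ _).trans ?_
        apply mul_le_mul_of_nonneg_right _ (norm_nonneg _)
        rw [af_eq p hy3]
        refine ((p.a y).le_opNorm _).trans ?_
        have h3 : ‖Lc y‖ ≤ B := by
          simp only [hLc]
          rw [chi_half_one p hy3, one_smul]
          exact (hB y hy3).2.2.1
        calc ‖p.a y‖ * ‖Lc y‖ ≤ B * B := mul_le_mul (hB y hy3).2.1 h3 (norm_nonneg _) (by linarith)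
          _ = B ^ 2 := by ring
    have h3 := l1_le_l2 hgv.norm hρ0.le hsg.norm
    rw [h1]
    refine h2.trans ?_
    rw [integral_const_mul]
    calc B ^ 2 * ∫ x in Metric.ball (0 : E2) ρ, |‖gradient v x‖| ≤ B ^ 2 * (2 * ρ * √D) :=
          mul_le_mul_of_nonneg_left h3 (by positivity)
      _ = _ := by ring
  have hw := hweak V hVs
  rw [e1, e4] at hw
  have hw2 : ε * √((∫ x, V x ^ 2 ∂vol) + ∫ x, ‖grad V x‖ ^ 2 ∂vol) ≤ ε * ((2 * B + 1) * √D) :=
    mul_le_mul_of_nonneg_left e8 hε
  have hsD := Real.sqrt_nonneg D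
  have hfinal : ε * ((2 * B + 1) * √D) + 2 * lam * B * (ρ * √D) + 2 * B ^ 2 * (ρ * √D)
      ≤ ((2 * B + 1) + 2 * lam * B + 2 * B ^ 2) * (ε + ρ) * √D := by
    have p1 : 0 ≤ ε * √D := by positivity
    have p2 : 0 ≤ ρ * √D := by positivity
    have p3 : 0 ≤ lam * B * (ε * √D) := by positivity
    have p4 : 0 ≤ B ^ 2 * (ε * √D) := by positivity
    have p5 : 0 ≤ (2 * B + 1) * (ρ * √D) := by positivity
    nlinarith
  refine le_trans ?_ hfinal
  rw [abs_le] at hw e9 e10 ⊢
  constructor
  · linarith [hw.1, hw.2, e9.1, e9.2, e10.1, e10.2]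
  · linarith [hw.1, hw.2, e9.1, e9.2, e10.1, e10.2]

end Local

end Pool.Agent.Helper41.PS
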