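import Pool.Agent.Helper41.PS.LocRep2
import Pool.Agent.Helper99.PS.Global

/-!
# Local package around a point of the surface
-/

open MeasureTheory Set Manifold Bundle Filter Topology
open scoped ContDiff ENNReal

set_option linter.unusedSectionVars false

namespace Pool.Agent.Helper41.PS

lemma radius_le {x : E2} {r R : ℝ} (hr : 0 < r) (hR : 0 < R)
    (h : Metric.ball x r ⊆ Metric.ball (0 : E2) R) : r ≤ R := by
  have h1 : volume.real (Metric.ball x r) ≤ volume.real (Metric.ball (0 : E2) R) :=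
    measureReal_mono h measure_ball_lt_top.ne
  rw [volume_ball_real x hr.le, volume_ball_real 0 hR.le] at h1
  have h2 : r ^ 2 ≤ R ^ 2 := le_of_mul_le_mul_left h1 Real.pi_pos
  exact le_of_sq_le_sq h2 hR.le

section Local

variable {M : Type*} [TopologicalSpace M] [T2Space M] [CompactSpace M] [ChartedSpace E2 M]
  [IsManifold (𝓡 2) ∞ M] [RiemannianBundle (fun x : M => TangentSpace (𝓡 2) x)]
  [IsContMDiffRiemannianBundle (𝓡 2) ∞ E2 (fun x : M => TangentSpace (𝓡 2) x)]
  [MeasurableSpace M] [BorelSpace M] {vol : Measure M}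

variable {x0 : M} (p : Param vol x0)

lemma exists_modulus : ∃ ηf : ℝ → ℝ, (∀ ρ, 0 ≤ ηf ρ) ∧
    (∀ ρ, ∀ y ∈ Metric.ball (0 : E2) ρ, ‖af p y - ContinuousLinearMap.id ℝ E2‖ ≤ ηf ρ) ∧
    Tendsto ηf (𝓝[>] 0) (𝓝 0) := by
  have hac := af_cont p
  have hfc : Continuous (fun y => ‖af p y - ContinuousLinearMap.id ℝ E2‖) := by fun_prop
  have hbdd : ∀ ρ : ℝ, BddAbove ((fun y => ‖af p y - ContinuousLinearMap.id ℝ E2‖) ''
      Metric.closedBall (0 : E2) ρ) := fun ρ =>
    ((isCompact_closedBall (0 : E2) ρ).image hfc).bddAbove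
  refine ⟨fun ρ => sSup ((fun y => ‖af p y - ContinuousLinearMap.id ℝ E2‖) '' Metric.closedBall (0 : E2) ρ),
    fun ρ => ?_, fun ρ y hy => ?_, ?_⟩
  · apply Real.sSup_nonneg
    rintro _ ⟨y, _, rfl⟩
    exact norm_nonneg _
  · exact le_csSup (hbdd ρ) ⟨y, Metric.ball_subset_closedBall hy, rfl⟩
  · rw [Metric.tendsto_nhdsWithin_nhds]
    intro e he
    have h0 : af p 0 = ContinuousLinearMap.id ℝ E2 := by
      rw [af, p.a_zero, sub_self, smul_zero, add_zero]
    have h1 : Tendsto (fun y => ‖af p y - ContinuousLinearMap.id ℝ E2‖) (𝓝 0) (𝓝 0) := by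
      have := hfc.tendsto 0
      rwa [h0, sub_self, norm_zero] at this
    obtain ⟨d, hd, hd2⟩ := Metric.tendsto_nhds_nhds.mp h1 (e / 2) (by positivity)
    refine ⟨d, hd, fun {ρ} hρ hρd => ?_⟩
    rw [dist_zero_right, Real.norm_of_nonneg]
    · rw [dist_zero_right, Real.norm_of_nonneg (le_of_lt hρ)] at hρd
      refine lt_of_le_of_lt (csSup_le ?_ ?_) (by linarith : e / 2 < e)
      · exact ⟨_, 0, Metric.mem_closedBall_self (le_of_lt hρ), rfl⟩
      · rintro _ ⟨y, hy, rfl⟩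
        have := hd2 (x := y) (lt_of_le_of_lt hy hρd)
        rw [dist_zero_right, norm_norm] at this
        exact this.le
    · apply Real.sSup_nonneg
      rintro _ ⟨y, _, rfl⟩
      exact norm_nonneg _

lemma exists_adm {h : M → ℝ} (hh : ContMDiff (𝓡 2) 𝓘(ℝ, ℝ) ∞ h) (hpos : ∀ x, 0 < h x) {lam : ℝ}
    (hlam : 0 < lam) : ∃ (B : ℝ) (ηf : ℝ → ℝ), 0 < B ∧ (∀ ρ, 0 ≤ ηf ρ) ∧
      Tendsto ηf (𝓝[>] 0) (𝓝 0) ∧ ∀ (u : M → ℝ) (ε : ℝ), ContMDiff (𝓡 2) 𝓘(ℝ, ℝ) ∞ u →
      Integrable (fun x => h x * Real.exp (u x)) vol →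
      ∫ x, h x * Real.exp (u x) ∂vol = 1 → 0 ≤ ε →
      (∀ φ : M → ℝ, ContMDiff (𝓡 2) 𝓘(ℝ, ℝ) ∞ φ →
      |(∫ x, inner ℝ (grad u x) (grad φ x) ∂vol) + lam * (∫ x, φ x ∂vol)
         - lam * ∫ x, h x * Real.exp (u x) * φ x ∂vol|
        ≤ ε * √((∫ x, φ x ^ 2 ∂vol) + ∫ x, ‖grad φ x‖ ^ 2 ∂vol)) →
      ∀ ρ, 0 < ρ → ρ ≤ 1 → ρ ≤ p.δ / 2 →
        Adm (af p) (Wf p h lam u) (ηf ρ) (B * (ε + ρ)) lam 0 ρ := by
  obtain ⟨B, hB1, hB⟩ := exists_consts p hh hpos hlam
  obtain ⟨ηf, hη0, hη1, hη2⟩ := exists_modulus p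
  refine ⟨(2 * B + 1) + 2 * lam * B + 2 * B ^ 2, ηf, by positivity, hη0, hη2, ?_⟩
  intro u ε hu hint hmass hε hweak ρ hρ0 hρ1 hρδ
  refine ⟨af_cont p, hη1 ρ, Wf_smooth p hh hpos hlam hu, ?_, ?_⟩
  · intro v hv hs ht
    exact local_weak p hh hpos hlam hB1 hB hu hε hweak hρ0 hρ1 hρδ hv hs ht
  · rw [mass_param p hh.continuous hpos hlam hu.continuous Metric.isOpen_ball
      (Metric.ball_subset_ball hρδ)]
    calc lam * ∫ x in p.P '' Metric.ball 0 ρ, h x * Real.exp (u x) ∂vol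
        ≤ lam * ∫ x, h x * Real.exp (u x) ∂vol := by
          apply mul_le_mul_of_nonneg_left _ hlam.le
          apply setIntegral_le_integral hint
          exact Eventually.of_forall (fun x => (mul_pos (hpos x) (Real.exp_pos _)).le)
      _ = lam := by rw [hmass, mul_one]

lemma exists_l1 [IsProbabilityMeasure vol] {h : M → ℝ} (hh : ContMDiff (𝓡 2) 𝓘(ℝ, ℝ) ∞ h)
    (hpos : ∀ x, 0 < h x) {lam : ℝ} (hlam : 0 < lam) : ∃ C : ℝ, 0 ≤ C ∧
      ∀ u : M → ℝ, ContMDiff (𝓡 2) 𝓘(ℝ, ℝ) ∞ u →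
        (∫ y in Metric.ball (0 : E2) (p.δ / 2), ‖fderiv ℝ (Wf p h lam u) y‖
          ≤ C * (1 + ∫ x, ‖grad u x‖ ∂vol)) ∧
        ∀ t : ℝ, ∫ y in Metric.ball (0 : E2) (p.δ / 2), |Wf p h lam u y - t|
          ≤ C * (1 + ∫ x, |u x - t| ∂vol) := by
  have hδ := p.δ_pos
  set r := p.δ / 2 with hr
  have hr0 : 0 < r := by positivity
  have hrδ : r < p.δ := by rw [hr]; linarith
  obtain ⟨B, hB1, hB⟩ := exists_consts p hh hpos hlam
  obtain ⟨c, C, hc, hC, hσ, hcmp⟩ := Pool.Agent.Helper93.PS.exists_grad_comparison p hrδ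
  have hsub : Metric.ball (0 : E2) r ⊆ Metric.ball 0 p.δ := Metric.ball_subset_ball hrδ.le
  have hcb : Metric.ball (0 : E2) r ⊆ Metric.closedBall 0 r := Metric.ball_subset_closedBall
  have hσc : ContinuousOn p.σ (Metric.closedBall 0 r) := p.σ_smooth.continuousOn.mono
    (Metric.closedBall_subset_ball hrδ)
  have hPc : ContinuousOn p.P (Metric.closedBall 0 r) := p.cont_P.mono
    (Metric.closedBall_subset_ball hrδ)
  have hint : ∀ g : M → ℝ, Continuous g →
      IntegrableOn (fun y => g (p.P y) * p.σ y) (Metric.ball (0 : E2) r) := fun g hg =>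
    (((hg.comp_continuousOn hPc).mul hσc).integrableOn_compact
      (isCompact_closedBall 0 r)).mono_set hcb
  have hsc : 0 < √c := Real.sqrt_pos.2 hc
  have hpi := Real.pi_pos
  have key : ∀ (g : M → ℝ) (f : E2 → ℝ) (D : ℝ), Continuous g → Continuous f → (∀ x, 0 ≤ g x) → 0 ≤ D →
      (∀ y ∈ Metric.ball (0 : E2) r, f y ≤ D * (g (p.P y) * p.σ y) + B) →
      ∫ y in Metric.ball (0 : E2) r, f y ≤ D * (∫ x, g x ∂vol) + B * (Real.pi * r ^ 2) := by
    intro g f D hg hf hg0 hD hle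
    calc ∫ y in Metric.ball (0 : E2) r, f y
        ≤ ∫ y in Metric.ball (0 : E2) r, (D * (g (p.P y) * p.σ y) + B) :=
          setIntegral_mono_on (intOn_ball hf _ _) (((hint g hg).const_mul D).add
            (intOn_ball continuous_const _ _)) Metric.isOpen_ball.measurableSet hle
      _ = D * (∫ y in Metric.ball (0 : E2) r, g (p.P y) * p.σ y) + B * (Real.pi * r ^ 2) := by
          rw [integral_add ((hint g hg).const_mul D) (intOn_ball continuous_const _ _),
            integral_const_mul, setIntegral_const, volume_ball_real 0 hr0.le, smul_eq_mul]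
          ring
      _ = D * (∫ x in p.P '' Metric.ball 0 r, g x ∂vol) + B * (Real.pi * r ^ 2) := by
          rw [Pool.Agent.Helper93.PS.integral_param p hg Metric.isOpen_ball hsub]
      _ ≤ _ := by
          have h1 : ∫ x in p.P '' Metric.ball 0 r, g x ∂vol ≤ ∫ x, g x ∂vol :=
            setIntegral_le_integral (Helper99.PS.integrable_of_cont hg) (Eventually.of_forall hg0)
          have := mul_le_mul_of_nonneg_left h1 hD
          linarith
  set D := 1 / (√c * c) + 1 / c with hD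
  have hD0 : 0 ≤ D := by positivity
  refine ⟨D + B * (Real.pi * r ^ 2), by positivity, fun u hu => ⟨?_, fun t => ?_⟩⟩
  · have hWs := Wf_smooth p hh hpos hlam hu
    have hG0 : 0 ≤ ∫ x, ‖grad u x‖ ∂vol := integral_nonneg (fun x => norm_nonneg _)
    have h1 := key (fun x => ‖grad u x‖) (fun y => ‖fderiv ℝ (Wf p h lam u) y‖) D
      (Pool.Agent.Helper93.PS.continuous_norm_grad hu)
      ((hWs.continuous_fderiv (by simp)).norm) (fun x => norm_nonneg _) hD0 (fun y hy => by
        have h1 := (hcmp u hu y (hcb hy)).1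
        have h2 : √c * ‖gradient (u ∘ p.P) y‖ ≤ ‖grad u (p.P y)‖ := by
          refine le_of_sq_le_sq ?_ (norm_nonneg _)
          rw [mul_pow, Real.sq_sqrt hc.le]
          exact h1
        have h3 := (hσ y (hcb hy)).1
        have hσ0 : 0 ≤ p.σ y := hc.le.trans h3
        have h4 : ‖gradient (u ∘ p.P) y‖ ≤ (1 / (√c * c)) * (‖grad u (p.P y)‖ * p.σ y) := by
          rw [one_div, ← div_eq_inv_mul, le_div_iff₀ (by positivity)]
          calc ‖gradient (u ∘ p.P) y‖ * (√c * c) = (√c * ‖gradient (u ∘ p.P) y‖) * c := by ring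
            _ ≤ ‖grad u (p.P y)‖ * p.σ y := mul_le_mul h2 h3 hc.le (norm_nonneg _)
        have h5 : (1 / (√c * c)) * (‖grad u (p.P y)‖ * p.σ y) ≤ D * (‖grad u (p.P y)‖ * p.σ y) := by
          apply mul_le_mul_of_nonneg_right _ (mul_nonneg (norm_nonneg _) hσ0)
          rw [hD]
          have : 0 ≤ 1 / c := by positivity
          linarith
        rw [← norm_grad, grad_comp_P p hu hh hpos hlam hy]
        refine (norm_add_le _ _).trans ?_
        have h6 := (hB y hy).2.2.1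
        linarith)
    have h2 : 0 ≤ B * (Real.pi * r ^ 2) := by positivity
    refine h1.trans ?_
    nlinarith [mul_nonneg h2 hG0]
  · have hWs := Wf_smooth p hh hpos hlam hu
    have huc := hu.continuous
    have hWc := hWs.continuous
    have hG0 : 0 ≤ ∫ x, |u x - t| ∂vol := integral_nonneg (fun x => abs_nonneg _)
    have h1 := key (fun x => |u x - t|) (fun y => |Wf p h lam u y - t|) D (by fun_prop) (by fun_prop)
      (fun x => abs_nonneg _) hD0 (fun y hy => by
        have h3 := (hσ y (hcb hy)).1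
        have hσ0 : 0 ≤ p.σ y := hc.le.trans h3
        have h4 : |u (p.P y) - t| ≤ (1 / c) * (|u (p.P y) - t| * p.σ y) := by
          rw [one_div, ← div_eq_inv_mul, le_div_iff₀ hc]
          exact mul_le_mul_of_nonneg_left h3 (abs_nonneg _)
        have h5 : (1 / c) * (|u (p.P y) - t| * p.σ y) ≤ D * (|u (p.P y) - t| * p.σ y) := by
          apply mul_le_mul_of_nonneg_right _ (mul_nonneg (abs_nonneg _) hσ0)
          rw [hD]
          have : 0 ≤ 1 / (√c * c) := by positivity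
          linarith
        rw [Wf_eq p h lam u hy]
        have h6 := (hB y hy).2.2.2
        have h7 : u (p.P y) + Lg p h lam y - t = (u (p.P y) - t) + Lg p h lam y := by ring
        rw [h7]
        refine (abs_add_le _ _).trans ?_
        linarith)
    have h2 : 0 ≤ B * (Real.pi * r ^ 2) := by positivity
    refine h1.trans ?_
    nlinarith [mul_nonneg h2 hG0]

end Local

end Pool.Agent.Helper41.PS
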