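import Pool.Agent.Helper41.PS.Slope
import Pool.Agent.Helper41.PS.SmallMass4

/-!
# The neck lemma
-/

open MeasureTheory Set Filter Topology Metric
open scoped ContDiff ENNReal NNReal

namespace Pool.Agent.Helper41.PS

/-- Jensen type lower bound of the mass of an annulus. -/
lemma exists_jensen : ∃ B : ℝ, 0 < B ∧ ∀ w : E2 → ℝ, Continuous w →
    Real.exp (AA w) ≤ B * (ms w 2 - ms w 1) := by
  obtain ⟨B, hB, hkB⟩ := exists_kap_bound
  refine ⟨B, hB, fun w hw => ?_⟩
  have hk := kap_contDiff.continuous
  set c := AA w with hc
  have i1 : Integrable (fun x => w x * kap x) := integrable_kap hw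
  have i0 : Integrable kap := integrable_cc hk kap_compact
  have i2 : Integrable (fun x => Real.exp (w x) * kap x) := integrable_kap (f := fun x => Real.exp (w x)) (by fun_prop)
  have e1 : Real.exp c = ∫ x, Real.exp c * ((1 + w x - c) * kap x) := by
    rw [integral_const_mul]
    have : ∀ x, (1 + w x - c) * kap x = (1 - c) * kap x + w x * kap x := fun x => by ring
    simp_rw [this]
    rw [integral_add (i0.const_mul _) i1, integral_const_mul, integral_kap]
    have : ∫ x, w x * kap x = c := rfl
    rw [this]
    ring
  have e2 : ∫ x, Real.exp c * ((1 + w x - c) * kap x) ≤ ∫ x, Real.exp (w x) * kap x := by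
    apply integral_mono
    · have : Integrable (fun x => (1 + w x - c) * kap x) :=
        integrable_kap (f := fun x => 1 + w x - c) (by fun_prop)
      exact this.const_mul _
    · exact i2
    · intro x
      simp only
      have h1 := Real.add_one_le_exp (w x - c)
      have h2 : Real.exp (w x) = Real.exp c * Real.exp (w x - c) := by
        rw [← Real.exp_add]
        ring_nf
      rw [h2, ← mul_assoc]
      apply mul_le_mul_of_nonneg_right _ (kap_nonneg x)
      apply mul_le_mul_of_nonneg_left _ (Real.exp_pos _).le
      linarith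
  have e3 : ∫ x, Real.exp (w x) * kap x ≤ B * (ms w 2 - ms w 1) := by
    have h1 := ms_ann hw (show (0 : ℝ) ≤ 1 by norm_num)
    rw [mul_one] at h1
    rw [← h1, ← integral_const_mul]
    have h2 : ∫ x, Real.exp (w x) * kap x = ∫ x in ann 1, Real.exp (w x) * kap x := by
      rw [setIntegral_eq_integral_of_forall_compl_eq_zero]
      intro x hx
      have : kap x = 0 := by
        rw [ann, mem_ofPred_eq, not_and_or, not_le, not_lt] at hx
        rcases hx with h | h
        · exact kap_zero_of_le h.le
        · exact kap_zero_of_ge (by linarith)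
      rw [this, mul_zero]
    rw [h2]
    apply setIntegral_mono_on i2.integrableOn
    · have : IntegrableOn (fun x => B * Real.exp (w x)) (ball (0 : E2) (2 * 1)) :=
        intOn_ball (by fun_prop) _ _
      exact this.mono_set (ann_subset_ball 1)
    · exact measurableSet_ann 1
    · intro x _
      rw [mul_comm]
      exact mul_le_mul_of_nonneg_right (hkB x) (Real.exp_pos _).le
  calc Real.exp c = _ := e1
    _ ≤ _ := e2.trans e3

/-- Upper bound of the mass of an annulus by the exponential of the average. -/
theorem exists_mass_le : ∃ ε0 : ℝ, 0 < ε0 ∧ ε0 ≤ 1 ∧ ∀ K : ℝ, 0 ≤ K → ∃ C : ℝ, 0 < C ∧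
    ∀ (a : E2 → E2 →L[ℝ] E2) (w : E2 → ℝ) (η ε Λ : ℝ), Adm a w η ε Λ 0 3 →
    η ≤ 1 / 2 → 0 ≤ ε → ε ≤ ε0 → ∫ x in ball (0 : E2) 3, ‖fderiv ℝ w x‖ ≤ K * 3 →
    ms w 3 - ms w (1 / 2) ≤ ε0 → ms w 2 - ms w 1 ≤ C * Real.exp (AA w) := by
  have hpi := Real.pi_pos
  obtain ⟨ε0, h0, h1, hK⟩ := exists_small_mass'
  obtain ⟨B, hB, hkB⟩ := exists_kap_bound
  refine ⟨ε0, h0, h1, fun K hK0 => ?_⟩
  set A := 54 * K * (1 + 9 * Real.pi * B) with hA
  have hA0 : 0 ≤ A := by positivity
  obtain ⟨C, hC, hmain⟩ := hK (64 * (A + 3 * K)) (by positivity)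
  set Kc : Set E2 := closedBall 0 2 \ ball 0 1 with hKc
  have hKcc : IsCompact Kc := (isCompact_closedBall (0 : E2) 2).diff isOpen_ball
  obtain ⟨N, hN⟩ := exists_cover_integral hKcc (show (0 : ℝ) < 1 / 16 by norm_num)
  refine ⟨N * (1 + C) + 1, by positivity, ?_⟩
  intro a w η ε Λ h hη hε0 hε hg hm
  have hwc := h.smooth.continuous
  have hw1 : ContDiff ℝ 1 w := h.smooth.of_le (by norm_cast)
  set c := AA w with hc
  set av := avg w 0 3 with hav
  have p1 : ∫ x in ball (0 : E2) 3, |w x - av| ≤ 54 * K := by
    refine (poincare_ball w hw1 0 (show (0 : ℝ) < 3 by norm_num)).trans ?_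
    linarith
  have p10 : 0 ≤ ∫ x in ball (0 : E2) 3, |w x - av| := integral_nonneg (fun x => abs_nonneg _)
  have p2 : |av - c| ≤ B * (54 * K) := by
    have e1 : c - av = ∫ x, (w x - av) * kap x := by
      have : ∀ x, (w x - av) * kap x = w x * kap x - av * kap x := fun x => by ring
      simp_rw [this]
      rw [integral_sub (integrable_kap hwc) ((integrable_cc kap_contDiff.continuous kap_compact).const_mul _),
        integral_const_mul, integral_kap, mul_one]
      rfl
    rw [abs_sub_comm, e1]
    have e2 : ∫ x, (w x - av) * kap x = ∫ x in ball (0 : E2) 3, (w x - av) * kap x := by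
      rw [setIntegral_eq_integral_of_forall_compl_eq_zero]
      intro x hx
      rw [kap_zero_of_ge, mul_zero]
      rw [mem_ball, dist_zero_right, not_lt] at hx
      linarith
    rw [e2]
    calc |∫ x in ball (0 : E2) 3, (w x - av) * kap x| ≤ ∫ x in ball (0 : E2) 3, B * |w x - av| := by
          rw [← Real.norm_eq_abs]
          apply norm_integral_le_of_norm_le
          · exact intOn_ball (by fun_prop) _ _
          · refine Eventually.of_forall (fun x => ?_)
            rw [norm_mul, Real.norm_of_nonneg (kap_nonneg x), Real.norm_eq_abs, mul_comm]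
            exact mul_le_mul_of_nonneg_right (hkB x) (abs_nonneg _)
      _ = B * ∫ x in ball (0 : E2) 3, |w x - av| := integral_const_mul _ _
      _ ≤ _ := mul_le_mul_of_nonneg_left p1 hB.le
  have p3 : ∫ x in ball (0 : E2) 3, |w x - c| ≤ A := by
    calc ∫ x in ball (0 : E2) 3, |w x - c| ≤ ∫ x in ball (0 : E2) 3, (|w x - av| + |av - c|) := by
          apply setIntegral_mono
          · exact intOn_ball (by fun_prop) _ _
          · exact intOn_ball (by fun_prop) _ _
          · intro x
            simp only
            have : w x - c = (w x - av) + (av - c) := by ring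
            rw [this]
            exact abs_add_le _ _
      _ = (∫ x in ball (0 : E2) 3, |w x - av|) + 9 * Real.pi * |av - c| := by
          rw [integral_add (intOn_ball (by fun_prop) _ _) (intOn_ball (by fun_prop) _ _), setIntegral_const,
            volume_ball_real 0 (by norm_num), smul_eq_mul]
          ring
      _ ≤ 54 * K + 9 * Real.pi * (B * (54 * K)) := by
          apply add_le_add p1
          exact mul_le_mul_of_nonneg_left p2 (by positivity)
      _ = A := by rw [hA]; ring
  have key : ∀ x ∈ Kc, ∫ z in ball x (1 / 16), Real.exp (w z) ≤ (1 + C) * Real.exp c := by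
    intro x hx
    have hx1 : ‖x‖ ≤ 2 := by simpa using hx.1
    have hx2 : 1 ≤ ‖x‖ := by
      have := hx.2
      rwa [mem_ball, dist_zero_right, not_lt] at this
    have hs : ball x (2 * (1 / 8)) ⊆ ball (0 : E2) 3 := by
      apply ball_subset_ball'
      rw [dist_zero_right]
      linarith
    obtain ⟨r1, -, -⟩ := hmain a w η ε Λ c 0 3 x (1 / 8) h (by norm_num) hs hη hε0 hε (by
      refine le_trans ?_ hm
      have e1 : ms w 3 - ms w (1 / 2) = ∫ z in ball (0 : E2) 3 \ ball 0 (1 / 2), Real.exp (w z) := by
        rw [setIntegral_sdiff measurableSet_ball (intOn_ball (by fun_prop) _ _)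
          (ball_subset_ball (by norm_num))]
        rfl
      rw [e1]
      have i1 : IntegrableOn (fun z => Real.exp (w z)) (ball (0 : E2) 3) := intOn_ball (by fun_prop) _ _
      apply setIntegral_mono_set (i1.mono_set diff_subset)
        (Eventually.of_forall (fun z => (Real.exp_pos _).le))
      refine Eventually.of_forall (fun z hz => ⟨hs hz, ?_⟩)
      intro hz2
      have h5 : dist z x < 2 * (1 / 8) := hz
      have h6 : ‖z‖ < 1 / 2 := by simpa using hz2
      have h7 : ‖x‖ ≤ ‖z‖ + dist z x := by
        rw [dist_eq_norm]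
        have := norm_sub_norm_le x z
        rw [norm_sub_rev] at this
        linarith
      linarith) (by
      have := setIntegral_mono_set (f := fun z => |w z - c|) (intOn_ball (by fun_prop) 0 3)
        (Eventually.of_forall (fun z => abs_nonneg _)) (Eventually.of_forall hs)
      refine this.trans (p3.trans ?_)
      norm_num
      linarith) (by
      have := setIntegral_mono_set (f := fun z => ‖fderiv ℝ w z‖) (intOn_grad hw1 0 3)
        (Eventually.of_forall (fun z => norm_nonneg _)) (Eventually.of_forall hs)
      refine this.trans (hg.trans ?_)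
      linarith)
    have e2 : ∀ z, Real.exp (w z) ≤ Real.exp c * (1 + Real.exp (2 * (w z - c))) := by
      intro z
      have e3 : Real.exp (w z) = Real.exp c * Real.exp (w z - c) := by
        rw [← Real.exp_add]
        ring_nf
      rw [e3]
      apply mul_le_mul_of_nonneg_left _ (Real.exp_pos _).le
      have e4 : Real.exp (2 * (w z - c)) = Real.exp (w z - c) ^ 2 := by
        rw [← Real.exp_nat_mul]
        push_cast
        ring_nf
      rw [e4]
      nlinarith [sq_nonneg (Real.exp (w z - c) - 1), Real.exp_pos (w z - c)]
    calc ∫ z in ball x (1 / 16), Real.exp (w z)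
        ≤ ∫ z in ball x (1 / 16), Real.exp c * (1 + Real.exp (2 * (w z - c))) := by
          apply setIntegral_mono
          · exact intOn_ball (by fun_prop) _ _
          · exact intOn_ball (by fun_prop) _ _
          · exact e2
      _ = Real.exp c * (Real.pi * (1 / 16) ^ 2 + ∫ z in ball x (1 / 16), Real.exp (2 * (w z - c))) := by
          rw [integral_const_mul, integral_add (intOn_ball (by fun_prop) _ _) (intOn_ball (by fun_prop) _ _),
            setIntegral_const, volume_ball_real x (by norm_num), smul_eq_mul, mul_one]
      _ ≤ Real.exp c * (1 + C) := by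
          apply mul_le_mul_of_nonneg_left _ (Real.exp_pos _).le
          apply add_le_add
          · have := Real.pi_lt_four
            nlinarith
          · have e5 : (1 : ℝ) / 8 / 2 = 1 / 16 := by norm_num
            rw [e5] at r1
            refine r1.trans ?_
            nlinarith
      _ = _ := by ring
  have hfin := hN (fun z => Real.exp (w z)) (by fun_prop) (fun z => (Real.exp_pos _).le) _ key
  have e6 : ms w 2 - ms w 1 ≤ ∫ z in Kc, Real.exp (w z) := by
    have h7 := ms_ann hwc (show (0 : ℝ) ≤ 1 by norm_num)
    rw [mul_one] at h7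
    rw [← h7]
    apply setIntegral_mono_set
    · have : Continuous (fun z => Real.exp (w z)) := by fun_prop
      exact this.continuousOn.integrableOn_compact hKcc
    · exact Eventually.of_forall (fun z => (Real.exp_pos _).le)
    · refine Eventually.of_forall (fun z hz => ?_)
      have hz' : 1 ≤ ‖z‖ ∧ ‖z‖ < 2 * 1 := hz
      refine ⟨?_, ?_⟩
      · rw [mem_closedBall, dist_zero_right]
        linarith [hz'.2]
      · rw [mem_ball, dist_zero_right, not_lt]
        exact hz'.1
  have e7 := Real.exp_pos c
  calc ms w 2 - ms w 1 ≤ N * ((1 + C) * Real.exp c) := e6.trans hfin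
    _ ≤ (N * (1 + C) + 1) * Real.exp c := by nlinarith

end Pool.Agent.Helper41.PS
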