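import Pool.Agent.Helper41.PS.Cutoff

/-!
# Oscillation estimate by duality
-/

open MeasureTheory Set Filter Topology Metric
open scoped ContDiff ENNReal NNReal

namespace Pool.Agent.Helper41.PS

section qbounds

variable {δ : ℝ} {ψ : E2 → ℝ}

lemma qq_grad_bound (hδ : 0 < δ) (hψ : Continuous ψ) (hs : HasCompactSupport ψ)
    (h3 : ∀ y, y ∉ closedBall (0 : E2) 3 → ψ y = 0) (h1 : ∀ y, |ψ y| ≤ 1) (x : E2) :
    ‖gradient (qq δ ψ) x‖ ≤ 5 := by
  have hpi := Real.pi_pos
  rw [qq_grad hδ hψ hs, norm_smul, norm_neg, Real.norm_of_nonneg (by positivity)]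
  have e1 : ‖∫ y, ψ y • KK δ (x - y)‖ₑ ≤ ∫⁻ y in closedBall (0 : E2) 3, (‖y - x‖ₑ)⁻¹ := by
    refine (enorm_integral_le_lintegral_enorm _).trans ?_
    rw [← lintegral_indicator isClosed_closedBall.measurableSet]
    refine lintegral_mono_ae ?_
    have : ∀ᵐ y ∂(volume : Measure E2), y ≠ x := by
      have := measure_singleton (μ := (volume : Measure E2)) x
      exact compl_mem_ae_iff.mpr this
    filter_upwards [this] with y hyx
    by_cases hy : y ∈ closedBall (0 : E2) 3
    · rw [indicator_of_mem hy, enorm_smul]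
      have hn : 0 < ‖y - x‖ := norm_pos_iff.mpr (sub_ne_zero.mpr hyx)
      have k1 : ‖ψ y‖ₑ ≤ 1 := by
        rw [← ofReal_norm, Real.norm_eq_abs]
        exact ENNReal.ofReal_le_one.mpr (h1 y)
      have k2 : ‖KK δ (x - y)‖ₑ ≤ (‖y - x‖ₑ)⁻¹ := by
        rw [← ofReal_norm, ← ofReal_norm, ← ENNReal.ofReal_inv_of_pos hn]
        apply ENNReal.ofReal_le_ofReal
        rw [norm_sub_rev y x]
        exact norm_KK_le_inv hδ _
      calc ‖ψ y‖ₑ * ‖KK δ (x - y)‖ₑ ≤ 1 * (‖y - x‖ₑ)⁻¹ := mul_le_mul' k1 k2
        _ = _ := one_mul _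
    · rw [h3 y hy]
      simp
  have e2 : ∫⁻ y in closedBall (0 : E2) 3, (‖y - x‖ₑ)⁻¹ ≤ ENNReal.ofReal (3 * √(Real.pi * (9 * Real.pi))) := by
    apply lintegral_inv_norm_set x (by positivity)
    rw [EuclideanSpace.volume_closedBall_fin_two, ← ENNReal.ofReal_pow (by norm_num),
      ← ENNReal.ofReal_mul (by positivity)]
    apply le_of_eq
    congr 1
    norm_num
  have e3 : √(Real.pi * (9 * Real.pi)) = 3 * Real.pi := by
    rw [show Real.pi * (9 * Real.pi) = (3 * Real.pi) ^ 2 by ring]
    exact Real.sqrt_sq (by positivity)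
  rw [e3] at e2
  have e4 := e1.trans e2
  rw [← ofReal_norm] at e4
  have e5 := (ENNReal.ofReal_le_ofReal_iff (by positivity)).mp e4
  calc 1 / (2 * Real.pi) * ‖∫ y, ψ y • KK δ (x - y)‖ ≤ 1 / (2 * Real.pi) * (3 * (3 * Real.pi)) :=
        mul_le_mul_of_nonneg_left e5 (by positivity)
    _ = 9 / 2 := by field_simp; norm_num
    _ ≤ 5 := by norm_num

lemma norm_grad_NN_le (hδ : 0 < δ) {z : E2} {r : ℝ} (hr : 0 < r) (hz : r ≤ ‖z‖) :
    ‖fderiv ℝ (NN δ) z‖ ≤ 1 / (2 * Real.pi * r) := by
  have hpi := Real.pi_pos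
  rw [← norm_grad, grad_NN hδ, norm_smul, norm_neg, Real.norm_of_nonneg (by positivity)]
  have h1 : ‖KK δ z‖ ≤ 1 / r := by
    refine (norm_KK_le_inv hδ z).trans ?_
    rw [← one_div]
    exact one_div_le_one_div_of_le hr hz
  calc 1 / (2 * Real.pi) * ‖KK δ z‖ ≤ 1 / (2 * Real.pi) * (1 / r) :=
        mul_le_mul_of_nonneg_left h1 (by positivity)
    _ = _ := by field_simp

lemma NN_sub_le (hδ : 0 < δ) {x y : E2} {ρ : ℝ} (hρ : 0 < ρ) (hy : ‖y‖ ≤ ρ) (hx : 2 * ρ ≤ ‖x‖) :
    |NN δ (x - y) - NN δ x| ≤ ρ / (Real.pi * ‖x‖) := by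
  have hpi := Real.pi_pos
  have hx0 : 0 < ‖x‖ := by linarith
  have hconv : Convex ℝ (closedBall x ρ) := convex_closedBall x ρ
  have h1 : ∀ z ∈ closedBall x ρ, ‖fderiv ℝ (NN δ) z‖ ≤ 1 / (2 * Real.pi * (‖x‖ / 2)) := by
    intro z hz
    apply norm_grad_NN_le hδ (by positivity)
    rw [mem_closedBall, dist_eq_norm] at hz
    have : ‖x‖ ≤ ‖z‖ + ‖z - x‖ := by
      have := norm_sub_norm_le x z
      rw [norm_sub_rev] at this
      linarith
    linarith
  have h2 := hconv.norm_image_sub_le_of_norm_fderiv_le (𝕜 := ℝ) (f := NN δ)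
    (fun z _ => ((NN_contDiff hδ).differentiable (by simp)) z) h1
    (x := x) (y := x - y) (by simp [hρ.le]) (by simp [hy])
  rw [Real.norm_eq_abs] at h2
  refine h2.trans ?_
  have h3 : ‖x - y - x‖ ≤ ρ := by simpa using hy
  calc 1 / (2 * Real.pi * (‖x‖ / 2)) * ‖x - y - x‖ ≤ 1 / (2 * Real.pi * (‖x‖ / 2)) * ρ :=
        mul_le_mul_of_nonneg_left h3 (by positivity)
    _ = _ := by field_simp

lemma qq_far (hδ : 0 < δ) (hψ : Continuous ψ) (hs : HasCompactSupport ψ)
    (h3 : ∀ y, y ∉ closedBall (0 : E2) 3 → ψ y = 0) (h1 : ∀ y, |ψ y| ≤ 1) (h0 : ∫ y, ψ y = 0)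
    {x : E2} (hx : 6 ≤ ‖x‖) : |qq δ ψ x| ≤ 27 / ‖x‖ := by
  have hpi := Real.pi_pos
  have hx0 : 0 < ‖x‖ := by linarith
  have hNc := (NN_contDiff hδ).continuous
  have e1 : qq δ ψ x = ∫ y, ψ y * (NN δ (x - y) - NN δ x) := by
    have : ∀ y, ψ y * (NN δ (x - y) - NN δ x) = ψ y * NN δ (x - y) - ψ y * NN δ x := fun y => by ring
    simp_rw [this]
    have j1 : Integrable (fun y => ψ y * NN δ (x - y)) := integrable_cc (by fun_prop) hs.mul_right
    have j2 : Integrable (fun y => ψ y * NN δ x) := (integrable_cc hψ hs).mul_const _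
    rw [integral_sub j1 j2, integral_mul_const, h0, zero_mul, sub_zero, qq]
  have hvol : volume.real (closedBall (0 : E2) 3) = 9 * Real.pi := by
    rw [Measure.real, EuclideanSpace.volume_closedBall_fin_two, ← ENNReal.ofReal_pow (by norm_num),
      ← ENNReal.ofReal_mul (by positivity), ENNReal.toReal_ofReal (by positivity)]
    norm_num
  have e2 : ∫ y, ψ y * (NN δ (x - y) - NN δ x)
      = ∫ y in closedBall (0 : E2) 3, ψ y * (NN δ (x - y) - NN δ x) := by
    rw [← integral_indicator isClosed_closedBall.measurableSet]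
    refine integral_congr_ae (Eventually.of_forall (fun y => ?_))
    by_cases hy : y ∈ closedBall (0 : E2) 3
    · rw [indicator_of_mem hy]
    · rw [indicator_of_notMem hy]
      simp only
      rw [h3 y hy, zero_mul]
  rw [e1, e2, ← Real.norm_eq_abs]
  have e3 := norm_setIntegral_le_of_norm_le_const (μ := (volume : Measure E2)) (s := closedBall (0 : E2) 3)
    (f := fun y => ψ y * (NN δ (x - y) - NN δ x)) (C := 3 / (Real.pi * ‖x‖))
    (isCompact_closedBall (0 : E2) 3).measure_lt_top (fun y hy => by
      rw [norm_mul, Real.norm_eq_abs, Real.norm_eq_abs]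
      have k1 : ‖y‖ ≤ 3 := by simpa using hy
      have k2 := NN_sub_le hδ (x := x) (ρ := 3) (by norm_num) k1 (by linarith)
      calc |ψ y| * |NN δ (x - y) - NN δ x| ≤ 1 * (3 / (Real.pi * ‖x‖)) :=
            mul_le_mul (h1 y) k2 (abs_nonneg _) zero_le_one
        _ = _ := one_mul _)
  rw [hvol] at e3
  refine e3.trans (le_of_eq ?_)
  field_simp
  norm_num

lemma qq_bound (hδ : 0 < δ) (hψs : ContDiff ℝ ∞ ψ) (hs : HasCompactSupport ψ)
    (h3 : ∀ y, y ∉ closedBall (0 : E2) 3 → ψ y = 0) (h1 : ∀ y, |ψ y| ≤ 1) (h0 : ∫ y, ψ y = 0)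
    (x : E2) : |qq δ ψ x| ≤ 100 := by
  have hψ := hψs.continuous
  by_cases hx : 6 ≤ ‖x‖
  · refine (qq_far hδ hψ hs h3 h1 h0 hx).trans ?_
    rw [div_le_iff₀ (by linarith)]
    linarith
  · push Not at hx
    set x' : E2 := EuclideanSpace.single 0 (6 : ℝ) with hx'
    have hn : ‖x'‖ = 6 := by
      rw [hx', PiLp.norm_single]
      norm_num
    have k1 := qq_far hδ hψ hs h3 h1 h0 (x := x') (by rw [hn])
    rw [hn] at k1
    have hq := qq_contDiff hδ hψs hs
    have k2 := (convex_univ (𝕜 := ℝ) (E := E2)).norm_image_sub_le_of_norm_fderiv_le (𝕜 := ℝ)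
      (f := qq δ ψ) (C := 5) (fun z _ => (hq.differentiable (by simp)) z)
      (fun z _ => by rw [← norm_grad]; exact qq_grad_bound hδ hψ hs h3 h1 z)
      (mem_univ x') (mem_univ x)
    rw [Real.norm_eq_abs] at k2
    have k3 : ‖x - x'‖ ≤ 12 := by
      refine (norm_sub_le _ _).trans ?_
      rw [hn]
      linarith
    have k4 := abs_sub_abs_le_abs_sub (qq δ ψ x) (qq δ ψ x')
    have k5 : (5 : ℝ) * ‖x - x'‖ ≤ 5 * 12 := by linarith
    norm_num at k1
    linarith

end qbounds

theorem exists_osc_dual : ∃ C3 : ℝ, 0 < C3 ∧ ∀ M : ℝ, 6 ≤ M → ∃ CM : ℝ, 0 < CM ∧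
    ∀ (a : E2 → E2 →L[ℝ] E2) (w : E2 → ℝ) (η ε Λ : ℝ), Adm a w η ε Λ 0 (2 * M) → 0 ≤ η → 0 ≤ ε →
    ∀ ψ : E2 → ℝ, ContDiff ℝ ∞ ψ → HasCompactSupport ψ → (∀ y, y ∉ closedBall (0 : E2) 3 → ψ y = 0) →
      (∀ y, |ψ y| ≤ 1) → ∫ y, ψ y = 0 →
      |∫ y, ψ y * w y| ≤ CM * (Λ + ε + η * ∫ x in ball (0 : E2) (2 * M), ‖fderiv ℝ w x‖)
        + C3 / M ^ 2 * ∫ x in ball (0 : E2) (2 * M), ‖fderiv ℝ w x‖ := by
  have hpi := Real.pi_pos
  obtain ⟨G, hG, hGb⟩ := exists_grad_chi_bound
  obtain ⟨L, hL, hibp⟩ := exists_ibp_chi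
  refine ⟨54 * G + 324 * L, by positivity, fun M hM => ?_⟩
  have hM0 : 0 < M := by linarith
  set B := 5 + 100 * G with hB
  have hB0 : 0 < B := by positivity
  set CM := 100 + B * √(Real.pi * (2 * M) ^ 2) + B with hCM
  have hCM0 : 0 < CM := by positivity
  refine ⟨CM, hCM0, ?_⟩
  intro a w η ε Λ h hη0 hε0 ψ hψ hψs h3 h1 h0
  have hw := h.smooth
  have hwc := hw.continuous
  have hw1 : ContDiff ℝ 1 w := hw.of_le (by norm_cast)
  have hgw := smooth_grad_cont hw
  set Γ := ∫ x in ball (0 : E2) (2 * M), ‖fderiv ℝ w x‖ with hΓ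
  have hΓ0 : 0 ≤ Γ := integral_nonneg (fun x => norm_nonneg _)
  have hΛ : 0 ≤ Λ := le_trans (integral_nonneg (fun x => (Real.exp_pos _).le)) h.mass
  set c := avg w 0 (2 * M) with hc
  have hχ := chi_contDiff M
  have hχs := chi_compact hM0
  have hχg := smooth_grad_cont hχ
  have hχgs := hasCompactSupport_grad hχs
  have hχ0 := chi_nonneg M
  have hχ1 := chi_le_one M
  set F : E2 → ℝ := fun x => chi M x * (w x - c) with hF
  have hFs : ContDiff ℝ ∞ F := hχ.mul (hw.sub contDiff_const)
  have hFc : HasCompactSupport F := hχs.mul_right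
  -- value of the limit
  have hlim : ∫ y, ψ y * F y = ∫ y, ψ y * w y := by
    have e1 : ∀ y, ψ y * F y = ψ y * w y - ψ y * c := by
      intro y
      by_cases hy : y ∈ closedBall (0 : E2) 3
      · have : chi M y = 1 := by
          apply chi_one M hM0
          have : ‖y‖ ≤ 3 := by simpa using hy
          linarith
        simp only [hF, this]
        ring
      · rw [h3 y hy]
        ring
    simp_rw [e1]
    have j1 : Integrable (fun y => ψ y * w y) :=
      integrable_cc (hψ.continuous.mul hwc) hψs.mul_right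
    have j2 : Integrable (fun y => ψ y * c) := (integrable_cc hψ.continuous hψs).mul_const _
    rw [integral_sub j1 j2, integral_mul_const, h0, zero_mul, sub_zero]
  have htend := qq_duality_tendsto hψ.continuous hψs (hFs.of_le (by norm_cast)) hFc
  rw [hlim] at htend
  -- uniform bound
  have key : ∀ δ : ℝ, 0 < δ → |∫ x, inner ℝ (gradient F x) (gradient (qq δ ψ) x)|
      ≤ CM * (Λ + ε + η * Γ) + (54 * G + 324 * L) / M ^ 2 * Γ := by
    intro δ hδ
    set q := qq δ ψ with hq
    have hqs : ContDiff ℝ ∞ q := qq_contDiff hδ hψ hψs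
    have hqc := hqs.continuous
    have hgq := smooth_grad_cont hqs
    have hqd : ∀ x, DifferentiableAt ℝ q x := smooth_diff hqs
    have hwd : ∀ x, DifferentiableAt ℝ w x := smooth_diff hw
    have hχd : ∀ x, DifferentiableAt ℝ (chi M) x := smooth_diff hχ
    have b1 : ∀ x, ‖gradient q x‖ ≤ 5 := qq_grad_bound hδ hψ.continuous hψs h3 h1
    have b2 : ∀ x, |q x| ≤ 100 := qq_bound hδ hψ hψs h3 h1 h0
    have b3 : ∀ x ∈ ann M, |q x| ≤ 27 / M := by
      intro x hx
      refine (qq_far hδ hψ.continuous hψs h3 h1 h0 (hM.trans hx.1)).trans ?_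
      gcongr
      exact hx.1
    set v : E2 → ℝ := fun x => chi M x * q x with hv
    have hvs : ContDiff ℝ ∞ v := hχ.mul hqs
    have hvc : HasCompactSupport v := hχs.mul_right
    have hvt : tsupport v ⊆ ball 0 (2 * M) := (tsupport_mul_subset_left).trans (chi_tsupport_ball hM0)
    set S : E2 → ℝ := fun x => (w x - c) * q x with hS
    have hSs : ContDiff ℝ ∞ S := (hw.sub contDiff_const).mul hqs
    have gF : ∀ x, gradient F x = chi M x • gradient w x + (w x - c) • gradient (chi M) x := by
      intro x
      rw [hF, grad_mul (hχd x) ((hwd x).sub_const c), grad_sub_const]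
    have gv : ∀ x, gradient v x = chi M x • gradient q x + q x • gradient (chi M) x := by
      intro x
      rw [hv, grad_mul (hχd x) (hqd x)]
    have gS : ∀ x, gradient S x = (w x - c) • gradient q x + q x • gradient w x := by
      intro x
      rw [hS, grad_mul ((hwd x).sub_const c) (hqd x), grad_sub_const]
    -- integrability
    have csg : ∀ H : E2 → E2, HasCompactSupport (fun x => inner ℝ (H x) (gradient (chi M) x)) := by
      intro H
      apply hχgs.mono'
      intro x hx
      apply subset_tsupport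
      rw [Function.mem_support] at hx ⊢
      intro h
      apply hx
      rw [h, inner_zero_right]
    have i1 : Integrable (fun x => inner ℝ (gradient w x) (gradient v x)) := by
      have hgv := smooth_grad_cont hvs
      have hgvs := hasCompactSupport_grad hvc
      apply integrable_cc (hgw.inner hgv)
      apply hgvs.mono'
      intro x hx
      apply subset_tsupport
      rw [Function.mem_support] at hx ⊢
      intro h
      apply hx
      rw [h, inner_zero_right]
    have i2 : Integrable (fun x => q x * inner ℝ (gradient w x) (gradient (chi M) x)) :=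
      integrable_cc (hqc.mul (hgw.inner hχg)) (csg _).mul_left
    have i3 : Integrable (fun x => inner ℝ (gradient S x) (gradient (chi M) x)) :=
      integrable_cc ((smooth_grad_cont hSs).inner hχg) (csg _)
    have e1 : ∫ x, inner ℝ (gradient F x) (gradient q x)
        = (∫ x, inner ℝ (gradient w x) (gradient v x))
          - 2 * (∫ x, q x * inner ℝ (gradient w x) (gradient (chi M) x))
          + ∫ x, inner ℝ (gradient S x) (gradient (chi M) x) := by
      have i2' : Integrable (fun x => 2 * (q x * inner ℝ (gradient w x) (gradient (chi M) x))) :=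
        i2.const_mul 2
      have i12 : Integrable (fun x => inner ℝ (gradient w x) (gradient v x)
          - 2 * (q x * inner ℝ (gradient w x) (gradient (chi M) x))) := i1.sub i2'
      rw [← integral_const_mul, ← integral_sub i1 i2', ← integral_add i12 i3]
      refine integral_congr_ae (Eventually.of_forall (fun x => ?_))
      simp only
      rw [gF, gv, gS]
      simp only [inner_add_left, inner_add_right, inner_smul_left, inner_smul_right, conj_trivial]
      rw [real_inner_comm (gradient (chi M) x) (gradient q x)]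
      ring
    -- bound of the three terms
    have hsetint : ∀ g : E2 → ℝ, (∀ x, x ∉ ball (0 : E2) (2 * M) → g x = 0) →
        ∫ x, g x = ∫ x in ball (0 : E2) (2 * M), g x := by
      intro g hg
      rw [← integral_indicator measurableSet_ball]
      refine integral_congr_ae (Eventually.of_forall (fun x => ?_))
      by_cases hx : x ∈ ball (0 : E2) (2 * M)
      · rw [indicator_of_mem hx]
      · rw [indicator_of_notMem hx]
        exact hg x hx
    have hΓI : IntegrableOn (fun x => ‖fderiv ℝ w x‖) (ball (0 : E2) (2 * M)) := intOn_grad hw1 _ _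
    have hχz : ∀ x, x ∉ ball (0 : E2) (2 * M) → gradient (chi M) x = 0 := by
      intro x hx
      exact grad_chi_zero hM0 (fun h => hx (ann_subset_ball M h))
    have t2 : |∫ x, q x * inner ℝ (gradient w x) (gradient (chi M) x)| ≤ 27 * G / M ^ 2 * Γ := by
      rw [hsetint _ (fun x hx => by rw [hχz x hx, inner_zero_right, mul_zero]), ← Real.norm_eq_abs,
        hΓ, ← integral_const_mul]
      refine norm_integral_le_of_norm_le (hΓI.const_mul _) (Eventually.of_forall (fun x => ?_))
      by_cases hx : x ∈ ann M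
      · rw [norm_mul, Real.norm_eq_abs, Real.norm_eq_abs]
        have k1 := abs_real_inner_le_norm (gradient w x) (gradient (chi M) x)
        have k2 := hGb M hM0 x
        calc |q x| * |inner ℝ (gradient w x) (gradient (chi M) x)|
            ≤ (27 / M) * (‖gradient w x‖ * (G / M)) := by
              apply mul_le_mul (b3 x hx) _ (abs_nonneg _) (by positivity)
              refine k1.trans ?_
              gcongr
          _ = _ := by rw [norm_grad]; field_simp
      · rw [grad_chi_zero hM0 hx, inner_zero_right, mul_zero, norm_zero]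
        positivity
    have t3 : |∫ x, inner ℝ (gradient S x) (gradient (chi M) x)| ≤ 324 * L / M ^ 2 * Γ := by
      refine (hibp M hM0 S (hSs.of_le (by norm_cast))).trans ?_
      have k1 : ∫ x in ann M, |S x| ≤ (27 / M) * (12 * M * Γ) := by
        have k2 : ∫ x in ann M, |S x| ≤ ∫ x in ann M, (27 / M) * |w x - c| := by
          apply setIntegral_mono_on
          · exact (intOn_ball hSs.continuous.abs 0 (2 * M)).mono_set (ann_subset_ball M)
          · exact (intOn_ball (f := fun x => (27 / M) * |w x - c|) (by fun_prop) 0 (2 * M)).mono_set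
              (ann_subset_ball M)
          · exact measurableSet_ann M
          · intro x hx
            simp only [hS]
            rw [abs_mul, mul_comm]
            exact mul_le_mul_of_nonneg_right (b3 x hx) (abs_nonneg _)
        refine k2.trans ?_
        rw [integral_const_mul]
        apply mul_le_mul_of_nonneg_left _ (by positivity)
        calc ∫ x in ann M, |w x - c| ≤ ∫ x in ball (0 : E2) (2 * M), |w x - c| := by
              apply setIntegral_mono_set
              · exact intOn_ball (by fun_prop) _ _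
              · exact Eventually.of_forall (fun x => abs_nonneg _)
              · exact Eventually.of_forall (ann_subset_ball M)
          _ ≤ 6 * (2 * M) * Γ := poincare_ball w hw1 0 (by positivity)
          _ = _ := by ring
      calc L / M ^ 2 * ∫ x in ann M, |S x| ≤ L / M ^ 2 * ((27 / M) * (12 * M * Γ)) :=
            mul_le_mul_of_nonneg_left k1 (by positivity)
        _ = _ := by field_simp; ring
    -- the gradient of the test function
    have bv : ∀ x, ‖gradient v x‖ ≤ B := by
      intro x
      rw [gv]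
      refine (norm_add_le _ _).trans ?_
      rw [norm_smul, norm_smul, Real.norm_of_nonneg (hχ0 x), Real.norm_eq_abs]
      have k1 : chi M x * ‖gradient q x‖ ≤ 1 * 5 :=
        mul_le_mul (hχ1 x) (b1 x) (norm_nonneg _) zero_le_one
      have k2 : |q x| * ‖gradient (chi M) x‖ ≤ 100 * G := by
        apply mul_le_mul (b2 x) _ (norm_nonneg _) (by norm_num)
        refine (hGb M hM0 x).trans ?_
        rw [div_le_iff₀ hM0]
        nlinarith
      linarith
    have hvz : ∀ x, x ∉ ball (0 : E2) (2 * M) → gradient v x = 0 := by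
      intro x hx
      exact image_eq_zero_of_notMem_tsupport (fun h => hx (hvt (tsupport_grad_subset v h)))
    have t1 : |∫ x, inner ℝ (gradient w x) (gradient v x)| ≤ CM * (Λ + ε + η * Γ) := by
      have k0 : ∫ x, inner ℝ (gradient w x) (gradient v x)
          = (∫ x, inner ℝ (a x (gradient w x)) (gradient v x))
            - ∫ x, (inner ℝ (a x (gradient w x)) (gradient v x) - inner ℝ (gradient w x) (gradient v x)) := by
        have i4 : Integrable (fun x => inner ℝ (a x (gradient w x)) (gradient v x)) := by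
          have hgv := smooth_grad_cont hvs
          have hgvs := hasCompactSupport_grad hvc
          have haw : Continuous (fun x => a x (gradient w x)) := h.a_cont.clm_apply hgw
          apply integrable_cc (haw.inner hgv)
          apply hgvs.mono'
          intro x hx
          apply subset_tsupport
          rw [Function.mem_support] at hx ⊢
          intro h
          apply hx
          rw [h, inner_zero_right]
        rw [integral_sub i4 i1]
        ring
      have k1 : |∫ x, (inner ℝ (a x (gradient w x)) (gradient v x) - inner ℝ (gradient w x) (gradient v x))|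
          ≤ B * (η * Γ) := by
        rw [hsetint _ (fun x hx => by rw [hvz x hx, inner_zero_right, inner_zero_right, sub_zero]),
          ← Real.norm_eq_abs, hΓ, ← integral_const_mul, ← integral_const_mul]
        refine norm_integral_le_of_norm_le ((hΓI.const_mul _).const_mul _) ?_
        filter_upwards [ae_restrict_mem measurableSet_ball] with x hx
        have k2 := near_id_inner (h.a_near x hx) (gradient w x) (gradient v x)
        rw [Real.norm_eq_abs]
        refine k2.trans ?_
        rw [norm_grad w]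
        calc η * (‖fderiv ℝ w x‖ * ‖gradient v x‖) ≤ η * (‖fderiv ℝ w x‖ * B) := by
              gcongr
              exact bv x
          _ = _ := by ring
      have k2 := h.weak v hvs hvc hvt
      have k3 : √(∫ x, ‖gradient v x‖ ^ 2) ≤ B * √(Real.pi * (2 * M) ^ 2) := by
        have k4 : ∫ x, ‖gradient v x‖ ^ 2 ≤ B ^ 2 * (Real.pi * (2 * M) ^ 2) := by
          rw [hsetint _ (fun x hx => by rw [hvz x hx]; simp)]
          calc ∫ x in ball (0 : E2) (2 * M), ‖gradient v x‖ ^ 2
              ≤ ∫ x in ball (0 : E2) (2 * M), B ^ 2 := by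
                apply setIntegral_mono
                · have := smooth_grad_cont hvs
                  exact intOn_ball (by fun_prop) _ _
                · exact intOn_ball continuous_const _ _
                · intro x
                  exact pow_le_pow_left₀ (norm_nonneg _) (bv x) 2
            _ = _ := by
                rw [setIntegral_const, volume_ball_real 0 (by positivity), smul_eq_mul]
                ring
        calc √(∫ x, ‖gradient v x‖ ^ 2) ≤ √(B ^ 2 * (Real.pi * (2 * M) ^ 2)) := Real.sqrt_le_sqrt k4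
          _ = _ := by
              rw [Real.sqrt_mul (by positivity), Real.sqrt_sq hB0.le]
      have k5 : |∫ x, Real.exp (w x) * v x| ≤ 100 * Λ := by
        rw [hsetint _ (fun x hx => by
          have : v x = 0 := image_eq_zero_of_notMem_tsupport (fun h => hx (hvt h))
          rw [this, mul_zero]), ← Real.norm_eq_abs]
        have k6 : IntegrableOn (fun x => 100 * Real.exp (w x)) (ball (0 : E2) (2 * M)) :=
          intOn_ball (by fun_prop) _ _
        refine (norm_integral_le_of_norm_le k6 (Eventually.of_forall (fun x => ?_))).trans ?_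
        · rw [norm_mul, Real.norm_of_nonneg (Real.exp_pos _).le, Real.norm_eq_abs, mul_comm]
          apply mul_le_mul_of_nonneg_right _ (Real.exp_pos _).le
          simp only [hv]
          rw [abs_mul, abs_of_nonneg (hχ0 x)]
          calc chi M x * |q x| ≤ 1 * 100 := mul_le_mul (hχ1 x) (b2 x) (abs_nonneg _) zero_le_one
            _ = 100 := one_mul _
        · rw [integral_const_mul]
          exact mul_le_mul_of_nonneg_left h.mass (by norm_num)
      have k7 : ε * √(∫ x, ‖gradient v x‖ ^ 2) ≤ ε * (B * √(Real.pi * (2 * M) ^ 2)) :=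
        mul_le_mul_of_nonneg_left k3 hε0
      have k8 : |∫ x, inner ℝ (a x (gradient w x)) (gradient v x)| ≤ 100 * Λ + ε * (B * √(Real.pi * (2 * M) ^ 2)) := by
        have k9 := abs_sub_abs_le_abs_sub (∫ x, inner ℝ (a x (gradient w x)) (gradient v x))
          (∫ x, Real.exp (w x) * v x)
        linarith
      rw [k0]
      refine (abs_sub _ _).trans ?_
      have hs0 : 0 ≤ √(Real.pi * (2 * M) ^ 2) := Real.sqrt_nonneg _
      have hηΓ : 0 ≤ η * Γ := by positivity
      have hBs : 0 ≤ B * √(Real.pi * (2 * M) ^ 2) := by positivity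
      rw [hCM]
      have k10 : ε * (B * √(Real.pi * (2 * M) ^ 2)) = (B * √(Real.pi * (2 * M) ^ 2)) * ε := by ring
      have k11 : (100 + B * √(Real.pi * (2 * M) ^ 2) + B) * (Λ + ε + η * Γ)
          = 100 * Λ + (B * √(Real.pi * (2 * M) ^ 2)) * ε + B * (η * Γ)
            + (100 * (ε + η * Γ) + (B * √(Real.pi * (2 * M) ^ 2)) * (Λ + η * Γ) + B * (Λ + ε)) := by ring
      rw [k11]
      have k12 : 0 ≤ 100 * (ε + η * Γ) + (B * √(Real.pi * (2 * M) ^ 2)) * (Λ + η * Γ) + B * (Λ + ε) := by
        positivity
      linarith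
    rw [e1]
    calc |(∫ x, inner ℝ (gradient w x) (gradient v x))
          - 2 * (∫ x, q x * inner ℝ (gradient w x) (gradient (chi M) x))
          + ∫ x, inner ℝ (gradient S x) (gradient (chi M) x)|
        ≤ |∫ x, inner ℝ (gradient w x) (gradient v x)|
          + 2 * |∫ x, q x * inner ℝ (gradient w x) (gradient (chi M) x)|
          + |∫ x, inner ℝ (gradient S x) (gradient (chi M) x)| := by
          refine (abs_add_le _ _).trans ?_
          gcongr
          refine (abs_sub _ _).trans ?_
          gcongr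
          rw [abs_mul, abs_two]
      _ ≤ CM * (Λ + ε + η * Γ) + 2 * (27 * G / M ^ 2 * Γ) + 324 * L / M ^ 2 * Γ := by
          gcongr
      _ = _ := by ring
  refine le_of_tendsto htend.abs ?_
  filter_upwards [eventually_gt_atTop 0] with t ht
  exact key (1 / t) (one_div_pos.mpr ht)

end Pool.Agent.Helper41.PS
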