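import Pool.Agent.Helper41.PS.Virial3
import Pool.Agent.Helper41.PS.Levels

/-!
# A radial test function and the associated averages
-/

open MeasureTheory Set Filter Topology Metric
open scoped ContDiff ENNReal NNReal

namespace Pool.Agent.Helper41.PS

/-- Radial cutoff: one on the unit disc, zero outside radius two. -/
noncomputable def phi (x : E2) : ℝ := Real.smoothTransition ((4 - ‖x‖ ^ 2) / 3)

/-- Radial probability density on the annulus `1 ≤ |x| ≤ 2`. -/
noncomputable def kap (x : E2) : ℝ := deriv Real.smoothTransition ((4 - ‖x‖ ^ 2) / 3) / (3 * Real.pi)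

lemma phi_contDiff : ContDiff ℝ ∞ phi := by
  have h1 : ContDiff ℝ ∞ (fun x : E2 => (4 - ‖x‖ ^ 2) / 3) :=
    (contDiff_const.sub (contDiff_norm_sq ℝ)).div_const 3
  have h2 : ContDiff ℝ ∞ Real.smoothTransition := Real.smoothTransition.contDiff
  exact h2.comp h1

lemma phi_nonneg (x : E2) : 0 ≤ phi x := Real.smoothTransition.nonneg _

lemma phi_le_one (x : E2) : phi x ≤ 1 := Real.smoothTransition.le_one _

lemma phi_one {x : E2} (hx : ‖x‖ ≤ 1) : phi x = 1 := by
  apply Real.smoothTransition.one_of_one_le
  have := norm_nonneg x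
  nlinarith

lemma phi_zero {x : E2} (hx : 2 ≤ ‖x‖) : phi x = 0 := by
  apply Real.smoothTransition.zero_of_nonpos
  nlinarith

lemma phi_tsupport : tsupport phi ⊆ closedBall 0 2 := by
  apply closure_minimal _ isClosed_closedBall
  intro x hx
  rw [Function.mem_support] at hx
  by_contra h
  apply hx
  apply phi_zero
  rw [mem_closedBall, dist_zero_right, not_le] at h
  exact h.le

lemma phi_compact : HasCompactSupport phi :=
  HasCompactSupport.of_support_subset_isCompact (isCompact_closedBall (0 : E2) 2)
    ((subset_tsupport phi).trans phi_tsupport)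

lemma kap_contDiff : ContDiff ℝ ∞ kap := by
  have h1 : ContDiff ℝ ∞ (fun x : E2 => (4 - ‖x‖ ^ 2) / 3) :=
    (contDiff_const.sub (contDiff_norm_sq ℝ)).div_const 3
  have h2 : ContDiff ℝ ∞ (deriv Real.smoothTransition) := by
    have h3 : ContDiff ℝ ∞ Real.smoothTransition := Real.smoothTransition.contDiff
    exact (contDiff_infty_iff_deriv.mp h3).2
  exact (h2.comp h1).div_const _

lemma kap_nonneg (x : E2) : 0 ≤ kap x := by
  have hpi := Real.pi_pos
  apply div_nonneg _ (by positivity)
  exact Real.smoothTransition.monotone.deriv_nonneg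

lemma kap_zero_of_le {x : E2} (hx : ‖x‖ ≤ 1) : kap x = 0 := by
  rw [kap, deriv_smoothTransition_zero, zero_div]
  right
  have := norm_nonneg x
  nlinarith

lemma kap_zero_of_ge {x : E2} (hx : 2 ≤ ‖x‖) : kap x = 0 := by
  rw [kap, deriv_smoothTransition_zero, zero_div]
  left
  nlinarith

lemma kap_compact : HasCompactSupport kap := by
  apply HasCompactSupport.of_support_subset_isCompact (isCompact_closedBall (0 : E2) 2)
  intro x hx
  rw [Function.mem_support] at hx
  by_contra h
  apply hx
  apply kap_zero_of_ge
  rw [mem_closedBall, dist_zero_right, not_le] at h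
  exact h.le

lemma exists_kap_bound : ∃ B : ℝ, 0 < B ∧ ∀ x, kap x ≤ B := by
  obtain ⟨C, hC⟩ := kap_compact.exists_bound_of_continuous kap_contDiff.continuous
  exact ⟨max C 1, by positivity, fun x => ((le_abs_self _).trans (hC x)).trans (le_max_left _ _)⟩

lemma grad_phi (x : E2) : gradient phi x = -((2 * Real.pi * kap x) • x) := by
  have hpi := Real.pi_pos
  have h1 : HasFDerivAt (fun x : E2 => (4 - ‖x‖ ^ 2) / 3) ((-(2 / 3) : ℝ) • innerSL ℝ x) x := by
    have h2 := ((hasStrictFDerivAt_norm_sq x).hasFDerivAt.const_sub 4).const_smul (1 / 3 : ℝ)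
    have h3 : (1 / 3 : ℝ) • -((2 : ℕ) • innerSL ℝ x) = (-(2 / 3) : ℝ) • innerSL ℝ x := by
      rw [two_smul]
      module
    rw [h3] at h2
    refine h2.congr_of_eventuallyEq (Eventually.of_forall (fun y => ?_))
    simp only [Pi.smul_apply, smul_eq_mul]
    ring
  have h4 : HasDerivAt Real.smoothTransition (deriv Real.smoothTransition ((4 - ‖x‖ ^ 2) / 3))
      ((4 - ‖x‖ ^ 2) / 3) := by
    have : Differentiable ℝ Real.smoothTransition :=
      (Real.smoothTransition.contDiff (n := 1)).differentiable (by norm_num)
    exact (this _).hasDerivAt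
  have h5 := h4.comp_hasFDerivAt x h1
  have h6 : HasFDerivAt phi (deriv Real.smoothTransition ((4 - ‖x‖ ^ 2) / 3) • (-(2 / 3) : ℝ) • innerSL ℝ x) x := h5
  rw [gradient, h6.fderiv]
  apply ext_inner_right ℝ
  intro v
  rw [InnerProductSpace.toDual_symm_apply, kap]
  simp only [smul_apply, innerSL_apply_apply, smul_eq_mul, inner_neg_left, inner_smul_left, conj_trivial]
  field_simp

lemma integral_kap : ∫ x, kap x = 1 := by
  have hpi := Real.pi_pos
  have h1 : ContDiff ℝ 1 phi := phi_contDiff.of_le (by norm_cast)
  have hk := kap_contDiff.continuous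
  -- duality for c > 0
  have h2 : ∀ c : ℝ, 0 < c → ∫ x, kap x * inner ℝ x (KK (1 / c) x) = ∫ x, phi x * PP (1 / c) x := by
    intro c hc
    have h3 := kernel_duality (one_div_pos.mpr hc) h1 phi_compact 0
    simp only [sub_zero] at h3
    have h4 : ∀ x, inner ℝ (gradient phi x) (KK (1 / c) x) = -(2 * Real.pi) * (kap x * inner ℝ x (KK (1 / c) x)) := by
      intro x
      rw [grad_phi, inner_neg_left, inner_smul_left]
      simp only [conj_trivial]
      ring
    simp_rw [h4] at h3
    rw [integral_const_mul] at h3
    have h5 : -(2 * Real.pi) ≠ 0 := by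
      have : 0 < 2 * Real.pi := by positivity
      linarith
    exact mul_left_cancel₀ h5 h3
  have h6 : Tendsto (fun c : ℝ => ∫ x, phi x * PP (1 / c) x) atTop (𝓝 1) := by
    have := molli_tendsto phi_contDiff.continuous phi_compact 0
    simp only [sub_zero] at this
    rwa [phi_one (by simp)] at this
  have h7 : Tendsto (fun c : ℝ => ∫ x, kap x * inner ℝ x (KK (1 / c) x)) atTop (𝓝 (∫ x, kap x)) := by
    apply tendsto_integral_filter_of_dominated_convergence (fun x => kap x)
    · refine Eventually.of_forall (fun c => ?_)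
      have hK := measurable_KK (1 / c)
      exact (hk.measurable.mul (measurable_id.inner hK)).aestronglyMeasurable
    · filter_upwards [eventually_gt_atTop 0] with c hc
      refine Eventually.of_forall (fun x => ?_)
      rw [norm_mul, Real.norm_of_nonneg (kap_nonneg x)]
      apply mul_le_of_le_one_right (kap_nonneg x)
      refine (norm_inner_le_norm _ _).trans ?_
      rw [mul_comm]
      exact norm_KK_mul (one_div_pos.mpr hc) x
    · exact integrable_cc hk kap_compact
    · refine Eventually.of_forall (fun x => ?_)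
      by_cases hx : ‖x‖ ≤ 1
      · simp only [kap_zero_of_le hx, zero_mul]
        exact tendsto_const_nhds
      · push Not at hx
        have h8 : Tendsto (fun c : ℝ => inner ℝ x (KK (1 / c) x)) atTop (𝓝 (inner ℝ x (KK 0 x))) :=
          tendsto_const_nhds.inner (KK_tendsto x)
        have h9 : inner ℝ x (KK 0 x) = (1 : ℝ) := by
          rw [KK, dn, inner_smul_right, real_inner_self_eq_norm_sq]
          field_simp
          ring
        rw [h9] at h8
        have := h8.const_mul (kap x)
        rwa [mul_one] at this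
  have h8 : Tendsto (fun c : ℝ => ∫ x, kap x * inner ℝ x (KK (1 / c) x)) atTop (𝓝 1) := by
    refine h6.congr' ?_
    filter_upwards [eventually_gt_atTop 0] with c hc
    exact (h2 c hc).symm
  exact tendsto_nhds_unique h7 h8

end Pool.Agent.Helper41.PS
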