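import Mathlib

/-!
# Statement of the Palais-Smale property
-/

open MeasureTheory Set Manifold Bundle Filter Topology
open scoped ContDiff ENNReal

namespace Pool.Agent.Helper41.PSShort

/-- The Euclidean plane `ℝ²`. -/
def EE : Type := EuclideanSpace ℝ (Fin 2)

/-- The norm of the Euclidean plane. -/
@[reducible] noncomputable def nEE : NormedAddCommGroup EE :=
  (inferInstance : NormedAddCommGroup (EuclideanSpace ℝ (Fin 2)))

attribute [instance] nEE

/-- The Euclidean plane as a normed space. -/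
@[reducible] noncomputable def sEE : NormedSpace ℝ EE :=
  (inferInstance : NormedSpace ℝ (EuclideanSpace ℝ (Fin 2)))

attribute [instance] sEE

/-- Lebesgue measure on the Euclidean plane. -/
@[reducible] noncomputable def mEE : MeasureSpace EE :=
  (inferInstance : MeasureSpace (EuclideanSpace ℝ (Fin 2)))

attribute [instance] mEE

/-- The standard basis of `ℝ²`. -/
noncomputable def bas (i : Fin 2) : EE := EuclideanSpace.single i (1 : ℝ)

section Surface

variable {M : Type*} [TopologicalSpace M] [ChartedSpace EE M] [IsManifold 𝓘(ℝ, EE) ∞ M]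

variable (M) in
/-- Smooth Riemannian metrics on the surface `M`. -/
abbrev Metric : Type _ :=
  ContMDiffRiemannianMetric 𝓘(ℝ, EE) ∞ EE (fun x : M => TangentSpace 𝓘(ℝ, EE) x)

/-- Smooth functions on `M`. -/
def Smooth (u : M → ℝ) : Prop := ContMDiff 𝓘(ℝ, EE) 𝓘(ℝ, ℝ) ∞ u

/-- The scalar product `g_x(v, w)` of tangent vectors at `x`. -/
noncomputable def dot (g : Metric M) (x : M) (v w : EE) : ℝ := g.inner x v w

/-- The differential `du_x(v)`. -/
noncomputable def diff (u : M → ℝ) (x : M) (v : EE) : ℝ := mfderiv 𝓘(ℝ, EE) 𝓘(ℝ, ℝ) u x v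

/-- The gradient of `u` at `x`: the vector `ξ` with `g(ξ, η) = du(η)` for all tangent vectors
`η`. -/
noncomputable def grad (g : Metric M) (u : M → ℝ) (x : M) : EE :=
  Classical.epsilon fun ξ => ∀ η, dot g x ξ η = diff u x η

/-- The coordinate vector field `∂_i` of the chart at `x0`, at the point with coordinates `y`. -/
noncomputable def coord (x0 : M) (y : EE) (i : Fin 2) : EE :=
  mfderiv 𝓘(ℝ, EE) 𝓘(ℝ, EE) (chartAt EE x0).symm y (bas i)

/-- The matrix `g_ij = g(∂_i, ∂_j)` in the chart at `x0`. -/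
noncomputable def gram (g : Metric M) (x0 : M) (y : EE) : Matrix (Fin 2) (Fin 2) ℝ :=
  Matrix.of fun i j => dot g ((chartAt EE x0).symm y) (coord x0 y i) (coord x0 y j)

/-- `vol` is the Riemannian area measure: in every chart it has density `√det(g_ij)`. -/
def IsArea [MeasurableSpace M] (g : Metric M) (vol : Measure M) : Prop :=
  ∀ (x0 : M) (s : Set M), MeasurableSet s → s ⊆ (chartAt EE x0).source →
    vol s = ∫⁻ y in (chartAt EE x0) '' s, ENNReal.ofReal (√(gram g x0 y).det)

/-- The Hilbert space `H`, with the map `ι` from smooth functions to `H` and the realisation `j`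
of the elements of `H` as functions on `M`, is the Sobolev space `H1(M)`: the completion of the
smooth functions for the scalar product `∫ u v + ∫ g(∇u, ∇v)`. -/
structure IsSobolev [MeasurableSpace M] (g : Metric M) (vol : Measure M) {H : Type*}
    [NormedAddCommGroup H] [InnerProductSpace ℝ H] (ι : (M → ℝ) → H) (j : H → M → ℝ) : Prop where
  inner_eq : ∀ u v, Smooth u → Smooth v →
    inner ℝ (ι u) (ι v) = (∫ x, u x * v x ∂vol) + ∫ x, dot g x (grad g u x) (grad g v x) ∂vol
  dense : Dense (ι '' {u | Smooth u})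
  meas : ∀ w, AEStronglyMeasurable (j w) vol
  cont : ∀ w w', ∫⁻ x, ‖j w x - j w' x‖ₑ ^ 2 ∂vol ≤ ENNReal.ofReal (‖w - w'‖ ^ 2)
  repr : ∀ u, Smooth u → j (ι u) =ᵐ[vol] u

end Surface

section Functional

variable {M : Type*} [MeasurableSpace M] (vol : Measure M) {H : Type*} [NormedAddCommGroup H]
  [InnerProductSpace ℝ H] (j : H → M → ℝ)

/-- The functional `J(u) = 1/2 ∫ |∇u|² + lam ∫ u - lam log ∫ h e^u`; the Dirichlet integral is the
square of the norm of `H1(M)` minus the square of the norm of `L²(M)`. -/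
noncomputable def J (h : M → ℝ) (lam : ℝ) (w : H) : ℝ :=
  (1 / 2) * (‖w‖ ^ 2 - ∫ x, j w x ^ 2 ∂vol) + lam * (∫ x, j w x ∂vol)
    - lam * Real.log (∫ x, h x * Real.exp (j w x) ∂vol)

/-- The Palais-Smale property. -/
def PalaisSmale (h : M → ℝ) (lam : ℝ) : Prop :=
  ∀ (w : ℕ → H) (c : ℝ), (∀ n, ∫ x, h x * Real.exp (j (w n) x) ∂vol = 1) →
    Tendsto (fun n => J vol j h lam (w n)) atTop (𝓝 c) →
    Tendsto (fun n => ‖fderiv ℝ (J vol j h lam) (w n)‖) atTop (𝓝 0) →
    ∃ φ : ℕ → ℕ, StrictMono φ ∧ ∃ v : H, Tendsto (fun n => w (φ n)) atTop (𝓝 v)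

end Functional

end Pool.Agent.Helper41.PSShort
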