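import Pool.Agent.Helper41.PS.TwoSided

/-!
# Regularity where the mass is small
-/

open MeasureTheory Set Filter Topology Metric
open scoped ContDiff ENNReal NNReal

namespace Pool.Agent.Helper41.PS

/-- Crude bound for the cutoff term of `X_bound`. -/
lemma Tterm_crude {a : E2 → E2 →L[ℝ] E2} {w : E2 → ℝ} {η ε Λ : ℝ} {x0 : E2} {R : ℝ}
    (h : Adm a w η ε Λ x0 R) (hη : η ≤ 1 / 2) {ψ : E2 → ℝ} (hψ : ContDiff ℝ ∞ ψ)
    {x1 : E2} {R1 : ℝ} (hsub : tsupport ψ ⊆ ball x1 R1)
    (hsub' : ball x1 R1 ⊆ ball x0 R) {G : ℝ} (hG : ∀ x, ‖gradient ψ x‖ ≤ G) (s k : ℝ) :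
    |∫ x, TT s k (w x) * inner ℝ (a x (gradient w x)) (gradient ψ x)|
      ≤ 3 / 2 * G * ∫ x in ball x1 R1, TT s k (w x) * ‖fderiv ℝ w x‖ := by
  have hw := h.smooth
  have hwc := hw.continuous
  have hgw := smooth_grad_cont hw
  have hTc : Continuous (fun x => TT s k (w x)) := (TT_contDiff s k).continuous.comp hwc
  have hG0 : 0 ≤ G := (norm_nonneg _).trans (hG 0)
  have e1 : ∫ x, TT s k (w x) * inner ℝ (a x (gradient w x)) (gradient ψ x)
      = ∫ x in ball x1 R1, TT s k (w x) * inner ℝ (a x (gradient w x)) (gradient ψ x) := by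
    rw [setIntegral_eq_integral_of_forall_compl_eq_zero]
    intro x hx
    have : gradient ψ x = 0 := by
      have h1 : x ∉ tsupport (gradient ψ) := fun h => hx (hsub (tsupport_grad_subset ψ h))
      exact image_eq_zero_of_notMem_tsupport h1
    rw [this, inner_zero_right, mul_zero]
  rw [e1, ← Real.norm_eq_abs, ← integral_const_mul]
  apply norm_integral_le_of_norm_le
  · have : Continuous (fun x => 3 / 2 * G * (TT s k (w x) * ‖gradient w x‖)) := by fun_prop
    refine (intOn_ball this x1 R1).congr (Eventually.of_forall (fun x => ?_))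
    simp only
    rw [norm_grad]
  · filter_upwards [ae_restrict_mem measurableSet_ball] with x hx
    rw [norm_mul, Real.norm_of_nonneg (TT_nonneg s k _)]
    have h2 : ‖a x (gradient w x)‖ ≤ 3 / 2 * ‖gradient w x‖ := by
      have h3 := h.a_near x (hsub' hx)
      have h4 : a x (gradient w x) = (a x - ContinuousLinearMap.id ℝ E2) (gradient w x) + gradient w x := by
        rw [sub_apply]
        simp
      rw [h4]
      refine (norm_add_le _ _).trans ?_
      have h5 := (a x - ContinuousLinearMap.id ℝ E2).le_opNorm (gradient w x)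
      have h6 : ‖a x - ContinuousLinearMap.id ℝ E2‖ * ‖gradient w x‖ ≤ 1 / 2 * ‖gradient w x‖ :=
        mul_le_mul_of_nonneg_right (h3.trans hη) (norm_nonneg _)
      linarith
    have h3 : ‖inner ℝ (a x (gradient w x)) (gradient ψ x)‖ ≤ (3 / 2 * ‖gradient w x‖) * G := by
      refine (norm_inner_le_norm _ _).trans ?_
      exact mul_le_mul h2 (hG x) (norm_nonneg _) (by positivity)
    calc TT s k (w x) * ‖inner ℝ (a x (gradient w x)) (gradient ψ x)‖
        ≤ TT s k (w x) * ((3 / 2 * ‖gradient w x‖) * G) :=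
          mul_le_mul_of_nonneg_left h3 (TT_nonneg s k _)
      _ = _ := by
          rw [norm_grad]
          ring

lemma exists_TT_small {δ : ℝ} (hδ : 0 < δ) : ∃ i : ℕ, ∀ k t : ℝ, t ≤ k - i → TT 1 k t ≤ δ := by
  have h1 : Tendsto (fun i : ℕ => Real.pi / 2 + Real.arctan (-(i : ℝ))) atTop (𝓝 (Real.pi / 2 + -(Real.pi / 2))) := by
    apply Tendsto.const_add
    have h2 : Tendsto (fun i : ℕ => -(i : ℝ)) atTop atBot :=
      tendsto_neg_atTop_atBot.comp tendsto_natCast_atTop_atTop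
    have h3 := tendsto_nhds_of_tendsto_nhdsWithin Real.tendsto_arctan_atBot
    exact h3.comp h2
  rw [add_neg_cancel] at h1
  obtain ⟨i, hi⟩ := (h1.eventually (gt_mem_nhds hδ)).exists
  refine ⟨i, fun k t ht => ?_⟩
  unfold TT
  have : Real.arctan ((t - k) / 1) ≤ Real.arctan (-(i : ℝ)) := by
    apply Real.arctan_strictMono.monotone
    rw [div_one]
    linarith
  linarith

/-- The bound of the energy in a band by the weighted energy. -/
lemma bandE_le_XX {w ψ : E2 → ℝ} (hw : ContDiff ℝ ∞ w) (hψ : ContDiff ℝ ∞ ψ) (hs : HasCompactSupport ψ)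
    (h0 : ∀ x, 0 ≤ ψ x) {x0 : E2} {r c k : ℝ} (h1 : ∀ x ∈ ball x0 r, ψ x = 1) :
    bandE (fun x => w x - c) x0 r k ≤ 2 * XX ψ w 1 (c + k) := by
  have hgw := smooth_grad_cont hw
  have hwc := hw.continuous
  have hder : ∀ x, ‖fderiv ℝ (fun x => w x - c) x‖ = ‖gradient w x‖ := by
    intro x
    rw [fderiv_sub_const, norm_grad]
  unfold bandE
  simp_rw [hder]
  set S := {x ∈ ball x0 r | k ≤ w x - c ∧ w x - c < k + 1} with hS
  have hSm : MeasurableSet S := measSet_band (v := fun x => w x - c) (by fun_prop) x0 r k (k + 1)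
  have hc' : Continuous (fun x => ψ x * (1 / (1 + ((w x - (c + k)) / 1) ^ 2) * (1 / 1)) * ‖gradient w x‖ ^ 2) := by
    apply Continuous.mul _ (hgw.norm.pow 2)
    apply Continuous.mul hψ.continuous
    apply Continuous.mul _ continuous_const
    apply Continuous.div continuous_const
    · fun_prop
    · intro x
      positivity
  have hint : Integrable (fun x => ψ x * (1 / (1 + ((w x - (c + k)) / 1) ^ 2) * (1 / 1)) * ‖gradient w x‖ ^ 2) :=
    integrable_cc hc' (hs.mul_right).mul_right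
  rw [XX, ← integral_const_mul]
  calc ∫ x in S, ‖gradient w x‖ ^ 2
      ≤ ∫ x in S, 2 * (ψ x * (1 / (1 + ((w x - (c + k)) / 1) ^ 2) * (1 / 1)) * ‖gradient w x‖ ^ 2) := by
        apply setIntegral_mono_on
        · exact (intOn_ball (f := fun x => ‖gradient w x‖ ^ 2) (by fun_prop) x0 r).mono_set (fun x hx => hx.1)
        · exact (hint.const_mul _).integrableOn
        · exact hSm
        · intro x hx
          rw [h1 x hx.1, one_mul]
          have h3 : ((w x - (c + k)) / 1) ^ 2 ≤ 1 := by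
            rw [div_one]
            have h4 := hx.2.1
            have h5 := hx.2.2
            nlinarith
          have h5 : 1 / 2 ≤ 1 / (1 + ((w x - (c + k)) / 1) ^ 2) := by
            apply one_div_le_one_div_of_le (by positivity)
            linarith
          calc ‖gradient w x‖ ^ 2 = 2 * (1 / 2 * (1 / 1) * ‖gradient w x‖ ^ 2) := by
                ring
            _ ≤ _ := by gcongr
    _ ≤ ∫ x, 2 * (ψ x * (1 / (1 + ((w x - (c + k)) / 1) ^ 2) * (1 / 1)) * ‖gradient w x‖ ^ 2) := by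
        apply setIntegral_le_integral (hint.const_mul _)
        refine Eventually.of_forall (fun x => ?_)
        have := h0 x
        simp only [Pi.zero_apply]
        positivity

lemma exists_grad_cut_bound {ρ : ℝ} (hρ : 0 < ρ) :
    ∃ G : ℝ, 0 < G ∧ ∀ x, ‖gradient (cut ρ hρ) x‖ ≤ G := by
  obtain ⟨hψ, hs, -, -, -, -⟩ := cut_facts hρ
  have hgψ := smooth_grad_cont hψ
  obtain ⟨C, hC⟩ := hgψ.bounded_above_of_compact_support (hasCompactSupport_grad hs)
  exact ⟨max C 1, by positivity, fun x => (hC x).trans (le_max_left _ _)⟩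

/-- First step: window energies on the unit disc are bounded. -/
theorem exists_WB1 : ∃ C0 : ℝ, 0 < C0 ∧ ∀ (a : E2 → E2 →L[ℝ] E2) (w : E2 → ℝ) (η ε Λ c K : ℝ),
    Adm a w η ε Λ 0 2 → η ≤ 1 / 2 → 0 ≤ ε → ε ≤ 1 →
    ∫ x in ball (0 : E2) 2, ‖fderiv ℝ w x‖ ≤ K →
    WB (fun x => w x - c) 0 1 (C0 * (1 + Λ + K)) := by
  have hpi := Real.pi_pos
  obtain ⟨hψ, hs, hsub, h0, h1, hone⟩ := cut_facts (one_pos : (0 : ℝ) < 1)
  obtain ⟨G, hG0, hG⟩ := exists_grad_cut_bound (one_pos : (0 : ℝ) < 1)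
  set ψ : E2 → ℝ := ⇑(cut (1 : ℝ) one_pos) with hψdef
  set D := √(∫ x, ‖gradient ψ x‖ ^ 2) with hD
  have hD0 : 0 ≤ D := Real.sqrt_nonneg _
  refine ⟨8 * (Real.pi + 2 + 5 * D + 3 / 2 * G * Real.pi), by positivity, ?_⟩
  intro a w η ε Λ c K h hη hε0 hε hK
  have hw := h.smooth
  have hwc := hw.continuous
  have hw1 : ContDiff ℝ 1 w := hw.of_le (by norm_cast)
  have hΛ : 0 ≤ Λ := le_trans (integral_nonneg (fun x => (Real.exp_pos _).le)) h.mass
  have hK0 : 0 ≤ K := le_trans (integral_nonneg (fun x => norm_nonneg _)) hK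
  have hsub2 : tsupport ψ ⊆ ball 0 2 := by simpa using hsub
  have hX : ∀ k, XX ψ w 1 k ≤ 4 * (Real.pi + 2 + 5 * D + 3 / 2 * G * Real.pi) * (1 + Λ + K) := by
    intro k
    have hb := X_bound h hη hε0 hψ hs hsub2 h0 h1 (s := 1) one_pos k
    have e1 : ∫ x, Real.exp (w x) * ψ x ≤ Λ := by
      refine le_trans ?_ h.mass
      rw [← integral_indicator measurableSet_ball]
      apply integral_mono
      · exact integrable_cc (by fun_prop) hs.mul_left
      · rw [integrable_indicator_iff measurableSet_ball]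
        exact intOn_ball (by fun_prop) _ _
      · intro x
        by_cases hx : x ∈ ball (0 : E2) 2
        · simp only [indicator_of_mem hx]
          exact mul_le_of_le_one_right (Real.exp_pos _).le (h1 x)
        · simp only [indicator_of_notMem hx]
          rw [image_eq_zero_of_notMem_tsupport (fun h => hx (hsub2 h)), mul_zero]
    have e2 : ∫ x in ball (0 : E2) 2, TT 1 k (w x) * ‖fderiv ℝ w x‖ ≤ Real.pi * K := by
      have hTc : Continuous (fun x => TT 1 k (w x)) := (TT_contDiff 1 k).continuous.comp hwc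
      have hdc : Continuous (fun z => fderiv ℝ w z) := hw1.continuous_fderiv (by simp)
      calc ∫ x in ball (0 : E2) 2, TT 1 k (w x) * ‖fderiv ℝ w x‖
          ≤ ∫ x in ball (0 : E2) 2, Real.pi * ‖fderiv ℝ w x‖ := by
            apply setIntegral_mono
            · exact intOn_ball (by fun_prop) _ _
            · exact intOn_ball (by fun_prop) _ _
            · intro x
              exact mul_le_mul_of_nonneg_right (TT_le _ _ _) (norm_nonneg _)
        _ = Real.pi * ∫ x in ball (0 : E2) 2, ‖fderiv ℝ w x‖ := integral_const_mul _ _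
        _ ≤ Real.pi * K := mul_le_mul_of_nonneg_left hK hpi.le
    have e3 := Tterm_crude h hη hψ hsub2 Subset.rfl hG 1 k
    have e4 : 3 / 2 * G * ∫ x in ball (0 : E2) 2, TT 1 k (w x) * ‖fderiv ℝ w x‖ ≤ 3 / 2 * G * (Real.pi * K) :=
      mul_le_mul_of_nonneg_left e2 (by positivity)
    have e5 : 5 * ε * √(∫ x, ‖gradient ψ x‖ ^ 2) ≤ 5 * D := by
      rw [← hD]
      nlinarith
    have e6 : 2 * ε ^ 2 / 1 ≤ 2 := by
      rw [div_one]
      nlinarith
    have e7 : Real.pi * (∫ x, Real.exp (w x) * ψ x) ≤ Real.pi * Λ := mul_le_mul_of_nonneg_left e1 hpi.le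
    have e8 : Real.pi * Λ + 2 + 5 * D + 3 / 2 * G * (Real.pi * K)
        ≤ (Real.pi + 2 + 5 * D + 3 / 2 * G * Real.pi) * (1 + Λ + K) := by
      have p1 : 0 ≤ Real.pi * (1 + K) := by positivity
      have p2 : 0 ≤ (2 + 5 * D) * (Λ + K) := by positivity
      have p3 : 0 ≤ 3 / 2 * G * Real.pi * (1 + Λ) := by positivity
      nlinarith
    linarith
  have hWB := WB_of_XX (c := c) hw hψ hs h0 (x0 := 0) (r := 1) one_pos
    (fun x hx => hone x (ball_subset_closedBall hx)) hX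
  have e9 : 2 * (4 * (Real.pi + 2 + 5 * D + 3 / 2 * G * Real.pi) * (1 + Λ + K)) / 1
      = 8 * (Real.pi + 2 + 5 * D + 3 / 2 * G * Real.pi) * (1 + Λ + K) := by ring
  rw [e9] at hWB
  simpa using hWB

/-- Two sided decay on the unit disc. -/
theorem exists_ts (K : ℝ) (hK : 0 ≤ K) : ∃ (k0 : ℕ) (G q p : ℝ), 0 ≤ G ∧ 0 ≤ q ∧ q < 1 ∧ 0 < p ∧
    ∀ (a : E2 → E2 →L[ℝ] E2) (w : E2 → ℝ) (η ε Λ c : ℝ),
    Adm a w η ε Λ 0 2 → η ≤ 1 / 2 → 0 ≤ ε → ε ≤ 1 → Λ ≤ 1 →
    ∫ x in ball (0 : E2) 2, |w x - c| ≤ K →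
    ∫ x in ball (0 : E2) 2, ‖fderiv ℝ w x‖ ≤ K →
    lev (fun x => w x - c) 0 (1 / 2) k0 ≤ Real.pi * (1 / 2) ^ 2 / 2 ∧
    (∫ x in ball (0 : E2) 1, ‖fderiv ℝ w x‖ ≤ G) ∧
    (∀ i : ℕ, ∫ x in {x ∈ ball (0 : E2) 1 | (k0 : ℝ) + i ≤ w x - c}, ‖fderiv ℝ w x‖ ≤ G * q ^ i) ∧
    (∫ x in ball (0 : E2) 1, Real.exp (p * |w x - c|) ≤ G) := by
  have hpi := Real.pi_pos
  obtain ⟨C0, hC0, hWB⟩ := exists_WB1
  set k0 : ℕ := ⌈8 * K⌉₊ + 1 with hk0
  have hk0' : 8 * K ≤ k0 := by
    rw [hk0]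
    push_cast
    linarith [Nat.le_ceil (8 * K)]
  have hk1 : (1 : ℝ) ≤ k0 := by
    rw [hk0]
    push_cast
    linarith [Nat.cast_nonneg (α := ℝ) ⌈8 * K⌉₊]
  obtain ⟨G, q, p, hG, hq0, hq1, hp, hts⟩ := exists_two_sided (C0 * (2 + K)) (by positivity) k0
  refine ⟨k0, G, q, p, hG, hq0, hq1, hp, ?_⟩
  intro a w η ε Λ c h hη hε0 hε hΛ1 hK1 hK2
  have hw := h.smooth
  have hwc := hw.continuous
  have hw1 : ContDiff ℝ 1 w := hw.of_le (by norm_cast)
  have hvc : Continuous (fun x => w x - c) := by fun_prop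
  have habs : ∀ r : ℝ, r ≤ 2 → ∫ x in ball (0 : E2) r, |w x - c| ≤ K := by
    intro r hr
    refine le_trans (setIntegral_mono_set ?_ ?_ ?_) hK1
    · exact intOn_ball (by fun_prop) _ _
    · exact Eventually.of_forall (fun x => abs_nonneg _)
    · exact Eventually.of_forall (ball_subset_ball hr)
  have hlev : ∀ r : ℝ, 1 / 2 ≤ r → r ≤ 2 → ∀ v : E2 → ℝ, Continuous v → (∀ x, |v x| = |w x - c|) →
      lev v 0 r k0 ≤ Real.pi * r ^ 2 / 2 := by
    intro r hr1 hr2 v hv hvw
    have h1 : ∫ x in ball (0 : E2) r, |v x| ≤ K := by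
      simp_rw [hvw]
      exact habs r hr2
    have h2 := meas_le_of_integral_abs hv 0 (k := (k0 : ℝ)) (by linarith) h1
    refine h2.trans ?_
    rw [div_le_iff₀ (by linarith)]
    have h3 : Real.pi * r ^ 2 / 2 ≥ 1 / 8 := by
      have h4 : 3 < Real.pi := Real.pi_gt_three
      have h5 : 1 / 4 ≤ r ^ 2 := by nlinarith
      nlinarith
    nlinarith
  have hWB1 := hWB a w η ε Λ c K h hη hε0 hε hK2
  have hWB2 : WB (fun x => w x - c) 0 1 (C0 * (2 + K)) := by
    intro k
    refine (hWB1 k).trans ?_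
    apply mul_le_mul_of_nonneg_left _ hC0.le
    linarith
  have l1 := hlev 1 (by norm_num) (by norm_num) (fun x => w x - c) hvc (fun x => rfl)
  have l2 := hlev 1 (by norm_num) (by norm_num) (fun x => -(w x - c)) hvc.neg (fun x => abs_neg _)
  obtain ⟨t1, t2, t3⟩ := hts (fun x => w x - c) (hw1.sub contDiff_const) 0 1 one_pos hWB2 l1 l2
  simp_rw [fderiv_sub_const] at t1 t2
  refine ⟨hlev (1 / 2) le_rfl (by norm_num) _ hvc (fun x => rfl), ?_, ?_, ?_⟩
  · simpa using t1
  · intro i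
    simpa using t2 i
  · simpa using t3

end Pool.Agent.Helper41.PS
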