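import Pool.Agent.Helper41.PS.SmallMass

/-!
# Regularity where the mass is small, second part
-/

open MeasureTheory Set Filter Topology Metric
open scoped ContDiff ENNReal NNReal

namespace Pool.Agent.Helper41.PS

lemma exists_pow_small {q : ℝ} (h0 : 0 ≤ q) (h1 : q < 1) {A δ : ℝ} (hA : 0 ≤ A) (hδ : 0 < δ) :
    ∃ i : ℕ, A * q ^ i ≤ δ := by
  obtain ⟨i, hi⟩ := exists_pow_lt_of_lt_one (show (0 : ℝ) < δ / (A + 1) by positivity) h1
  refine ⟨i, ?_⟩
  have h2 : q ^ i ≤ δ / (A + 1) := hi.le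
  calc A * q ^ i ≤ A * (δ / (A + 1)) := mul_le_mul_of_nonneg_left h2 hA
    _ ≤ δ := by
      rw [mul_div_assoc', div_le_iff₀ (by positivity)]
      nlinarith

lemma sm_sq {ε ε0 : ℝ} (h0 : 0 ≤ ε) (h1 : ε ≤ ε0) (h2 : ε0 ≤ 1) : 2 * ε ^ 2 ≤ 2 * ε0 := by
  nlinarith

lemma sm_ee {θ : ℝ} (h0 : 0 ≤ θ) (h1 : θ * Real.exp 2 ≤ 1 / 2) :
    Real.exp 2 ≤ 2 * Real.exp 2 * (1 - θ * Real.exp 2) := by
  nlinarith [Real.exp_pos 2]

lemma sm_pi : Real.pi * (1 / 2) ^ 2 ≤ 1 := by
  have := Real.pi_lt_four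
  linarith

lemma sm_k {K I : ℝ} (hK : 0 ≤ K) (hI : I ≤ K) :
    4 * Real.pi ≤ Real.pi * 2 ^ 2 * (1 + K) - I := by
  have := Real.pi_gt_three
  nlinarith

lemma sm_c {e I : ℝ} (he : 0 < e) (h2 : e * (4 * Real.pi) ≤ I) (h1 : I ≤ 1) : e ≤ 1 := by
  have := Real.pi_gt_three
  nlinarith

/-- Exponential integrability of order two when the mass is small. -/
theorem exists_exp2 : ∃ ε0 : ℝ, 0 < ε0 ∧ ε0 ≤ 1 ∧ ∀ K : ℝ, 0 ≤ K → ∃ C : ℝ, 0 < C ∧
    ∀ (a : E2 → E2 →L[ℝ] E2) (w : E2 → ℝ) (η ε Λ c : ℝ),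
    Adm a w η ε Λ 0 2 → η ≤ 1 / 2 → 0 ≤ ε → ε ≤ ε0 → Λ ≤ ε0 →
    ∫ x in ball (0 : E2) 2, |w x - c| ≤ K →
    ∫ x in ball (0 : E2) 2, ‖fderiv ℝ w x‖ ≤ K →
    (∫ x in ball (0 : E2) (1 / 2), Real.exp (2 * (w x - c)) ≤ C) ∧
    (∫ x in ball (0 : E2) 1, |w x - c| ^ 2 ≤ C) ∧ Real.exp c ≤ C := by
  have hpi := Real.pi_pos
  obtain ⟨C1, hC1, hdecay⟩ := exists_level_decay
  obtain ⟨hψ, hs, hsub, h0, h1, hone⟩ := cut_facts (show (0 : ℝ) < 1 / 2 by norm_num)
  obtain ⟨G2, hG20, hG2⟩ := exists_grad_cut_bound (show (0 : ℝ) < 1 / 2 by norm_num)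
  set ψ : E2 → ℝ := ⇑(cut (1 / 2 : ℝ) (by norm_num)) with hψdef
  set D := √(∫ x, ‖gradient ψ x‖ ^ 2) with hD
  have hD0 : 0 ≤ D := Real.sqrt_nonneg _
  set B := Real.pi + 3 + 5 * D with hB
  have hB0 : 0 < B := by positivity
  refine ⟨min 1 (Real.exp (-2) / (16 * C1 * B)), by positivity, min_le_left _ _, ?_⟩
  set ε0 := min 1 (Real.exp (-2) / (16 * C1 * B)) with hε0def
  have hε00 : 0 < ε0 := by positivity
  have hε01 : ε0 ≤ 1 := min_le_left _ _
  have hε0B : 8 * B * ε0 * C1 ≤ Real.exp (-2) / 2 := by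
    have : ε0 ≤ Real.exp (-2) / (16 * C1 * B) := min_le_right _ _
    calc 8 * B * ε0 * C1 ≤ 8 * B * (Real.exp (-2) / (16 * C1 * B)) * C1 := by gcongr
      _ = Real.exp (-2) / 2 := by
        field_simp
        norm_num
  intro K hK
  obtain ⟨k0, G, q, p, hG, hq0, hq1, hp, hts⟩ := exists_ts K hK
  obtain ⟨i1, hi1⟩ := exists_TT_small (show (0 : ℝ) < ε0 / (3 * G2 * (G + 1)) by positivity)
  obtain ⟨i2, hi2⟩ := exists_pow_small hq0 hq1 (show 0 ≤ 3 / 2 * G2 * Real.pi * G by positivity)
    (show 0 < ε0 / 2 by positivity)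
  set k1 : ℕ := k0 + i1 + i2 with hk1
  set E := 8 * B * ε0 with hE
  have hE0 : 0 < E := by positivity
  set θ := C1 * E / (1 + C1 * E) with hθ
  have hθ0 : 0 ≤ θ := by positivity
  have hθe : θ * Real.exp 2 ≤ 1 / 2 := by
    have h3 : θ ≤ Real.exp (-2) / 2 := by
      calc θ ≤ C1 * E := by
            rw [hθ]
            apply div_le_self (by positivity)
            have : 0 < C1 * E := by positivity
            linarith
        _ = 8 * B * ε0 * C1 := by rw [hE]; ring
        _ ≤ _ := hε0B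
    calc θ * Real.exp 2 ≤ Real.exp (-2) / 2 * Real.exp 2 := by gcongr
      _ = 1 / 2 := by
        rw [div_mul_eq_mul_div, ← Real.exp_add]
        norm_num
  refine ⟨Real.exp (2 * k1) * (1 + 2 * Real.exp 2) + 2 / p ^ 2 * G + Real.exp K, by positivity, ?_⟩
  intro a w η ε Λ c h hη hεn hε hΛ hK1 hK2
  have hw := h.smooth
  have hwc := hw.continuous
  have hw1 : ContDiff ℝ 1 w := hw.of_le (by norm_cast)
  have hdc : Continuous (fun z => fderiv ℝ w z) := hw1.continuous_fderiv (by simp)
  have hΛ0 : 0 ≤ Λ := le_trans (integral_nonneg (fun x => (Real.exp_pos _).le)) h.mass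
  obtain ⟨t0, t1, t2, t3⟩ := hts a w η ε Λ c h hη hεn (hε.trans hε01) (hΛ.trans hε01) hK1 hK2
  have hsub2 : tsupport ψ ⊆ ball 0 1 := by simpa using hsub
  have hsub12 : ball (0 : E2) 1 ⊆ ball 0 2 := ball_subset_ball (by norm_num)
  have hTT : ∀ k : ℝ, c + k1 ≤ k →
      ∫ x in ball (0 : E2) 1, TT 1 k (w x) * ‖fderiv ℝ w x‖
        ≤ ε0 / (3 * G2 * (G + 1)) * G + Real.pi * (G * q ^ i2) := by
    intro k hk
    have hTc : Continuous (fun x => TT 1 k (w x)) := (TT_contDiff 1 k).continuous.comp hwc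
    set S : Set E2 := {x | (k0 : ℝ) + i2 ≤ w x - c} with hS
    have hSm : MeasurableSet S := measurableSet_le measurable_const
      (show Measurable (fun x => w x - c) from (by fun_prop : Continuous (fun x => w x - c)).measurable)
    have hSb : {x ∈ ball (0 : E2) 1 | (k0 : ℝ) + i2 ≤ w x - c} = ball (0 : E2) 1 ∩ S := rfl
    have i1' : IntegrableOn (fun x => ‖fderiv ℝ w x‖) (ball (0 : E2) 1) := intOn_grad hw1 _ _
    have i2' : IntegrableOn (fun x => S.indicator (fun x => ‖fderiv ℝ w x‖) x) (ball (0 : E2) 1) :=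
      i1'.indicator hSm
    calc ∫ x in ball (0 : E2) 1, TT 1 k (w x) * ‖fderiv ℝ w x‖
        ≤ ∫ x in ball (0 : E2) 1, (ε0 / (3 * G2 * (G + 1)) * ‖fderiv ℝ w x‖
            + Real.pi * S.indicator (fun x => ‖fderiv ℝ w x‖) x) := by
          apply setIntegral_mono
          · exact intOn_ball (by fun_prop) _ _
          · exact (i1'.const_mul _).add (i2'.const_mul _)
          · intro x
            simp only
            by_cases hx : x ∈ S
            · rw [indicator_of_mem hx]
              have h3 := TT_le 1 k (w x)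
              have h4 : 0 ≤ ε0 / (3 * G2 * (G + 1)) * ‖fderiv ℝ w x‖ := by positivity
              have h5 := mul_le_mul_of_nonneg_right h3 (norm_nonneg (fderiv ℝ w x))
              linarith
            · rw [indicator_of_notMem hx, mul_zero, add_zero]
              apply mul_le_mul_of_nonneg_right _ (norm_nonneg _)
              apply hi1
              rw [hS, mem_ofPred_eq, not_le] at hx
              rw [hk1] at hk
              push_cast at hk
              linarith
      _ = ε0 / (3 * G2 * (G + 1)) * (∫ x in ball (0 : E2) 1, ‖fderiv ℝ w x‖)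
            + Real.pi * ∫ x in {x ∈ ball (0 : E2) 1 | (k0 : ℝ) + i2 ≤ w x - c}, ‖fderiv ℝ w x‖ := by
          rw [integral_add (i1'.const_mul _) (i2'.const_mul _), integral_const_mul, integral_const_mul,
            setIntegral_indicator hSm, hSb]
      _ ≤ _ := by
          apply add_le_add
          · exact mul_le_mul_of_nonneg_left t1 (by positivity)
          · exact mul_le_mul_of_nonneg_left (t2 i2) hpi.le
  have hXX : ∀ k : ℝ, c + k1 ≤ k → XX ψ w 1 k ≤ 4 * B * ε0 := by
    intro k hk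
    have hb := X_bound h hη hεn hψ hs (hsub2.trans hsub12) h0 h1 (s := 1) one_pos k
    have e1 : ∫ x, Real.exp (w x) * ψ x ≤ ε0 := by
      refine le_trans ?_ (h.mass.trans hΛ)
      rw [← integral_indicator measurableSet_ball]
      apply integral_mono
      · exact integrable_cc (by fun_prop) hs.mul_left
      · rw [integrable_indicator_iff measurableSet_ball]
        exact intOn_ball (by fun_prop) _ _
      · intro x
        by_cases hx : x ∈ ball (0 : E2) 2
        · simp only [indicator_of_mem hx]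
          exact mul_le_of_le_one_right (Real.exp_pos _).le (h1 x)
        · simp only [indicator_of_notMem hx]
          rw [image_eq_zero_of_notMem_tsupport (fun h => hx (hsub12 (hsub2 h))), mul_zero]
    have e3 := Tterm_crude h hη hψ hsub2 hsub12 hG2 1 k
    have e4 : 3 / 2 * G2 * ∫ x in ball (0 : E2) 1, TT 1 k (w x) * ‖fderiv ℝ w x‖ ≤ ε0 := by
      calc 3 / 2 * G2 * ∫ x in ball (0 : E2) 1, TT 1 k (w x) * ‖fderiv ℝ w x‖
          ≤ 3 / 2 * G2 * (ε0 / (3 * G2 * (G + 1)) * G + Real.pi * (G * q ^ i2)) :=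
            mul_le_mul_of_nonneg_left (hTT k hk) (by positivity)
        _ = 3 / 2 * G2 * (ε0 / (3 * G2 * (G + 1)) * G) + 3 / 2 * G2 * Real.pi * G * q ^ i2 := by ring
        _ ≤ ε0 / 2 + ε0 / 2 := by
            apply add_le_add _ hi2
            have e41 : 3 / 2 * G2 * (ε0 / (3 * G2 * (G + 1)) * G) = ε0 / 2 * (G / (G + 1)) := by
              field_simp
            rw [e41]
            apply mul_le_of_le_one_right (by positivity)
            rw [div_le_one (by positivity)]
            linarith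
        _ = ε0 := by ring
    have e5 : 5 * ε * √(∫ x, ‖gradient ψ x‖ ^ 2) ≤ 5 * ε0 * D := by
      rw [← hD]
      gcongr
    have e6 : 2 * ε ^ 2 / 1 ≤ 2 * ε0 := by
      rw [div_one]
      exact sm_sq hεn hε hε01
    have e7 : Real.pi * (∫ x, Real.exp (w x) * ψ x) ≤ Real.pi * ε0 := mul_le_mul_of_nonneg_left e1 hpi.le
    have e8 : 4 * B * ε0 = 4 * (Real.pi * ε0 + 2 * ε0 + 5 * ε0 * D + ε0) := by
      rw [hB]
      ring
    rw [e8]
    linarith
  have hband : ∀ j : ℕ, bandE (fun x => w x - c) 0 (1 / 2) ((k1 : ℝ) + j) ≤ E := by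
    intro j
    have h3 := bandE_le_XX (c := c) (k := (k1 : ℝ) + j) hw hψ hs h0 (x0 := 0) (r := 1 / 2)
      (fun x hx => hone x (ball_subset_closedBall hx))
    have h4 := hXX (c + ((k1 : ℝ) + j)) (by
      have : (0 : ℝ) ≤ j := Nat.cast_nonneg j
      linarith)
    rw [hE]
    linarith
  have hlev1 : lev (fun x => w x - c) 0 (1 / 2) k1 ≤ Real.pi * (1 / 2) ^ 2 / 2 := by
    refine le_trans (lev_anti 0 (1 / 2) ?_) t0
    rw [hk1]
    push_cast
    have : (0 : ℝ) ≤ i1 := Nat.cast_nonneg i1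
    have : (0 : ℝ) ≤ i2 := Nat.cast_nonneg i2
    linarith
  have hdec := hdecay (fun x => w x - c) (hw1.sub contDiff_const) 0 (1 / 2) (by norm_num) k1 E hE0.le
    hlev1 hband
  have hθ1 : θ * Real.exp 2 < 1 := by linarith
  have hexp := exp_int_le (v := fun x => w x - c) (by fun_prop) 0 (show (0 : ℝ) < 1 / 2 by norm_num)
    (k := k1) (p := 2) (θ := θ) (by norm_num) hθ0 hθ1 hdec
  have hpi4 := Real.pi_lt_four
  refine ⟨?_, ?_, ?_⟩
  · refine hexp.trans ?_
    have g1 : Real.exp 2 / (1 - θ * Real.exp 2) ≤ 2 * Real.exp 2 := by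
      rw [div_le_iff₀ (by linarith)]
      exact sm_ee hθ0 hθe
    have g2 : Real.exp (2 * (k1 : ℝ)) * (1 + Real.exp 2 / (1 - θ * Real.exp 2)) * (Real.pi * (1 / 2) ^ 2)
        ≤ Real.exp (2 * k1) * (1 + 2 * Real.exp 2) * 1 := by
      have g3 : Real.pi * (1 / 2) ^ 2 ≤ 1 := sm_pi
      have g4 : 0 ≤ 1 + Real.exp 2 / (1 - θ * Real.exp 2) := by
        have : 0 ≤ Real.exp 2 / (1 - θ * Real.exp 2) := div_nonneg (Real.exp_pos _).le (by linarith)
        linarith
      gcongr
    have g5 : 0 ≤ 2 / p ^ 2 * G := by positivity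
    have g6 := Real.exp_pos K
    linarith
  · have g1 : ∫ x in ball (0 : E2) 1, |w x - c| ^ 2 ≤ 2 / p ^ 2 * G := by
      calc ∫ x in ball (0 : E2) 1, |w x - c| ^ 2
          ≤ ∫ x in ball (0 : E2) 1, 2 / p ^ 2 * Real.exp (p * |w x - c|) := by
            apply setIntegral_mono
            · exact intOn_ball (by fun_prop) _ _
            · exact intOn_ball (by fun_prop) _ _
            · intro x
              simp only
              have h3 := Real.quadratic_le_exp_of_nonneg (show 0 ≤ p * |w x - c| by positivity)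
              have h4 : |w x - c| ^ 2 = 2 / p ^ 2 * ((p * |w x - c|) ^ 2 / 2) := by
                field_simp
              rw [h4]
              apply mul_le_mul_of_nonneg_left _ (by positivity)
              have : 0 ≤ p * |w x - c| := by positivity
              linarith
        _ = 2 / p ^ 2 * ∫ x in ball (0 : E2) 1, Real.exp (p * |w x - c|) := integral_const_mul _ _
        _ ≤ _ := mul_le_mul_of_nonneg_left t3 (by positivity)
    have g5 : 0 ≤ Real.exp (2 * k1) * (1 + 2 * Real.exp 2) := by positivity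
    have g6 := Real.exp_pos K
    linarith
  · have g1 : ∫ x in ball (0 : E2) 2, Real.exp (w x) ≤ 1 := h.mass.trans (hΛ.trans hε01)
    have g2 : Real.exp (c - K) * (4 * Real.pi) ≤ ∫ x in ball (0 : E2) 2, Real.exp (w x) := by
      have g3 : ∫ x in ball (0 : E2) 2, Real.exp (c - K) * (1 + K - |w x - c|)
          ≤ ∫ x in ball (0 : E2) 2, Real.exp (w x) := by
        apply setIntegral_mono
        · exact intOn_ball (by fun_prop) _ _
        · exact intOn_ball (by fun_prop) _ _
        · intro x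
          simp only
          have h3 := Real.add_one_le_exp (w x - c + K)
          have h4 : Real.exp (w x) = Real.exp (c - K) * Real.exp (w x - c + K) := by
            rw [← Real.exp_add]
            ring_nf
          rw [h4]
          apply mul_le_mul_of_nonneg_left _ (Real.exp_pos _).le
          have := neg_abs_le (w x - c)
          linarith
      refine le_trans ?_ g3
      have c1 : Continuous (fun x => |w x - c|) := by fun_prop
      have i3 : IntegrableOn (fun x => |w x - c|) (ball (0 : E2) 2) := intOn_ball c1 _ _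
      have i4 : IntegrableOn (fun _ => (1 + K)) (ball (0 : E2) 2) := intOn_ball continuous_const _ _
      rw [integral_const_mul, integral_sub i4 i3, setIntegral_const, volume_ball_real 0 (by norm_num)]
      apply mul_le_mul_of_nonneg_left _ (Real.exp_pos _).le
      simp only [smul_eq_mul]
      exact sm_k hK hK1
    have g4 : Real.exp (c - K) ≤ 1 := sm_c (Real.exp_pos _) g2 g1
    have g5 : Real.exp c ≤ Real.exp K := by
      rw [Real.exp_le_exp]
      have : c - K ≤ 0 := Real.exp_le_one_iff.mp g4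
      linarith
    have g6 : 0 ≤ Real.exp (2 * k1) * (1 + 2 * Real.exp 2) := by positivity
    have g7 : 0 ≤ 2 / p ^ 2 * G := by positivity
    linarith

end Pool.Agent.Helper41.PS
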