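import Pool.Agent.Helper41.PS.SmallMass2

/-!
# Regularity where the mass is small, energy bound and scaled versions
-/

open MeasureTheory Set Filter Topology Metric
open scoped ContDiff ENNReal NNReal

namespace Pool.Agent.Helper41.PS

lemma sqrt_le_lin {t : ℝ} (ht : 0 ≤ t) : √t ≤ t / 16 + 4 := by
  have h1 := Real.sq_sqrt ht
  nlinarith [sq_nonneg (√t - 8)]

/-- Caccioppoli type energy bound. -/
theorem energy_bound {a : E2 → E2 →L[ℝ] E2} {w : E2 → ℝ} {η ε Λ c C G : ℝ}
    (h : Adm a w η ε Λ 0 2) (hη : η ≤ 1 / 2) (hε0 : 0 ≤ ε) (hε : ε ≤ 1)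
    (hG : ∀ x, ‖gradient (cut (1 / 4) (by norm_num)) x‖ ≤ G)
    (hexp : ∫ x in ball (0 : E2) (1 / 2), Real.exp (2 * (w x - c)) ≤ C)
    (hsq : ∫ x in ball (0 : E2) 1, |w x - c| ^ 2 ≤ C) (hc : Real.exp c ≤ C) :
    ∫ x in ball (0 : E2) (1 / 4), ‖fderiv ℝ w x‖ ^ 2 ≤ 4 * (C ^ 2 + 19 * (G ^ 2 * C) + 4) := by
  obtain ⟨hψ, hs, hsub, h0, h1, hone⟩ := cut_facts (show (0 : ℝ) < 1 / 4 by norm_num)
  set ψ : E2 → ℝ := ⇑(cut (1 / 4 : ℝ) (by norm_num)) with hψdef
  have hw := h.smooth
  have hwc := hw.continuous
  have hgw := smooth_grad_cont hw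
  have hgψ := smooth_grad_cont hψ
  have hψc := hψ.continuous
  have hac := h.a_cont
  have hsg := hasCompactSupport_grad hs
  have hw1 : ContDiff ℝ 1 w := hw.of_le (by norm_cast)
  have hC : 0 < C := lt_of_lt_of_le (Real.exp_pos _) hc
  have hsub2 : tsupport ψ ⊆ ball 0 (1 / 2) := by
    refine hsub.trans (ball_subset_ball (by norm_num))
  have hsubR : tsupport ψ ⊆ ball 0 2 := hsub2.trans (ball_subset_ball (by norm_num))
  set f : E2 → ℝ := fun x => w x - c with hf
  have hfs : ContDiff ℝ ∞ f := hw.sub contDiff_const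
  have hfc := hfs.continuous
  have hgf : ∀ x, gradient f x = gradient w x := fun x => grad_sub_const w c x
  set v : E2 → ℝ := fun x => f x * (ψ x * ψ x) with hv
  have hvs : ContDiff ℝ ∞ v := hfs.mul (hψ.mul hψ)
  have hvc : HasCompactSupport v := (hs.mul_left).mul_left
  have hvt : tsupport v ⊆ ball 0 2 := by
    refine (closure_mono ?_).trans hsubR
    intro x hx
    rw [Function.mem_support] at hx ⊢
    intro h
    apply hx
    simp only [hv, h]
    ring
  have hgv : ∀ x, gradient v x = (ψ x ^ 2) • gradient w x + (2 * f x * ψ x) • gradient ψ x := by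
    intro x
    have d1 : DifferentiableAt ℝ ψ x := smooth_diff hψ x
    have e1 := grad_mul (f := f) (g := fun x => ψ x * ψ x) (x := x) (smooth_diff hfs x) (d1.mul d1)
    have e2 := grad_mul (f := ψ) (g := ψ) (x := x) d1 d1
    rw [hv, e1, e2, hgf]
    module
  -- integrals
  set E := ∫ x, ψ x ^ 2 * ‖gradient w x‖ ^ 2 with hE
  set B := ∫ x, f x ^ 2 * ‖gradient ψ x‖ ^ 2 with hB
  have IE : Integrable (fun x => ψ x ^ 2 * ‖gradient w x‖ ^ 2) := by
    apply integrable_cc (by fun_prop)
    exact (hs.comp_left (g := fun t : ℝ => t ^ 2) (by norm_num)).mul_right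
  have IB : Integrable (fun x => f x ^ 2 * ‖gradient ψ x‖ ^ 2) := by
    apply integrable_cc (by fun_prop)
    exact ((hsg.norm).comp_left (g := fun t : ℝ => t ^ 2) (by norm_num)).mul_left
  have hE0 : 0 ≤ E := integral_nonneg (fun x => by positivity)
  have hB0 : 0 ≤ B := integral_nonneg (fun x => by positivity)
  have hBC : B ≤ G ^ 2 * C := by
    calc B ≤ ∫ x in ball (0 : E2) 1, G ^ 2 * |w x - c| ^ 2 := by
          rw [hB, ← integral_indicator measurableSet_ball]
          apply integral_mono IB
          · rw [integrable_indicator_iff measurableSet_ball]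
            exact intOn_ball (by fun_prop) _ _
          · intro x
            by_cases hx : x ∈ ball (0 : E2) 1
            · simp only [indicator_of_mem hx]
              rw [sq_abs, mul_comm]
              apply mul_le_mul_of_nonneg_right _ (sq_nonneg _)
              exact pow_le_pow_left₀ (norm_nonneg _) (hG x) 2
            · simp only [indicator_of_notMem hx]
              have : gradient ψ x = 0 := by
                have h1 : x ∉ tsupport (gradient ψ) := fun h => hx
                  (ball_subset_ball (by norm_num) (hsub2 (tsupport_grad_subset ψ h)))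
                exact image_eq_zero_of_notMem_tsupport h1
              rw [this]
              simp
      _ = G ^ 2 * ∫ x in ball (0 : E2) 1, |w x - c| ^ 2 := integral_const_mul _ _
      _ ≤ G ^ 2 * C := mul_le_mul_of_nonneg_left hsq (sq_nonneg _)
  have key := h.weak v hvs hvc hvt
  -- lower bound of the quadratic part
  have k1 : 3 / 8 * E - 18 * B ≤ ∫ x, inner ℝ (a x (gradient w x)) (gradient v x) := by
    rw [hE, hB, ← integral_const_mul, ← integral_const_mul, ← integral_sub (IE.const_mul _) (IB.const_mul _)]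
    apply integral_mono ((IE.const_mul _).sub (IB.const_mul _))
    · have hgvc := smooth_grad_cont hvs
      have haw : Continuous (fun x => a x (gradient w x)) := hac.clm_apply hgw
      apply integrable_cc (haw.inner hgvc)
      apply (hasCompactSupport_grad hvc).mono'
      intro x hx
      apply subset_tsupport
      rw [Function.mem_support] at hx ⊢
      intro h
      apply hx
      rw [h, inner_zero_right]
    · intro x
      simp only [Pi.sub_apply]
      by_cases hx : x ∈ ball (0 : E2) 2
      · rw [hgv, inner_add_right, inner_smul_right, inner_smul_right]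
        have h3 := near_id_inner (h.a_near x hx) (gradient w x) (gradient w x)
        rw [real_inner_self_eq_norm_sq] at h3
        have h4 := (abs_le.mp h3).1
        have hn := norm_nonneg (gradient w x)
        have hn2 := norm_nonneg (gradient ψ x)
        have h5 : 1 / 2 * ‖gradient w x‖ ^ 2 ≤ inner ℝ (a x (gradient w x)) (gradient w x) := by
          nlinarith
        have h6 := near_id_inner (h.a_near x hx) (gradient w x) (gradient ψ x)
        have h7 : |inner ℝ (a x (gradient w x)) (gradient ψ x)| ≤ 3 / 2 * (‖gradient w x‖ * ‖gradient ψ x‖) := by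
          have h8 := abs_real_inner_le_norm (gradient w x) (gradient ψ x)
          have h9 : η * (‖gradient w x‖ * ‖gradient ψ x‖) ≤ 1 / 2 * (‖gradient w x‖ * ‖gradient ψ x‖) :=
            mul_le_mul_of_nonneg_right hη (by positivity)
          calc |inner ℝ (a x (gradient w x)) (gradient ψ x)|
              = |(inner ℝ (a x (gradient w x)) (gradient ψ x) - inner ℝ (gradient w x) (gradient ψ x))
                + inner ℝ (gradient w x) (gradient ψ x)| := by ring_nf
            _ ≤ |inner ℝ (a x (gradient w x)) (gradient ψ x) - inner ℝ (gradient w x) (gradient ψ x)|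
                + |inner ℝ (gradient w x) (gradient ψ x)| := abs_add_le _ _
            _ ≤ 1 / 2 * (‖gradient w x‖ * ‖gradient ψ x‖) + ‖gradient w x‖ * ‖gradient ψ x‖ :=
                add_le_add (h6.trans h9) h8
            _ = _ := by ring
        have h10 : -(2 * |f x| * ψ x * (3 / 2 * (‖gradient w x‖ * ‖gradient ψ x‖)))
            ≤ 2 * f x * ψ x * inner ℝ (a x (gradient w x)) (gradient ψ x) := by
          have h11 : |2 * f x * ψ x * inner ℝ (a x (gradient w x)) (gradient ψ x)|
              ≤ 2 * |f x| * ψ x * (3 / 2 * (‖gradient w x‖ * ‖gradient ψ x‖)) := by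
            rw [abs_mul, abs_mul, abs_mul, abs_of_nonneg (h0 x), abs_two]
            apply mul_le_mul_of_nonneg_left h7
            have := h0 x
            positivity
          exact (abs_le.mp h11).1
        have h12 : 2 * |f x| * ψ x * (3 / 2 * (‖gradient w x‖ * ‖gradient ψ x‖))
            ≤ 1 / 8 * (ψ x ^ 2 * ‖gradient w x‖ ^ 2) + 18 * (f x ^ 2 * ‖gradient ψ x‖ ^ 2) := by
          have h13 := sq_nonneg (ψ x * ‖gradient w x‖ - 12 * (|f x| * ‖gradient ψ x‖))
          have h14 : |f x| ^ 2 = f x ^ 2 := sq_abs _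
          nlinarith
        have h15 : 1 / 2 * (ψ x ^ 2 * ‖gradient w x‖ ^ 2)
            ≤ ψ x ^ 2 * inner ℝ (a x (gradient w x)) (gradient w x) := by
          have := mul_le_mul_of_nonneg_left h5 (sq_nonneg (ψ x))
          linarith
        linarith
      · have e1 : ψ x = 0 := image_eq_zero_of_notMem_tsupport (fun h => hx (hsubR h))
        have e2 : gradient ψ x = 0 := by
          have h1 : x ∉ tsupport (gradient ψ) := fun h => hx (hsubR (tsupport_grad_subset ψ h))
          exact image_eq_zero_of_notMem_tsupport h1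
        rw [hgv, e1, e2]
        simp
  -- the exponential part
  have k2 : ∫ x, Real.exp (w x) * v x ≤ C ^ 2 := by
    calc ∫ x, Real.exp (w x) * v x ≤ ∫ x in ball (0 : E2) (1 / 2), Real.exp c * Real.exp (2 * (w x - c)) := by
          rw [← integral_indicator measurableSet_ball]
          apply integral_mono
          · exact integrable_cc (by fun_prop) hvc.mul_left
          · rw [integrable_indicator_iff measurableSet_ball]
            exact intOn_ball (by fun_prop) _ _
          · intro x
            by_cases hx : x ∈ ball (0 : E2) (1 / 2)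
            · simp only [indicator_of_mem hx, hv]
              have e1 : Real.exp (w x) = Real.exp c * Real.exp (f x) := by
                rw [← Real.exp_add]
                simp only [hf]
                ring_nf
              have e2 : Real.exp (2 * (w x - c)) = Real.exp (f x) * Real.exp (f x) := by
                rw [← Real.exp_add]
                simp only [hf]
                ring_nf
              rw [e1, e2, mul_assoc]
              apply mul_le_mul_of_nonneg_left _ (Real.exp_pos _).le
              apply mul_le_mul_of_nonneg_left _ (Real.exp_pos _).le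
              have e3 : f x ≤ Real.exp (f x) := by
                have := Real.add_one_le_exp (f x)
                linarith
              have e4 : ψ x * ψ x ≤ 1 := by
                have := h0 x
                have := h1 x
                nlinarith
              have e5 : 0 ≤ ψ x * ψ x := mul_nonneg (h0 x) (h0 x)
              calc f x * (ψ x * ψ x) ≤ Real.exp (f x) * (ψ x * ψ x) := mul_le_mul_of_nonneg_right e3 e5
                _ ≤ Real.exp (f x) * 1 := mul_le_mul_of_nonneg_left e4 (Real.exp_pos _).le
                _ = Real.exp (f x) := mul_one _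
            · simp only [indicator_of_notMem hx, hv]
              rw [image_eq_zero_of_notMem_tsupport (fun h => hx (hsub2 h))]
              simp
      _ = Real.exp c * ∫ x in ball (0 : E2) (1 / 2), Real.exp (2 * (w x - c)) := integral_const_mul _ _
      _ ≤ C * C := mul_le_mul hc hexp (integral_nonneg (fun x => (Real.exp_pos _).le)) hC.le
      _ = C ^ 2 := by ring
  -- the error
  have k3 : ∫ x, ‖gradient v x‖ ^ 2 ≤ 2 * E + 8 * B := by
    rw [hE, hB, ← integral_const_mul, ← integral_const_mul, ← integral_add (IE.const_mul _) (IB.const_mul _)]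
    apply integral_mono
    · have hgvc := smooth_grad_cont hvs
      apply integrable_cc (by fun_prop)
      exact ((hasCompactSupport_grad hvc).norm).comp_left (g := fun t : ℝ => t ^ 2) (by norm_num)
    · exact (IE.const_mul _).add (IB.const_mul _)
    · intro x
      simp only
      rw [hgv]
      have g0 := h0 x
      have g1 := h1 x
      have h3 : ‖(ψ x ^ 2) • gradient w x + (2 * f x * ψ x) • gradient ψ x‖
          ≤ ψ x * ‖gradient w x‖ + 2 * |f x| * ‖gradient ψ x‖ := by
        refine (norm_add_le _ _).trans ?_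
        rw [norm_smul, norm_smul, Real.norm_of_nonneg (sq_nonneg _), Real.norm_eq_abs, abs_mul, abs_mul,
          abs_two, abs_of_nonneg g0]
        apply add_le_add
        · apply mul_le_mul_of_nonneg_right _ (norm_nonneg _)
          nlinarith
        · apply mul_le_mul_of_nonneg_right _ (norm_nonneg _)
          apply mul_le_of_le_one_right (by positivity) g1
      have h4 : ‖(ψ x ^ 2) • gradient w x + (2 * f x * ψ x) • gradient ψ x‖ ^ 2
          ≤ (ψ x * ‖gradient w x‖ + 2 * |f x| * ‖gradient ψ x‖) ^ 2 :=
        pow_le_pow_left₀ (norm_nonneg _) h3 2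
      have h5 := sq_nonneg (ψ x * ‖gradient w x‖ - 2 * |f x| * ‖gradient ψ x‖)
      have h6 : |f x| ^ 2 = f x ^ 2 := sq_abs _
      nlinarith
  have k4 : ε * √(∫ x, ‖gradient v x‖ ^ 2) ≤ E / 8 + B / 2 + 4 := by
    have g1 : √(∫ x, ‖gradient v x‖ ^ 2) ≤ (2 * E + 8 * B) / 16 + 4 :=
      (Real.sqrt_le_sqrt k3).trans (sqrt_le_lin (by positivity))
    have g2 := Real.sqrt_nonneg (∫ x, ‖gradient v x‖ ^ 2)
    nlinarith
  have k5 := (abs_le.mp key).2
  have k6 : E ≤ 4 * (C ^ 2 + 19 * B + 4) := by linarith
  have k7 : ∫ x in ball (0 : E2) (1 / 4), ‖fderiv ℝ w x‖ ^ 2 ≤ E := by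
    rw [hE, ← integral_indicator measurableSet_ball]
    apply integral_mono
    · rw [integrable_indicator_iff measurableSet_ball]
      exact intOn_grad_sq hw1 _ _
    · exact IE
    · intro x
      by_cases hx : x ∈ ball (0 : E2) (1 / 4)
      · simp only [indicator_of_mem hx]
        rw [hone x (ball_subset_closedBall hx), norm_grad]
        simp
      · simp only [indicator_of_notMem hx]
        positivity
  linarith

/-- The complete small mass regularity at unit scale. -/
theorem exists_small_mass : ∃ ε0 : ℝ, 0 < ε0 ∧ ε0 ≤ 1 ∧ ∀ K : ℝ, 0 ≤ K → ∃ C : ℝ, 0 < C ∧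
    ∀ (a : E2 → E2 →L[ℝ] E2) (w : E2 → ℝ) (η ε Λ c : ℝ),
    Adm a w η ε Λ 0 2 → η ≤ 1 / 2 → 0 ≤ ε → ε ≤ ε0 → Λ ≤ ε0 →
    ∫ x in ball (0 : E2) 2, |w x - c| ≤ K →
    ∫ x in ball (0 : E2) 2, ‖fderiv ℝ w x‖ ≤ K →
    (∫ x in ball (0 : E2) (1 / 2), Real.exp (2 * (w x - c)) ≤ C) ∧ Real.exp c ≤ C ∧
    (∫ x in ball (0 : E2) (1 / 4), ‖fderiv ℝ w x‖ ^ 2 ≤ C) := by
  obtain ⟨ε0, h0, h1, hK⟩ := exists_exp2
  obtain ⟨G, hG0, hG⟩ := exists_grad_cut_bound (show (0 : ℝ) < 1 / 4 by norm_num)
  refine ⟨ε0, h0, h1, fun K hK0 => ?_⟩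
  obtain ⟨C, hC, hmain⟩ := hK K hK0
  refine ⟨C + 4 * (C ^ 2 + 19 * (G ^ 2 * C) + 4), by positivity, ?_⟩
  intro a w η ε Λ c h hη hε0 hε hΛ hK1 hK2
  obtain ⟨m1, m2, m3⟩ := hmain a w η ε Λ c h hη hε0 hε hΛ hK1 hK2
  have m4 := energy_bound h hη hε0 (hε.trans h1) hG m1 m2 m3
  have p1 : 0 ≤ 4 * (C ^ 2 + 19 * (G ^ 2 * C) + 4) := by positivity
  refine ⟨by linarith, by linarith, by linarith⟩

end Pool.Agent.Helper41.PS
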