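import Pool.Agent.Helper41.PS.Defs

/-!
# Interface between the analysis for smooth functions and the Hilbert space formulation
-/

open MeasureTheory Set Manifold Bundle Filter Topology
open scoped ContDiff ENNReal

namespace Pool.Agent.Helper41.PS

variable {M : Type*} [TopologicalSpace M] [ChartedSpace E2 M] [IsManifold (𝓡 2) ∞ M]
  [RiemannianBundle (fun x : M => TangentSpace (𝓡 2) x)] [MeasurableSpace M]

/-- Palais-Smale sequences of smooth functions have bounded Dirichlet energy along a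
subsequence. -/
def SmoothBound (vol : Measure M) (h : M → ℝ) (lam : ℝ) : Prop :=
  ∀ (u : ℕ → M → ℝ) (ε : ℕ → ℝ) (c : ℝ), (∀ n, ContMDiff (𝓡 2) 𝓘(ℝ, ℝ) ∞ (u n)) →
    (∀ n, ∫ x, h x * Real.exp (u n x) ∂vol = 1) →
    Tendsto ε atTop (𝓝 0) →
    (∀ n, ∀ φ : M → ℝ, ContMDiff (𝓡 2) 𝓘(ℝ, ℝ) ∞ φ →
      |(∫ x, inner ℝ (grad (u n) x) (grad φ x) ∂vol) + lam * (∫ x, φ x ∂vol)
         - lam * ∫ x, h x * Real.exp (u n x) * φ x ∂vol|
        ≤ ε n * √((∫ x, φ x ^ 2 ∂vol) + ∫ x, ‖grad φ x‖ ^ 2 ∂vol)) →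
    Tendsto (fun n => (1 / 2) * (∫ x, ‖grad (u n) x‖ ^ 2 ∂vol) + lam * ∫ x, u n x ∂vol)
      atTop (𝓝 c) →
    ∃ C : ℝ, ∃ᶠ n in atTop, ∫ x, ‖grad (u n) x‖ ^ 2 ∂vol ≤ C

end Pool.Agent.Helper41.PS
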