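import Pool.Agent.Helper41.PS.Adm
import Pool.Agent.Helper41.PS.Kernel

/-!
# The potential of the divergence of a radial field
-/

open MeasureTheory Set Filter Topology Metric
open scoped ContDiff ENNReal NNReal

namespace Pool.Agent.Helper41.PS

/-- Cauchy-Schwarz for integrals. -/
lemma cs_integral {α : Type*} [MeasurableSpace α] {μ : Measure α} {f g : α → ℝ}
    (hf : MemLp f 2 μ) (hg : MemLp g 2 μ) :
    ∫ x, |f x| * |g x| ∂μ ≤ √(∫ x, f x ^ 2 ∂μ) * √(∫ x, g x ^ 2 ∂μ) := by
  have h2 : ENNReal.ofReal 2 = 2 := by norm_num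
  have h := integral_mul_le_Lp_mul_Lq_of_nonneg (μ := μ) (p := 2) (q := 2)
    Real.HolderConjugate.two_two (f := fun x => |f x|) (g := fun x => |g x|)
    (Eventually.of_forall (fun x => abs_nonneg _)) (Eventually.of_forall (fun x => abs_nonneg _))
    (by rw [h2]; exact hf.norm) (by rw [h2]; exact hg.norm)
  refine h.trans (le_of_eq ?_)
  have e : ∀ f : α → ℝ, (∫ x, |f x| ^ (2 : ℝ) ∂μ) ^ (1 / (2 : ℝ)) = √(∫ x, f x ^ 2 ∂μ) := by
    intro f
    rw [Real.sqrt_eq_rpow]
    congr 1
    refine integral_congr_ae (Eventually.of_forall (fun x => ?_))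
    simp only
    rw [Real.rpow_two, sq_abs]
  rw [e, e]

lemma memLp_cc {f : E2 → ℝ} (hf : Continuous f) (hs : HasCompactSupport f) :
    MemLp f 2 (volume : Measure E2) := hf.memLp_of_hasCompactSupport hs

lemma coord_fderiv (x e : E2) (i : Fin 2) : fderiv ℝ (fun x : E2 => x i) x e = e i := by
  have : HasFDerivAt (fun x : E2 => x i) (EuclideanSpace.proj i : E2 →L[ℝ] ℝ) x :=
    (EuclideanSpace.proj i : E2 →L[ℝ] ℝ).hasFDerivAt
  rw [this.fderiv]
  rfl

/-- Integration by parts against a radial multiple. -/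
lemma div_ibp {g F : E2 → ℝ} (hg : ContDiff ℝ 1 g) (hs : HasCompactSupport g) (hF : ContDiff ℝ 1 F) :
    ∫ x, g x * inner ℝ x (gradient F x) = - ∫ x, F x * (2 * g x + inner ℝ x (gradient g x)) := by
  have hgc := hg.continuous
  have hFc := hF.continuous
  have hdF : Continuous (fun z => fderiv ℝ F z) := hF.continuous_fderiv (by simp)
  have hdg : Continuous (fun z => fderiv ℝ g z) := hg.continuous_fderiv (by simp)
  have hgg := continuous_grad hg
  have key : ∀ i : Fin 2, ∫ x, fderiv ℝ F x (EuclideanSpace.single i 1) * (g x * x i)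
      = - ∫ x, F x * (g x + x i * (gradient g x) i) := by
    intro i
    have hc : ContDiff ℝ 1 (fun x : E2 => x i) := by
      exact (EuclideanSpace.proj i : E2 →L[ℝ] ℝ).contDiff
    have hgi : ContDiff ℝ 1 (fun x => g x * x i) := hg.mul hc
    have h1 := ibp_dir hF hgi (hs.mul_right) (EuclideanSpace.single i 1)
    rw [h1]
    congr 1
    refine integral_congr_ae (Eventually.of_forall (fun x => ?_))
    simp only
    have d1 : DifferentiableAt ℝ g x := hg.differentiable (by simp) x
    have d2 : DifferentiableAt ℝ (fun x : E2 => x i) x := hc.differentiable (by simp) x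
    rw [fderiv_fun_mul d1 d2]
    have e1 := coord_fderiv x (EuclideanSpace.single i 1) i
    have e2 : (EuclideanSpace.single i (1 : ℝ) : E2) i = 1 := by simp
    simp only [add_apply, smul_apply, smul_eq_mul]
    rw [e1, e2, grad_apply]
    ring
  have e1 : ∫ x, g x * inner ℝ x (gradient F x)
      = (∫ x, fderiv ℝ F x (EuclideanSpace.single 0 1) * (g x * x 0))
        + ∫ x, fderiv ℝ F x (EuclideanSpace.single 1 1) * (g x * x 1) := by
    have c0 : Continuous (fun x : E2 => x 0) := by fun_prop
    have c1 : Continuous (fun x : E2 => x 1) := by fun_prop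
    rw [← integral_add]
    · refine integral_congr_ae (Eventually.of_forall (fun x => ?_))
      simp only
      rw [inner_E2, grad_apply, grad_apply]
      ring
    · exact integrable_cc (by fun_prop) (hs.mul_right).mul_left
    · exact integrable_cc (by fun_prop) (hs.mul_right).mul_left
  rw [e1, key, key, ← neg_add, ← integral_add]
  · congr 1
    refine integral_congr_ae (Eventually.of_forall (fun x => ?_))
    simp only
    rw [inner_E2]
    ring
  all_goals
    apply Continuous.integrable_of_hasCompactSupport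
    · have c0 : Continuous (fun x => (gradient g x) 0) := by fun_prop
      have c1 : Continuous (fun x => (gradient g x) 1) := by fun_prop
      fun_prop
    · have hsg := hasCompactSupport_grad hs
      apply HasCompactSupport.mul_left
      apply HasCompactSupport.add hs
      apply HasCompactSupport.mul_left
      exact hsg.comp_left (g := fun v : E2 => v _) rfl

/-- Minus the divergence of the field `g(x) x`. -/
noncomputable def psi (g : E2 → ℝ) (x : E2) : ℝ := -(2 * g x + inner ℝ x (gradient g x))

lemma psi_contDiff {g : E2 → ℝ} (hg : ContDiff ℝ ∞ g) : ContDiff ℝ ∞ (psi g) := by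
  have h1 : ContDiff ℝ ∞ (gradient g) := by
    have h2 : ContDiff ℝ ∞ (fun x => fderiv ℝ g x) := hg.fderiv_right (by simp)
    exact (InnerProductSpace.toDual ℝ E2).symm.contDiff.comp h2
  unfold psi
  exact ((contDiff_const.mul hg).add (contDiff_id.inner ℝ h1)).neg

lemma psi_zero {g : E2 → ℝ} {x : E2} (hx : x ∉ tsupport g) : psi g x = 0 := by
  have h1 : g x = 0 := image_eq_zero_of_notMem_tsupport hx
  have h2 : gradient g x = 0 :=
    image_eq_zero_of_notMem_tsupport (fun h => hx (tsupport_grad_subset g h))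
  rw [psi, h1, h2]
  simp

lemma psi_compact {g : E2 → ℝ} (hs : HasCompactSupport g) : HasCompactSupport (psi g) := by
  apply hs.mono'
  intro x hx
  by_contra h
  exact hx (psi_zero h)

lemma psi_pair {g F : E2 → ℝ} (hg : ContDiff ℝ 1 g) (hs : HasCompactSupport g) (hF : ContDiff ℝ 1 F) :
    ∫ x, psi g x * F x = ∫ x, g x * inner ℝ x (gradient F x) := by
  rw [div_ibp hg hs hF, ← integral_neg]
  refine integral_congr_ae (Eventually.of_forall (fun x => ?_))
  simp only [psi]
  ring

lemma grad_NN_sub {δ : ℝ} (hδ : 0 < δ) (x y : E2) :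
    gradient (fun y => NN δ (x - y)) y = (1 / (2 * Real.pi)) • KK δ (x - y) := by
  have h1 : HasFDerivAt (fun y => NN δ (x - y))
      (((-(1 / (2 * Real.pi))) • innerSL ℝ (KK δ (x - y))).comp (-(ContinuousLinearMap.id ℝ E2))) y := by
    have h2 : HasFDerivAt (fun y : E2 => x - y) (-(ContinuousLinearMap.id ℝ E2)) y :=
      (hasFDerivAt_id y).const_sub x
    exact (NN_hasFDerivAt hδ (x - y)).comp y h2
  rw [gradient, h1.fderiv]
  apply ext_inner_right ℝ
  intro v
  rw [InnerProductSpace.toDual_symm_apply]
  simp only [ContinuousLinearMap.comp_apply, smul_apply, neg_apply, ContinuousLinearMap.id_apply,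
    innerSL_apply_apply, inner_neg_right, smul_eq_mul, inner_smul_left, conj_trivial]
  ring

/-- The potential of the divergence, as an integral of the field. -/
lemma qq_eq_field {δ : ℝ} (hδ : 0 < δ) {g : E2 → ℝ} (hg : ContDiff ℝ ∞ g) (hs : HasCompactSupport g)
    (x : E2) : qq δ (psi g) x = 1 / (2 * Real.pi) * ∫ y, g y * inner ℝ y (KK δ (x - y)) := by
  have hN : ContDiff ℝ 1 (fun y => NN δ (x - y)) := by
    have h1 : ContDiff ℝ 1 (NN δ) := (NN_contDiff hδ).of_le (by norm_cast)
    exact h1.comp (contDiff_const.sub contDiff_id)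
  rw [qq, psi_pair (hg.of_le (by norm_cast)) hs hN, ← integral_const_mul]
  refine integral_congr_ae (Eventually.of_forall (fun y => ?_))
  simp only
  rw [grad_NN_sub hδ, inner_smul_right]
  ring

lemma qq_psi_far {δ : ℝ} (hδ : 0 < δ) {g : E2 → ℝ} (hg : ContDiff ℝ ∞ g) (hs : HasCompactSupport g)
    (h0 : ∀ x, 0 ≤ g x) {S : ℝ} (hS : 0 < S) (hgS : ∀ y, 2 * S ≤ ‖y‖ → g y = 0) {x : E2}
    (hx : 4 * S ≤ ‖x‖) : |qq δ (psi g) x| ≤ 2 * S / (Real.pi * ‖x‖) * ∫ y, g y := by
  have hpi := Real.pi_pos
  have hx0 : 0 < ‖x‖ := by linarith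
  have hgc := hg.continuous
  rw [qq_eq_field hδ hg hs, abs_mul, abs_of_pos (by positivity)]
  have h1 : |∫ y, g y * inner ℝ y (KK δ (x - y))| ≤ ∫ y, (4 * S / ‖x‖) * g y := by
    rw [← Real.norm_eq_abs]
    apply norm_integral_le_of_norm_le
    · exact (integrable_cc hgc hs).const_mul _
    · refine Eventually.of_forall (fun y => ?_)
      rw [norm_mul, Real.norm_of_nonneg (h0 y)]
      by_cases hy : 2 * S ≤ ‖y‖
      · rw [hgS y hy]
        simp
      · push Not at hy
        have e1 : ‖x‖ / 2 ≤ ‖x - y‖ := by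
          have := norm_sub_norm_le x y
          linarith
        have e2 : ‖KK δ (x - y)‖ ≤ 2 / ‖x‖ := by
          refine (norm_KK_le_inv hδ _).trans ?_
          rw [← one_div, div_le_div_iff₀ (by linarith) hx0]
          linarith
        have e3 : ‖inner ℝ y (KK δ (x - y))‖ ≤ 4 * S / ‖x‖ := by
          refine (norm_inner_le_norm _ _).trans ?_
          calc ‖y‖ * ‖KK δ (x - y)‖ ≤ (2 * S) * (2 / ‖x‖) := mul_le_mul hy.le e2 (norm_nonneg _) (by linarith)
            _ = _ := by ring
        rw [mul_comm]
        exact mul_le_mul_of_nonneg_right e3 (h0 y)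
  rw [integral_const_mul] at h1
  calc 1 / (2 * Real.pi) * |∫ y, g y * inner ℝ y (KK δ (x - y))|
      ≤ 1 / (2 * Real.pi) * (4 * S / ‖x‖ * ∫ y, g y) := mul_le_mul_of_nonneg_left h1 (by positivity)
    _ = _ := by
      field_simp
      ring

/-- Weak L² bound for the gradient of the potential. -/
lemma qq_pair_bound {δ : ℝ} (hδ : 0 < δ) {g : E2 → ℝ} (hg : ContDiff ℝ ∞ g) (hs : HasCompactSupport g)
    {F : E2 → ℝ} (hF : ContDiff ℝ 1 F) (hFs : HasCompactSupport F) :
    |∫ x, inner ℝ (gradient F x) (gradient (qq δ (psi g)) x)|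
      ≤ √(∫ x, (g x * ‖x‖) ^ 2) * √(∫ x, ‖gradient F x‖ ^ 2) := by
  have hgc := hg.continuous
  have hFc := hF.continuous
  have hψ := (psi_contDiff hg).continuous
  have hψs := psi_compact hs
  obtain ⟨hP, hP1⟩ := integrable_PP hδ
  have hPc := PP_continuous hδ
  have hgF := continuous_grad hF
  rw [qq_duality hδ hψ hψs hF hFs]
  have e1 : ∀ y, ∫ x, F x * PP δ (x - y) = ∫ z, F (y + z) * PP δ z := by
    intro y
    rw [← integral_add_left_eq_self (fun x => F x * PP δ (x - y)) y]
    refine integral_congr_ae (Eventually.of_forall (fun z => ?_))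
    simp
  simp_rw [e1, ← integral_const_mul]
  obtain ⟨C, hC⟩ := hFs.exists_bound_of_continuous hFc
  have hint : Integrable (Function.uncurry (fun y z => psi g y * (F (y + z) * PP δ z)))
      ((volume : Measure E2).prod volume) := by
    have h1 : Integrable (fun q : E2 × E2 => (C * |psi g q.1|) * PP δ q.2)
        ((volume : Measure E2).prod volume) :=
      (((integrable_cc hψ hψs).abs).const_mul C).mul_prod hP
    refine h1.mono' ?_ (Eventually.of_forall (fun q => ?_))
    · apply Continuous.aestronglyMeasurable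
      unfold Function.uncurry
      fun_prop
    · obtain ⟨y, z⟩ := q
      simp only [Function.uncurry]
      rw [norm_mul, norm_mul, Real.norm_eq_abs, Real.norm_of_nonneg (PP_nonneg z)]
      have := hC (y + z)
      have p1 := PP_nonneg (δ := δ) z
      calc |psi g y| * (‖F (y + z)‖ * PP δ z) ≤ |psi g y| * (C * PP δ z) := by gcongr
        _ = _ := by ring
  rw [integral_integral_swap hint]
  set A := √(∫ x, (g x * ‖x‖) ^ 2) with hA
  set D := √(∫ x, ‖gradient F x‖ ^ 2) with hD
  have key : ∀ z, |∫ y, psi g y * (F (y + z) * PP δ z)| ≤ (A * D) * PP δ z := by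
    intro z
    have h1 : ∫ y, psi g y * (F (y + z) * PP δ z) = (∫ y, psi g y * F (y + z)) * PP δ z := by
      rw [← integral_mul_const]
      refine integral_congr_ae (Eventually.of_forall (fun y => ?_))
      simp only
      ring
    rw [h1, abs_mul, abs_of_nonneg (PP_nonneg z)]
    apply mul_le_mul_of_nonneg_right _ (PP_nonneg z)
    have hFz : ContDiff ℝ 1 (fun y => F (y + z)) := hF.comp (contDiff_id.add contDiff_const)
    rw [psi_pair (hg.of_le (by norm_cast)) hs hFz]
    have h2 : ∀ y, gradient (fun y => F (y + z)) y = gradient F (y + z) := by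
      intro y
      rw [gradient, gradient, fderiv_comp_add_right]
    simp_rw [h2]
    have hFsz : HasCompactSupport (fun y => gradient F (y + z)) :=
      (hasCompactSupport_grad hFs).comp_homeomorph (Homeomorph.addRight z)
    have m1 : MemLp (fun y => g y * ‖y‖) 2 (volume : Measure E2) :=
      memLp_cc (by fun_prop) hs.mul_right
    have m2 : MemLp (fun y => ‖gradient F (y + z)‖) 2 (volume : Measure E2) :=
      memLp_cc (by fun_prop) hFsz.norm
    have h3 := cs_integral m1 m2
    have h4 : ∫ y, ‖gradient F (y + z)‖ ^ 2 = ∫ y, ‖gradient F y‖ ^ 2 :=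
      integral_add_right_eq_self (fun y => ‖gradient F y‖ ^ 2) z
    rw [h4] at h3
    refine le_trans ?_ h3
    rw [← Real.norm_eq_abs]
    apply norm_integral_le_of_norm_le
    · apply integrable_cc (by fun_prop)
      exact (hs.mul_right).abs.mul_right
    · refine Eventually.of_forall (fun y => ?_)
      rw [norm_mul, Real.norm_eq_abs, abs_mul, abs_norm, abs_norm, mul_assoc]
      apply mul_le_mul_of_nonneg_left (norm_inner_le_norm _ _) (abs_nonneg _)
  calc |∫ z, ∫ y, psi g y * (F (y + z) * PP δ z)| ≤ ∫ z, (A * D) * PP δ z := by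
        rw [← Real.norm_eq_abs]
        apply norm_integral_le_of_norm_le (hP.const_mul _)
        exact Eventually.of_forall key
    _ = A * D := by rw [integral_const_mul, hP1, mul_one]

end Pool.Agent.Helper41.PS
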