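import Pool.Agent.Helper41.PS.Virial1

/-!
# Energy of the cut off potential and the symmetrised interaction
-/

open MeasureTheory Set Filter Topology Metric
open scoped ContDiff ENNReal NNReal

namespace Pool.Agent.Helper41.PS

lemma inner_lower (κ p : ℝ) (u v : E2) :
    1 / 2 * (κ ^ 2 * ‖v‖ ^ 2) - 2 * (p ^ 2 * ‖u‖ ^ 2)
      ≤ inner ℝ ((κ * κ) • v + (2 * κ * p) • u) v := by
  rw [inner_add_left, inner_smul_left, inner_smul_left, real_inner_self_eq_norm_sq]
  simp only [conj_trivial]
  have h1 : |2 * κ * p * inner ℝ u v| ≤ 2 * |κ| * |p| * (‖u‖ * ‖v‖) := by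
    rw [abs_mul, abs_mul, abs_mul, abs_two]
    exact mul_le_mul_of_nonneg_left (abs_real_inner_le_norm _ _) (by positivity)
  have h2 := (abs_le.mp h1).1
  have h3 := sq_nonneg (|κ| * ‖v‖ - 2 * (|p| * ‖u‖))
  have h4 : |κ| ^ 2 = κ ^ 2 := sq_abs _
  have h5 : |p| ^ 2 = p ^ 2 := sq_abs _
  nlinarith

lemma norm_sq_comb (α β : ℝ) (u v : E2) : ‖α • u + β • v‖ ^ 2 ≤ 2 * (α ^ 2 * ‖u‖ ^ 2) + 2 * (β ^ 2 * ‖v‖ ^ 2) := by
  have h1 : ‖α • u + β • v‖ ≤ |α| * ‖u‖ + |β| * ‖v‖ := by
    refine (norm_add_le _ _).trans ?_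
    rw [norm_smul, norm_smul, Real.norm_eq_abs, Real.norm_eq_abs]
  have h2 : ‖α • u + β • v‖ ^ 2 ≤ (|α| * ‖u‖ + |β| * ‖v‖) ^ 2 := pow_le_pow_left₀ (norm_nonneg _) h1 2
  have h3 := sq_nonneg (|α| * ‖u‖ - |β| * ‖v‖)
  have h4 : |α| ^ 2 = α ^ 2 := sq_abs _
  have h5 : |β| ^ 2 = β ^ 2 := sq_abs _
  nlinarith

/-- Energy of the cut off potential. -/
lemma energy_cut {δ : ℝ} (hδ : 0 < δ) {g : E2 → ℝ} (hg : ContDiff ℝ ∞ g) (hs : HasCompactSupport g)
    {κ : E2 → ℝ} (hκ : ContDiff ℝ ∞ κ) (hκs : HasCompactSupport κ) (hκ0 : ∀ x, 0 ≤ κ x)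
    (hκ1 : ∀ x, κ x ≤ 1) :
    ∫ x, ‖gradient (fun x => κ x * qq δ (psi g) x) x‖ ^ 2
      ≤ 16 * (∫ x, (g x * ‖x‖) ^ 2) + 26 * ∫ x, qq δ (psi g) x ^ 2 * ‖gradient κ x‖ ^ 2 := by
  set p := qq δ (psi g) with hp
  have hps : ContDiff ℝ ∞ p := qq_contDiff hδ (psi_contDiff hg) (psi_compact hs)
  have hpc := hps.continuous
  have hgp := smooth_grad_cont hps
  have hgκ := smooth_grad_cont hκ
  have hκc := hκ.continuous
  have hsgκ := hasCompactSupport_grad hκs
  have hgc := hg.continuous
  set A := ∫ x, (g x * ‖x‖) ^ 2 with hA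
  set Q := ∫ x, p x ^ 2 * ‖gradient κ x‖ ^ 2 with hQ
  set P := ∫ x, κ x ^ 2 * ‖gradient p x‖ ^ 2 with hP
  have hA0 : 0 ≤ A := integral_nonneg (fun x => sq_nonneg _)
  have hQ0 : 0 ≤ Q := integral_nonneg (fun x => by positivity)
  have hP0 : 0 ≤ P := integral_nonneg (fun x => by positivity)
  have IQ : Integrable (fun x => p x ^ 2 * ‖gradient κ x‖ ^ 2) := by
    apply integrable_cc (by fun_prop)
    exact ((hsgκ.norm).comp_left (g := fun t : ℝ => t ^ 2) (by norm_num)).mul_left
  have IP : Integrable (fun x => κ x ^ 2 * ‖gradient p x‖ ^ 2) := by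
    apply integrable_cc (by fun_prop)
    exact (hκs.comp_left (g := fun t : ℝ => t ^ 2) (by norm_num)).mul_right
  set F : E2 → ℝ := fun x => (κ x * κ x) * p x with hF
  have hFs : ContDiff ℝ ∞ F := (hκ.mul hκ).mul hps
  have hFc : HasCompactSupport F := (hκs.mul_left).mul_right
  have hgF : ∀ x, gradient F x = (κ x * κ x) • gradient p x + (2 * κ x * p x) • gradient κ x := by
    intro x
    have d1 : DifferentiableAt ℝ κ x := smooth_diff hκ x
    have d2 : DifferentiableAt ℝ p x := smooth_diff hps x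
    have e1 := grad_mul (f := fun x => κ x * κ x) (g := p) (x := x) (d1.mul d1) d2
    have e2 := grad_mul (f := κ) (g := κ) (x := x) d1 d1
    rw [hF, e1, e2]
    module
  have hgFc := smooth_grad_cont hFs
  have hpair := qq_pair_bound hδ hg hs (hFs.of_le (by norm_cast)) hFc
  rw [← hp, ← hA] at hpair
  set T := ∫ x, ‖gradient F x‖ ^ 2 with hT
  have hT0 : 0 ≤ T := integral_nonneg (fun x => by positivity)
  have k1 : 1 / 2 * P - 2 * Q ≤ ∫ x, inner ℝ (gradient F x) (gradient p x) := by
    rw [hP, hQ, ← integral_const_mul, ← integral_const_mul, ← integral_sub (IP.const_mul _) (IQ.const_mul _)]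
    apply integral_mono ((IP.const_mul _).sub (IQ.const_mul _))
    · apply integrable_cc (hgFc.inner hgp)
      apply (hasCompactSupport_grad hFc).mono'
      intro x hx
      apply subset_tsupport
      rw [Function.mem_support] at hx ⊢
      intro h
      apply hx
      rw [h, inner_zero_left]
    · intro x
      simp only [Pi.sub_apply]
      rw [hgF]
      exact inner_lower (κ x) (p x) (gradient κ x) (gradient p x)
  have k2 : T ≤ 2 * P + 8 * Q := by
    rw [hT, hP, hQ, ← integral_const_mul, ← integral_const_mul, ← integral_add (IP.const_mul _) (IQ.const_mul _)]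
    apply integral_mono
    · apply integrable_cc (by fun_prop)
      exact ((hasCompactSupport_grad hFc).norm).comp_left (g := fun t : ℝ => t ^ 2) (by norm_num)
    · exact (IP.const_mul _).add (IQ.const_mul _)
    · intro x
      simp only
      rw [hgF]
      refine (norm_sq_comb _ _ _ _).trans ?_
      have g0 := hκ0 x
      have g1 := hκ1 x
      have g2 : κ x ^ 2 ≤ 1 := by nlinarith
      have e1 : (κ x * κ x) ^ 2 * ‖gradient p x‖ ^ 2 ≤ κ x ^ 2 * ‖gradient p x‖ ^ 2 := by
        apply mul_le_mul_of_nonneg_right _ (sq_nonneg _)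
        nlinarith [sq_nonneg (κ x)]
      have e2 : (2 * κ x * p x) ^ 2 * ‖gradient κ x‖ ^ 2 ≤ 4 * (p x ^ 2 * ‖gradient κ x‖ ^ 2) := by
        have e3 : (2 * κ x * p x) ^ 2 ≤ 4 * p x ^ 2 := by
          have : (2 * κ x * p x) ^ 2 = 4 * (κ x ^ 2 * p x ^ 2) := by ring
          rw [this]
          nlinarith [sq_nonneg (p x)]
        calc _ ≤ (4 * p x ^ 2) * ‖gradient κ x‖ ^ 2 := mul_le_mul_of_nonneg_right e3 (sq_nonneg _)
          _ = _ := by ring
      linarith
  have k3 : √A * √T ≤ 2 * A + T / 8 := by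
    have h1 := Real.sq_sqrt hA0
    have h2 := Real.sq_sqrt hT0
    nlinarith [sq_nonneg (4 * √A - √T)]
  have k4 := (abs_le.mp hpair).2
  have k5 : P ≤ 8 * A + 12 * Q := by linarith
  have k6 : ∫ x, ‖gradient (fun x => κ x * p x) x‖ ^ 2 ≤ 2 * P + 2 * Q := by
    rw [hP, hQ, ← integral_const_mul, ← integral_const_mul, ← integral_add (IP.const_mul _) (IQ.const_mul _)]
    have hVs : ContDiff ℝ ∞ (fun x => κ x * p x) := hκ.mul hps
    have hVc : HasCompactSupport (fun x => κ x * p x) := hκs.mul_right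
    apply integral_mono
    · have := smooth_grad_cont hVs
      apply integrable_cc (by fun_prop)
      exact ((hasCompactSupport_grad hVc).norm).comp_left (g := fun t : ℝ => t ^ 2) (by norm_num)
    · exact (IP.const_mul _).add (IQ.const_mul _)
    · intro x
      simp only
      rw [grad_mul (smooth_diff hκ x) (smooth_diff hps x)]
      exact norm_sq_comb _ _ _ _
  linarith

lemma KK_neg (δ : ℝ) (z : E2) : KK δ (-z) = -KK δ z := by
  unfold KK dn
  rw [norm_neg, smul_neg]

lemma norm_KK_mul_zero (z : E2) : ‖KK 0 z‖ * ‖z‖ ≤ 1 := by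
  unfold KK dn
  by_cases h : z = 0
  · simp [h]
  · have hz : 0 < ‖z‖ := norm_pos_iff.mpr h
    rw [norm_smul, norm_inv, Real.norm_of_nonneg (by positivity)]
    have : (‖z‖ ^ 2 + 0 ^ 2)⁻¹ * ‖z‖ * ‖z‖ = 1 := by
      field_simp
      ring
    rw [this]

lemma KK_tendsto (z : E2) : Tendsto (fun c : ℝ => KK (1 / c) z) atTop (𝓝 (KK 0 z)) := by
  by_cases h : z = 0
  · subst h
    simp [KK]
  · have hz : 0 < ‖z‖ := norm_pos_iff.mpr h
    unfold KK dn
    have h1 : Tendsto (fun c : ℝ => 1 / c) atTop (𝓝 0) := by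
      simpa using tendsto_inv_atTop_zero (𝕜 := ℝ)
    have h2 : Tendsto (fun c : ℝ => ‖z‖ ^ 2 + (1 / c) ^ 2) atTop (𝓝 (‖z‖ ^ 2 + 0 ^ 2)) :=
      (h1.pow 2).const_add _
    exact (h2.inv₀ (by positivity)).smul_const z

lemma KK_continuous {δ : ℝ} (hδ : 0 < δ) : Continuous (KK δ) := (KK_contDiff hδ).continuous

/-- Symmetrisation of the interaction. -/
lemma sym_term {δ : ℝ} (hδ : 0 < δ) {μ : E2 → ℝ} (hμ : Continuous μ) (hs : HasCompactSupport μ)
    {X : E2 → E2} (hX : Continuous X) :
    ∫ x, μ x * ∫ y, μ y * inner ℝ (X y) (KK δ (x - y))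
      = -(1 / 2) * ∫ x, μ x * ∫ y, μ y * inner ℝ (X x - X y) (KK δ (x - y)) := by
  have hKc := KK_continuous hδ
  have iμ : Integrable μ := integrable_cc hμ hs
  have iμX : Integrable (fun y => |μ y| * ‖X y‖) := integrable_cc (by fun_prop) hs.abs.mul_right
  have IA : Integrable (Function.uncurry (fun x y => μ x * (μ y * inner ℝ (X y) (KK δ (x - y)))))
      ((volume : Measure E2).prod volume) := by
    have h1 : Integrable (fun q : E2 × E2 => |μ q.1| * (|μ q.2| * ‖X q.2‖ * (1 / (2 * δ))))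
        ((volume : Measure E2).prod volume) := iμ.abs.mul_prod (iμX.mul_const _)
    refine h1.mono' ?_ (Eventually.of_forall (fun q => ?_))
    · apply Continuous.aestronglyMeasurable
      unfold Function.uncurry
      fun_prop
    · obtain ⟨x, y⟩ := q
      simp only [Function.uncurry]
      rw [norm_mul, norm_mul, Real.norm_eq_abs, Real.norm_eq_abs, mul_assoc |μ y|]
      gcongr
      refine (norm_inner_le_norm _ _).trans ?_
      gcongr
      exact norm_KK_le hδ _
  have IB : Integrable (Function.uncurry (fun x y => μ x * (μ y * inner ℝ (X x) (KK δ (x - y)))))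
      ((volume : Measure E2).prod volume) := by
    have h1 : Integrable (fun q : E2 × E2 => (|μ q.1| * ‖X q.1‖) * (|μ q.2| * (1 / (2 * δ))))
        ((volume : Measure E2).prod volume) := iμX.mul_prod (iμ.abs.mul_const _)
    refine h1.mono' ?_ (Eventually.of_forall (fun q => ?_))
    · apply Continuous.aestronglyMeasurable
      unfold Function.uncurry
      fun_prop
    · obtain ⟨x, y⟩ := q
      simp only [Function.uncurry]
      rw [norm_mul, norm_mul, Real.norm_eq_abs, Real.norm_eq_abs]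
      have h2 : ‖inner ℝ (X x) (KK δ (x - y))‖ ≤ ‖X x‖ * (1 / (2 * δ)) := by
        refine (norm_inner_le_norm _ _).trans ?_
        gcongr
        exact norm_KK_le hδ _
      calc |μ x| * (|μ y| * ‖inner ℝ (X x) (KK δ (x - y))‖)
          ≤ |μ x| * (|μ y| * (‖X x‖ * (1 / (2 * δ)))) := by gcongr
        _ = _ := by ring
  set A := ∫ x, ∫ y, μ x * (μ y * inner ℝ (X y) (KK δ (x - y))) with hA
  set B := ∫ x, ∫ y, μ x * (μ y * inner ℝ (X x) (KK δ (x - y))) with hB
  have hBA : B = -A := by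
    rw [hB, integral_integral_swap IB, hA, ← integral_neg]
    refine integral_congr_ae (Eventually.of_forall (fun x => ?_))
    simp only
    rw [← integral_neg]
    refine integral_congr_ae (Eventually.of_forall (fun y => ?_))
    simp only
    have : KK δ (y - x) = -KK δ (x - y) := by rw [← KK_neg, neg_sub]
    rw [this, inner_neg_right]
    ring
  have e1 : ∫ x, μ x * ∫ y, μ y * inner ℝ (X y) (KK δ (x - y)) = A := by
    rw [hA]
    refine integral_congr_ae (Eventually.of_forall (fun x => ?_))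
    simp only
    rw [integral_const_mul]
  have e2 : ∫ x, μ x * ∫ y, μ y * inner ℝ (X x - X y) (KK δ (x - y)) = B - A := by
    have e3 : B - A = ∫ x, (∫ y, μ x * (μ y * inner ℝ (X x) (KK δ (x - y))))
        - ∫ y, μ x * (μ y * inner ℝ (X y) (KK δ (x - y))) := by
      rw [hA, hB, ← integral_sub]
      · exact IB.integral_prod_left
      · exact IA.integral_prod_left
    rw [e3]
    refine integral_congr_ae (Eventually.of_forall (fun x => ?_))
    simp only
    rw [← integral_sub, ← integral_const_mul]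
    · refine integral_congr_ae (Eventually.of_forall (fun y => ?_))
      simp only
      rw [inner_sub_left]
      ring
    · apply integrable_cc (by fun_prop)
      exact (hs.mul_right).mul_left
    · apply integrable_cc (by fun_prop)
      exact (hs.mul_right).mul_left
  rw [e1, e2, hBA]
  ring

end Pool.Agent.Helper41.PS
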