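import Pool.Agent.Helper41.PS.Virial2
import Pool.Agent.Helper41.PS.Cutoff

/-!
# The limit of the symmetrised interaction
-/

open MeasureTheory Set Filter Topology Metric
open scoped ContDiff ENNReal NNReal

namespace Pool.Agent.Helper41.PS

lemma norm_KK_mul' {δ : ℝ} (hδ : 0 ≤ δ) (z : E2) : ‖KK δ z‖ * ‖z‖ ≤ 1 := by
  rcases hδ.eq_or_lt with h | h
  · rw [← h]
    exact norm_KK_mul_zero z
  · exact norm_KK_mul h z

lemma HH_bound {δ : ℝ} (hδ : 0 ≤ δ) {X : E2 → E2} {L : ℝ} (hL : 0 ≤ L)
    (hX : ∀ x y, ‖X x - X y‖ ≤ L * ‖x - y‖) (x y : E2) :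
    ‖inner ℝ (X x - X y) (KK δ (x - y))‖ ≤ L := by
  refine (norm_inner_le_norm _ _).trans ?_
  calc ‖X x - X y‖ * ‖KK δ (x - y)‖ ≤ (L * ‖x - y‖) * ‖KK δ (x - y)‖ :=
        mul_le_mul_of_nonneg_right (hX x y) (norm_nonneg _)
    _ = L * (‖KK δ (x - y)‖ * ‖x - y‖) := by ring
    _ ≤ L * 1 := mul_le_mul_of_nonneg_left (norm_KK_mul' hδ _) hL
    _ = L := mul_one L

lemma measurable_KK (δ : ℝ) : Measurable (KK δ) := by
  unfold KK dn
  fun_prop

lemma sm_inner_int (δ : ℝ) {μ : E2 → ℝ} (hμ : Continuous μ) {X : E2 → E2} (hX : Continuous X) :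
    StronglyMeasurable (fun x => μ x * ∫ y, μ y * inner ℝ (X x - X y) (KK δ (x - y))) := by
  apply hμ.stronglyMeasurable.mul
  have h1 : StronglyMeasurable (fun q : E2 × E2 => μ q.2 * inner ℝ (X q.1 - X q.2) (KK δ (q.1 - q.2))) := by
    have hK := measurable_KK δ
    have m1 : Measurable (fun q : E2 × E2 => X q.1 - X q.2) :=
      (by fun_prop : Continuous (fun q : E2 × E2 => X q.1 - X q.2)).measurable
    have m2 : Measurable (fun q : E2 × E2 => KK δ (q.1 - q.2)) :=
      hK.comp (by fun_prop : Continuous (fun q : E2 × E2 => q.1 - q.2)).measurable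
    have m3 : Measurable (fun q : E2 × E2 => μ q.2) :=
      (by fun_prop : Continuous (fun q : E2 × E2 => μ q.2)).measurable
    exact (m3.mul (m1.inner m2)).stronglyMeasurable
  exact h1.integral_prod_right'

lemma sym_limit {μ : E2 → ℝ} (hμ : Continuous μ) (hs : HasCompactSupport μ)
    {X : E2 → E2} (hX : Continuous X) {L : ℝ} (hL : 0 ≤ L) (hXL : ∀ x y, ‖X x - X y‖ ≤ L * ‖x - y‖) :
    Tendsto (fun c : ℝ => ∫ x, μ x * ∫ y, μ y * inner ℝ (X x - X y) (KK (1 / c) (x - y))) atTop
      (𝓝 (∫ x, μ x * ∫ y, μ y * inner ℝ (X x - X y) (KK 0 (x - y)))) := by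
  have iμ : Integrable μ := integrable_cc hμ hs
  have hin : ∀ c : ℝ, 0 < c → ∀ x, ‖∫ y, μ y * inner ℝ (X x - X y) (KK (1 / c) (x - y))‖ ≤ L * ∫ y, |μ y| := by
    intro c hc x
    rw [← integral_const_mul]
    apply norm_integral_le_of_norm_le (iμ.abs.const_mul _)
    refine Eventually.of_forall (fun y => ?_)
    rw [norm_mul, Real.norm_eq_abs, mul_comm]
    exact mul_le_mul_of_nonneg_right (HH_bound (by positivity) hL hXL x y) (abs_nonneg _)
  apply tendsto_integral_filter_of_dominated_convergence (fun x => |μ x| * (L * ∫ y, |μ y|))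
  · exact Eventually.of_forall (fun c => (sm_inner_int (1 / c) hμ hX).aestronglyMeasurable)
  · filter_upwards [eventually_gt_atTop 0] with c hc
    refine Eventually.of_forall (fun x => ?_)
    rw [norm_mul, Real.norm_eq_abs]
    exact mul_le_mul_of_nonneg_left (hin c hc x) (abs_nonneg _)
  · exact iμ.abs.mul_const _
  · refine Eventually.of_forall (fun x => ?_)
    apply Tendsto.const_mul
    apply tendsto_integral_filter_of_dominated_convergence (fun y => |μ y| * L)
    · refine Eventually.of_forall (fun c => ?_)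
      have hK := measurable_KK (1 / c)
      have m1 : Measurable (fun y : E2 => X x - X y) := (by fun_prop : Continuous (fun y : E2 => X x - X y)).measurable
      have m2 : Measurable (fun y : E2 => KK (1 / c) (x - y)) :=
        hK.comp (by fun_prop : Continuous (fun y : E2 => x - y)).measurable
      exact (hμ.measurable.mul (m1.inner m2)).aestronglyMeasurable
    · filter_upwards [eventually_gt_atTop 0] with c hc
      refine Eventually.of_forall (fun y => ?_)
      rw [norm_mul, Real.norm_eq_abs]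
      exact mul_le_mul_of_nonneg_left (HH_bound (by positivity) hL hXL x y) (abs_nonneg _)
    · exact iμ.abs.mul_const _
    · refine Eventually.of_forall (fun y => ?_)
      apply Tendsto.const_mul
      exact tendsto_const_nhds.inner (KK_tendsto (x - y))

lemma sym_value {μ : E2 → ℝ} (hμ : Continuous μ) (hs : HasCompactSupport μ) (h0 : ∀ x, 0 ≤ μ x)
    {X : E2 → E2} (hX : Continuous X) {L : ℝ} (hL : 0 ≤ L) (hXL : ∀ x y, ‖X x - X y‖ ≤ L * ‖x - y‖)
    {S : ℝ} (hXS : ∀ x ∈ ball (0 : E2) S, X x = x) :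
    |(∫ x, μ x * ∫ y, μ y * inner ℝ (X x - X y) (KK 0 (x - y))) - (∫ x in ball (0 : E2) S, μ x) ^ 2|
      ≤ 2 * L * (∫ x, μ x) * ((∫ x, μ x) - ∫ x in ball (0 : E2) S, μ x) := by
  have iμ : Integrable μ := integrable_cc hμ hs
  set M := ∫ x, μ x with hM
  set m := ∫ x in ball (0 : E2) S, μ x with hm
  have hm0 : 0 ≤ m := integral_nonneg (fun x => h0 x)
  have hcompl : ∫ x in (ball (0 : E2) S)ᶜ, μ x = M - m := by
    rw [hM, hm, ← integral_add_compl measurableSet_ball iμ]
    ring
  have hMm : 0 ≤ M - m := by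
    rw [← hcompl]
    exact integral_nonneg (fun x => h0 x)
  have hM0 : 0 ≤ M := by linarith
  set H : E2 → E2 → ℝ := fun x y => inner ℝ (X x - X y) (KK 0 (x - y)) with hH
  have hHb : ∀ x y, |H x y| ≤ L := fun x y => HH_bound le_rfl hL hXL x y
  have hHm : ∀ x, Measurable (H x) := by
    intro x
    have hK := measurable_KK 0
    have m1 : Measurable (fun y : E2 => X x - X y) := (by fun_prop : Continuous (fun y : E2 => X x - X y)).measurable
    have m2 : Measurable (fun y : E2 => KK 0 (x - y)) :=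
      hK.comp (by fun_prop : Continuous (fun y : E2 => x - y)).measurable
    exact m1.inner m2
  have iH : ∀ x, Integrable (fun y => μ y * H x y) := by
    intro x
    refine (iμ.mul_const L).mono' (hμ.measurable.mul (hHm x)).aestronglyMeasurable
      (Eventually.of_forall (fun y => ?_))
    rw [norm_mul, Real.norm_of_nonneg (h0 y)]
    exact mul_le_mul_of_nonneg_left (hHb x y) (h0 y)
  have b1 : ∀ x, |∫ y, μ y * H x y| ≤ L * M := by
    intro x
    rw [hM, ← integral_const_mul, ← Real.norm_eq_abs]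
    apply norm_integral_le_of_norm_le (iμ.const_mul _)
    refine Eventually.of_forall (fun y => ?_)
    rw [norm_mul, Real.norm_of_nonneg (h0 y), mul_comm]
    exact mul_le_mul_of_nonneg_right (hHb x y) (h0 y)
  have b2 : ∀ x ∈ ball (0 : E2) S, |(∫ y, μ y * H x y) - m| ≤ L * (M - m) := by
    intro x hx
    have e1 : ∫ y in ball (0 : E2) S, μ y * H x y = m := by
      rw [hm]
      have hne : ∀ᵐ y ∂(volume.restrict (ball (0 : E2) S)), y ≠ x := by
        apply ae_restrict_of_ae
        have : (volume : Measure E2) {x} = 0 := measure_singleton x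
        rw [ae_iff]
        simp
      refine integral_congr_ae ?_
      filter_upwards [ae_restrict_mem measurableSet_ball, hne] with y hy hyx
      have hz : 0 < ‖x - y‖ := norm_pos_iff.mpr (sub_ne_zero.mpr hyx.symm)
      simp only [hH]
      rw [hXS x hx, hXS y hy, KK, dn, inner_smul_right, real_inner_self_eq_norm_sq]
      field_simp
      ring
    rw [← integral_add_compl measurableSet_ball (iH x), e1, add_sub_cancel_left, ← hcompl,
      ← integral_const_mul, ← Real.norm_eq_abs]
    apply norm_integral_le_of_norm_le (iμ.integrableOn.const_mul _)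
    refine Eventually.of_forall (fun y => ?_)
    rw [norm_mul, Real.norm_of_nonneg (h0 y), mul_comm]
    exact mul_le_mul_of_nonneg_right (hHb x y) (h0 y)
  have iI : Integrable (fun x => μ x * ∫ y, μ y * H x y) := by
    refine (iμ.mul_const (L * M)).mono' (sm_inner_int 0 hμ hX).aestronglyMeasurable
      (Eventually.of_forall (fun x => ?_))
    rw [norm_mul, Real.norm_of_nonneg (h0 x)]
    exact mul_le_mul_of_nonneg_left (b1 x) (h0 x)
  have e2 : (∫ x, μ x * ∫ y, μ y * H x y) - m ^ 2
      = (∫ x in ball (0 : E2) S, μ x * ((∫ y, μ y * H x y) - m))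
        + ∫ x in (ball (0 : E2) S)ᶜ, μ x * ∫ y, μ y * H x y := by
    rw [← integral_add_compl measurableSet_ball iI]
    have e3 : ∫ x in ball (0 : E2) S, μ x * ((∫ y, μ y * H x y) - m)
        = (∫ x in ball (0 : E2) S, μ x * ∫ y, μ y * H x y) - m ^ 2 := by
      have : m ^ 2 = ∫ x in ball (0 : E2) S, μ x * m := by
        rw [integral_mul_const, ← hm]
        ring
      rw [this, ← integral_sub iI.integrableOn (iμ.integrableOn.mul_const _)]
      refine integral_congr_ae (Eventually.of_forall (fun x => ?_))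
      simp only
      ring
    rw [e3]
    ring
  rw [e2]
  have c1 : |∫ x in ball (0 : E2) S, μ x * ((∫ y, μ y * H x y) - m)| ≤ m * (L * (M - m)) := by
    rw [hm, ← integral_mul_const, ← Real.norm_eq_abs]
    apply norm_integral_le_of_norm_le (iμ.integrableOn.mul_const _)
    filter_upwards [ae_restrict_mem measurableSet_ball] with x hx
    rw [norm_mul, Real.norm_of_nonneg (h0 x)]
    exact mul_le_mul_of_nonneg_left (b2 x hx) (h0 x)
  have c2 : |∫ x in (ball (0 : E2) S)ᶜ, μ x * ∫ y, μ y * H x y| ≤ (M - m) * (L * M) := by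
    rw [← hcompl, ← integral_mul_const, ← Real.norm_eq_abs]
    apply norm_integral_le_of_norm_le (iμ.integrableOn.mul_const _)
    refine Eventually.of_forall (fun x => ?_)
    rw [norm_mul, Real.norm_of_nonneg (h0 x)]
    exact mul_le_mul_of_nonneg_left (b1 x) (h0 x)
  have c3 : m * (L * (M - m)) ≤ M * (L * (M - m)) :=
    mul_le_mul_of_nonneg_right (by linarith) (mul_nonneg hL hMm)
  calc |(∫ x in ball (0 : E2) S, μ x * ((∫ y, μ y * H x y) - m))
        + ∫ x in (ball (0 : E2) S)ᶜ, μ x * ∫ y, μ y * H x y| ≤ _ := abs_add_le _ _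
    _ ≤ M * (L * (M - m)) + (M - m) * (L * M) := add_le_add (c1.trans c3) c2
    _ = _ := by ring

/-- The cut off radial field. -/
noncomputable def XS (S : ℝ) (x : E2) : E2 := chi S x • x

lemma XS_lip {G : ℝ} (hG : ∀ M : ℝ, 0 < M → ∀ x, ‖gradient (chi M) x‖ ≤ G / M) {S : ℝ} (hS : 0 < S)
    (x y : E2) : ‖XS S x - XS S y‖ ≤ (1 + 2 * G) * ‖x - y‖ := by
  have hG0 : 0 ≤ G := by
    have := (norm_nonneg _).trans (hG 1 one_pos 0)
    simpa using this
  have hd : ∀ z, HasFDerivAt (XS S) (chi S z • ContinuousLinearMap.id ℝ E2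
      + (fderiv ℝ (chi S) z).smulRight z) z := by
    intro z
    have h1 : HasFDerivAt (chi S) (fderiv ℝ (chi S) z) z := (smooth_diff (chi_contDiff S) z).hasFDerivAt
    exact h1.smul (hasFDerivAt_id z)
  have := Convex.norm_image_sub_le_of_norm_hasFDerivWithin_le (f := XS S) (s := univ) (x := y) (y := x)
    (C := 1 + 2 * G) (fun z _ => (hd z).hasFDerivWithinAt) (fun z _ => ?_) convex_univ (mem_univ _) (mem_univ _)
  · exact this
  · refine (norm_add_le _ _).trans ?_
    apply add_le_add
    · rw [norm_smul, Real.norm_of_nonneg (chi_nonneg S z)]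
      calc chi S z * ‖ContinuousLinearMap.id ℝ E2‖ ≤ 1 * 1 :=
            mul_le_mul (chi_le_one S z) ContinuousLinearMap.norm_id_le (norm_nonneg _) zero_le_one
        _ = 1 := one_mul 1
    · rw [ContinuousLinearMap.norm_smulRight_apply, ← norm_grad]
      by_cases hz : z ∈ ann S
      · calc ‖gradient (chi S) z‖ * ‖z‖ ≤ (G / S) * (2 * S) :=
              mul_le_mul (hG S hS z) hz.2.le (norm_nonneg _) (by positivity)
          _ = 2 * G := by field_simp
      · rw [grad_chi_zero hS hz, norm_zero, zero_mul]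
        positivity

end Pool.Agent.Helper41.PS
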